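import Pool.Agent.CRR.St

/-!
Campaign CRR, assembly of the classification from the module statements.
-/

namespace Pool.Agent.CRR

open Finset IsLocalRing

theorem asm_forward (h1 : St_primary) (h2 : St_nil_or_unit) (h3 : St_nil_mul3)
    (h4 : St_nil_onegen) (h5 : St_nil_classify) (h6 : St_local) (h7 : St_inM_unit)
    (h8 : St_unit_fwd) (n : ℕ) (hn : 4 ≤ n) (R : Type) [NonUnitalCommRing R] [Finite R]
    (hcard : (Nat.card R).Coprime 6) (hc : Critical R) (hM : InM n R) :
    NilType R ∨ UnitalType n R := by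
  rcases h2 n hn R hc hM with hnil | ⟨e, he0, he⟩
  · left
    have := critical_nontrivial hc
    obtain ⟨p, k, hp, _, hk⟩ := h1 R hc
    have hxyz := h3 R hcard hnil
    exact h5 R p k hp hk hxyz (h4 R hc hcard hxyz) (critical_ideals hc)
  · right
    let K : CommRing R :=
      { (inferInstance : NonUnitalCommRing R) with
        one := e
        one_mul := he
        mul_one := fun r => (mul_comm r e).trans (he r) }
    have hloc : @IsLocalRing R K.toCommSemiring.toSemiring := h6 n hn R hc hM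
    obtain ⟨a1, a2, a3⟩ := (h7 n hn R hcard).1 hM
    exact ⟨R, K, hloc, ⟨RingEquiv.refl R⟩, a1, h8 R hc hcard a1, a2, a3⟩

theorem asm_backward (h7 : St_inM_unit) (h9 : St_nil_bwd) (h10 : St_unit_bwd)
    (n : ℕ) (hn : 4 ≤ n) (R : Type) [NonUnitalCommRing R] [Finite R]
    (hcard : (Nat.card R).Coprime 6) (h : NilType R ∨ UnitalType n R) :
    Critical R ∧ InM n R := by
  rcases h with h | ⟨K, _, _, ⟨e⟩, a1, a2, a3, a4⟩
  · exact ⟨(h9 R h).1, (h9 R h).2 n hn⟩
  · have hfin : Finite K := Finite.of_equiv R e.toEquiv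
    have hcardK : (Nat.card K).Coprime 6 := by
      rwa [← Nat.card_congr e.toEquiv]
    exact ⟨(h10 K hcardK a1 a2).congr e.symm, ((h7 n hn K hcardK).2 ⟨a1, a3, a4⟩).congr e.symm⟩

end Pool.Agent.CRR
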