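import Pool.Agent.CRR.Defs2

/-!
Campaign CRR, part 2 (MP_1bb14d_al): ALL commutative critical rings of the varieties x^3 = x^n.
Module statements with complete paper proofs.  Each module `Pool/Agent/CRR/<File>.lean` imports
this file and proves `theorem <name> (hypotheses named in the docstring) : St2_<name>`.
Own lemmas `private` or with names starting with the name of the module.
`Pool/Agent/CRR/Basic.lean` has the facts on terms, factors and critical rings.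
Write `J` for the maximal ideal.  Numerically checked on thousands of small rings (p = 2, 3, 5).
-/

namespace Pool.Agent.CRR

open Finset IsLocalRing

/-- N1 (Poly.lean, `theorem poly : St2_poly`).  Proof: by recursion on a term `t` define
`P t : MvPolynomial ℕ W` (`var i ↦ C (w i) + X i`, sums, negatives, products); then
`t.eval (w + j) = eval₂ W.subtype j (P t)`.  Use `P s - P t`, its support and coefficients
(`MvPolynomial.eval₂_eq`). -/
def St2_poly : Prop :=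
  ∀ (K : Type) [CommRing K] (W : Subring K) (w : ℕ → K), (∀ i, w i ∈ W) → ∀ s t : RTerm,
    ∃ (S : Finset (ℕ →₀ ℕ)) (c : (ℕ →₀ ℕ) → K), (∀ β, c β ∈ W) ∧
      ∀ j : ℕ → K, s.eval (fun i => w i + j i) - t.eval (fun i => w i + j i) = pval S c j

/-- N2 (ExtOdd.lean, `theorem extodd : St2_extodd`).  Proof: write `G j = pval S c j`.
(1) One variable: let `S' ⊆ S`, `G' j = pval S' c j ∈ N` for all `j` with values in `T`, `i : ℕ`,
`e ≤ 2`, `S'' = {β ∈ S' : β i = e}`; then `pval S'' c j ∈ N`.  Let `A_e` be this value; for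
`e ≥ 3` it is 0 (`j_i^3 = 0`).  Replacing `j_i` by `0, j_i, -j_i` gives `A_0`, `A_0 + A_1 + A_2`,
`A_0 - A_1 + A_2 ∈ N`, so `2 A_2 ∈ N`, `A_2 ∈ N` (`A_2 ∈ J`), `A_1 ∈ N`.
(2) By induction over the finitely many variables: for `α ∈ S` with all `α i ≤ 2` one has
`c α * α.prod (j^) ∈ N` for all `j` with values in `T`.
(3) Polarise: for an index `i` with `α i = 2` replace `j_i` by `y`, `y'`, `y + y'`:
`2 c (...) y y' ∈ N`, so `c (...) y y' ∈ N`; after all of them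
`c α * z_0 ... z_(k-1) ∈ N` for all `z` with values in `T`, `k = |α|`.
(4) Choose `α`: `G j ≠ 0` gives `α ∈ S` with `c α * α.prod (j^) ≠ 0`, so `α i ≤ 2` for all `i`
(`j_i^3 = 0`); `d = c α`, `k = |α|`, and `z` lists the `j_i` with multiplicities. -/
def St2_extodd : Prop :=
  ∀ (K : Type) [CommRing K] (J : Ideal K) (W : Subring K), Cube J →
    ∀ (S : Finset (ℕ →₀ ℕ)) (c : (ℕ →₀ ℕ) → K), (∀ β, c β ∈ W) →
    (∃ j : ℕ → K, (∀ i, j i ∈ J) ∧ pval S c j ≠ 0) →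
    ∃ d ∈ W, ∃ k : ℕ, (∃ z : ℕ → K, (∀ i, z i ∈ J) ∧ Frm d 0 k z ≠ 0) ∧
      ∀ N T : AddSubgroup K, (∀ x ∈ T, x ∈ J) → (∀ x ∈ J, 2 * x ∈ N → x ∈ N) →
        (∀ j : ℕ → K, (∀ i, j i ∈ T) → pval S c j ∈ N) →
        ∀ z : ℕ → K, (∀ i, z i ∈ T) → Frm d 0 k z ∈ N

/-- N3 (ExtTwo.lean, `theorem exttwo : St2_exttwo`).  Proof: for a finite set `A` of variables let
`G_A j = ∑ c_β j^β` over the `β ∈ S` with support `A`.  `G = ∑ G_A`.  If `G j ∈ N` for all `j` with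
values in `T`, then `G_A j ∈ N` for all `A` (strong induction on `|A|`: put `j_i = 0` outside `A`:
`∑_{B ⊆ A} G_B j ∈ N`).  Choose `A` with `G_A j ≠ 0` for some `j` in `J`, `k = |A|`.
For `j` with values in `J`: monomials with an exponent `≥ 3` vanish; if `k ≥ 3` those with an
exponent 2 vanish (`x^2 y z = 0`); if `k = 2` the exponents (2,2) vanish (`x^2 y^2 = 0`) and (2,1),
(1,2) give the same value `x^2 y = x y^2`; `k = 1`: exponents 1 and 2.  So, if `z` lists the `j_i`,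
`i ∈ A` (`A.orderEmbOfFin`), `G_A j = Frm d d' k z`, `d = c_(1_A)` (0 if `1_A ∉ S`),
`d' = ∑_{i ∈ A} c_(1_A + e_i)` (over those in `S`; `d' = 0` if `k ≥ 3` or `k = 0`). -/
def St2_exttwo : Prop :=
  ∀ (K : Type) [CommRing K] (J : Ideal K) (W : Subring K), Cube J →
    (∀ x ∈ J, ∀ y ∈ J, x ^ 2 * y = x * y ^ 2) →
    (∀ x ∈ J, ∀ y ∈ J, ∀ z ∈ J, x ^ 2 * y * z = 0) →
    ∀ (S : Finset (ℕ →₀ ℕ)) (c : (ℕ →₀ ℕ) → K), (∀ β, c β ∈ W) →
    (∃ j : ℕ → K, (∀ i, j i ∈ J) ∧ pval S c j ≠ 0) →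
    ∃ d ∈ W, ∃ d' ∈ W, ∃ k : ℕ, (∃ z : ℕ → K, (∀ i, z i ∈ J) ∧ Frm d d' k z ≠ 0) ∧
      ∀ N T : AddSubgroup K, (∀ x ∈ T, x ∈ J) →
        (∀ j : ℕ → K, (∀ i, j i ∈ T) → pval S c j ∈ N) →
        ∀ z : ℕ → K, (∀ i, z i ∈ T) → Frm d d' k z ∈ N

/-- N4 (Two2.lean, `theorem two : St2_two`).  Proof: an element `u` of `J` with `3 u = 0` is 0
(`2^s u = 0`).  `(x+y)^3 = 0`: `x^2 y + x y^2 = 0`; replace `x` by `x + z`: `2 x z y = 0`; so
`x^2 y = - x y^2 = x y^2`.  Then `x^2 y^2 = x^2 y y = x y^2 y = 0`, and with `x z` (in `J`)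
instead of `x`: `x z y^2 = (x z)^2 y = (x^2 z^2) y = 0`. -/
def St2_two : Prop :=
  ∀ (K : Type) [CommRing K] (J : Ideal K) (s : ℕ), Cube J → (∀ x ∈ J, (2 : K) ^ s * x = 0) →
    (∀ x ∈ J, ∀ y ∈ J, ∀ z ∈ J, 2 * x * y * z = 0) ∧
    (∀ x ∈ J, ∀ y ∈ J, x ^ 2 * y = x * y ^ 2) ∧
    (∀ x ∈ J, ∀ y ∈ J, ∀ z ∈ J, x ^ 2 * y * z = 0)

/-- N5 (DetU.lean, `theorem det (hpoly : St2_poly) (hodd : St2_extodd) (htwo : St2_exttwo)
(h2 : St2_two) : St2_det`).  Proof: `critical_exists` gives terms `s, t` which agree in all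
factors of smaller cardinality, and `v` with `s.eval v ≠ t.eval v`; `v i = w i + j i`, `w i ∈ WK K`,
`j i ∈ J`.  `hpoly` (with `W = WK K`, this `w`): `S, c`, and `pval S c j ≠ 0`.
`p ≠ 2`: `hodd` (`2` is a unit of `K`); `p = 2`: `htwo`, its hypotheses by `h2` (`s = 3`, as
`2 ∈ J`).  `lst`: `T = J`, `N = I`: `s, t` agree in the quotient by `I` (`exists_quotient`,
`quotient_card_lt`), so `pval S c j ∈ I`.  `sub`: `T = J ∩ S'`, `N = ⊥`: for `j` in `T` the values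
`w i + j i` are in `S'`, a proper subring (`subring_card_lt`). -/
def St2_det : Prop :=
  ∀ (K : Type) [CommRing K] [IsLocalRing K] (p : ℕ), p.Prime → Critical K →
    (p : K) ∈ maximalIdeal K → Cube (maximalIdeal K) →
    (∀ x : K, ∃ w ∈ WK K, x - w ∈ maximalIdeal K) →
    ∃ d ∈ WK K, ∃ d' ∈ WK K, ∃ k : ℕ, (p ≠ 2 → d' = 0) ∧
      Det K (maximalIdeal K) (WK K) d d' k

/-- N6 (DetN.lean, `theorem detN (hpoly : St2_poly) (hodd : St2_extodd) (htwo : St2_exttwo)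
(h2 : St2_two) : St2_detN`).  Proof: `K = Unitization ℤ R`, `J` = the ideal of the elements with
`fst = 0` (all are `inr r`, cube 0), `W = ⊥` (the integers), `w = 0`.  `critical_exists`, `eval_map`
for `Unitization.inrNonUnitalRingHom ℤ R` and `hpoly`: `S, c`, `pval S c (inr ∘ v) =
inr (s.eval v - t.eval v)`.  `p ≠ 2`: `hodd`, otherwise `htwo` and `h2` (`s = e`, every element of
`R` is killed by its cardinality).  `k = 0` is impossible (`T = N = ⊥`: `pval S c 0 = 0`, but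
`Frm d d' 0 z = d` is not 0).  So `k = k' + 1`, `d = m`, `d' = m'` are integers (elements of `⊥`),
and `Frm d d' (k'+1) (inr ∘ z) = inr (FrmN m m' k' z)`.  `lst`: `T` = all of `inr R`, `N = inr I`
(if `p ≠ 2`: `2 r ∈ I` implies `r ∈ I`, as `R` has odd cardinality).  `sub`: `T = inr S`,
`N = ⊥`. -/
def St2_detN : Prop :=
  ∀ (R : Type) [NonUnitalCommRing R] (p e : ℕ), p.Prime → Critical R → Nat.card R = p ^ e →
    (∀ x : R, x * x * x = 0) → ∃ (d d' : ℤ) (k : ℕ), (p ≠ 2 → d' = 0) ∧ DetN R d d' k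

/-- N7 (Teich2.lean, `theorem teich2 : St2_teich`).  Proof: `q = p^m` is the order of the residue
field (`p` is its characteristic), `|J|` is a power of `p` (`K` is a finite local ring, `p ∈ J` is
nilpotent, so `K` is a `ZMod (p^s)`-module).  Take `L` with `|J| ∣ q^L` and `|K| ≤ q^L`.  Elements
of `J` are nilpotent, with `x^|K| = 0`.  If `x - y ∈ J` and `x` is a unit: `x = y (1 + j)`,
`(1+j)^|J| = 1` (`1 + J` is a group with `|J|` elements).  (Or: `x ≡ y` mod `J^i` implies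
`x^p ≡ y^p` mod `J^(i+1)`.)  `x^q - x ∈ J`, hence the last two claims. -/
def St2_teich : Prop :=
  ∀ (K : Type) [CommRing K] [IsLocalRing K] [Finite K] (p : ℕ), p.Prime →
    (p : K) ∈ maximalIdeal K → ∃ m L : ℕ, 1 ≤ m ∧ 1 ≤ L ∧
      Nat.card (ResidueField K) = p ^ m ∧
      (∀ x y : K, x - y ∈ maximalIdeal K → x ^ ((p ^ m) ^ L) = y ^ ((p ^ m) ^ L)) ∧
      (∀ x ∈ maximalIdeal K, x ^ ((p ^ m) ^ L) = 0) ∧
      (∀ x : K, x ^ ((p ^ m) ^ L) - x ∈ maximalIdeal K) ∧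
      (∀ x : K, (x ^ ((p ^ m) ^ L)) ^ (p ^ m) = x ^ ((p ^ m) ^ L))

/-- N8 (Wk.lean, `theorem wk (ht : St2_teich) : St2_wk`).  Proof: (1) `w = x^(q^L)`.
(2) The set `{x : x^q = x}` is closed under products, so `WK K` is its additive closure.  For
`a ∈ WK K`: `a^q - a ∈ p WK` (additive closure induction; in the ring `WK / p WK` the map
`x ↦ x^q` is additive; `(-b)^q + b = -(b^q - b)` or `(b^q - b) + 2 b`).  So `a^(q^L) - a ∈ p WK`,
and `a^(q^L) = 0` for `a ∈ J`.  (See also `WRing.lean`, `WRing_frob`.)  (3) If `d ∉ J` then `d` is a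
unit.  If `d ∈ J`, `d = p d₁`, and so on; `p` is nilpotent. -/
def St2_wk : Prop :=
  ∀ (K : Type) [CommRing K] [IsLocalRing K] [Finite K] (p : ℕ), p.Prime →
    (p : K) ∈ maximalIdeal K →
    (∀ x : K, ∃ w ∈ WK K, x - w ∈ maximalIdeal K) ∧
    (∀ d ∈ WK K, d ∈ maximalIdeal K → ∃ d₁ ∈ WK K, d = p * d₁) ∧
    (∀ d ∈ WK K, d = 0 ∨ ∃ (a : ℕ) (u : K), u ∈ WK K ∧ IsUnit u ∧ d = (p : K) ^ a * u)

/-- N9 (Soc.lean, `theorem soc : St2_soc`).  Proof: if `v z ≠ 0` with `z ∈ J`, then `v ∈ (v z)`,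
`v = r v z`, `v (1 - r z) = 0`, `1 - r z` is a unit: contradiction.  If `x ≠ 0` is killed by `J`:
`v ∈ (x)`, `v = r x`, `r ∉ J`, so `x = r⁻¹ v ∈ I`. -/
def St2_soc : Prop :=
  ∀ (K : Type) [CommRing K] [IsLocalRing K] (v : K), v ≠ 0 →
    (∀ I : Ideal K, I ≠ ⊥ → v ∈ I) →
    (∀ z ∈ maximalIdeal K, v * z = 0) ∧
    ∀ x : K, (∀ z ∈ maximalIdeal K, x * z = 0) → ∀ I : Ideal K, I ≠ ⊥ → x ∈ I

/-- N10 (SocN.lean, `theorem socN : St2_socN`).  Proof: (a) let `u = r v ≠ 0`; the ideal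
`{m u + s u : m ∈ ℤ, s ∈ R}` contains `v`: `v = (m r + s r) v = t v` with `t ∈ R`, so
`v = t^n v = 0` by nilpotency.  (b) If `p v ≠ 0`: `ℤ p v` is an ideal by (a), `v = m p v`,
`(1 - m p) v = 0`, `p^e v = 0`, `v = 0`.  (c) `x ≠ 0`: `ℤ x` is an ideal, `v = m x`, `p` does not
divide `m`, so `x` is a multiple of `v`. -/
def St2_socN : Prop :=
  ∀ (R : Type) [NonUnitalCommRing R] (p e c : ℕ) (v : R), p.Prime →
    (∀ x : R, (p ^ e) • x = 0) → (∀ x : ℕ → R, prd x c = 0) → v ≠ 0 →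
    (∀ I : AddSubgroup R, IsIdl R I → I ≠ ⊥ → v ∈ I) →
    (∀ r, r * v = 0) ∧ p • v = 0 ∧ ∀ x : R, (∀ r, r * x = 0) → p • x = 0 →
      ∀ I : AddSubgroup R, IsIdl R I → I ≠ ⊥ → x ∈ I

/-- N11 (Pow2.lean, `theorem pow2 : St2_pow`).  Proof: induction on `b` for all `c`
(`J^(b+1) = J^b J`, `Ideal.span_singleton_mul_le_iff`, `Ideal.mul_le`, `Submodule.pow_induction_on`
...). -/
def St2_pow : Prop :=
  ∀ (K : Type) [CommRing K] (J I : Ideal K) (c : K) (b : ℕ),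
    (∀ z : ℕ → K, (∀ i, z i ∈ J) → c * ∏ i ∈ range b, z i ∈ I) ↔
      Ideal.span {c} * J ^ b ≤ I

/-- N12 (Pair2.lean, `theorem pair2 : St2_pair`).  Proof: induction `b → b + 2`, all `c`
(`b = 0, 1`: take `y 0 = z 0`).  `c z_b z_(b+1) ∏_{i<b} z_i ≠ 0`; by induction
(`c z_b z_(b+1)`) there is `y` with `c z_b z_(b+1) ∏_{i<b} y_(i/2) ≠ 0`.  With
`c' = c ∏_{i<b} y_(i/2)`: `c' z_b z_(b+1) ≠ 0`, so `c' v^2 ≠ 0` for `v = z_b`, `z_(b+1)` or
`z_b + z_(b+1)` (otherwise `2 c' z_b z_(b+1) = 0`).  Take `y' 0 = v`, `y' (i+1) = y i`. -/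
def St2_pair : Prop :=
  ∀ (K : Type) [CommRing K] (J : Ideal K) (c : K) (b : ℕ), (∀ x ∈ J, 2 * x = 0 → x = 0) →
    (∃ z : ℕ → K, (∀ i, z i ∈ J) ∧ c * ∏ i ∈ range b, z i ≠ 0) →
    ∃ y : ℕ → K, (∀ i, y i ∈ J) ∧ c * ∏ i ∈ range b, y (i / 2) ≠ 0

/-- N13 (Gen2.lean, `theorem gen2 : St2_gen`).  Proof: the set of all `w + i`, `w ∈ WK K`,
`i ∈ span Y`, is a subring which contains `WK K` and `Y`, so it is everything.  If `x ∈ J`,
`x = w + i`: `i ∈ J`, so `w ∈ J`, `w = p d₁`. -/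
def St2_gen : Prop :=
  ∀ (K : Type) [CommRing K] [IsLocalRing K] (p : ℕ) (Y : Set K), (p : K) ∈ maximalIdeal K →
    (∀ d ∈ WK K, d ∈ maximalIdeal K → ∃ d₁ ∈ WK K, d = p * d₁) →
    Y ⊆ (maximalIdeal K : Set K) → Subring.closure ((WK K : Set K) ∪ Y) = ⊤ →
    maximalIdeal K = Ideal.span ({(p : K)} ∪ Y)

/-- N14 (Fwd2.lean, `theorem fwd2 (hwk : St2_wk) (hpow : St2_pow) (hpair : St2_pair)
(hgen : St2_gen) : St2_fwd`).  Proof: `Frm d 0 k z = d ∏_{i<k} z_i`.  `d ≠ 0`, `d = p^a₀ u`, `u` a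
unit.  Let `l ≤ k` be maximal such that `p^(a₀+l) ∏_{i<k-l} z_i ≠ 0` for some `z` in `J`; `a = a₀+l`,
`b = k - l`.  (1) not `⊥`: `hpow` with `I = ⊥`.  (2) least: `hpow`; `p^a ∏_{i<b} z_i` is a unit times
`Frm d 0 k z'`, `z' = (z_0, ..., z_(b-1), p, ..., p)`, in `I` by `lst`.  (3) maximality of `l`.
(4) (*) if `z` has values in `Y ⊆ J` and `p^a ∏_{i<b} z_i ≠ 0`, then the closure of `WK ∪ Y` is `⊤`
(otherwise `sub` for `z'`), and `hgen` applies.  `p ≠ 2`: `hpair` (2 is a unit) gives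
`z_i = y_(i/2)`, `Y = {y_0, ..., y_(g-1)}`, `g = (b+1)/2`.  `p = 2` and `E`: `z_i = x_(i-1)` (so
`z = x_0, x_0, x_1, ...`), `Y = {x_0, ..., x_(b-2)}`.  Otherwise any `z`, `Y = {z_0, ..., z_(b-1)}`.
(If `b = 0` then `Y = ∅`.) -/
def St2_fwd : Prop :=
  ∀ (K : Type) [CommRing K] [IsLocalRing K] [Finite K] (p : ℕ), p.Prime →
    (p : K) ∈ maximalIdeal K → ∀ d ∈ WK K, ∀ k : ℕ, Det K (maximalIdeal K) (WK K) d 0 k →
    LocType K

/-- N15 (FwdN.lean, `theorem fwdN (hpair : St2_pair) : St2_fwdN`).  Proof: `d = p^a u`, `p` does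
not divide `u` (`d ≠ 0`); `u u' ≡ 1` modulo `p^e`, so `p^a x = u' (d x)` for all `x ∈ R`.  So
`p^a prd z k` is not 0 for some `z`, always in every nonzero ideal, and 0 for `z` in a proper
subring.  `pwr R p a k` is not `⊥` and contained in every nonzero ideal (`AddSubgroup.closure_le`).
Generators: if `z` has values in a set `Y` and `p^a prd z k ≠ 0`, the closure of `Y` is `⊤`.
`p ≠ 2`: `hpair` for `Unitization ℤ R`, the ideal of the elements `inr r`, `c = p^a`, `b = k + 1`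
(`∏_{i<k+1} inr (z i) = inr (prd z k)`): `z_i = y_(i/2)`, `g = (k+2)/2`.  `p = 2` and `E`:
`z_i = x_(i-1)`, `prd z k = x_0 prd x (k-1)`, `g = k`.  Otherwise any `z`, `g = k+1`. -/
def St2_fwdN : Prop :=
  ∀ (R : Type) [NonUnitalCommRing R] [Finite R] (p e : ℕ), p.Prime → Nat.card R = p ^ e →
    (∃ c, ∀ x : ℕ → R, prd x c = 0) → ∀ (d : ℤ) (k : ℕ), DetN R d 0 k → NilpType R

/-- N16 (Dim2.lean, `theorem dim2 : St2_dim`).  Proof: `Rad = J^2 + pK`, `V = J / Rad`, a vector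
space over the residue field `F`, generated by the `g` images of the `y i`, so of dimension
`≤ g`.  The image `V'` of `J ∩ S` in `V` is a subspace (the scalars come from `WK K ≤ S`).
If `V' = V` then `S = ⊤`: `K = WK + J`, `p K ⊆ WK + J^2` and `J ⊆ (J ∩ S) + Rad ⊆ S + J^2`; so
`J^n ⊆ S + J^(n+1)` for all `n ≥ 1` (products of elements of `J ∩ S + J^2`), and `J` is
nilpotent, so `J ⊆ S`.  So `dim V' ≤ g - 1`: take `e i` whose images span `V'` (0 if there are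
fewer).  (If `g = 0`: `J = pK`, nothing to show.) -/
def St2_dim : Prop :=
  ∀ (K : Type) [CommRing K] [IsLocalRing K] [Finite K] (p g : ℕ) (y : Fin g → K)
    (S : Subring K), maximalIdeal K = Ideal.span ({(p : K)} ∪ Set.range y) →
    (∀ x : K, ∃ w ∈ WK K, x - w ∈ maximalIdeal K) → WK K ≤ S → S ≠ ⊤ →
    ∃ e : Fin (g - 1) → K, (∀ i, e i ∈ maximalIdeal K ∧ e i ∈ S) ∧
      ∀ z ∈ maximalIdeal K, z ∈ S → ∃ c : Fin (g - 1) → K,
        z - ∑ i, c i * e i ∈ maximalIdeal K ^ 2 ⊔ Ideal.span {(p : K)}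

/-- N17 (DimN.lean, `theorem dimN : St2_dimN`).  Proof: `Rad = R^2 + pR`, `V = R / Rad`, a vector
space over `ZMod p`, spanned by the images of the `y i` (the closure of `range y` is contained in
`∑ ℤ y_i + Rad`), so `dim V ≤ g`.  Let `V'` be the image of `S`.  If `V' = V`: `R = S + R^2 + p R`, so
`R = S + R^n + p R` for all `n` (products of elements of `S + R^2 + pR`), `R = S + p R` (`R` is
nilpotent), `R = S + p^n R = S`.  So `dim V' ≤ g - 1`. -/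
def St2_dimN : Prop :=
  ∀ (R : Type) [NonUnitalCommRing R] [Finite R] (p e g : ℕ) (y : Fin g → R)
    (S : NonUnitalSubring R), p.Prime → (∀ x : R, (p ^ e) • x = 0) →
    (∃ c, ∀ x : ℕ → R, prd x c = 0) → NonUnitalSubring.closure (Set.range y) = ⊤ → S ≠ ⊤ →
    ∃ u : Fin (g - 1) → R, (∀ i, u i ∈ S) ∧ ∀ z ∈ S, ∃ c : Fin (g - 1) → ℤ,
      z - ∑ i, c i • u i ∈
        AddSubgroup.closure ({x | ∃ a b : R, x = a * b} ∪ {x | ∃ a : R, x = p • a})

/-- N18 (Prod2.lean, `theorem prod2 : St2_prod`).  Proof: `s_i = ∑_l c_(i l) e_l`.  Replace `z_i` by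
`s_i` for one `i < b` after the other: the difference is `A` times a product with a factor in `Rad`
and the others in `J`, 0.  Then `∏_{i<b} s_i` is a sum of terms (coefficient) `∏_{i<b} e_(κ i)`
(`Finset.prod_univ_sum`), each killed by `A` (extend `κ` to `ℕ`, `b ≥ 1`). -/
def St2_prod : Prop :=
  ∀ (K : Type) [CommRing K] (J : Ideal K) (Rad : AddSubgroup K) (A : K) (b m : ℕ)
    (e : Fin m → K), 1 ≤ b → (∀ l, e l ∈ J) →
    (∀ z : ℕ → K, (∀ i, z i ∈ J) → (∃ i, i < b ∧ z i ∈ Rad) →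
      A * ∏ i ∈ range b, z i = 0) →
    (∀ κ : ℕ → Fin m, A * ∏ i ∈ range b, e (κ i) = 0) →
    ∀ z : ℕ → K, (∀ i, z i ∈ J ∧ ∃ c : Fin m → K, z i - ∑ l, c l * e l ∈ Rad) →
      A * ∏ i ∈ range b, z i = 0

/-- N19 (Kap2.lean, `theorem kap2 : St2_kap`).  Proof: `∏_{i<b} e (κ i) = ∏_l e_l^(n_l)`,
`n_l = #{i < b : κ i = l}`, `∑ n_l = b`.  First case: some `n_l ≥ 3`.  Second case: some
`n_l ≥ 3` or two different `n_l, n_l' ≥ 2` (otherwise `b ≤ m + 1`).  Third case: `m ≥ 1` as `κ`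
exists, so `b ≥ 2`; some `n_l ≥ 2`: the product is `x_0 ∏_{i<b-1} x_i` with `x_0 = e_l` and
`x_1, ..., x_(b-2)` the remaining factors (move `l` to the front). -/
def St2_kap : Prop :=
  ∀ (K : Type) [CommRing K] (J : Ideal K) (A : K) (b m : ℕ) (e : Fin m → K), Cube J →
    (∀ l, e l ∈ J) →
    (2 * m < b ∨ (m + 2 ≤ b ∧ ∀ x ∈ J, ∀ y ∈ J, x ^ 2 * y ^ 2 = 0) ∨
      (m + 1 ≤ b ∧ (2 ≤ b → ∀ x : ℕ → K, (∀ i, x i ∈ J) →
        A * (x 0 * ∏ i ∈ range (b - 1), x i) = 0))) →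
    ∀ κ : ℕ → Fin m, A * ∏ i ∈ range b, e (κ i) = 0

/-- N20 (Van2.lean, `theorem van2 (hwk : St2_wk) (hpow : St2_pow) (hsoc : St2_soc)
(hdim : St2_dim) (hprod : St2_prod) (hkap : St2_kap) (h2 : St2_two) : St2_van`).  Proof: take
`p, a, b, y` from `LocType`; `p ∈ J`.  `Frm (p^a) 0 b z = p^a ∏_{i<b} z_i`.  `ne`, `lst`: `hpow`.
`sub`: let `WK ≤ S ≠ ⊤`.  `b = 0`: `g = 0`, `J = pK`, `K = WK + pK = WK + p WK + p^2 K = ... = WK`
(`p` is nilpotent), so `S = ⊤`, contradiction.  `b ≥ 1`: `hprod` with `m = g - 1`, `e` from `hdim`,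
`Rad = J^2 + pK`, `A = p^a`.  Condition on `Rad`: if `z_i = j + p r`, `j ∈ J^2`: the `j` part
is a sum of terms (value of the form) times (element of `J`), 0 by `hsoc` (first part), the
`p r` part is 0 as `p^(a+1) J^(b-1) = 0`.  Condition on `κ`: `hkap`: first case if `p ≠ 2`
(`2 ((b+1)/2 - 1) < b`); if `p = 2`: `E` holds: `m = b - 2`, second case (`x^2 y^2 = 0` by `h2`,
`s = 3`); `E` fails: `m = b - 1`, third case. -/
def St2_van : Prop :=
  ∀ (K : Type) [CommRing K] [IsLocalRing K] [Finite K], Cube (maximalIdeal K) → LocType K →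
    ∃ p a b : ℕ, p.Prime ∧ (p : K) ∈ maximalIdeal K ∧
      Det K (maximalIdeal K) (WK K) ((p : K) ^ a) 0 b

/-- N21 (VanN.lean, `theorem vanN (hsocN : St2_socN) (hdimN : St2_dimN) (hprod : St2_prod)
(hkap : St2_kap) (h2 : St2_two) : St2_vanN`).  Proof: as N20.  `ne`: `pwr ≠ ⊥`
(`AddSubgroup.closure_eq_bot_iff` or closure induction); `lst`: `subset_closure`.  `sub`: let
`S ≠ ⊤`; work in `K = Unitization ℤ R`, `J` = the ideal of the elements `inr r`, `b = k + 1`,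
`∏_{i<k+1} inr (z i) = inr (prd z k)`, `e = inr ∘ u`, `u` from `hdimN` (integers as coefficients),
`Rad = inr (R^2 + pR)`, `A = p^a`.  Condition on `Rad`: `p^a (product of k+2 elements of R) = 0`
and `p^(a+1) (product of k+1) = 0` by `hsocN` (a), (b) for the values of the form.  Condition on
`κ`: `hkap`, as in N20 (`h2` with `s = e`). -/
def St2_vanN : Prop :=
  ∀ (R : Type) [NonUnitalCommRing R] [Finite R], (∀ x : R, x * x * x = 0) → NilpType R →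
    ∃ (p a k : ℕ), p.Prime ∧ DetN R ((p : ℤ) ^ a) 0 k

/-- N22 (Crit2.lean, `theorem crit2 (ht : St2_teich) : St2_crit`).  Proof (compare `UnitBwd.lean`):
`q = p^m`, `Q = q^L`.  Terms `τ x = x^Q`, `ν y = y - y^Q` (`ν y ∈ J` always, `ν y = y` for `y ∈ J`),
`δ x = τ x * ∏_{0 < i < q-1} ((τ x)^i - (τ x)^(q-1))` (for `q = 2`: `δ x = τ x`).  `δ x` is a unit
if the residue of `x` generates the unit group of the residue field and 0 otherwise.  The identity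
is `δ(x_0) * Frm d d' k (ν x_1, ..., ν x_k) = 0` (a term: for `k = 0` it is `d δ(x_0)`; multiply
`δ(x_0)` by the `ν x_i` one after the other; integer multiples are repeated sums).  It fails in `K`
(`ne`, and the unit group of the residue field is cyclic).  Let `F = f(S)` be a factor in which
it fails at `f v`, `v : ℕ → S`: `δ(v_0) ≠ 0`, so `τ v_0 ∈ S` generates `{x ≠ 0 : x^q = x}`
(congruent elements of this set are equal), `1 ∈ S` and `WK ≤ S`.  `z_i = ν v_(i+1) ∈ J ∩ S` and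
`Frm d d' k z ≠ 0`, so `S = ⊤` by `sub`.  The kernel of `f` is an ideal which does not contain
`Frm d d' k z`, so it is `⊥` by `lst`, and `F` is isomorphic to `K`.  `critical_of_exists`. -/
def St2_crit : Prop :=
  ∀ (K : Type) [CommRing K] [IsLocalRing K] [Finite K] (p : ℕ), p.Prime →
    (p : K) ∈ maximalIdeal K → ∀ (d d' : ℤ) (k : ℕ),
    Det K (maximalIdeal K) (WK K) (d : K) (d' : K) k → Critical K

/-- N23 (CritN.lean, `theorem critN : St2_critN`).  Proof: the identity `FrmN d d' k x = 0` (a term)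
fails in `R`.  If it fails in a factor `f(S)` at `f z`, then `FrmN z ≠ 0`, so `S = ⊤`, and the
kernel of `f` is an ideal which does not contain `FrmN z`, so `f` is injective and the factor is
isomorphic to `R`.  `critical_of_exists`. -/
def St2_critN : Prop :=
  ∀ (R : Type) [NonUnitalCommRing R] [Finite R] (d d' : ℤ) (k : ℕ), DetN R d d' k → Critical R

/-- N24 (Exc2.lean, `theorem exc2 : St2_exc`).  Proof: `8 = 2 y^2 = (2 y) y = 0`.  The 16 elements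
`a + b y`, `0 ≤ a < 8`, `b ∈ {0,1}` are different (`1` has additive order 8; `y = a` would give
`2 a = 0`, `4 ∣ a`, `y^2 = a^2 = 0 ≠ 4`), so these are all elements.  `(2a + b y)^3 = 0`
(`(2a + b y)^2 = 4 a^2 + 4 b^2`), so `K` is local, `J = {2 a + b y}`.  `Frm 2 1 1 z = 2 z + z^2`; for
`z = 2 a + b y` it is `4 a + 4 a^2 + 4 b^2 = 4 b` (`b ∈ {0,1}`).  `ne`: `z = y`.  `lst`: every nonzero
ideal contains 4: let `x ≠ 0` be in it; `x` a unit: clear; `x = 2 a + y`: `x y = 4`; `x = 2 a`: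
`x = 4` or `2 x = 4`.  `sub`: if `z = 2 a + y ∈ S` then `y ∈ S`, `S = ⊤`; so `b = 0`. -/
def St2_exc : Prop :=
  ∀ (K : Type) [CommRing K] [Finite K], ExcType K → ∃ _ : IsLocalRing K,
    (2 : K) ∈ maximalIdeal K ∧
      Det K (maximalIdeal K) (WK K) (((2 : ℤ)) : K) (((1 : ℤ)) : K) 1

/-- N25 (RedA.lean, `theorem redA (hsoc : St2_soc) (h2 : St2_two) : St2_redA`).  Proof: it is enough
that the two forms have the same values for `z` in `J`.  `k = 0`: by definition.  `k ≥ 3`: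
`z_0 (z_0 z_1 z_2 ...) = 0` by `h2` (third part).  `k = 2`: a value `v = d x y + d' x^2 y` satisfies
`v z = 0` for `z ∈ J` (`hsoc`, if `v ≠ 0`), `x^2 y z = 0`, so `d x y z = 0`, `x y z = 0` for all
`x, y, z ∈ J`, in particular `x^2 y = 0`. -/
def St2_redA : Prop :=
  ∀ (K : Type) [CommRing K] [IsLocalRing K] [Finite K], (2 : K) ∈ maximalIdeal K →
    Cube (maximalIdeal K) → ∀ (d d' : K) (k : ℕ), Det K (maximalIdeal K) (WK K) d d' k →
    k ≠ 1 → (k = 2 → IsUnit d) → Det K (maximalIdeal K) (WK K) d 0 k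

/-- N26 (RedB.lean, `theorem redB (hwk : St2_wk) (hsoc : St2_soc) (hgen : St2_gen)
(hdim : St2_dim) (h2 : St2_two) : St2_redB`).  Proof: `h2` (`s = 3`): `2xyz = 0`, `x^2 y = x y^2`,
`x^2 y z = 0` on `J`; in particular `8 = 0`, `4 y = 2 y^2`.  `d = 2 d₁` with `d₁ ∈ WK` (`hwk`).
If `d' x^2 y = 0` for all `x, y ∈ J`, the form is `Frm d 0 2` on `J`: done.  Otherwise `d'` is a unit
(if `d' ∈ J`, `d' = 2 d''` and `2 x^2 y = 0`) and `x₀^2 y₀ ≠ 0` for some `x₀, y₀ ∈ J`.  Claim: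
`Det` for `Frm 1 0 3`.  Let `v = Frm d d' 2 (y₁, y₂) ≠ 0`.  By `sub` the closure of
`WK ∪ {y₁, y₂}` is `⊤`, by `hgen` `J = (2, y₁, y₂)`.  Products of four elements of `J` are 0:
write the factors as `2 a + b y₁ + c y₂`; `2 x y z = 0`, `y_i^3 = 0`, `y₁^2 y₂^2 = 0`.  `ne`:
`x₀ x₀ y₀`.  `lst`: `x y z` is killed by `J`, `hsoc`.  `sub`: `hdim` with `g = 2`: `e ∈ J ∩ S`, each
`z ∈ J ∩ S` is `c e + 2 s + r`, `r ∈ J^2`.  The form `Frm d d' 2` vanishes at `(e, e)`: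
`d e^2 = 0`, and at `(2, e)`: `2 d e + 4 d' e = 0`; `d e^2 = 2 d₁ e^2 = 4 d₁ e = 2 d e`, so
`4 d' e = 0`, `4 e = 0`, `2 e^2 = 0`.  The product of three elements `c e + 2 s + r` is 0: `e^3`,
`2 e^2`, `4 e`, `8` and products of four elements are 0. -/
def St2_redB : Prop :=
  ∀ (K : Type) [CommRing K] [IsLocalRing K] [Finite K], (2 : K) ∈ maximalIdeal K →
    Cube (maximalIdeal K) → ∀ d ∈ WK K, ∀ d' ∈ WK K,
    Det K (maximalIdeal K) (WK K) d d' 2 → ¬ IsUnit d →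
    ∃ d₁ ∈ WK K, ∃ k₁ : ℕ, Det K (maximalIdeal K) (WK K) d₁ 0 k₁

/-- N27 (RedC.lean, `theorem redC (hwk : St2_wk) (hsoc : St2_soc) (hgen : St2_gen)
(hdim : St2_dim) (h2 : St2_two) : St2_redC`).  Proof: `h2` as in N26.  `v = d y + d' y^2 ≠ 0` for some
`y ∈ J`; by `sub` and `hgen` `J = (2, y)`.  Products of four elements of `J` are 0.  For a proper
`S ≥ WK` every `z ∈ J ∩ S` is `2 s + r`, `r ∈ J^2` (`hdim`, `g = 1`).
Case 1, `x₁ x₂ x₃ ≠ 0` for some: `Det` for `Frm 1 0 3` (`lst` by `hsoc`; `sub`: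
`(2s+r)(2s'+r')(2s''+r'') = 8 s s' s'' = 0`).
Case 2, `J^3 = 0`, some `x₁ x₂ ≠ 0`.  2a, `4 = 0`: `Frm 1 0 2` (`sub`: `4 s s' = 0`).
2b, `4 ≠ 0`, `WK = ⊤`: `Frm 4 0 0` (`4 J ⊆ J^3 = 0`, `hsoc`; `sub` is empty).
2c, `4 ≠ 0`, `WK ≠ ⊤`: the form vanishes at `2 w`, `w ∈ WK` (`sub` for `S = WK`):
`2 d w + 4 d' w^2 = 0`.  `d` is not a unit (`w = 1`: `2 (d + 2 d') = 0`), so `d = 2 d₁`,
`4 (d₁ w + d' w^2) = 0`, `d₁ w + d' w^2 ∈ J` for all `w ∈ WK` (`4 ≠ 0`).  `w = 1`: `d₁ + d' ∈ J`; `d'`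
is a unit (otherwise `d₁, d' ∈ J` and `v ∈ J^3`); so `d' w (w - 1) ∈ J` and `w ∈ J` or `w - 1 ∈ J` for
all `w ∈ WK`, hence for all elements of `K`.  `J^2` is killed by `J`, so by `hsoc` it is contained
in `4K = {0, 4}`.  `v = 2 y + y^2` (`d₁, d'` are in `1 + J`, `J^3 = 0`), `2 y, y^2 ∈ {0, 4}`, `8 = 0`, so
`2 y = 0, y^2 = 4`, or `2 y = 4, y^2 = 0` and `y' = y + 2` has `2 y' = 0`, `y'^2 = 4`.
`J = {0, 2, y', 2 + y'} + {0, 4}` has 8 elements (`2 ∉ {0,4}`, `y' ∉ {0,4}`, `y' ± 2 ∉ {0, 4}` as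
`2 y' = 0`, `y'^2 = 4 ≠ 0`), and `K = J ∪ (1 + J)` has 16: `ExcType`.
Case 3, `J^2 = 0`.  `v = d y ≠ 0`.  `2 = 0`: `Frm 1 0 1` (`lst` by `hsoc`; `sub`: `z = 2 s + r = 0`).
`2 ≠ 0`: `y ∈ (2)` by `hsoc`, `J = 2K`, `K = WK + 2K = WK + 2 WK + 4 K = ... = WK`; `Frm 2 0 0`. -/
def St2_redC : Prop :=
  ∀ (K : Type) [CommRing K] [IsLocalRing K] [Finite K], (2 : K) ∈ maximalIdeal K →
    Cube (maximalIdeal K) → ∀ d ∈ WK K, ∀ d' ∈ WK K,
    Det K (maximalIdeal K) (WK K) d d' 1 →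
    ExcType K ∨ ∃ d₁ ∈ WK K, ∃ k₁ : ℕ, Det K (maximalIdeal K) (WK K) d₁ 0 k₁

/-- N28 (RedN.lean, `theorem redN (hsocN : St2_socN) (hdimN : St2_dimN) (h2 : St2_two) :
St2_redN`).  Proof: `h2` in `Unitization ℤ R` (ideal of the elements `inr r`, `s = e`) gives
`2xyz = 0`, `x^2 y = x y^2`, `x^2 y z = 0` in `R`.
`k ≥ 2`: `z_0 prd z k = z_0^2 z_1 z_2 ... = 0`: `FrmN d 0 k`.
`k = 1`: `d xy + d' x^2 y`.  If `d' x^2 y = 0` for all `x, y`: `FrmN d 0 1`.  If `d` is odd: values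
are killed by `R` (`hsocN` (a)), so `d x y r = 0`, `x y r = 0`, `x^2 y = 0`: as before.  Otherwise `d` is
even, `d'` odd (`2 x^2 y = 0`), some `x₀^2 y₀ ≠ 0`.  Claim `DetN` for `FrmN 1 0 2`.  Some value at
`(y₁, y₂)` is not 0, so the closure of `{y₁, y₂}` is `⊤` (`sub`).  Products of four elements are 0:
every element is `a y₁ + b y₂` modulo `R^2` (sums of products), fourfold products of `y₁, y₂` are 0,
so a product of four elements is a sum of products of five, and so on (nilpotency).  `ne`: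
`x₀ x₀ y₀`; `lst`: `x y z` is killed by `R` and by 2: `hsocN` (c); `sub`: `hdimN` with `g = 2`: elements of
`S` are `c u + r`, `r ∈ R^2 + 2R`; `u^3 = 0`, the other terms of the product of three vanish.
`k = 0`: `d x + d' x^2`; the closure of some `{y}` is `⊤`, so `R = {m y + n y^2}` and products of
three elements are 0.  If `y^2 ≠ 0`: `a` maximal with `2^a y^2 ≠ 0`: `FrmN (2^a) 0 1` (`lst`:
`hsocN` (c); `sub`: `hdimN` with `g = 1`: elements of `S` are in `R^2 + 2R`, `2^a (2r)(2r') = 0`).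
If `y^2 = 0`: `R^2 = 0`, `a` maximal with `2^a y ≠ 0`, `FrmN (2^a) 0 0` (`sub`: `S ⊆ 2R`). -/
def St2_redN : Prop :=
  ∀ (R : Type) [NonUnitalCommRing R] [Finite R] (e : ℕ), Nat.card R = 2 ^ e →
    (∃ c, ∀ x : ℕ → R, prd x c = 0) → (∀ x : R, x * x * x = 0) →
    ∀ (d d' : ℤ) (k : ℕ), DetN R d d' k → ∃ (d₁ : ℤ) (k₁ : ℕ), DetN R d₁ 0 k₁

/-- N29 (Nilp2.lean, `theorem nilp2 : St2_nilp`).  Proof: (1) `c = 2 |R|`: among `x_0, ..., x_c`
some value `u` occurs three times; in `Unitization ℤ R`, `∏_{i<c+1} inr (x i) = inr (prd x c)` has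
the factor `inr u ^ 3 = inr (u u u) = 0`.  (2) `pw x 2 = pw x (n-1)` gives `pw x (2 + i (n-3)) = pw x 2`
for all `i` by induction; `pw x c = prd (fun _ => x) c = 0` and all later ones are 0.
(3) `pw_eq_pow`: `x^3 = x^n`, `x^3 (1 - x^(n-3)) = 0` and `1 - x^(n-3)` is a unit for `x ∈ J`. -/
def St2_nilp : Prop :=
  (∀ (R : Type) [NonUnitalCommRing R] [Finite R], (∀ x : R, x * x * x = 0) →
    ∃ c, ∀ x : ℕ → R, prd x c = 0) ∧
  (∀ (n : ℕ), 4 ≤ n → ∀ (R : Type) [NonUnitalCommRing R], InM n R →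
    (∃ c, ∀ x : ℕ → R, prd x c = 0) → ∀ x : R, x * x * x = 0) ∧
  (∀ (n : ℕ), 4 ≤ n → ∀ (K : Type) [CommRing K] [IsLocalRing K], InM n K →
    Cube (maximalIdeal K))

end Pool.Agent.CRR
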