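import Pool.Agent.CRR.St
import Pool.Agent.CRR.St2

/-!
Campaign CRR, part 2: assembly of the classification of all commutative critical rings.
-/

namespace Pool.Agent.CRR

open Finset IsLocalRing

theorem asm2_loc (hwk : St2_wk) (hdet : St2_det) (hfwd : St2_fwd) (hA : St2_redA)
    (hB : St2_redB) (hC : St2_redC) (K : Type) [CommRing K] [IsLocalRing K] (p : ℕ)
    (hp : p.Prime) (hpJ : (p : K) ∈ maximalIdeal K) (hc : Critical K)
    (hcube : Cube (maximalIdeal K)) : LocType K ∨ ExcType K := by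
  have hfin := hc.1
  obtain ⟨w1, -, -⟩ := hwk K p hp hpJ
  obtain ⟨d, hd, d', hd', k, hpd, hD⟩ := hdet K p hp hc hpJ hcube w1
  by_cases h2 : p = 2
  · subst h2
    have h2J : (2 : K) ∈ maximalIdeal K := by simpa using hpJ
    by_cases hk : k = 1
    · subst hk
      rcases hC K h2J hcube d hd d' hd' hD with h | ⟨d₁, hd₁, k₁, h⟩
      · exact Or.inr h
      · exact Or.inl (hfwd K 2 hp hpJ d₁ hd₁ k₁ h)
    · by_cases hk2 : k = 2 ∧ ¬ IsUnit d
      · obtain ⟨rfl, hu⟩ := hk2
        obtain ⟨d₁, hd₁, k₁, h⟩ := hB K h2J hcube d hd d' hd' hD hu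
        exact Or.inl (hfwd K 2 hp hpJ d₁ hd₁ k₁ h)
      · have hk3 : k = 2 → IsUnit d := by
          intro h
          by_contra hu
          exact hk2 ⟨h, hu⟩
        exact Or.inl (hfwd K 2 hp hpJ d hd k (hA K h2J hcube d d' k hD hk hk3))
  · have h0 := hpd h2
    subst h0
    exact Or.inl (hfwd K p hp hpJ d hd k hD)

theorem asm2_forward (h1 : St_primary) (hNU : St_nil_or_unit) (hL : St_local) (hwk : St2_wk)
    (hdet : St2_det) (hfwd : St2_fwd) (hA : St2_redA) (hB : St2_redB) (hC : St2_redC)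
    (hdetN : St2_detN) (hfwdN : St2_fwdN) (hN : St2_redN) (hnil : St2_nilp) (n : ℕ)
    (hn : 4 ≤ n) (R : Type) [NonUnitalCommRing R] (hc : Critical R) (hM : InM n R) :
    CritType R := by
  have hfin := hc.1
  obtain ⟨p, e, hp, he, hcard⟩ := h1 R hc
  rcases hNU n hn R hc hM with hcube | ⟨u, hu0, hu⟩
  · left
    have hnilp := hnil.1 R hcube
    obtain ⟨d, d', k, hpd, hD⟩ := hdetN R p e hp hc hcard hcube
    by_cases h2 : p = 2
    · subst h2
      obtain ⟨d₁, k₁, h⟩ := hN R e hcard hnilp hcube d d' k hD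
      exact hfwdN R 2 e hp hcard hnilp d₁ k₁ h
    · have h0 := hpd h2
      subst h0
      exact hfwdN R p e hp hcard hnilp d k hD
  · right
    let K : CommRing R :=
      { (inferInstance : NonUnitalCommRing R) with
        one := u
        one_mul := hu
        mul_one := fun r => (mul_comm r u).trans (hu r) }
    have hloc : @IsLocalRing R K.toCommSemiring.toSemiring := hL n hn R hc hM
    have hcube : Cube (maximalIdeal R) := hnil.2.2 n hn R hM
    have hpJ : (p : R) ∈ maximalIdeal R := by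
      rw [mem_maximalIdeal, mem_nonunits_iff]
      intro hun
      have h3 : (p : R) ^ e = 0 := by
        have h4 : ((Nat.card R : ℕ) : R) = 0 := by
          have h5 : Nat.card R • (1 : R) = 0 := card_nsmul_eq_zero'
          rw [nsmul_eq_mul, mul_one] at h5
          exact h5
        rw [hcard] at h4
        push_cast at h4
        exact h4
      have h6 : IsUnit ((p : R) ^ e) := hun.pow e
      rw [h3] at h6
      exact not_isUnit_zero h6
    rcases asm2_loc hwk hdet hfwd hA hB hC R p hp hpJ hc hcube with h | h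
    · exact ⟨R, K, ⟨RingEquiv.refl R⟩, Or.inl ⟨hloc, h⟩⟩
    · exact ⟨R, K, ⟨RingEquiv.refl R⟩, Or.inr h⟩

theorem asm2_backward (hvan : St2_van) (hvanN : St2_vanN) (hcrit : St2_crit)
    (hcritN : St2_critN) (hexc : St2_exc) (hnil : St2_nilp) (n : ℕ) (hn : 4 ≤ n) (R : Type)
    [NonUnitalCommRing R] [Finite R] (hM : InM n R) (h : CritType R) : Critical R := by
  rcases h with h | ⟨K, _, ⟨e⟩, h⟩
  · have hnilp : ∃ c, ∀ x : ℕ → R, prd x c = 0 := by
      obtain ⟨p, a, k, -, -, hc, -⟩ := h
      exact hc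
    have hcube := hnil.2.1 n hn R hM hnilp
    obtain ⟨p, a, k, -, hD⟩ := hvanN R hcube h
    exact hcritN R _ _ _ hD
  · have hfin : Finite K := Finite.of_equiv R e.toEquiv
    rcases h with ⟨hloc, h⟩ | h
    · have hMK : InM n K := hM.congr e
      have hcube := hnil.2.2 n hn K hMK
      obtain ⟨p, a, b, hp, hpJ, hD⟩ := hvan K hcube h
      have hD' : Det K (maximalIdeal K) (WK K) (((p : ℤ) ^ a : ℤ) : K) ((0 : ℤ) : K) b := by
        push_cast
        exact hD
      exact (hcrit K p hp hpJ _ _ _ hD').congr e.symm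
    · obtain ⟨hloc, h2J, hD⟩ := hexc K h
      have h2J' : ((2 : ℕ) : K) ∈ maximalIdeal K := by simpa using h2J
      exact (hcrit K 2 Nat.prime_two h2J' _ _ _ hD).congr e.symm

end Pool.Agent.CRR
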