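import Pool.Agent.CRR.Defs

/-!
Campaign CRR, basic facts on terms, factors and critical rings.
-/

namespace Pool.Agent.CRR

theorem eval_map {A B : Type} [NonUnitalRing A] [NonUnitalRing B] (f : A →ₙ+* B) (v : ℕ → A)
    (t : RTerm) : f (t.eval v) = t.eval (fun i => f (v i)) := by
  induction t with
  | var i => rfl
  | add s t hs ht => simp [RTerm.eval, hs, ht]
  | neg s hs => simp [RTerm.eval, hs]
  | mul s t hs ht => simp [RTerm.eval, hs, ht]

theorem eval_coe {A : Type} [NonUnitalRing A] (S : NonUnitalSubring A) (v : ℕ → S) (t : RTerm) :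
    ((t.eval v : S) : A) = t.eval (fun i => (v i : A)) := by
  induction t with
  | var i => rfl
  | add s t hs ht => simp [RTerm.eval, hs, ht]
  | neg s hs => simp [RTerm.eval, hs]
  | mul s t hs ht => simp [RTerm.eval, hs, ht]

theorem holds_subring_iff {A : Type} [NonUnitalRing A] (S : NonUnitalSubring A) (s t : RTerm) :
    Holds S s t ↔ ∀ v : ℕ → A, (∀ i, v i ∈ S) → s.eval v = t.eval v := by
  constructor
  · intro h v hv
    have h1 := congrArg (Subtype.val) (h (fun i => ⟨v i, hv i⟩))
    rwa [eval_coe, eval_coe] at h1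
  · intro h v
    apply Subtype.ext
    rw [eval_coe, eval_coe]
    exact h _ (fun i => (v i).2)

theorem isFactor_subring {R : Type} [NonUnitalRing R] (S : NonUnitalSubring R) : IsFactor R S :=
  ⟨S, NonUnitalRingHom.id S, fun x => ⟨x, rfl⟩⟩

theorem isFactor_image {R F : Type} [NonUnitalRing R] [NonUnitalRing F] (f : R →ₙ+* F)
    (hf : Function.Surjective f) : IsFactor R F := by
  refine ⟨⊤, f.comp (NonUnitalSubringClass.subtype (⊤ : NonUnitalSubring R)), ?_⟩
  intro y
  obtain ⟨x, hx⟩ := hf y
  exact ⟨⟨x, NonUnitalSubring.mem_top x⟩, hx⟩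

theorem IsFactor.finite {R F : Type} [NonUnitalRing R] [NonUnitalRing F] [Finite R]
    (h : IsFactor R F) : Finite F := by
  obtain ⟨S, f, hf⟩ := h
  exact Finite.of_surjective f hf

theorem IsFactor.card_dvd {R F : Type} [NonUnitalRing R] [NonUnitalRing F] [Finite R]
    (h : IsFactor R F) : Nat.card F ∣ Nat.card R := by
  obtain ⟨S, f, hf⟩ := h
  have h1 : Nat.card F ∣ Nat.card S :=
    AddSubgroup.card_dvd_of_surjective (f : S →+ F) hf
  have h2 : Nat.card S ∣ Nat.card R := AddSubgroup.card_addSubgroup_dvd_card S.toAddSubgroup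
  exact h1.trans h2

theorem IsFactor.card_lt {R F : Type} [NonUnitalRing R] [NonUnitalRing F] [Finite R]
    (h : IsFactor R F) (hne : IsEmpty (F ≃+* R)) : Nat.card F < Nat.card R := by
  obtain ⟨S, f, hf⟩ := h
  have h1 : Nat.card F ≤ Nat.card S := Nat.card_le_card_of_surjective f hf
  have h2 : Nat.card S ≤ Nat.card R :=
    Nat.card_le_card_of_injective (Subtype.val : S → R) Subtype.val_injective
  rcases lt_or_eq_of_le (h1.trans h2) with h3 | h3
  · exact h3
  · exfalso
    have h4 : Nat.card S = Nat.card R := le_antisymm h2 (h3 ▸ h1)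
    have h5 : Nat.card S = Nat.card F := le_antisymm (h3.symm ▸ h2) h1
    have hfb : Function.Bijective f := by
      have : Finite F := Finite.of_surjective f hf
      exact (Nat.bijective_iff_surjective_and_card f).2 ⟨hf, h5⟩
    have hvb : Function.Bijective (Subtype.val : S → R) :=
      (Nat.bijective_iff_injective_and_card _).2 ⟨Subtype.val_injective, h4⟩
    let e1 : S ≃+* F := RingEquiv.ofBijective f hfb
    let e2 : S ≃+* R := RingEquiv.ofBijective (NonUnitalSubringClass.subtype S) hvb
    exact hne.false (e1.symm.trans e2)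

/-- An identity which holds in all factors of smaller cardinality holds in all proper factors. -/
theorem critical_exists {R : Type} [NonUnitalRing R] (hc : Critical R) :
    ∃ s t : RTerm, (∀ (F : Type) [NonUnitalRing F], IsFactor R F → Nat.card F < Nat.card R →
      Holds F s t) ∧ ¬ Holds R s t := by
  obtain ⟨hfin, hc⟩ := hc
  unfold InProperVariety at hc
  push Not at hc
  obtain ⟨s, t, h1, h2⟩ := hc
  refine ⟨s, t, ?_, h2⟩
  intro F _ hF hlt
  refine h1 F hF ⟨fun e => ?_⟩
  rw [Nat.card_congr e.toEquiv] at hlt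
  exact lt_irrefl _ hlt

theorem critical_of_exists {R : Type} [NonUnitalRing R] [Finite R] (s t : RTerm)
    (h : ∀ (F : Type) [NonUnitalRing F], IsFactor R F → IsEmpty (F ≃+* R) → Holds F s t)
    (hR : ¬ Holds R s t) : Critical R :=
  ⟨inferInstance, fun hv => hR (hv s t h)⟩

theorem subring_card_lt {R : Type} [NonUnitalRing R] [Finite R] (S : NonUnitalSubring R)
    (hS : S ≠ ⊤) : Nat.card S < Nat.card R := by
  have h2 : Nat.card S ≤ Nat.card R :=
    Nat.card_le_card_of_injective (Subtype.val : S → R) Subtype.val_injective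
  rcases lt_or_eq_of_le h2 with h3 | h3
  · exact h3
  · exfalso
    have hvb : Function.Bijective (Subtype.val : S → R) :=
      (Nat.bijective_iff_injective_and_card _).2 ⟨Subtype.val_injective, h3⟩
    apply hS
    rw [eq_top_iff]
    intro x _
    obtain ⟨y, hy⟩ := hvb.2 x
    rw [← hy]
    exact y.2

/-- A critical ring is not detected by a family of proper subrings. -/
theorem critical_subrings {R : Type} [NonUnitalRing R] (hc : Critical R)
    (P : NonUnitalSubring R → Prop) (hP : ∀ S, P S → S ≠ ⊤)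
    (h : ∀ s t : RTerm, (∀ S, P S → ∀ v : ℕ → R, (∀ i, v i ∈ S) → s.eval v = t.eval v) →
      Holds R s t) : False := by
  have hfin := hc.1
  obtain ⟨s, t, h1, h2⟩ := critical_exists hc
  apply h2
  apply h s t
  intro S hS
  rw [← holds_subring_iff]
  exact h1 S (isFactor_subring S) (subring_card_lt S (hP S hS))

/-- The quotient of a commutative ring by an ideal (given as an additive subgroup). -/
theorem exists_quotient {R : Type} [NonUnitalCommRing R] (I : AddSubgroup R)
    (hI : ∀ r : R, ∀ i ∈ I, r * i ∈ I) :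
    ∃ (F : Type) (_ : NonUnitalCommRing F) (f : R →ₙ+* F), Function.Surjective f ∧
      ∀ x, f x = 0 ↔ x ∈ I := by
  let T : TwoSidedIdeal R := TwoSidedIdeal.mk' (I : Set R) I.zero_mem
    (fun hx hy => I.add_mem hx hy) (fun hx => I.neg_mem hx) (fun {x y} hy => hI x y hy)
    (fun {x y} hx => by
      have := hI y x hx
      rwa [mul_comm] at this)
  let f : R →ₙ+* T.ringCon.Quotient :=
    { toFun := fun x => (x : T.ringCon.Quotient)
      map_mul' := fun _ _ => rfl
      map_zero' := rfl
      map_add' := fun _ _ => rfl }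
  refine ⟨T.ringCon.Quotient, inferInstance, f, ?_, ?_⟩
  · intro y
    obtain ⟨x, hx⟩ := Quotient.exists_rep y
    exact ⟨x, hx⟩
  · intro x
    have h0 : f x = ((0 : R) : T.ringCon.Quotient) ↔ T.ringCon x 0 := RingCon.eq _
    have h1 : ((0 : R) : T.ringCon.Quotient) = 0 := rfl
    rw [h1] at h0
    rw [h0, TwoSidedIdeal.rel_iff, sub_zero]
    exact TwoSidedIdeal.mem_mk' _ _ _ _ _ _ _

theorem quotient_card_lt {R F : Type} [NonUnitalCommRing R] [NonUnitalCommRing F] [Finite R]
    (f : R →ₙ+* F) (hf : Function.Surjective f) (I : AddSubgroup R) (hI : ∀ x, f x = 0 ↔ x ∈ I)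
    (hne : I ≠ ⊥) : Nat.card F < Nat.card R := by
  have h1 : Nat.card F ≤ Nat.card R := Nat.card_le_card_of_surjective f hf
  rcases lt_or_eq_of_le h1 with h3 | h3
  · exact h3
  · exfalso
    have hfb : Function.Bijective f := by
      have : Finite F := Finite.of_surjective f hf
      exact (Nat.bijective_iff_surjective_and_card f).2 ⟨hf, h3.symm⟩
    apply hne
    rw [eq_bot_iff]
    intro x hx
    have : f x = f 0 := by rw [(hI x).2 hx, map_zero]
    exact hfb.1 this

/-- A critical commutative ring is subdirectly irreducible. -/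
theorem critical_ideals {R : Type} [NonUnitalCommRing R] (hc : Critical R) (I J : AddSubgroup R)
    (hI : ∀ r : R, ∀ i ∈ I, r * i ∈ I) (hJ : ∀ r : R, ∀ i ∈ J, r * i ∈ J)
    (hIJ : I ⊓ J = ⊥) : I = ⊥ ∨ J = ⊥ := by
  by_contra hcon
  push Not at hcon
  obtain ⟨hI0, hJ0⟩ := hcon
  have hfin := hc.1
  obtain ⟨s, t, h1, h2⟩ := critical_exists hc
  obtain ⟨F1, _, f1, hf1, hk1⟩ := exists_quotient I hI
  obtain ⟨F2, _, f2, hf2, hk2⟩ := exists_quotient J hJ
  have e1 := h1 F1 (isFactor_image f1 hf1) (quotient_card_lt f1 hf1 I hk1 hI0)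
  have e2 := h1 F2 (isFactor_image f2 hf2) (quotient_card_lt f2 hf2 J hk2 hJ0)
  apply h2
  intro v
  have m1 : s.eval v - t.eval v ∈ I := by
    rw [← hk1, map_sub, eval_map, eval_map, e1, sub_self]
  have m2 : s.eval v - t.eval v ∈ J := by
    rw [← hk2, map_sub, eval_map, eval_map, e2, sub_self]
  have m3 : s.eval v - t.eval v ∈ I ⊓ J := ⟨m1, m2⟩
  rw [hIJ, AddSubgroup.mem_bot] at m3
  exact sub_eq_zero.1 m3

theorem critical_nontrivial {R : Type} [NonUnitalRing R] (hc : Critical R) : Nontrivial R := by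
  by_contra h
  rw [not_nontrivial_iff_subsingleton] at h
  apply hc.2
  intro s t _ v
  exact Subsingleton.elim _ _

theorem IsFactor.trans_equiv {R K F : Type} [NonUnitalRing R] [NonUnitalRing K]
    [NonUnitalRing F] (e : R ≃+* K) (h : IsFactor K F) : IsFactor R F := by
  obtain ⟨S, f, hf⟩ := h
  refine ⟨S.comap (e : R →ₙ+* K), f.comp
    { toFun := fun x => ⟨e x.1, x.2⟩
      map_mul' := fun x y => by ext; simp
      map_zero' := by ext; simp
      map_add' := fun x y => by ext; simp }, ?_⟩
  intro y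
  obtain ⟨x, hx⟩ := hf y
  refine ⟨⟨e.symm x, ?_⟩, ?_⟩
  · show e (e.symm x) ∈ S
    simp
  · rw [← hx]
    exact congrArg f (Subtype.ext (e.apply_symm_apply x.1))

theorem Holds.congr {R K : Type} [NonUnitalRing R] [NonUnitalRing K] (e : R ≃+* K)
    {s t : RTerm} (h : Holds R s t) : Holds K s t := by
  intro v
  have h1 := congrArg e (h (fun i => e.symm (v i)))
  have h2 : ∀ u : RTerm, e (u.eval (fun i => e.symm (v i))) = u.eval v := by
    intro u
    have := eval_map (e : R →ₙ+* K) (fun i => e.symm (v i)) u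
    simpa using this
  rwa [h2, h2] at h1

theorem Critical.congr {R K : Type} [NonUnitalRing R] [NonUnitalRing K] (e : R ≃+* K)
    (h : Critical R) : Critical K := by
  have hfin := h.1
  refine ⟨Finite.of_equiv R e.toEquiv, fun hK => h.2 ?_⟩
  intro s t hst
  apply Holds.congr e.symm
  apply hK s t
  intro F _ hF hne
  exact hst F (hF.trans_equiv e) ⟨fun e' => hne.false (e'.trans e)⟩

theorem pw_map {R K : Type} [NonUnitalRing R] [NonUnitalRing K] (f : R →ₙ+* K) (x : R) (k : ℕ) :
    f (pw x k) = pw (f x) k := by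
  induction k with
  | zero => rfl
  | succ k ih => simp [pw, ih]

theorem InM.congr {R K : Type} [NonUnitalRing R] [NonUnitalRing K] (e : R ≃+* K) {n : ℕ}
    (h : InM n R) : InM n K := by
  intro x
  have h1 := congrArg (e : R →ₙ+* K) (h (e.symm x))
  rw [pw_map, pw_map] at h1
  simpa using h1

theorem pw_eq_pow {K : Type} [CommRing K] (x : K) (k : ℕ) : pw x k = x ^ (k + 1) := by
  induction k with
  | zero => simp [pw]
  | succ k ih => rw [pw, ih, ← pow_succ]

end Pool.Agent.CRR
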