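import Pool.Agent.CRR.St

/-!
Campaign CRR, M15: the rings with identity of the list are critical (helper25).
-/

namespace Pool.Agent.CRR

open Finset IsLocalRing

/-! ## Terms -/

def UBpow (s : RTerm) : ℕ → RTerm
  | 0 => s
  | k + 1 => .mul (UBpow s k) s

theorem UBpow_eval {K : Type} [CommRing K] (v : ℕ → K) (s : RTerm) (k : ℕ) :
    (UBpow s k).eval v = (s.eval v) ^ (k + 1) := by
  induction k with
  | zero => simp [UBpow]
  | succ k ih => rw [UBpow, RTerm.eval, ih, ← pow_succ]

def UBsub (s t : RTerm) : RTerm := .add s (.neg t)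

theorem UBsub_eval {K : Type} [CommRing K] (v : ℕ → K) (s t : RTerm) :
    (UBsub s t).eval v = s.eval v - t.eval v := by
  rw [UBsub, RTerm.eval, RTerm.eval, sub_eq_add_neg]

def UBns (s : RTerm) : ℕ → RTerm
  | 0 => s
  | k + 1 => .add (UBns s k) s

theorem UBns_eval {K : Type} [CommRing K] (v : ℕ → K) (s : RTerm) (k : ℕ) :
    (UBns s k).eval v = ((k + 1 : ℕ) : K) * s.eval v := by
  induction k with
  | zero => simp [UBns]
  | succ k ih =>
    rw [UBns, RTerm.eval, ih]
    push_cast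
    ring

def UBprod (s : RTerm) (g : ℕ → RTerm) : ℕ → RTerm
  | 0 => s
  | k + 1 => .mul (UBprod s g k) (g k)

theorem UBprod_eval {K : Type} [CommRing K] (v : ℕ → K) (s : RTerm) (g : ℕ → RTerm) (k : ℕ) :
    (UBprod s g k).eval v = s.eval v * ∏ i ∈ range k, (g i).eval v := by
  induction k with
  | zero => simp [UBprod]
  | succ k ih => rw [UBprod, RTerm.eval, ih, prod_range_succ, mul_assoc]

/-- `x^(q^2)` -/
def UBtau (q : ℕ) (s : RTerm) : RTerm := UBpow s (q ^ 2 - 1)

theorem UBtau_eval {K : Type} [CommRing K] {q : ℕ} (hq : 5 ≤ q) (v : ℕ → K) (s : RTerm) :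
    (UBtau q s).eval v = (s.eval v) ^ (q ^ 2) := by
  rw [UBtau, UBpow_eval, Nat.sub_add_cancel]
  exact Nat.one_le_pow _ _ (by omega)

/-- `y - y^(q^2)` -/
def UBnu (q : ℕ) (s : RTerm) : RTerm := UBsub s (UBtau q s)

theorem UBnu_eval {K : Type} [CommRing K] {q : ℕ} (hq : 5 ≤ q) (v : ℕ → K) (s : RTerm) :
    (UBnu q s).eval v = s.eval v - (s.eval v) ^ (q ^ 2) := by
  rw [UBnu, UBsub_eval, UBtau_eval hq]

/-- the term `δ x` -/
def UBdel (q : ℕ) (s : RTerm) : RTerm :=
  UBprod (UBtau q s) (fun i => UBsub (UBpow (UBtau q s) i) (UBpow (UBtau q s) (q - 2))) (q - 2)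

theorem UBdel_eval {K : Type} [CommRing K] {q : ℕ} (hq : 5 ≤ q) (v : ℕ → K) (s : RTerm) :
    (UBdel q s).eval v = (s.eval v) ^ (q ^ 2) * ∏ i ∈ range (q - 2),
      (((s.eval v) ^ (q ^ 2)) ^ (i + 1) - ((s.eval v) ^ (q ^ 2)) ^ (q - 1)) := by
  rw [UBdel, UBprod_eval, UBtau_eval hq]
  congr 1
  refine prod_congr rfl fun i _ => ?_
  rw [UBsub_eval, UBpow_eval, UBpow_eval, UBtau_eval hq]
  congr 2
  omega

/-- the zero term -/
def UBz : RTerm := .add (.var 0) (.neg (.var 0))

/-! ## The criterion -/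

theorem UBcore (K : Type) [CommRing K] [Finite K] (s : RTerm)
    (h0 : ∃ v : ℕ → K, s.eval v ≠ 0)
    (h1 : ∀ (S : NonUnitalSubring K) (v : ℕ → K), (∀ i, v i ∈ S) → s.eval v ≠ 0 →
      S = ⊤ ∧ ∀ a : K, a ≠ 0 → ∃ b : K, b * a = s.eval v) : Critical K := by
  have hz : ∀ (F : Type) [NonUnitalRing F] (v : ℕ → F),
      UBz.eval v = 0 := by
    intro F _ v
    exact add_neg_cancel _
  refine critical_of_exists s UBz ?_ ?_
  · intro F _ hF hne v
    rw [hz F v]
    by_contra hcon
    obtain ⟨S, f, hf⟩ := hF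
    choose u hu using hf
    have e1 : s.eval v = f (s.eval (fun i => u (v i))) := by
      rw [eval_map]
      congr 1
      funext i
      exact (hu (v i)).symm
    have e2 : ((s.eval (fun i => u (v i)) : S) : K) = s.eval (fun i => ((u (v i) : S) : K)) :=
      eval_coe S _ s
    have e3 : s.eval (fun i => ((u (v i) : S) : K)) ≠ 0 := by
      intro e
      apply hcon
      rw [e1]
      have : s.eval (fun i => u (v i)) = 0 := Subtype.ext (e2.trans e)
      rw [this, map_zero]
    obtain ⟨hS, hD⟩ := h1 S (fun i => ((u (v i) : S) : K)) (fun i => (u (v i)).2) e3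
    have hinj : Function.Injective f := by
      rw [injective_iff_map_eq_zero]
      intro a ha
      by_contra ha0
      have ha1 : (a : K) ≠ 0 := fun e => ha0 (Subtype.ext e)
      obtain ⟨b, hb⟩ := hD a ha1
      have hbS : b ∈ S := by
        rw [hS]
        exact NonUnitalSubring.mem_top b
      apply hcon
      rw [e1]
      have : s.eval (fun i => u (v i)) = ⟨b, hbS⟩ * a := Subtype.ext (e2.trans hb.symm)
      rw [this, map_mul, ha, mul_zero]
    have hsurj : Function.Surjective f := fun y => ⟨u y, hu y⟩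
    let E1 : S ≃+* F := RingEquiv.ofBijective f ⟨hinj, hsurj⟩
    have hval : Function.Bijective (NonUnitalSubringClass.subtype S) := by
      refine ⟨Subtype.val_injective, fun x => ⟨⟨x, ?_⟩, rfl⟩⟩
      rw [hS]
      exact NonUnitalSubring.mem_top x
    let E2 : S ≃+* K := RingEquiv.ofBijective (NonUnitalSubringClass.subtype S) hval
    exact hne.false (E1.symm.trans E2)
  · intro hh
    obtain ⟨v, hv⟩ := h0
    apply hv
    rw [hh v, hz]

/-! ## Teichmueller elements -/

/-- the facts of `St_teich` used here -/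
structure UBT (K : Type) [CommRing K] [IsLocalRing K] (q : ℕ) : Prop where
  q5 : 5 ≤ q
  card : Nat.card (ResidueField K) = q
  A : ∀ x y : K, x - y ∈ maximalIdeal K → x ^ (q ^ 2) = y ^ (q ^ 2)
  B : ∀ x : K, x ^ (q ^ 2) - x ∈ maximalIdeal K
  C : ∀ x : K, (x ^ (q ^ 2)) ^ q = x ^ (q ^ 2)

section teich

variable {K : Type} [CommRing K] [IsLocalRing K] {q : ℕ}

theorem UBT.tt (_h : UBT K q) {t : K} (ht : t ^ q = t) : t ^ (q ^ 2) = t := by
  rw [pow_two, pow_mul, ht, ht]

theorem UBT.tj (h : UBT K q) {s t : K} (hs : s ^ q = s) (ht : t ^ q = t)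
    (hst : s - t ∈ maximalIdeal K) : s = t := by
  have := h.A s t hst
  rwa [h.tt hs, h.tt ht] at this

theorem UBT.unit (h : UBT K q) {t : K} (ht : t ^ q = t) (h0 : t ≠ 0) : IsUnit t := by
  by_contra hu
  apply h0
  refine h.tj ht (zero_pow ?_) ?_
  · have := h.q5
    omega
  · rw [sub_zero]
    exact (mem_maximalIdeal t).2 hu

theorem UBT.tauJ (h : UBT K q) {j : K} (hj : j ∈ maximalIdeal K) : j ^ (q ^ 2) = 0 := by
  have h5 := h.q5
  rw [h.A j 0 (by rwa [sub_zero])]
  exact zero_pow (pow_ne_zero 2 (by omega))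

theorem UBT.powq (_h : UBT K q) {t : K} (ht : t ^ q = t) (i : ℕ) : (t ^ i) ^ q = t ^ i := by
  rw [← pow_mul, mul_comm, pow_mul, ht]

theorem UBT.pow1 (h : UBT K q) {t : K} (ht : t ^ q = t) (h0 : t ≠ 0) : t ^ (q - 1) = 1 := by
  have hu := h.unit ht h0
  have h5 := h.q5
  have e : t * t ^ (q - 1) = t * 1 := by
    rw [← pow_succ', Nat.sub_add_cancel (by omega), ht, mul_one]
  exact hu.mul_left_cancel e

theorem UBT.gen [Finite K] (h : UBT K q) {g : K} (hg : g ^ q = g) (hg0 : g ≠ 0)
    (hord : ∀ i, 0 < i → i < q - 1 → g ^ i ≠ g ^ (q - 1)) :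
    ∀ t : K, t ^ q = t → t ≠ 0 → ∃ i, t = g ^ (i + 1) := by
  classical
  have h5 := h.q5
  intro t ht ht0
  have : Finite (ResidueField K) := Finite.of_surjective (residue K) residue_surjective
  let _ : Fintype (ResidueField K) := Fintype.ofFinite _
  have hru : ∀ a : K, IsUnit a → residue K a ≠ 0 := by
    intro a ha e
    rw [residue_eq_zero_iff, mem_maximalIdeal] at e
    exact e ha
  have hgu := h.unit hg hg0
  have hcard : ((univ : Finset (ResidueField K)).erase 0).card = q - 1 := by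
    rw [card_erase_of_mem (mem_univ _), card_univ, ← Nat.card_eq_fintype_card, h.card]
  have hinj : Set.InjOn (fun i : ℕ => (residue K g) ^ (i + 1)) (range (q - 1)) := by
    have key : ∀ i j : ℕ, i < j → j < q - 1 →
        (residue K g) ^ (i + 1) = (residue K g) ^ (j + 1) → False := by
      intro i j hij hj e
      have e1 : g ^ (i + 1) - g ^ (j + 1) ∈ maximalIdeal K := by
        rw [← residue_eq_zero_iff, map_sub, map_pow, map_pow, e, sub_self]
      have e2 := h.tj (h.powq hg _) (h.powq hg _) e1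
      have e3 : g ^ (i + 1) * 1 = g ^ (i + 1) * g ^ (j - i) := by
        rw [mul_one, ← pow_add, e2]
        congr 1
        omega
      have e4 := (hgu.pow (i + 1)).mul_left_cancel e3
      exact hord (j - i) (by omega) (by omega) (by rw [← e4, h.pow1 hg hg0])
    intro i hi j hj e
    have hi' : i < q - 1 := by simpa using hi
    have hj' : j < q - 1 := by simpa using hj
    rcases lt_trichotomy i j with c | c | c
    · exact (key i j c hj' e).elim
    · exact c
    · exact (key j i c hi' e.symm).elim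
  have himg : (range (q - 1)).image (fun i : ℕ => (residue K g) ^ (i + 1)) =
      (univ : Finset (ResidueField K)).erase 0 := by
    refine eq_of_subset_of_card_le ?_ ?_
    · intro x hx
      obtain ⟨i, -, rfl⟩ := mem_image.1 hx
      exact mem_erase.2 ⟨pow_ne_zero _ (hru g hgu), mem_univ _⟩
    · rw [hcard, card_image_of_injOn hinj, card_range]
  have ht1 : residue K t ∈ (univ : Finset (ResidueField K)).erase 0 :=
    mem_erase.2 ⟨hru t (h.unit ht ht0), mem_univ _⟩
  rw [← himg] at ht1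
  obtain ⟨i, -, hi⟩ := mem_image.1 ht1
  refine ⟨i, h.tj ht (h.powq hg _) ?_⟩
  rw [← residue_eq_zero_iff, map_sub, map_pow, hi, sub_self]

/-- a subring which contains an element with `δ x ≠ 0` contains all Teichmueller elements -/
theorem UBT.mem [Finite K] (h : UBT K q) (S : NonUnitalSubring K) (v : ℕ → K) (i0 : ℕ)
    (hv : v i0 ∈ S) (hd : (UBdel q (.var i0)).eval v ≠ 0) : ∀ t : K, t ^ q = t → t ∈ S := by
  have h5 := h.q5
  rw [UBdel_eval h5] at hd
  obtain ⟨g, hg⟩ : ∃ g, g = (v i0) ^ (q ^ 2) := ⟨_, rfl⟩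
  have hd' : g * ∏ i ∈ range (q - 2), (g ^ (i + 1) - g ^ (q - 1)) ≠ 0 := by
    rw [hg]
    exact hd
  have hgq : g ^ q = g := by
    rw [hg]
    exact h.C _
  have hg0 : g ≠ 0 := left_ne_zero_of_mul hd'
  have hord : ∀ i, 0 < i → i < q - 1 → g ^ i ≠ g ^ (q - 1) := by
    intro i hi hi' e
    apply right_ne_zero_of_mul hd'
    refine prod_eq_zero (i := i - 1) (mem_range.2 (by omega)) ?_
    rw [Nat.sub_add_cancel (by omega), e, sub_self]
  have hpow : ∀ (x : K), x ∈ S → ∀ k : ℕ, x ^ (k + 1) ∈ S := by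
    intro x hx k
    induction k with
    | zero => simpa using hx
    | succ k ih =>
      rw [pow_succ]
      exact S.mul_mem ih hx
  have hgS : g ∈ S := by
    have := hpow _ hv (q ^ 2 - 1)
    rwa [Nat.sub_add_cancel (Nat.one_le_pow _ _ (by omega)), ← hg] at this
  intro t ht
  by_cases ht0 : t = 0
  · rw [ht0]
    exact S.zero_mem
  · obtain ⟨i, hi⟩ := h.gen hgq hg0 hord t ht ht0
    rw [hi]
    exact hpow g hgS i

/-- there is `x` with `δ x` a unit -/
theorem UBT.exU [Finite K] (h : UBT K q) : ∃ x : K, ∀ (v : ℕ → K) (i0 : ℕ), v i0 = x →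
    IsUnit ((UBdel q (.var i0)).eval v) := by
  classical
  have h5 := h.q5
  have : Finite (ResidueField K) := Finite.of_surjective (residue K) residue_surjective
  let _ : Fintype (ResidueField K) := Fintype.ofFinite _
  obtain ⟨ζ, hζ⟩ := IsCyclic.exists_generator (α := (ResidueField K)ˣ)
  have hord : orderOf ζ = q - 1 := by
    rw [orderOf_eq_card_of_forall_mem_zpowers hζ, Nat.card_units, h.card]
  obtain ⟨x, hx⟩ := residue_surjective (R := K) (ζ : ResidueField K)
  refine ⟨x, ?_⟩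
  intro v i0 hv
  by_contra hu
  have e : residue K ((UBdel q (.var i0)).eval v) = 0 := by
    rw [residue_eq_zero_iff, mem_maximalIdeal]
    exact hu
  have hτ : residue K (x ^ (q ^ 2)) = (ζ : ResidueField K) := by
    rw [← hx, ← sub_eq_zero, ← map_sub, residue_eq_zero_iff]
    exact h.B x
  rw [UBdel_eval h5] at e
  have e' : residue K (x ^ (q ^ 2) * ∏ i ∈ range (q - 2),
      ((x ^ (q ^ 2)) ^ (i + 1) - (x ^ (q ^ 2)) ^ (q - 1))) = 0 := by
    rw [← hv]
    exact e
  rw [map_mul, map_prod, hτ] at e'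
  rcases mul_eq_zero.1 e' with c | c
  · exact ζ.ne_zero c
  · obtain ⟨i, hi, c⟩ := prod_eq_zero_iff.1 c
    rw [map_sub, map_pow (residue K) (x ^ (q ^ 2)), map_pow (residue K) (x ^ (q ^ 2)), hτ,
      sub_eq_zero] at c
    have hi' := mem_range.1 hi
    have c1 : ζ ^ (i + 1) = ζ ^ (q - 1) := by
      apply Units.ext
      push_cast
      exact c
    have c2 : ζ ^ (q - 1) = 1 := by
      rw [← hord]
      exact pow_orderOf_eq_one ζ
    rw [c2] at c1
    have c3 := orderOf_dvd_of_pow_eq_one c1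
    rw [hord] at c3
    have := Nat.le_of_dvd (by omega) c3
    omega

end teich

/-! ## The theorem -/

section main

variable {K : Type} [CommRing K] [IsLocalRing K] {q : ℕ}

theorem UBT.nuJ (h : UBT K q) (x : K) : x - x ^ (q ^ 2) ∈ maximalIdeal K := by
  have := (maximalIdeal K).neg_mem (h.B x)
  rwa [neg_sub] at this

theorem UBT.split (h : UBT K q) (c : K) : ∃ t e : K, t ^ q = t ∧ e ∈ maximalIdeal K ∧ c = t + e :=
  ⟨c ^ (q ^ 2), c - c ^ (q ^ 2), h.C c, h.nuJ c, by ring⟩

theorem UBT.one (_h : UBT K q) : (1 : K) ^ q = 1 := one_pow _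

theorem UBnotunit {a : K} (ha : ¬ IsUnit a) : a ∈ maximalIdeal K := (mem_maximalIdeal a).2 ha

theorem UBunitdvd {a : K} (ha : IsUnit a) (d : K) : ∃ b, b * a = d := by
  obtain ⟨a', ha'⟩ := ha.exists_left_inv
  exact ⟨d * a', by rw [mul_assoc, ha', mul_one]⟩

/-- the case `J = 0` -/
theorem UB_case0 [Finite K] (h : UBT K q) (hJ : maximalIdeal K = Ideal.span {(0 : K)}) :
    Critical K := by
  have hJ0 : ∀ a ∈ maximalIdeal K, a = 0 := by
    intro a ha
    rw [hJ, Ideal.mem_span_singleton'] at ha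
    obtain ⟨c, hc⟩ := ha
    rw [← hc, mul_zero]
  refine UBcore K (UBdel q (.var 0)) ?_ ?_
  · obtain ⟨x, hx⟩ := h.exU
    exact ⟨fun _ => x, (hx (fun _ => x) 0 rfl).ne_zero⟩
  · intro S v hv hD
    have hT := h.mem S v 0 (hv 0) hD
    refine ⟨?_, ?_⟩
    · rw [eq_top_iff]
      intro k _
      obtain ⟨t, e, ht, he, hk⟩ := h.split k
      rw [hk, hJ0 e he, add_zero]
      exact hT t ht
    · intro a ha
      by_cases hu : IsUnit a
      · exact UBunitdvd hu _
      · exact absurd (hJ0 a (UBnotunit hu)) ha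

/-- the case `J = (z)`, `z ≠ 0`, `z^2 = 0` -/
theorem UB_case1 [Finite K] (h : UBT K q) {z : K} (hJ : maximalIdeal K = Ideal.span {z})
    (hz : z ≠ 0) (hz2 : z * z = 0) : Critical K := by
  have hJz : ∀ a ∈ maximalIdeal K, ∃ c, a = c * z := by
    intro a ha
    rw [hJ, Ideal.mem_span_singleton'] at ha
    obtain ⟨c, hc⟩ := ha
    exact ⟨c, hc.symm⟩
  have hzJ : z ∈ maximalIdeal K := by
    rw [hJ]
    exact Ideal.mem_span_singleton_self z
  have hJJ : ∀ a ∈ maximalIdeal K, ∀ b ∈ maximalIdeal K, a * b = 0 := by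
    intro a ha b hb
    obtain ⟨c, rfl⟩ := hJz a ha
    obtain ⟨d, rfl⟩ := hJz b hb
    calc c * z * (d * z) = c * d * (z * z) := by ring
      _ = 0 := by rw [hz2, mul_zero]
  refine UBcore K (.mul (UBdel q (.var 0)) (UBnu q (.var 1))) ?_ ?_
  · obtain ⟨x, hx⟩ := h.exU
    refine ⟨fun i => if i = 0 then x else z, ?_⟩
    rw [RTerm.eval, UBnu_eval h.q5]
    have e1 : RTerm.eval (fun i => if i = 0 then x else z) (.var 1) = z := by
      simp [RTerm.eval]
    rw [e1, h.tauJ hzJ, sub_zero]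
    have hu := hx (fun i => if i = 0 then x else z) 0 (by simp)
    intro e
    apply hz
    exact (hu.mul_right_eq_zero).1 e
  · intro S v hv hD
    rw [RTerm.eval, UBnu_eval h.q5] at hD ⊢
    have hT := h.mem S v 0 (hv 0) (left_ne_zero_of_mul hD)
    obtain ⟨j, hj⟩ : ∃ j, j = RTerm.eval v (.var 1) - RTerm.eval v (.var 1) ^ (q ^ 2) := ⟨_, rfl⟩
    rw [← hj] at hD ⊢
    have hj0 : j ≠ 0 := right_ne_zero_of_mul hD
    have hjJ : j ∈ maximalIdeal K := by
      rw [hj]
      exact h.nuJ _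
    have hjS : j ∈ S := by
      rw [hj]
      exact S.sub_mem (hv 1) (hT _ (h.C _))
    obtain ⟨u, hu⟩ := hJz j hjJ
    have huu : IsUnit u := by
      by_contra hn
      exact hj0 (by rw [hu]; exact hJJ u (UBnotunit hn) z hzJ)
    obtain ⟨u', hu'⟩ := huu.exists_left_inv
    have hzj : z = u' * j := by rw [hu, ← mul_assoc, hu', one_mul]
    refine ⟨?_, ?_⟩
    · rw [eq_top_iff]
      intro k _
      obtain ⟨t, e, ht, he, hk⟩ := h.split k
      obtain ⟨c, hc⟩ := hJz e he
      obtain ⟨t', e', ht', he', hk'⟩ := h.split (c * u')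
      have e1 : k = t + t' * j := by
        have e2 : e = t' * j + e' * j := by
          rw [← add_mul, ← hk', mul_assoc, ← hzj, hc]
        rw [hk, e2, hJJ e' he' j hjJ, add_zero]
      rw [e1]
      exact S.add_mem (hT t ht) (S.mul_mem (hT t' ht') hjS)
    · intro a ha
      by_cases hau : IsUnit a
      · exact UBunitdvd hau _
      · obtain ⟨c, hc⟩ := hJz a (UBnotunit hau)
        have hcu : IsUnit c := by
          by_contra hn
          exact ha (by rw [hc]; exact hJJ c (UBnotunit hn) z hzJ)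
        obtain ⟨c', hc'⟩ := hcu.exists_left_inv
        refine ⟨RTerm.eval v (UBdel q (.var 0)) * u * c', ?_⟩
        rw [hu, hc]
        calc RTerm.eval v (UBdel q (.var 0)) * u * c' * (c * z)
            = RTerm.eval v (UBdel q (.var 0)) * u * z * (c' * c) := by ring
          _ = RTerm.eval v (UBdel q (.var 0)) * (u * z) := by rw [hc', mul_one, mul_assoc]

/-- the case `J = (z)`, `z^2 ≠ 0` -/
theorem UB_case2 [Finite K] (h : UBT K q) (hcz : CubeZero K (maximalIdeal K)) {z : K}
    (hJ : maximalIdeal K = Ideal.span {z}) (hz2 : z * z ≠ 0) : Critical K := by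
  have hJz : ∀ a ∈ maximalIdeal K, ∃ c, a = c * z := by
    intro a ha
    rw [hJ, Ideal.mem_span_singleton'] at ha
    obtain ⟨c, hc⟩ := ha
    exact ⟨c, hc.symm⟩
  have hzJ : z ∈ maximalIdeal K := by
    rw [hJ]
    exact Ideal.mem_span_singleton_self z
  refine UBcore K (.mul (UBdel q (.var 0)) (.mul (UBnu q (.var 1)) (UBnu q (.var 1)))) ?_ ?_
  · obtain ⟨x, hx⟩ := h.exU
    refine ⟨fun i => if i = 0 then x else z, ?_⟩
    rw [RTerm.eval, RTerm.eval, UBnu_eval h.q5]
    have e1 : RTerm.eval (fun i => if i = 0 then x else z) (.var 1) = z := by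
      simp [RTerm.eval]
    rw [e1, h.tauJ hzJ, sub_zero]
    have hu := hx (fun i => if i = 0 then x else z) 0 (by simp)
    intro e
    apply hz2
    exact (hu.mul_right_eq_zero).1 e
  · intro S v hv hD
    rw [RTerm.eval, RTerm.eval, UBnu_eval h.q5] at hD ⊢
    have hT := h.mem S v 0 (hv 0) (left_ne_zero_of_mul hD)
    obtain ⟨j, hj⟩ : ∃ j, j = RTerm.eval v (.var 1) - RTerm.eval v (.var 1) ^ (q ^ 2) := ⟨_, rfl⟩
    rw [← hj] at hD ⊢
    have hj0 : j * j ≠ 0 := right_ne_zero_of_mul hD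
    have hjJ : j ∈ maximalIdeal K := by
      rw [hj]
      exact h.nuJ _
    have hjS : j ∈ S := by
      rw [hj]
      exact S.sub_mem (hv 1) (hT _ (h.C _))
    obtain ⟨u, hu⟩ := hJz j hjJ
    have huu : IsUnit u := by
      by_contra hn
      apply hj0
      calc j * j = u * z * j := by rw [← hu]
        _ = 0 := hcz u (UBnotunit hn) z hzJ j hjJ
    obtain ⟨u', hu'⟩ := huu.exists_left_inv
    have hzj : z = u' * j := by rw [hu, ← mul_assoc, hu', one_mul]
    have hJj : ∀ a ∈ maximalIdeal K, ∃ c, a = c * j := by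
      intro a ha
      obtain ⟨c, hc⟩ := hJz a ha
      exact ⟨c * u', by rw [hc, mul_assoc, ← hzj]⟩
    refine ⟨?_, ?_⟩
    · rw [eq_top_iff]
      intro k _
      obtain ⟨t, e, ht, he, hk⟩ := h.split k
      obtain ⟨c, hc⟩ := hJj e he
      obtain ⟨t', e', ht', he', hk'⟩ := h.split c
      obtain ⟨d, hd⟩ := hJj e' he'
      obtain ⟨t'', e'', ht'', he'', hk''⟩ := h.split d
      have e1 : k = t + (t' * j + t'' * (j * j)) := by
        rw [hk, hc, hk', hd, hk'']
        have := hcz e'' he'' j hjJ j hjJ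
        linear_combination this
      rw [e1]
      exact S.add_mem (hT t ht) (S.add_mem (S.mul_mem (hT t' ht') hjS)
        (S.mul_mem (hT t'' ht'') (S.mul_mem hjS hjS)))
    · intro a ha
      by_cases hau : IsUnit a
      · exact UBunitdvd hau _
      · obtain ⟨c, hc⟩ := hJj a (UBnotunit hau)
        by_cases hcu : IsUnit c
        · obtain ⟨c', hc'⟩ := hcu.exists_left_inv
          refine ⟨RTerm.eval v (UBdel q (.var 0)) * j * c', ?_⟩
          rw [hc]
          linear_combination RTerm.eval v (UBdel q (.var 0)) * j * j * hc'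
        · obtain ⟨d, hd⟩ := hJj c (UBnotunit hcu)
          have hdu : IsUnit d := by
            by_contra hn
            apply ha
            rw [hc, hd]
            exact hcz d (UBnotunit hn) j hjJ j hjJ
          obtain ⟨d', hd'⟩ := hdu.exists_left_inv
          refine ⟨RTerm.eval v (UBdel q (.var 0)) * d', ?_⟩
          rw [hc, hd]
          linear_combination RTerm.eval v (UBdel q (.var 0)) * j * j * hd'

/-- the case `J = (P, y0)` -/
theorem UB_case3 [Finite K] (h : UBT K q) (hcz : CubeZero K (maximalIdeal K)) {P : ℕ} {y0 : K}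
    (hP : P.Prime) (hJ : maximalIdeal K = Ideal.span {(P : K), y0}) (hP2 : (P : K) ^ 2 = 0)
    (hy2 : y0 ^ 2 = 0) (hPy : (P : K) * y0 ≠ 0) : Critical K := by
  have hJ' : ∀ a ∈ maximalIdeal K, ∃ c d, a = c * (P : K) + d * y0 := by
    intro a ha
    rw [hJ, Ideal.mem_span_pair] at ha
    obtain ⟨c, d, hc⟩ := ha
    exact ⟨c, d, hc.symm⟩
  have hPJ : (P : K) ∈ maximalIdeal K := by
    rw [hJ]
    exact Ideal.subset_span (Set.mem_insert _ _)
  have hyJ : y0 ∈ maximalIdeal K := by
    rw [hJ]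
    exact Ideal.subset_span (Set.mem_insert_of_mem _ rfl)
  have hns : ∀ v : ℕ → K, RTerm.eval v (UBns (UBnu q (.var 1)) (P - 1)) =
      (P : K) * (RTerm.eval v (.var 1) - RTerm.eval v (.var 1) ^ (q ^ 2)) := by
    intro v
    rw [UBns_eval, UBnu_eval h.q5, Nat.sub_add_cancel hP.one_le]
  refine UBcore K (.mul (UBdel q (.var 0)) (UBns (UBnu q (.var 1)) (P - 1))) ?_ ?_
  · obtain ⟨x, hx⟩ := h.exU
    refine ⟨fun i => if i = 0 then x else y0, ?_⟩
    rw [RTerm.eval, hns]
    have e1 : RTerm.eval (fun i => if i = 0 then x else y0) (.var 1) = y0 := by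
      simp [RTerm.eval]
    rw [e1, h.tauJ hyJ, sub_zero]
    have hu := hx (fun i => if i = 0 then x else y0) 0 (by simp)
    intro e
    apply hPy
    exact (hu.mul_right_eq_zero).1 e
  · intro S v hv hD
    rw [RTerm.eval, hns] at hD ⊢
    have hT := h.mem S v 0 (hv 0) (left_ne_zero_of_mul hD)
    obtain ⟨j, hj⟩ : ∃ j, j = RTerm.eval v (.var 1) - RTerm.eval v (.var 1) ^ (q ^ 2) := ⟨_, rfl⟩
    rw [← hj] at hD ⊢
    obtain ⟨δ, hδ⟩ : ∃ δ, δ = RTerm.eval v (UBdel q (.var 0)) := ⟨_, rfl⟩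
    rw [← hδ] at hD ⊢
    have hPj0 : (P : K) * j ≠ 0 := right_ne_zero_of_mul hD
    have hjJ : j ∈ maximalIdeal K := by
      rw [hj]
      exact h.nuJ _
    have hjS : j ∈ S := by
      rw [hj]
      exact S.sub_mem (hv 1) (hT _ (h.C _))
    have hPS : (P : K) ∈ S := by
      rw [← nsmul_one]
      exact nsmul_mem (hT 1 h.one) P
    obtain ⟨a, b, hab⟩ := hJ' j hjJ
    have hPj : (P : K) * j = b * (P * y0) := by
      rw [hab]
      linear_combination a * hP2
    have hbu : IsUnit b := by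
      by_contra hn
      apply hPj0
      rw [hPj, ← mul_assoc]
      exact hcz b (UBnotunit hn) P hPJ y0 hyJ
    obtain ⟨b', hb'⟩ := hbu.exists_left_inv
    -- the ideal `J` in terms of `P`, `j`
    have hd : ∀ e ∈ maximalIdeal K, ∃ c d, e = c * (P : K) + d * j := by
      intro e he
      obtain ⟨c, d, hcd⟩ := hJ' e he
      refine ⟨c - d * b' * a, d * b', ?_⟩
      rw [hcd, hab]
      linear_combination -d * y0 * hb'
    have hk0 : ∀ e ∈ maximalIdeal K, e * ((P : K) * j) = 0 := by
      intro e he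
      rw [← mul_assoc]
      exact hcz e he P hPJ j hjJ
    have hyP : y0 * (P : K) = b' * (P * j) := by
      rw [hPj]
      linear_combination -(P * y0 : K) * hb'
    have hmP : ∀ e ∈ maximalIdeal K, ∃ γ, e * (P : K) = γ * (P * j) := by
      intro e he
      obtain ⟨c, d, hcd⟩ := hJ' e he
      refine ⟨d * b', ?_⟩
      rw [hcd]
      linear_combination c * hP2 + d * hyP
    have hmj : ∀ e ∈ maximalIdeal K, ∃ γ, e * j = γ * (P * j) := by
      intro e he
      obtain ⟨c, d, hcd⟩ := hJ' e he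
      refine ⟨c + d * a * b', ?_⟩
      have e1 : y0 * j = a * (b' * (P * j)) := by
        rw [← hyP, hab]
        linear_combination b * hy2
      rw [hcd]
      linear_combination d * e1
    refine ⟨?_, ?_⟩
    · rw [eq_top_iff]
      intro k _
      obtain ⟨t, e, ht, he, hk⟩ := h.split k
      obtain ⟨α, β, hαβ⟩ := hd e he
      obtain ⟨t1, e1, ht1, he1, hk1⟩ := h.split α
      obtain ⟨t2, e2, ht2, he2, hk2⟩ := h.split β
      obtain ⟨γ1, hγ1⟩ := hmP e1 he1
      obtain ⟨γ2, hγ2⟩ := hmj e2 he2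
      obtain ⟨t3, e3, ht3, he3, hk3⟩ := h.split (γ1 + γ2)
      have e4 : k = t + (t1 * P + (t2 * j + t3 * (P * j))) := by
        rw [hk, hαβ, hk1, hk2]
        linear_combination hγ1 + hγ2 + (P * j : K) * hk3 + hk0 e3 he3
      rw [e4]
      exact S.add_mem (hT t ht) (S.add_mem (S.mul_mem (hT t1 ht1) hPS)
        (S.add_mem (S.mul_mem (hT t2 ht2) hjS) (S.mul_mem (hT t3 ht3) (S.mul_mem hPS hjS))))
    · intro x hx
      by_cases hxu : IsUnit x
      · exact UBunitdvd hxu _
      · obtain ⟨α, β, hαβ⟩ := hd x (UBnotunit hxu)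
        by_cases hβu : IsUnit β
        · obtain ⟨β', hβ'⟩ := hβu.exists_left_inv
          refine ⟨δ * β' * P, ?_⟩
          rw [hαβ]
          linear_combination δ * β' * α * hP2 + δ * P * j * hβ'
        · obtain ⟨γ2, hγ2⟩ := hmj β (UBnotunit hβu)
          by_cases hαu : IsUnit α
          · obtain ⟨α', hα'⟩ := hαu.exists_left_inv
            refine ⟨δ * α' * j, ?_⟩
            rw [hαβ]
            linear_combination δ * P * j * hα' + δ * α' * j * hγ2 + δ * α' * γ2 * hk0 j hjJ
          · obtain ⟨γ1, hγ1⟩ := hmP α (UBnotunit hαu)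
            have hγ : IsUnit (γ1 + γ2) := by
              by_contra hn
              apply hx
              rw [hαβ]
              linear_combination hγ1 + hγ2 + hk0 _ (UBnotunit hn)
            obtain ⟨γ', hγ'⟩ := hγ.exists_left_inv
            refine ⟨δ * γ', ?_⟩
            rw [hαβ]
            linear_combination δ * γ' * hγ1 + δ * γ' * hγ2 + δ * P * j * hγ'

end main

theorem unit_bwd (h : St_teich) : St_unit_bwd := by
  intro K _ _ _ hcard hcz hsh
  obtain ⟨p, m, hp, hp5, hm, hcK, hpJ, hA, hB, hC⟩ := h K hcard hcz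
  have hq : 5 ≤ p ^ m := by
    calc 5 ≤ p := hp5
      _ = p ^ 1 := (pow_one p).symm
      _ ≤ p ^ m := Nat.pow_le_pow_right (by omega) hm
  have H : UBT K (p ^ m) := ⟨hq, hcK, hA, hB, hC⟩
  rcases hsh with ⟨z, hz⟩ | ⟨P, y0, hP, hJ, hP2, hy2, hPy⟩
  · by_cases h0 : z = 0
    · rw [h0] at hz
      exact UB_case0 H hz
    · by_cases h2 : z * z = 0
      · exact UB_case1 H hz h0 h2
      · exact UB_case2 H hcz hz h2
  · exact UB_case3 H hcz hP hJ hP2 hy2 hPy

end Pool.Agent.CRR
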