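import Pool.Agent.CRR.St2
import Pool.Agent.CRR.UnitBwd

/-!
Campaign CRR, part 2, N22: a local ring with a detecting form (integer coefficients) is critical
(helper20).
-/

namespace Pool.Agent.CRR

open Finset IsLocalRing

/-! ## Terms -/

/-- `x^(q^L)` -/
private def Crit2tau (q L : ℕ) (s : RTerm) : RTerm := UBpow s (q ^ L - 1)

private theorem Crit2tau_eval {K : Type} [CommRing K] {q L : ℕ} (hq : 2 ≤ q) (v : ℕ → K)
    (s : RTerm) : (Crit2tau q L s).eval v = (s.eval v) ^ (q ^ L) := by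
  rw [Crit2tau, UBpow_eval, Nat.sub_add_cancel]
  exact Nat.one_le_pow _ _ (by omega)

/-- `y - y^(q^L)` -/
private def Crit2nu (q L : ℕ) (s : RTerm) : RTerm := UBsub s (Crit2tau q L s)

private theorem Crit2nu_eval {K : Type} [CommRing K] {q L : ℕ} (hq : 2 ≤ q) (v : ℕ → K)
    (s : RTerm) : (Crit2nu q L s).eval v = s.eval v - (s.eval v) ^ (q ^ L) := by
  rw [Crit2nu, UBsub_eval, Crit2tau_eval hq]

/-- the term `δ x` -/
private def Crit2del (q L : ℕ) (s : RTerm) : RTerm :=
  UBprod (Crit2tau q L s)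
    (fun i => UBsub (UBpow (Crit2tau q L s) i) (UBpow (Crit2tau q L s) (q - 2))) (q - 2)

private theorem Crit2del_eval {K : Type} [CommRing K] {q L : ℕ} (hq : 2 ≤ q) (v : ℕ → K)
    (s : RTerm) : (Crit2del q L s).eval v = (s.eval v) ^ (q ^ L) * ∏ i ∈ range (q - 2),
      (((s.eval v) ^ (q ^ L)) ^ (i + 1) - ((s.eval v) ^ (q ^ L)) ^ (q - 1)) := by
  rw [Crit2del, UBprod_eval, Crit2tau_eval hq]
  congr 1
  refine prod_congr rfl fun i _ => ?_
  rw [UBsub_eval, UBpow_eval, UBpow_eval, Crit2tau_eval hq]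
  congr 2
  omega

/-- the multiple `d s` -/
private def Crit2z (d : ℤ) (s : RTerm) : RTerm :=
  match d with
  | Int.ofNat 0 => UBz
  | Int.ofNat (n + 1) => UBns s n
  | Int.negSucc n => .neg (UBns s n)

private theorem Crit2z_eval {K : Type} [CommRing K] (v : ℕ → K) (d : ℤ) (s : RTerm) :
    (Crit2z d s).eval v = (d : K) * s.eval v := by
  match d with
  | Int.ofNat 0 => simp [Crit2z, UBz, RTerm.eval]
  | Int.ofNat (n + 1) =>
    rw [Crit2z, UBns_eval]
    simp
  | Int.negSucc n =>
    rw [Crit2z, RTerm.eval, UBns_eval, Int.cast_negSucc]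
    ring

/-- the term `δ(x_0) Frm d d' k (ν x_1, ..., ν x_k)` -/
private def Crit2trm (q L : ℕ) (d d' : ℤ) (k : ℕ) : RTerm :=
  .add (Crit2z d (UBprod (Crit2del q L (.var 0)) (fun i => Crit2nu q L (.var (i + 1))) k))
    (if k = 0 then UBz else Crit2z d' (.mul (Crit2nu q L (.var 1))
      (UBprod (Crit2del q L (.var 0)) (fun i => Crit2nu q L (.var (i + 1))) k)))

private theorem Crit2trm_eval {K : Type} [CommRing K] {q L : ℕ} (hq : 2 ≤ q) (v : ℕ → K)
    (d d' : ℤ) (k : ℕ) : (Crit2trm q L d d' k).eval v =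
      (Crit2del q L (.var 0)).eval v *
        Frm (d : K) (d' : K) k (fun i => v (i + 1) - v (i + 1) ^ (q ^ L)) := by
  have e1 : ∀ i, (Crit2nu q L (.var (i + 1))).eval v = v (i + 1) - v (i + 1) ^ (q ^ L) :=
    fun i => Crit2nu_eval hq v _
  have e0 : (Crit2nu q L (.var 1)).eval v = v 1 - v 1 ^ (q ^ L) := Crit2nu_eval hq v _
  by_cases hk : k = 0
  · rw [Crit2trm, RTerm.eval, if_pos hk, Crit2z_eval, UBprod_eval, Frm, if_pos hk]
    simp only [e1]
    simp only [UBz, RTerm.eval]
    ring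
  · rw [Crit2trm, RTerm.eval, if_neg hk, Crit2z_eval, Crit2z_eval, RTerm.eval, UBprod_eval, Frm,
      if_neg hk]
    simp only [e1, e0]
    ring

/-! ## Teichmueller elements -/

/-- the facts of `St2_teich` -/
private structure Crit2T (K : Type) [CommRing K] [IsLocalRing K] (q L : ℕ) : Prop where
  q2 : 2 ≤ q
  card : Nat.card (ResidueField K) = q
  A : ∀ x y : K, x - y ∈ maximalIdeal K → x ^ (q ^ L) = y ^ (q ^ L)
  Z : ∀ x ∈ maximalIdeal K, x ^ (q ^ L) = 0
  B : ∀ x : K, x ^ (q ^ L) - x ∈ maximalIdeal K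
  C : ∀ x : K, (x ^ (q ^ L)) ^ q = x ^ (q ^ L)

variable {K : Type} [CommRing K] [IsLocalRing K] {q L : ℕ}

private theorem Crit2T.tt (_h : Crit2T K q L) {t : K} (ht : t ^ q = t) : t ^ (q ^ L) = t := by
  have : ∀ l : ℕ, t ^ (q ^ l) = t := by
    intro l
    induction l with
    | zero => simp
    | succ l ih => rw [pow_succ, pow_mul, ih, ht]
  exact this L

private theorem Crit2T.tj (h : Crit2T K q L) {s t : K} (hs : s ^ q = s) (ht : t ^ q = t)
    (hst : s - t ∈ maximalIdeal K) : s = t := by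
  have := h.A s t hst
  rwa [h.tt hs, h.tt ht] at this

private theorem Crit2T.unit (h : Crit2T K q L) {t : K} (ht : t ^ q = t) (h0 : t ≠ 0) :
    IsUnit t := by
  by_contra hu
  apply h0
  refine h.tj ht (zero_pow ?_) ?_
  · have := h.q2
    omega
  · rw [sub_zero]
    exact (mem_maximalIdeal t).2 hu

private theorem Crit2T.powq (_h : Crit2T K q L) {t : K} (ht : t ^ q = t) (i : ℕ) :
    (t ^ i) ^ q = t ^ i := by
  rw [← pow_mul, mul_comm, pow_mul, ht]

private theorem Crit2T.pow1 (h : Crit2T K q L) {t : K} (ht : t ^ q = t) (h0 : t ≠ 0) :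
    t ^ (q - 1) = 1 := by
  have hu := h.unit ht h0
  have h5 := h.q2
  have e : t * t ^ (q - 1) = t * 1 := by
    rw [← pow_succ', Nat.sub_add_cancel (by omega), ht, mul_one]
  exact hu.mul_left_cancel e

private theorem Crit2T.gen [Finite K] (h : Crit2T K q L) {g : K} (hg : g ^ q = g) (hg0 : g ≠ 0)
    (hord : ∀ i, 0 < i → i < q - 1 → g ^ i ≠ g ^ (q - 1)) :
    ∀ t : K, t ^ q = t → t ≠ 0 → ∃ i, t = g ^ (i + 1) := by
  classical
  have h5 := h.q2
  intro t ht ht0
  have : Finite (ResidueField K) := Finite.of_surjective (residue K) residue_surjective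
  let _ : Fintype (ResidueField K) := Fintype.ofFinite _
  have hru : ∀ a : K, IsUnit a → residue K a ≠ 0 := by
    intro a ha e
    rw [residue_eq_zero_iff, mem_maximalIdeal] at e
    exact e ha
  have hgu := h.unit hg hg0
  have hcard : ((univ : Finset (ResidueField K)).erase 0).card = q - 1 := by
    rw [card_erase_of_mem (mem_univ _), card_univ, ← Nat.card_eq_fintype_card, h.card]
  have hinj : Set.InjOn (fun i : ℕ => (residue K g) ^ (i + 1)) (range (q - 1)) := by
    have key : ∀ i j : ℕ, i < j → j < q - 1 →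
        (residue K g) ^ (i + 1) = (residue K g) ^ (j + 1) → False := by
      intro i j hij hj e
      have e1 : g ^ (i + 1) - g ^ (j + 1) ∈ maximalIdeal K := by
        rw [← residue_eq_zero_iff, map_sub, map_pow, map_pow, e, sub_self]
      have e2 := h.tj (h.powq hg _) (h.powq hg _) e1
      have e3 : g ^ (i + 1) * 1 = g ^ (i + 1) * g ^ (j - i) := by
        rw [mul_one, ← pow_add, e2]
        congr 1
        omega
      have e4 := (hgu.pow (i + 1)).mul_left_cancel e3
      exact hord (j - i) (by omega) (by omega) (by rw [← e4, h.pow1 hg hg0])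
    intro i hi j hj e
    have hi' : i < q - 1 := by simpa using hi
    have hj' : j < q - 1 := by simpa using hj
    rcases lt_trichotomy i j with c | c | c
    · exact (key i j c hj' e).elim
    · exact c
    · exact (key j i c hi' e.symm).elim
  have himg : (range (q - 1)).image (fun i : ℕ => (residue K g) ^ (i + 1)) =
      (univ : Finset (ResidueField K)).erase 0 := by
    refine eq_of_subset_of_card_le ?_ ?_
    · intro x hx
      obtain ⟨i, -, rfl⟩ := mem_image.1 hx
      exact mem_erase.2 ⟨pow_ne_zero _ (hru g hgu), mem_univ _⟩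
    · rw [hcard, card_image_of_injOn hinj, card_range]
  have ht1 : residue K t ∈ (univ : Finset (ResidueField K)).erase 0 :=
    mem_erase.2 ⟨hru t (h.unit ht ht0), mem_univ _⟩
  rw [← himg] at ht1
  obtain ⟨i, -, hi⟩ := mem_image.1 ht1
  refine ⟨i, h.tj ht (h.powq hg _) ?_⟩
  rw [← residue_eq_zero_iff, map_sub, map_pow, hi, sub_self]

/-- a subring which contains an element with `δ x ≠ 0` contains all Teichmueller elements -/
private theorem Crit2T.mem [Finite K] (h : Crit2T K q L) (S : NonUnitalSubring K) (v : ℕ → K)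
    (i0 : ℕ) (hv : v i0 ∈ S) (hd : (Crit2del q L (.var i0)).eval v ≠ 0) :
    ∀ t : K, t ^ q = t → t ∈ S := by
  have h5 := h.q2
  rw [Crit2del_eval h5] at hd
  obtain ⟨g, hg⟩ : ∃ g, g = (v i0) ^ (q ^ L) := ⟨_, rfl⟩
  have hd' : g * ∏ i ∈ range (q - 2), (g ^ (i + 1) - g ^ (q - 1)) ≠ 0 := by
    rw [hg]
    exact hd
  have hgq : g ^ q = g := by
    rw [hg]
    exact h.C _
  have hg0 : g ≠ 0 := left_ne_zero_of_mul hd'
  have hord : ∀ i, 0 < i → i < q - 1 → g ^ i ≠ g ^ (q - 1) := by
    intro i hi hi' e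
    apply right_ne_zero_of_mul hd'
    refine prod_eq_zero (i := i - 1) (mem_range.2 (by omega)) ?_
    rw [Nat.sub_add_cancel (by omega), e, sub_self]
  have hpow : ∀ (x : K), x ∈ S → ∀ k : ℕ, x ^ (k + 1) ∈ S := by
    intro x hx k
    induction k with
    | zero => simpa using hx
    | succ k ih =>
      rw [pow_succ]
      exact S.mul_mem ih hx
  have hgS : g ∈ S := by
    have := hpow _ hv (q ^ L - 1)
    rwa [Nat.sub_add_cancel (Nat.one_le_pow _ _ (by omega)), ← hg] at this
  intro t ht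
  by_cases ht0 : t = 0
  · rw [ht0]
    exact S.zero_mem
  · obtain ⟨i, hi⟩ := h.gen hgq hg0 hord t ht ht0
    rw [hi]
    exact hpow g hgS i

/-- there is `x` with `δ x` a unit -/
private theorem Crit2T.exU [Finite K] (h : Crit2T K q L) : ∃ x : K, ∀ (v : ℕ → K) (i0 : ℕ),
    v i0 = x → IsUnit ((Crit2del q L (.var i0)).eval v) := by
  classical
  have h5 := h.q2
  have : Finite (ResidueField K) := Finite.of_surjective (residue K) residue_surjective
  let _ : Fintype (ResidueField K) := Fintype.ofFinite _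
  obtain ⟨ζ, hζ⟩ := IsCyclic.exists_generator (α := (ResidueField K)ˣ)
  have hord : orderOf ζ = q - 1 := by
    rw [orderOf_eq_card_of_forall_mem_zpowers hζ, Nat.card_units, h.card]
  obtain ⟨x, hx⟩ := residue_surjective (R := K) (ζ : ResidueField K)
  refine ⟨x, ?_⟩
  intro v i0 hv
  by_contra hu
  have e : residue K ((Crit2del q L (.var i0)).eval v) = 0 := by
    rw [residue_eq_zero_iff, mem_maximalIdeal]
    exact hu
  have hτ : residue K (x ^ (q ^ L)) = (ζ : ResidueField K) := by
    rw [← hx, ← sub_eq_zero, ← map_sub, residue_eq_zero_iff]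
    exact h.B x
  rw [Crit2del_eval h5] at e
  have e' : residue K (x ^ (q ^ L) * ∏ i ∈ range (q - 2),
      ((x ^ (q ^ L)) ^ (i + 1) - (x ^ (q ^ L)) ^ (q - 1))) = 0 := by
    rw [← hv]
    exact e
  rw [map_mul, map_prod, hτ] at e'
  rcases mul_eq_zero.1 e' with c | c
  · exact ζ.ne_zero c
  · obtain ⟨i, hi, c⟩ := prod_eq_zero_iff.1 c
    rw [map_sub, map_pow (residue K) (x ^ (q ^ L)), map_pow (residue K) (x ^ (q ^ L)), hτ,
      sub_eq_zero] at c
    have hi' := mem_range.1 hi
    have c1 : ζ ^ (i + 1) = ζ ^ (q - 1) := by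
      apply Units.ext
      push_cast
      exact c
    have c2 : ζ ^ (q - 1) = 1 := by
      rw [← hord]
      exact pow_orderOf_eq_one ζ
    rw [c2] at c1
    have c3 := orderOf_dvd_of_pow_eq_one c1
    rw [hord] at c3
    have := Nat.le_of_dvd (by omega) c3
    omega

private theorem Crit2T.nuJ (h : Crit2T K q L) (x : K) : x - x ^ (q ^ L) ∈ maximalIdeal K := by
  have := (maximalIdeal K).neg_mem (h.B x)
  rwa [neg_sub] at this

/-! ## The theorem -/

theorem crit2 (ht : St2_teich) : St2_crit := by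
  intro K _ _ _ p hp hpJ d d' k hD
  obtain ⟨m, L, hm, hL, hcard, hA, hZ, hB, hC⟩ := ht K p hp hpJ
  have hq : 2 ≤ p ^ m := by
    calc 2 ≤ p := hp.two_le
      _ = p ^ 1 := (pow_one p).symm
      _ ≤ p ^ m := Nat.pow_le_pow_right hp.pos hm
  have H : Crit2T K (p ^ m) L := ⟨hq, hcard, hA, hZ, hB, hC⟩
  obtain ⟨q, hqe⟩ : ∃ q, q = p ^ m := ⟨_, rfl⟩
  rw [← hqe] at H hq hcard
  refine UBcore K (Crit2trm q L d d' k) ?_ ?_
  · obtain ⟨x, hx⟩ := H.exU
    obtain ⟨z, hz, hne⟩ := hD.ne
    refine ⟨fun i => if i = 0 then x else z (i - 1), ?_⟩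
    rw [Crit2trm_eval hq]
    have hu := hx (fun i => if i = 0 then x else z (i - 1)) 0 (by simp)
    have e1 : (fun i : ℕ => (fun i => if i = 0 then x else z (i - 1)) (i + 1) -
        (fun i => if i = 0 then x else z (i - 1)) (i + 1) ^ (q ^ L)) = z := by
      funext i
      have h1 := H.Z (z i) (hz i)
      simp [h1]
    rw [e1]
    intro e
    exact hne ((hu.mul_right_eq_zero).1 e)
  · intro S v hv hS
    rw [Crit2trm_eval hq] at hS ⊢
    obtain ⟨z, hz⟩ : ∃ z : ℕ → K, z = fun i => v (i + 1) - v (i + 1) ^ (q ^ L) := ⟨_, rfl⟩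
    rw [← hz] at hS ⊢
    have hT := H.mem S v 0 (hv 0) (left_ne_zero_of_mul hS)
    have hF := right_ne_zero_of_mul hS
    have h1S : (1 : K) ∈ S := hT 1 (one_pow _)
    have hzJ : ∀ i, z i ∈ maximalIdeal K := by
      intro i
      rw [hz]
      exact H.nuJ _
    have hzS : ∀ i, z i ∈ S := by
      intro i
      rw [hz]
      exact S.sub_mem (hv _) (hT _ (H.C _))
    let S' : Subring K :=
      { carrier := S
        mul_mem' := S.mul_mem
        one_mem' := h1S
        add_mem' := S.add_mem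
        zero_mem' := S.zero_mem
        neg_mem' := S.neg_mem }
    have hmem : ∀ x : K, x ∈ S' ↔ x ∈ S := fun x => Iff.rfl
    have hW : WK K ≤ S' := by
      unfold WK
      rw [Subring.closure_le]
      intro x hx
      rw [Set.mem_ofPred_eq, hcard] at hx
      exact hT x hx
    refine ⟨?_, ?_⟩
    · by_contra hne
      apply hF
      refine hD.sub S' hW ?_ z fun i => ⟨hzJ i, (hmem _).2 (hzS i)⟩
      intro htop
      apply hne
      rw [eq_top_iff]
      intro x _
      rw [← hmem, htop]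
      exact Subring.mem_top x
    · intro a ha
      have h1 : Ideal.span {a} ≠ ⊥ := by
        intro h
        apply ha
        rwa [Ideal.span_singleton_eq_bot] at h
      have h2 := hD.lst _ h1 z hzJ
      rw [Ideal.mem_span_singleton'] at h2
      obtain ⟨b, hb⟩ := h2
      refine ⟨(Crit2del q L (.var 0)).eval v * b, ?_⟩
      rw [mul_assoc, hb]

end Pool.Agent.CRR
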