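import Pool.Agent.CRR.St2

/-!
Campaign CRR, part 2 (MP_1bb14d_al): module N23.  A commutative ring (without identity) with a
detecting form is critical (helper42).
-/

namespace Pool.Agent.CRR

open Finset

/-- the term `x_0 x_1 ... x_k` -/
private def CritNprd : ℕ → RTerm
  | 0 => .var 0
  | k + 1 => .mul (CritNprd k) (.var (k + 1))

private theorem CritNprd_eval {R : Type} [NonUnitalCommRing R] (z : ℕ → R) (k : ℕ) :
    (CritNprd k).eval z = prd z k := by
  induction k with
  | zero => rfl
  | succ k ih => rw [CritNprd, RTerm.eval, ih]; rfl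

/-- the term `0` -/
private def CritNzero : RTerm := .add (.var 0) (.neg (.var 0))

private theorem CritNzero_eval {R : Type} [NonUnitalRing R] (z : ℕ → R) :
    CritNzero.eval z = 0 := add_neg_cancel _

/-- the term `(n + 1) s` -/
private def CritNns (s : RTerm) : ℕ → RTerm
  | 0 => s
  | k + 1 => .add (CritNns s k) s

private theorem CritNns_eval {R : Type} [NonUnitalCommRing R] (z : ℕ → R) (s : RTerm) (k : ℕ) :
    (CritNns s k).eval z = (k + 1) • s.eval z := by
  induction k with
  | zero => rw [CritNns, zero_add, one_smul]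
  | succ k ih => rw [CritNns, RTerm.eval, ih, succ_nsmul (s.eval z) (k + 1)]

/-- the term `d s` -/
private def CritNz (d : ℤ) (s : RTerm) : RTerm :=
  match d with
  | Int.ofNat 0 => CritNzero
  | Int.ofNat (n + 1) => CritNns s n
  | Int.negSucc n => .neg (CritNns s n)

private theorem CritNz_eval {R : Type} [NonUnitalCommRing R] (z : ℕ → R) (d : ℤ) (s : RTerm) :
    (CritNz d s).eval z = d • s.eval z := by
  match d with
  | Int.ofNat 0 =>
    rw [CritNz, CritNzero_eval]
    exact (zero_smul ℤ _).symm
  | Int.ofNat (n + 1) =>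
    rw [CritNz, CritNns_eval]
    exact (natCast_zsmul _ _).symm
  | Int.negSucc n =>
    rw [CritNz, RTerm.eval, CritNns_eval, negSucc_zsmul]

/-- the term `d x_0 ... x_k + d' x_0 (x_0 ... x_k)` -/
private def CritNtrm (d d' : ℤ) (k : ℕ) : RTerm :=
  .add (CritNz d (CritNprd k)) (CritNz d' (.mul (.var 0) (CritNprd k)))

private theorem CritNtrm_eval {R : Type} [NonUnitalCommRing R] (z : ℕ → R) (d d' : ℤ) (k : ℕ) :
    (CritNtrm d d' k).eval z = FrmN d d' k z := by
  rw [CritNtrm, RTerm.eval, CritNz_eval, CritNz_eval, RTerm.eval, CritNprd_eval]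
  rfl

/-- N23: a commutative ring with a detecting form is critical. -/
theorem critN : St2_critN := by
  intro R _ _ d d' k hD
  refine critical_of_exists (CritNtrm d d' k) CritNzero ?_ ?_
  · intro F _ hF hne v
    rw [CritNzero_eval]
    by_contra hcon
    obtain ⟨S, f, hf⟩ := hF
    choose u hu using hf
    have e1 : (CritNtrm d d' k).eval v = f ((CritNtrm d d' k).eval (fun i => u (v i))) := by
      rw [eval_map]
      congr 1
      funext i
      exact (hu (v i)).symm
    have e2 : (((CritNtrm d d' k).eval (fun i => u (v i)) : S) : R) =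
        FrmN d d' k (fun i => ((u (v i) : S) : R)) := by
      rw [eval_coe, CritNtrm_eval]
    have e3 : FrmN d d' k (fun i => ((u (v i) : S) : R)) ≠ 0 := by
      intro e
      apply hcon
      rw [e1]
      have : (CritNtrm d d' k).eval (fun i => u (v i)) = 0 := Subtype.ext (e2.trans e)
      rw [this, map_zero]
    have hS : S = ⊤ := by
      by_contra hS
      exact e3 (hD.sub S hS _ fun i => (u (v i)).2)
    have hall : ∀ x : R, x ∈ S := by
      intro x
      rw [hS]
      exact NonUnitalSubring.mem_top x
    let I : AddSubgroup R :=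
      { carrier := {x | f ⟨x, hall x⟩ = 0}
        add_mem' := by
          intro a b ha hb
          have h1 : (⟨a + b, hall (a + b)⟩ : S) = ⟨a, hall a⟩ + ⟨b, hall b⟩ := rfl
          show f ⟨a + b, hall (a + b)⟩ = 0
          rw [h1, map_add, show f ⟨a, hall a⟩ = 0 from ha, show f ⟨b, hall b⟩ = 0 from hb,
            add_zero]
        zero_mem' := by
          have h1 : (⟨0, hall 0⟩ : S) = 0 := rfl
          show f ⟨0, hall 0⟩ = 0
          rw [h1, map_zero]
        neg_mem' := by
          intro a ha
          have h1 : (⟨-a, hall (-a)⟩ : S) = -⟨a, hall a⟩ := rfl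
          show f ⟨-a, hall (-a)⟩ = 0
          rw [h1, map_neg, show f ⟨a, hall a⟩ = 0 from ha, neg_zero] }
    have hI : IsIdl R I := by
      intro r x hx
      have h1 : (⟨r * x, hall (r * x)⟩ : S) = ⟨r, hall r⟩ * ⟨x, hall x⟩ := rfl
      show f ⟨r * x, hall (r * x)⟩ = 0
      rw [h1, map_mul, show f ⟨x, hall x⟩ = 0 from hx, mul_zero]
    have hbot : I = ⊥ := by
      by_contra hI0
      have h1 : FrmN d d' k (fun i => ((u (v i) : S) : R)) ∈ I := hD.lst I hI hI0 _
      have h2 : f ⟨FrmN d d' k (fun i => ((u (v i) : S) : R)), hall _⟩ = 0 := h1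
      apply hcon
      rw [e1, ← h2]
      congr 1
      exact Subtype.ext e2
    have hinj : Function.Injective f := by
      rw [injective_iff_map_eq_zero]
      intro a ha
      have h1 : (a : R) ∈ I := ha
      rw [hbot, AddSubgroup.mem_bot] at h1
      exact Subtype.ext h1
    have hsurj : Function.Surjective f := fun y => ⟨u y, hu y⟩
    let E1 : S ≃+* F := RingEquiv.ofBijective f ⟨hinj, hsurj⟩
    have hval : Function.Bijective (NonUnitalSubringClass.subtype S) :=
      ⟨Subtype.val_injective, fun x => ⟨⟨x, hall x⟩, rfl⟩⟩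
    let E2 : S ≃+* R := RingEquiv.ofBijective (NonUnitalSubringClass.subtype S) hval
    exact hne.false (E1.symm.trans E2)
  · intro hh
    obtain ⟨z, hz⟩ := hD.ne
    apply hz
    rw [← CritNtrm_eval, hh z, CritNzero_eval]

end Pool.Agent.CRR
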