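import Mathlib

/-!
Campaign CRR: commutative critical rings of order prime to 6 in the variety x^3 = x^n
(problem MP_1bb14d_al).  Definitions.
-/

namespace Pool.Agent.CRR

/-- Ring terms (no identity element) in the variables `x_0, x_1, ...`. -/
inductive RTerm : Type
  | var : ℕ → RTerm
  | add : RTerm → RTerm → RTerm
  | neg : RTerm → RTerm
  | mul : RTerm → RTerm → RTerm

/-- The value of a term when `x_i` takes the value `v i`. -/
def RTerm.eval {R : Type} [NonUnitalRing R] (v : ℕ → R) : RTerm → R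
  | .var i => v i
  | .add s t => s.eval v + t.eval v
  | .neg s => -(s.eval v)
  | .mul s t => s.eval v * t.eval v

/-- The ring `R` satisfies the identity `s = t`. -/
def Holds (R : Type) [NonUnitalRing R] (s t : RTerm) : Prop :=
  ∀ v : ℕ → R, s.eval v = t.eval v

/-- `F` is (up to isomorphism) a factor `S/I` of `R`: the image of a subring `S` of `R`
under a surjective homomorphism (with kernel `I`). -/
def IsFactor (R : Type) [NonUnitalRing R] (F : Type) [NonUnitalRing F] : Prop :=
  ∃ (S : NonUnitalSubring R) (f : S →ₙ+* F), Function.Surjective f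

/-- `R` belongs to the variety generated by its proper factors, that is, `R` satisfies every
identity which holds in all factors of `R` that are not isomorphic to `R`. -/
def InProperVariety (R : Type) [NonUnitalRing R] : Prop :=
  ∀ s t : RTerm,
    (∀ (F : Type) [NonUnitalRing F], IsFactor R F → IsEmpty (F ≃+* R) → Holds F s t) →
      Holds R s t

/-- `R` is a critical ring: finite and not in the variety generated by its proper factors. -/
def Critical (R : Type) [NonUnitalRing R] : Prop :=
  Finite R ∧ ¬ InProperVariety R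

/-- `pw x k` is `x^(k+1)`. -/
def pw {R : Type} [NonUnitalRing R] (x : R) : ℕ → R
  | 0 => x
  | k + 1 => pw x k * x

/-- `R` belongs to the variety given by the identity `x^3 = x^n` (`n ≥ 1`). -/
def InM (n : ℕ) (R : Type) [NonUnitalRing R] : Prop :=
  ∀ x : R, pw x 2 = pw x (n - 1)

/-- The nilpotent critical rings: for a prime `p` and a generator `x`, either `R` is additively
cyclic of order `p^c`, generated by `x`, with `x^2 = p^(c-b) x`, `0 ≤ b ≤ c/2`, `c ≥ 1`; or `R`
has order `p^(2b)`, is additively generated by `x` and `x^2`, and `p^b x = p^j x^2`,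
`p^b x^2 = 0`, `x^3 = 0` with `1 ≤ j ≤ b`. -/
def NilType (R : Type) [NonUnitalCommRing R] : Prop :=
  ∃ (p : ℕ) (x : R), p.Prime ∧
    ((∃ b c : ℕ, 1 ≤ c ∧ 2 * b ≤ c ∧ Nat.card R = p ^ c ∧ (∀ r : R, ∃ a : ℤ, r = a • x) ∧
        x * x = (p ^ (c - b)) • x) ∨
      (∃ b j : ℕ, 1 ≤ j ∧ j ≤ b ∧ Nat.card R = p ^ (2 * b) ∧
        (∀ r : R, ∃ a a' : ℤ, r = a • x + a' • (x * x)) ∧
        (p ^ b) • x = (p ^ j) • (x * x) ∧ (p ^ b) • (x * x) = 0 ∧ x * x * x = 0))

/-- The critical rings with identity in the variety `x^3 = x^n`: `R` is isomorphic to a local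
ring `K` with maximal ideal `J` such that `J^3 = 0`, such that `J` is principal or
`J = (p, y)` with `p` a prime number, `p^2 = y^2 = 0`, `p y ≠ 0`, and such that `|K/J| - 1`
divides `n - 3` and `(n-3) J = 0`. -/
def UnitalType (n : ℕ) (R : Type) [NonUnitalCommRing R] : Prop :=
  ∃ (K : Type) (_ : CommRing K) (_ : IsLocalRing K), Nonempty (R ≃+* K) ∧
    (∀ x ∈ IsLocalRing.maximalIdeal K, ∀ y ∈ IsLocalRing.maximalIdeal K,
      ∀ z ∈ IsLocalRing.maximalIdeal K, x * y * z = 0) ∧
    ((∃ z : K, IsLocalRing.maximalIdeal K = Ideal.span {z}) ∨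
      (∃ (p : ℕ) (y : K), p.Prime ∧ IsLocalRing.maximalIdeal K = Ideal.span {(p : K), y} ∧
        (p : K) ^ 2 = 0 ∧ y ^ 2 = 0 ∧ (p : K) * y ≠ 0)) ∧
    (Nat.card (IsLocalRing.ResidueField K) - 1 ∣ n - 3) ∧
    (∀ j ∈ IsLocalRing.maximalIdeal K, (n - 3) • j = 0)

end Pool.Agent.CRR
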