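import Pool.Agent.CRR.Basic

/-!
Campaign CRR, part 2: all commutative critical rings of the variety x^3 = x^n
(problem MP_1bb14d_al).  Definitions.
-/

namespace Pool.Agent.CRR

open Finset IsLocalRing

/-- `prd x k = x_0 x_1 ... x_k` (`k + 1` factors). -/
def prd {R : Type} [NonUnitalCommRing R] (x : ℕ → R) : ℕ → R
  | 0 => x 0
  | k + 1 => prd x k * x (k + 1)

/-- `I` is an ideal of the commutative ring `R` (identity not assumed). -/
def IsIdl (R : Type) [NonUnitalCommRing R] (I : AddSubgroup R) : Prop :=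
  ∀ r : R, ∀ x ∈ I, r * x ∈ I

/-- The additive group `p^a R^(k+1)`, generated by the elements `p^a x_0 x_1 ... x_k`. -/
def pwr (R : Type) [NonUnitalCommRing R] (p a k : ℕ) : AddSubgroup R :=
  AddSubgroup.closure {y | ∃ x : ℕ → R, y = (p ^ a) • prd x k}

open Classical in
/-- The number of generators: `⌈b/2⌉` for `p ≠ 2`; for `p = 2` it is `b - 1` if `E` holds and `b`
otherwise. -/
noncomputable def gnum (p b : ℕ) (E : Prop) : ℕ :=
  if p = 2 then (if E then b - 1 else b) else (b + 1) / 2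

/-- The nilpotent critical rings: `R` is nilpotent, of order a power of a prime `p`, the least
nonzero ideal of `R` is `p^a R^b` (`b = k + 1 ≥ 1`), and `R` is generated by `g` elements, where
`g = ⌈b/2⌉` for `p ≠ 2`, and for `p = 2` `g = b - 1` if `b ≥ 2` and
`2^a x_1^2 x_2 ... x_(b-1) ≠ 0` for some `x_i`, `g = b` otherwise. -/
def NilpType (R : Type) [NonUnitalCommRing R] : Prop :=
  ∃ p a k : ℕ, p.Prime ∧ (∃ e, Nat.card R = p ^ e) ∧ (∃ c, ∀ x : ℕ → R, prd x c = 0) ∧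
    pwr R p a k ≠ ⊥ ∧ (∀ I : AddSubgroup R, IsIdl R I → I ≠ ⊥ → pwr R p a k ≤ I) ∧
    ∃ y : Fin (gnum p (k + 1) (1 ≤ k ∧ ∃ x : ℕ → R, (p ^ a) • (x 0 * prd x (k - 1)) ≠ 0)) → R,
      NonUnitalSubring.closure (Set.range y) = ⊤

/-- The critical rings with identity (with one exception): `K` is local with maximal ideal `J`,
`p ∈ J`, `p^a J^b` is the least nonzero ideal of `K`, `p^(a+1) J^(b-1) = 0` if `b ≥ 1`, and `J` is
generated by `p` and `g` further elements, `g` as in `NilpType` (`x_i ∈ J`). -/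
def LocType (K : Type) [CommRing K] [IsLocalRing K] : Prop :=
  ∃ p a b : ℕ, p.Prime ∧
    Ideal.span {(p : K) ^ a} * maximalIdeal K ^ b ≠ ⊥ ∧
    (∀ I : Ideal K, I ≠ ⊥ → Ideal.span {(p : K) ^ a} * maximalIdeal K ^ b ≤ I) ∧
    (1 ≤ b → Ideal.span {(p : K) ^ (a + 1)} * maximalIdeal K ^ (b - 1) = ⊥) ∧
    ∃ y : Fin (gnum p b (2 ≤ b ∧ ∃ x : ℕ → K, (∀ i, x i ∈ maximalIdeal K) ∧
        (p : K) ^ a * (x 0 * ∏ i ∈ range (b - 1), x i) ≠ 0)) → K,
      maximalIdeal K = Ideal.span ({(p : K)} ∪ Set.range y)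

/-- The exceptional critical ring `Z/8[y]/(2 y, y^2 - 4)`: the ring has 16 elements, `4 ≠ 0`, and
for some `y` one has `2 y = 0` and `y^2 = 4`. -/
def ExcType (K : Type) [CommRing K] : Prop :=
  Nat.card K = 16 ∧ (4 : K) ≠ 0 ∧ ∃ y : K, 2 * y = 0 ∧ y ^ 2 = 4

/-- The list of all commutative critical rings in the varieties `x^3 = x^n`. -/
def CritType (R : Type) [NonUnitalCommRing R] : Prop :=
  NilpType R ∨ ∃ (K : Type) (_ : CommRing K), Nonempty (R ≃+* K) ∧
    ((∃ _ : IsLocalRing K, LocType K) ∨ ExcType K)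

/-! The following definitions are used only in the proofs. -/

/-- The form `d z_0 ... z_(k-1) + d' z_0 (z_0 ... z_(k-1))`. -/
def Frm {K : Type} [CommRing K] (d d' : K) (k : ℕ) (z : ℕ → K) : K :=
  d * ∏ i ∈ range k, z i + (if k = 0 then 0 else d' * (z 0 * ∏ i ∈ range k, z i))

/-- The form on `J` is nonzero, its values lie in every nonzero ideal, and it vanishes on `J ∩ S`
for all proper subrings `S ⊇ W`. -/
structure Det (K : Type) [CommRing K] (J : Ideal K) (W : Subring K) (d d' : K) (k : ℕ) :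
    Prop where
  ne : ∃ z : ℕ → K, (∀ i, z i ∈ J) ∧ Frm d d' k z ≠ 0
  lst : ∀ I : Ideal K, I ≠ ⊥ → ∀ z : ℕ → K, (∀ i, z i ∈ J) → Frm d d' k z ∈ I
  sub : ∀ S : Subring K, W ≤ S → S ≠ ⊤ → ∀ z : ℕ → K, (∀ i, z i ∈ J ∧ z i ∈ S) →
    Frm d d' k z = 0

/-- The form `d z_0 ... z_k + d' z_0 (z_0 ... z_k)` on a ring without identity. -/
def FrmN {R : Type} [NonUnitalCommRing R] (d d' : ℤ) (k : ℕ) (z : ℕ → R) : R :=
  d • prd z k + d' • (z 0 * prd z k)

/-- The form is nonzero, its values lie in every nonzero ideal, and it vanishes on all proper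
subrings. -/
structure DetN (R : Type) [NonUnitalCommRing R] (d d' : ℤ) (k : ℕ) : Prop where
  ne : ∃ z : ℕ → R, FrmN d d' k z ≠ 0
  lst : ∀ I : AddSubgroup R, IsIdl R I → I ≠ ⊥ → ∀ z : ℕ → R, FrmN d d' k z ∈ I
  sub : ∀ S : NonUnitalSubring R, S ≠ ⊤ → ∀ z : ℕ → R, (∀ i, z i ∈ S) → FrmN d d' k z = 0

/-- The subring generated by the Teichmueller elements (`x^q = x`, `q` the order of the residue
field). -/
def WK (K : Type) [CommRing K] [IsLocalRing K] : Subring K :=
  Subring.closure {x : K | x ^ Nat.card (ResidueField K) = x}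

/-- All elements of `J` have cube 0. -/
def Cube {K : Type} [CommRing K] (J : Ideal K) : Prop := ∀ x ∈ J, x ^ 3 = 0

/-- The value of `∑ c_β j^β`, `β ∈ S`. -/
noncomputable def pval {K : Type} [CommRing K] (S : Finset (ℕ →₀ ℕ)) (c : (ℕ →₀ ℕ) → K)
    (j : ℕ → K) : K := ∑ β ∈ S, c β * β.prod (fun i e => j i ^ e)

end Pool.Agent.CRR
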