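import Pool.Agent.CRR.St2

/-!
Campaign CRR, part 2 (MP_1bb14d_al): the detecting form of a nilpotent critical ring.
-/

namespace Pool.Agent.CRR

open Finset

section aux

variable (R : Type) [NonUnitalCommRing R]

/-- The embedding of `R` in `ℤ ⊕ R`. -/
private def phi : R →ₙ+* Unitization ℤ R where
  toFun := fun r => (r : Unitization ℤ R)
  map_mul' := fun x y => Unitization.inr_mul ℤ x y
  map_zero' := Unitization.inr_zero ℤ
  map_add' := fun x y => Unitization.inr_add ℤ x y

/-- The ideal `R` of `ℤ ⊕ R`. -/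
private def jd : Ideal (Unitization ℤ R) := RingHom.ker (Unitization.fstHom ℤ R).toRingHom

variable {R}

private theorem phi_inj : Function.Injective (phi R) := Unitization.inr_injective

private theorem mem_jd (x : Unitization ℤ R) : x ∈ jd R ↔ x.fst = 0 := Iff.rfl

private theorem phi_mem (r : R) : phi R r ∈ jd R := by
  rw [mem_jd]
  exact Unitization.fst_inr ℤ r

private theorem exists_phi {x : Unitization ℤ R} (hx : x ∈ jd R) : ∃ r : R, phi R r = x := by
  rw [mem_jd] at hx
  refine ⟨x.snd, ?_⟩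
  have h1 := Unitization.inl_fst_add_inr_snd_eq x
  rw [hx, Unitization.inl_zero, zero_add] at h1
  exact h1

private theorem cube_jd (h3 : ∀ x : R, x * x * x = 0) : Cube (K := Unitization ℤ R) (jd R) := by
  intro x hx
  obtain ⟨r, rfl⟩ := exists_phi hx
  rw [pow_succ, pow_two, ← map_mul, ← map_mul, h3, map_zero]

private theorem eval_zero {A : Type} [NonUnitalRing A] (t : RTerm) : t.eval (fun _ => (0 : A)) = 0 := by
  induction t with
  | var i => rfl
  | add s t hs ht => simp [RTerm.eval, hs, ht]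
  | neg s hs => simp [RTerm.eval, hs]
  | mul s t hs ht => simp [RTerm.eval, hs, ht]

private theorem prod_phi (z : ℕ → R) (k : ℕ) :
    ∏ i ∈ range (k + 1), phi R (z i) = phi R (prd z k) := by
  induction k with
  | zero => simp [prd]
  | succ k ih => rw [prod_range_succ, ih, prd, map_mul]

private theorem frm_phi (m m' : ℤ) (k : ℕ) (z : ℕ → R) :
    Frm (m : Unitization ℤ R) (m' : Unitization ℤ R) (k + 1) (fun i => phi R (z i)) =
      phi R (FrmN m m' k z) := by
  unfold Frm FrmN
  rw [if_neg (Nat.succ_ne_zero k), prod_phi, map_add, map_zsmul, map_zsmul, map_mul,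
    zsmul_eq_mul, zsmul_eq_mul]

/-- in a finite ring of odd order `2` acts invertibly on the quotients by subgroups -/
private theorem two_mem [Finite R] (hodd : Nat.card R % 2 = 1) (I : AddSubgroup R) (r : R)
    (h : r + r ∈ I) : r ∈ I := by
  have h1 : Nat.card R • r = 0 := card_nsmul_eq_zero'
  have h2 : ((Nat.card R + 1) / 2) • (r + r) ∈ I := I.nsmul_mem h _
  have h3 : ((Nat.card R + 1) / 2) • (r + r) = r := by
    rw [← two_nsmul, smul_smul]
    have h4 : (Nat.card R + 1) / 2 * 2 = Nat.card R + 1 := by omega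
    rw [h4, add_smul, h1, one_smul, zero_add]
  rwa [h3] at h2

private theorem two_pow_map {K : Type} [CommRing K] (f : R →ₙ+* K) (e : ℕ) (r : R) :
    (2 : K) ^ e * f r = f ((2 ^ e) • r) := by
  rw [map_nsmul, nsmul_eq_mul, Nat.cast_pow, Nat.cast_ofNat]

end aux

theorem detN (hpoly : St2_poly) (hodd : St2_extodd) (htwo : St2_exttwo)
    (h2 : St2_two) : St2_detN := by
  intro R _ p e hp hc hcard h3
  have hfin : Finite R := hc.1
  obtain ⟨s, t, hst, hne⟩ := critical_exists hc
  obtain ⟨v, hv⟩ : ∃ v : ℕ → R, s.eval v ≠ t.eval v := by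
    by_contra hcon
    push Not at hcon
    exact hne hcon
  obtain ⟨S, c, hcW, hS⟩ := hpoly (Unitization ℤ R) ⊥ (fun _ => 0)
    (fun _ => Subring.zero_mem ⊥) s t
  have hval : ∀ u : ℕ → R, pval S c (fun i => phi R (u i)) = phi R (s.eval u - t.eval u) := by
    intro u
    rw [← hS, map_sub, eval_map, eval_map]
    simp only [zero_add]
  have hcube := cube_jd h3
  have hex : ∃ j : ℕ → Unitization ℤ R, (∀ i, j i ∈ jd R) ∧ pval S c j ≠ 0 := by
    refine ⟨fun i => phi R (v i), fun i => phi_mem _, ?_⟩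
    rw [hval]
    intro h0
    have h1 := phi_inj (h0.trans (map_zero (phi R)).symm)
    exact hv (sub_eq_zero.1 h1)
  have hodd2 : p ≠ 2 → Nat.card R % 2 = 1 := by
    intro h
    rw [hcard]
    exact Nat.odd_iff.1 ((hp.odd_of_ne_two h).pow)
  -- the form
  obtain ⟨m, m', k, hm', ⟨z, hzJ, hz⟩, hN⟩ : ∃ (m m' : ℤ) (k : ℕ), (p ≠ 2 → m' = 0) ∧
      (∃ z : ℕ → Unitization ℤ R, (∀ i, z i ∈ jd R) ∧
        Frm (m : Unitization ℤ R) (m' : Unitization ℤ R) k z ≠ 0) ∧
      ∀ N T : AddSubgroup (Unitization ℤ R), (∀ x ∈ T, x ∈ jd R) →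
        (p ≠ 2 → ∀ x ∈ jd R, 2 * x ∈ N → x ∈ N) →
        (∀ j : ℕ → Unitization ℤ R, (∀ i, j i ∈ T) → pval S c j ∈ N) →
        ∀ z : ℕ → Unitization ℤ R, (∀ i, z i ∈ T) →
          Frm (m : Unitization ℤ R) (m' : Unitization ℤ R) k z ∈ N := by
    by_cases hp2 : p = 2
    · obtain ⟨-, h5, h6⟩ := h2 (Unitization ℤ R) (jd R) e hcube (by
        intro x hx
        obtain ⟨r, rfl⟩ := exists_phi hx
        have h7 : Nat.card R • r = 0 := card_nsmul_eq_zero'
        rw [hcard, hp2] at h7
        refine (two_pow_map (K := Unitization ℤ R) (phi R) e r).trans ?_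
        rw [h7, map_zero])
      obtain ⟨d, hd, d', hd', k, h7, h8⟩ := htwo (Unitization ℤ R) (jd R) ⊥ hcube h5 h6 S c hcW hex
      obtain ⟨m, rfl⟩ := Subring.mem_bot.1 hd
      obtain ⟨m', rfl⟩ := Subring.mem_bot.1 hd'
      exact ⟨m, m', k, fun h => absurd hp2 h, h7, fun N T h9 _ h10 => h8 N T h9 h10⟩
    · obtain ⟨d, hd, k, h7, h8⟩ := hodd (Unitization ℤ R) (jd R) ⊥ hcube S c hcW hex
      obtain ⟨m, rfl⟩ := Subring.mem_bot.1 hd
      refine ⟨m, 0, k, fun _ => rfl, ?_, ?_⟩
      · rw [Int.cast_zero]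
        exact h7
      · rw [Int.cast_zero]
        exact fun N T h9 h10 h11 => h8 N T h9 (h10 hp2) h11
  -- for the subgroups of `R`
  have hN' : ∀ I T : AddSubgroup R,
      (∀ u : ℕ → R, (∀ i, u i ∈ T) → s.eval u - t.eval u ∈ I) →
      ∀ u : ℕ → R, (∀ i, u i ∈ T) →
        Frm (m : Unitization ℤ R) (m' : Unitization ℤ R) k (fun i => phi R (u i)) ∈
          I.map (phi R : R →+ Unitization ℤ R) := by
    intro I T hIT u hu
    refine hN (I.map (phi R : R →+ Unitization ℤ R)) (T.map (phi R : R →+ Unitization ℤ R))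
      ?_ ?_ ?_ _ ?_
    · rintro x ⟨r, -, rfl⟩
      exact phi_mem r
    · rintro hp2 x hx ⟨i, hi, h5⟩
      obtain ⟨r, rfl⟩ := exists_phi hx
      refine ⟨r, ?_, rfl⟩
      refine two_mem (hodd2 hp2) I r ?_
      have h6 : phi R i = phi R (r + r) := by
        rw [map_add, ← two_mul]
        exact h5
      rw [← phi_inj h6]
      exact hi
    · intro j hj
      choose y hy hyj using hj
      have h7 : j = fun i => phi R (y i) := funext fun i => (hyj i).symm
      rw [h7, hval]
      exact ⟨_, hIT y hy, rfl⟩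
    · intro i
      exact ⟨u i, hu i, rfl⟩
  -- `k` is not `0`
  obtain ⟨k, rfl⟩ : ∃ k', k = k' + 1 := by
    rcases Nat.eq_zero_or_pos k with rfl | hk
    · exfalso
      have h5 := hN' ⊥ ⊥ (by
        intro u hu
        have h6 : u = fun _ => 0 := funext fun i => (AddSubgroup.mem_bot.1 (hu i))
        rw [h6, eval_zero, eval_zero, sub_zero]
        exact zero_mem _) (fun _ => 0) (fun _ => zero_mem _)
      obtain ⟨x, hx, h6⟩ := h5
      rw [SetLike.mem_coe, AddSubgroup.mem_bot] at hx
      rw [hx] at h6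
      have h7 : (0 : Unitization ℤ R) = Frm (m : Unitization ℤ R) (m' : Unitization ℤ R) 0
          (fun i => phi R ((fun _ => (0 : R)) i)) := (map_zero (phi R)).symm.trans h6
      apply hz
      unfold Frm at h7 ⊢
      rw [range_zero, prod_empty, if_pos rfl] at h7 ⊢
      exact h7.symm
    · exact ⟨k - 1, by omega⟩
  refine ⟨m, m', k, hm', ?_, ?_, ?_⟩
  · choose y hy using fun i => exists_phi (hzJ i)
    have h7 : z = fun i => phi R (y i) := funext fun i => (hy i).symm
    refine ⟨y, fun h0 => hz ?_⟩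
    rw [h7, frm_phi, h0, map_zero]
  · intro I hI hI0 u
    obtain ⟨F, _, f, hf, hk⟩ := exists_quotient I hI
    have h1 := hst F (isFactor_image f hf) (quotient_card_lt f hf I hk hI0)
    obtain ⟨i, hi, h6⟩ := hN' I ⊤ (by
      intro u _
      rw [← hk, map_sub, eval_map, eval_map, h1, sub_self]) u (fun i => AddSubgroup.mem_top _)
    rw [frm_phi] at h6
    have h7 : i = FrmN m m' k u := phi_inj h6
    rw [← h7]
    exact hi
  · intro S' hS' u hu
    have h1 := hst S' (isFactor_subring S') (subring_card_lt S' hS')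
    rw [holds_subring_iff] at h1
    obtain ⟨i, hi, h6⟩ := hN' ⊥ S'.toAddSubgroup (by
      intro u hu
      rw [h1 u hu, sub_self]
      exact zero_mem _) u hu
    rw [SetLike.mem_coe, AddSubgroup.mem_bot] at hi
    rw [frm_phi, hi] at h6
    exact (phi_inj h6).symm

end Pool.Agent.CRR
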