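import Pool.Agent.CRR.St2

/-!
Campaign CRR, part 2 (MP_1bb14d_al): module N5, the determining form of a critical local ring.
-/

set_option autoImplicit false

namespace Pool.Agent.CRR

open Finset IsLocalRing

private theorem det_lst {K : Type} [CommRing K] [Finite K] {s t : RTerm}
    (hst : ∀ (F : Type) [NonUnitalRing F], IsFactor K F → Nat.card F < Nat.card K → Holds F s t)
    (I : Ideal K) (hI : I ≠ ⊥) (v : ℕ → K) : s.eval v - t.eval v ∈ I := by
  obtain ⟨F, _, f, hf, hker⟩ := exists_quotient (R := K) I.toAddSubgroup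
    (fun r i hi => I.mul_mem_left r hi)
  have hne : I.toAddSubgroup ≠ ⊥ := by
    intro h
    apply hI
    rw [Submodule.eq_bot_iff]
    intro x hx
    have h1 : x ∈ I.toAddSubgroup := hx
    rw [h] at h1
    exact AddSubgroup.mem_bot.mp h1
  have h := hst F (isFactor_image f hf) (quotient_card_lt f hf I.toAddSubgroup hker hne)
  have h1 := h (fun i => f (v i))
  rw [← eval_map, ← eval_map] at h1
  have h2 : f (s.eval v - t.eval v) = 0 := by rw [map_sub, h1, sub_self]
  exact (hker _).mp h2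

private theorem det_sub {K : Type} [CommRing K] [Finite K] {s t : RTerm}
    (hst : ∀ (F : Type) [NonUnitalRing F], IsFactor K F → Nat.card F < Nat.card K → Holds F s t)
    (S : Subring K) (hS : S ≠ ⊤) (v : ℕ → K) (hv : ∀ i, v i ∈ S) : s.eval v - t.eval v = 0 := by
  have hne : S.toNonUnitalSubring ≠ ⊤ := by
    intro h
    apply hS
    rw [eq_top_iff]
    intro x _
    have h1 : x ∈ S.toNonUnitalSubring := by
      rw [h]
      exact NonUnitalSubring.mem_top x
    exact h1
  have h := hst _ (isFactor_subring S.toNonUnitalSubring)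
    (subring_card_lt S.toNonUnitalSubring hne)
  rw [holds_subring_iff] at h
  rw [h v (fun i => hv i), sub_self]

/-- N5: the determining form. -/
theorem det (hpoly : St2_poly) (hodd : St2_extodd) (htwo : St2_exttwo) (h2 : St2_two) :
    St2_det := by
  intro K _ _ p hp hc hpJ hcube hW
  have hfin : Finite K := hc.1
  obtain ⟨s, t, hst, hne⟩ := critical_exists hc
  unfold Holds at hne
  push Not at hne
  obtain ⟨v, hv⟩ := hne
  choose w hwW hwJ using hW
  obtain ⟨S, c, hcW, hev⟩ := hpoly K (WK K) (fun i => w (v i)) (fun i => hwW _) s t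
  have hnz : ∃ j : ℕ → K, (∀ i, j i ∈ maximalIdeal K) ∧ pval S c j ≠ 0 := by
    refine ⟨fun i => v i - w (v i), fun i => hwJ _, ?_⟩
    rw [← hev]
    simpa [sub_ne_zero] using hv
  have hl : ∀ I : Ideal K, I ≠ ⊥ → ∀ j : ℕ → K, pval S c j ∈ I := by
    intro I hI j
    rw [← hev]
    exact det_lst hst I hI _
  have hs : ∀ S' : Subring K, WK K ≤ S' → S' ≠ ⊤ → ∀ j : ℕ → K, (∀ i, j i ∈ S') →
      pval S c j = 0 := by
    intro S' hWS hS' j hj
    rw [← hev]
    exact det_sub hst S' hS' _ (fun i => S'.add_mem (hWS (hwW _)) (hj i))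
  have key : ∃ d ∈ WK K, ∃ d' ∈ WK K, ∃ k : ℕ, (p ≠ 2 → d' = 0) ∧
      (∃ z : ℕ → K, (∀ i, z i ∈ maximalIdeal K) ∧ Frm d d' k z ≠ 0) ∧
      ∀ (I : Ideal K) (T : AddSubgroup K), (∀ x ∈ T, x ∈ maximalIdeal K) →
        (∀ j : ℕ → K, (∀ i, j i ∈ T) → pval S c j ∈ I) →
        ∀ z : ℕ → K, (∀ i, z i ∈ T) → Frm d d' k z ∈ I := by
    by_cases hp2 : p = 2
    · subst hp2
      have h8 : ∀ x ∈ maximalIdeal K, (2 : K) ^ 3 * x = 0 := by
        intro x _
        have h9 := hcube 2 (by exact_mod_cast hpJ)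
        rw [h9, zero_mul]
      obtain ⟨-, ha, hb⟩ := h2 K (maximalIdeal K) 3 hcube h8
      obtain ⟨d, hd, d', hd', k, hz, hN⟩ := htwo K (maximalIdeal K) (WK K) hcube ha hb S c hcW hnz
      exact ⟨d, hd, d', hd', k, fun h => absurd rfl h, hz,
        fun I T hT hj z hz => hN I.toAddSubgroup T hT hj z hz⟩
    · obtain ⟨d, hd, k, hz, hN⟩ := hodd K (maximalIdeal K) (WK K) hcube S c hcW hnz
      refine ⟨d, hd, 0, (WK K).zero_mem, k, fun _ => rfl, hz,
        fun I T hT hj z hz => hN I.toAddSubgroup T hT ?_ hj z hz⟩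
      have hu : IsUnit (2 : K) := by
        by_contra hcon
        have h2J : (2 : K) ∈ maximalIdeal K := (mem_maximalIdeal _).mpr hcon
        obtain ⟨m, hm⟩ := hp.odd_of_ne_two hp2
        have h1 : (1 : K) ∈ maximalIdeal K := by
          have h3 : (1 : K) = (p : K) - (m : K) * 2 := by
            rw [hm]; push_cast; ring
          rw [h3]
          exact (maximalIdeal K).sub_mem hpJ ((maximalIdeal K).mul_mem_left _ h2J)
        exact (Ideal.ne_top_iff_one _).mp (maximalIdeal.isMaximal K).ne_top h1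
      intro x _ hx
      have hx' : 2 * x ∈ I := hx
      exact (Ideal.unit_mul_mem_iff_mem I hu).mp hx'
  obtain ⟨d, hd, d', hd', k, hpd, hz, hN⟩ := key
  refine ⟨d, hd, d', hd', k, hpd, ⟨hz, ?_, ?_⟩⟩
  · intro I hI z hz
    exact hN I (maximalIdeal K).toAddSubgroup (fun x hx => hx) (fun j _ => hl I hI j) z hz
  · intro S' hWS hS' z hz
    have h5 := hN ⊥ ((maximalIdeal K).toAddSubgroup ⊓ S'.toAddSubgroup) (fun x hx => hx.1)
      (fun j hj => by
        rw [Submodule.mem_bot]
        exact hs S' hWS hS' j (fun i => (hj i).2)) z (fun i => ⟨(hz i).1, (hz i).2⟩)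
    exact (Submodule.mem_bot K).mp h5

end Pool.Agent.CRR
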