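import Pool.Agent.CRR.St2

/-!
Campaign CRR, part 2 (MP_1bb14d_al): module Dim2, the dimension lemma for local rings.
-/

namespace Pool.Agent.CRR

open Finset IsLocalRing

private theorem dim2_step {K : Type} [CommRing K] (S : Subring K) (J : Ideal K)
    (h1 : ∀ x ∈ J, ∃ s ∈ S, s ∈ J ∧ x - s ∈ J ^ 2) :
    ∀ n : ℕ, ∀ x ∈ J ^ (n + 1), ∃ s ∈ S, s ∈ J ^ (n + 1) ∧ x - s ∈ J ^ (n + 2) := by
  intro n
  induction n with
  | zero =>
    intro x hx
    rw [zero_add, pow_one] at *
    exact h1 x hx
  | succ n ih =>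
    intro x hx
    rw [pow_succ] at hx
    refine Submodule.mul_induction_on hx ?_ ?_
    · intro a ha b hb
      obtain ⟨s, hs, hsJ, has⟩ := ih a ha
      obtain ⟨t, ht, htJ, hbt⟩ := h1 b hb
      refine ⟨s * t, S.mul_mem hs ht, ?_, ?_⟩
      · rw [pow_succ]
        exact Ideal.mul_mem_mul hsJ htJ
      · have e : a * b - s * t = (a - s) * b + s * (b - t) := by ring
        rw [e]
        refine Ideal.add_mem _ ?_ ?_
        · rw [show n + 1 + 2 = n + 2 + 1 from rfl, pow_succ _ (n + 2)]
          exact Ideal.mul_mem_mul has hb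
        · have h2 := Ideal.mul_mem_mul hsJ hbt
          rwa [← pow_add] at h2
    · rintro a b ⟨s, hs, hsJ, has⟩ ⟨t, ht, htJ, hbt⟩
      refine ⟨s + t, S.add_mem hs ht, Ideal.add_mem _ hsJ htJ, ?_⟩
      have e : a + b - (s + t) = (a - s) + (b - t) := by ring
      rw [e]
      exact Ideal.add_mem _ has hbt

private theorem dim2_all {K : Type} [CommRing K] (S : Subring K) (J : Ideal K)
    (h1 : ∀ x ∈ J, ∃ s ∈ S, s ∈ J ∧ x - s ∈ J ^ 2) (N : ℕ) :
    ∀ x ∈ J, ∃ s ∈ S, x - s ∈ J ^ (N + 1) := by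
  induction N with
  | zero =>
    intro x hx
    exact ⟨0, S.zero_mem, by rwa [sub_zero, zero_add, pow_one]⟩
  | succ N ih =>
    intro x hx
    obtain ⟨s, hs, h⟩ := ih x hx
    obtain ⟨t, ht, -, h'⟩ := dim2_step S J h1 N _ h
    exact ⟨s + t, S.add_mem hs ht, by rwa [← sub_sub]⟩

/-- the vector space `J / (J^2 + p K)` -/
private theorem dim2_space (K : Type) [CommRing K] [IsLocalRing K] (p : K)
    (hp : p ∈ maximalIdeal K) :
    ∃ (V : Type) (_ : AddCommGroup V) (_ : Module (ResidueField K) V)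
      (π : maximalIdeal K →+ V), Function.Surjective π ∧
      (∀ (k : K) (x : maximalIdeal K), π (k • x) = residue K k • π x) ∧
      ∀ x : maximalIdeal K, π x = 0 ↔ (x : K) ∈ maximalIdeal K ^ 2 ⊔ Ideal.span {p} := by
  have hs : ∀ (k : K) (x : maximalIdeal K), (maximalIdeal K).toCotangent (k • x) =
      residue K k • ((maximalIdeal K).toCotangent x : CotangentSpace K) := by
    intro k x
    rw [map_smul]
    exact (IsScalarTower.algebraMap_smul (ResidueField K) k
      ((maximalIdeal K).toCotangent x : CotangentSpace K)).symm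
  let P : Submodule (ResidueField K) (CotangentSpace K) :=
    Submodule.span (ResidueField K) {(maximalIdeal K).toCotangent ⟨p, hp⟩}
  refine ⟨CotangentSpace K ⧸ P, inferInstance, inferInstance,
    (Submodule.mkQ P).toAddMonoidHom.comp ((maximalIdeal K).toCotangent).toAddMonoidHom,
    ?_, ?_, ?_⟩
  · intro v
    obtain ⟨u, rfl⟩ := Submodule.mkQ_surjective P v
    obtain ⟨x, rfl⟩ := (maximalIdeal K).toCotangent_surjective u
    exact ⟨x, rfl⟩
  · intro k x
    show Submodule.mkQ P ((maximalIdeal K).toCotangent (k • x)) = _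
    rw [hs, map_smul]
    rfl
  · intro x
    show Submodule.mkQ P ((maximalIdeal K).toCotangent x) = 0 ↔ _
    rw [Submodule.mkQ_apply, Submodule.Quotient.mk_eq_zero, Submodule.mem_span_singleton]
    constructor
    · rintro ⟨a, ha⟩
      obtain ⟨k, rfl⟩ := residue_surjective a
      rw [← hs] at ha
      have h1 := (maximalIdeal K).toCotangent_eq.1 ha.symm
      have e : (x : K) = ((x : K) - k * p) + k * p := by ring
      rw [e]
      exact Ideal.add_mem _ (Ideal.mem_sup_left h1)
        (Ideal.mem_sup_right (Ideal.mul_mem_left _ _ (Ideal.mem_span_singleton_self p)))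
    · intro hx
      obtain ⟨u, hu, v, hv, huv⟩ := Submodule.mem_sup.1 hx
      obtain ⟨k, rfl⟩ := Ideal.mem_span_singleton'.1 hv
      refine ⟨residue K k, ?_⟩
      rw [← hs]
      refine ((maximalIdeal K).toCotangent_eq.2 ?_).symm
      have e : (x : K) - ((k • (⟨p, hp⟩ : maximalIdeal K) : maximalIdeal K) : K) = u := by
        show (x : K) - k * p = u
        rw [← huv]
        ring
      rw [e]
      exact hu

theorem dim2 : St2_dim := by
  intro K _ _ _ p g y S hJ hW hWS hS
  classical
  have hp : (p : K) ∈ maximalIdeal K := by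
    rw [hJ]
    exact Ideal.subset_span (Or.inl rfl)
  have hy : ∀ i, y i ∈ maximalIdeal K := fun i => by
    rw [hJ]
    exact Ideal.subset_span (Or.inr ⟨i, rfl⟩)
  obtain ⟨V, _, _, π, hπ, hsm, hker⟩ := dim2_space K (p : K) hp
  -- the images of the generators
  have hgen : Submodule.span (ResidueField K) (Set.range fun i => π ⟨y i, hy i⟩) = ⊤ := by
    rw [eq_top_iff]
    intro v _
    obtain ⟨⟨x, hx⟩, rfl⟩ := hπ v
    have key : ∀ x ∈ Ideal.span ({(p : K)} ∪ Set.range y), ∃ hx : x ∈ maximalIdeal K,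
        π ⟨x, hx⟩ ∈ Submodule.span (ResidueField K) (Set.range fun i => π ⟨y i, hy i⟩) := by
      intro x hx
      induction hx using Submodule.span_induction with
      | mem x h =>
        rcases h with h | ⟨i, rfl⟩
        · have h' : x = (p : K) := h
          subst h'
          refine ⟨hp, ?_⟩
          have h2 : π ⟨(p : K), hp⟩ = 0 :=
            (hker _).2 (Ideal.mem_sup_right (Ideal.mem_span_singleton_self _))
          rw [h2]
          exact Submodule.zero_mem _
        · exact ⟨hy i, Submodule.subset_span ⟨i, rfl⟩⟩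
      | zero =>
        refine ⟨Ideal.zero_mem _, ?_⟩
        have h2 : π ⟨0, Ideal.zero_mem _⟩ = 0 := π.map_zero
        rw [h2]
        exact Submodule.zero_mem _
      | add x z _ _ hx hz =>
        obtain ⟨hx1, hx2⟩ := hx
        obtain ⟨hz1, hz2⟩ := hz
        refine ⟨Ideal.add_mem _ hx1 hz1, ?_⟩
        have h2 : π ⟨x + z, Ideal.add_mem _ hx1 hz1⟩ = π ⟨x, hx1⟩ + π ⟨z, hz1⟩ :=
          π.map_add ⟨x, hx1⟩ ⟨z, hz1⟩
        rw [h2]
        exact Submodule.add_mem _ hx2 hz2
      | smul a x _ hx =>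
        obtain ⟨hx1, hx2⟩ := hx
        refine ⟨Ideal.mul_mem_left _ _ hx1, ?_⟩
        have h2 : π ⟨a • x, Ideal.mul_mem_left _ _ hx1⟩ = residue K a • π ⟨x, hx1⟩ :=
          hsm a ⟨x, hx1⟩
        rw [h2]
        exact Submodule.smul_mem _ _ hx2
    obtain ⟨_, h⟩ := key x (by rw [← hJ]; exact hx)
    exact h
  have hfin : Module.Finite (ResidueField K) V :=
    Module.finite_def.2 (Submodule.fg_def.2 ⟨_, Set.finite_range _, hgen⟩)
  have hdim : Module.finrank (ResidueField K) V ≤ g := by
    have h1 := finrank_range_le_card (R := ResidueField K) (fun i => π ⟨y i, hy i⟩)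
    rw [Fintype.card_fin, Set.finrank, hgen, finrank_top] at h1
    exact h1
  -- the image of `J ∩ S`
  set T : Set V := {v | ∃ t : maximalIdeal K, (t : K) ∈ S ∧ π t = v} with hT
  have hTspan : ∀ v ∈ Submodule.span (ResidueField K) T, v ∈ T := by
    intro v hv
    induction hv using Submodule.span_induction with
    | mem x h => exact h
    | zero => exact ⟨0, S.zero_mem, π.map_zero⟩
    | add x z _ _ hx hz =>
      obtain ⟨t, ht, rfl⟩ := hx
      obtain ⟨u, hu, rfl⟩ := hz
      exact ⟨t + u, S.add_mem ht hu, π.map_add _ _⟩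
    | smul a x _ hx =>
      obtain ⟨t, ht, rfl⟩ := hx
      obtain ⟨k, rfl⟩ := residue_surjective a
      obtain ⟨w, hw, hkw⟩ := hW k
      refine ⟨w • t, S.mul_mem (hWS hw) ht, ?_⟩
      rw [hsm]
      have h2 : residue K k = residue K w := by
        rw [← sub_eq_zero, ← map_sub]
        exact (residue_eq_zero_iff _).2 hkw
      rw [h2]
  have hne : Submodule.span (ResidueField K) T ≠ ⊤ := by
    intro htop
    apply hS
    have h1 : ∀ x ∈ maximalIdeal K, ∃ s ∈ S, s ∈ maximalIdeal K ∧
        x - s ∈ maximalIdeal K ^ 2 := by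
      intro x hx
      obtain ⟨t, ht, htx⟩ := hTspan (π ⟨x, hx⟩) (by rw [htop]; trivial)
      have h2 : π (⟨x, hx⟩ - t) = 0 := by rw [map_sub, htx, sub_self]
      obtain ⟨u, hu, v, hv, huv⟩ := Submodule.mem_sup.1 ((hker _).1 h2)
      obtain ⟨k, rfl⟩ := Ideal.mem_span_singleton'.1 hv
      obtain ⟨w, hw, hkw⟩ := hW k
      refine ⟨(t : K) + w * p, S.add_mem ht (S.mul_mem (hWS hw) (natCast_mem S p)),
        Ideal.add_mem _ t.2 (Ideal.mul_mem_left _ _ hp), ?_⟩
      have e : x - ((t : K) + w * p) = u + (k - w) * p := by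
        have e1 : u + k * p = x - (t : K) := huv
        linear_combination -e1
      rw [e]
      refine Ideal.add_mem _ hu ?_
      rw [pow_two]
      exact Ideal.mul_mem_mul hkw hp
    obtain ⟨N, hN⟩ : ∃ N : ℕ, maximalIdeal K ^ N = ⊥ := by
      have h3 : IsNilpotent (maximalIdeal K) := by
        rw [← IsLocalRing.jacobson_eq_maximalIdeal (⊥ : Ideal K) bot_ne_top]
        exact IsArtinianRing.isNilpotent_jacobson_bot
      exact h3
    rw [eq_top_iff]
    intro x _
    obtain ⟨w, hw, hxw⟩ := hW x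
    obtain ⟨s, hs, hxs⟩ := dim2_all S (maximalIdeal K) h1 N _ hxw
    rw [pow_succ, hN, Ideal.bot_mul] at hxs
    have h4 : x - w - s = 0 := hxs
    have h5 : x = w + s := by linear_combination h4
    rw [h5]
    exact S.add_mem (hWS hw) hs
  have hlt := Submodule.finrank_lt hne
  obtain ⟨f, hf, hfs, -⟩ := Submodule.exists_fun_fin_finrank_span_eq (ResidueField K) T
  obtain ⟨d, hd⟩ := Nat.exists_eq_add_of_le
    (show Module.finrank (ResidueField K) (Submodule.span (ResidueField K) T) ≤ g - 1 by omega)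
  rw [hd]
  choose e0 he0 hπe using hf
  refine ⟨Fin.append (fun i => (e0 i : K)) (fun _ : Fin d => 0), ?_, ?_⟩
  · intro i
    refine Fin.addCases ?_ ?_ i
    · intro j
      rw [Fin.append_left]
      exact ⟨(e0 j).2, he0 j⟩
    · intro j
      rw [Fin.append_right]
      exact ⟨Ideal.zero_mem _, S.zero_mem⟩
  · intro z hz hzS
    have h1 : π ⟨z, hz⟩ ∈ Submodule.span (ResidueField K) (Set.range f) := by
      rw [hfs]
      exact Submodule.subset_span ⟨⟨z, hz⟩, hzS, rfl⟩
    obtain ⟨a, ha⟩ := (Submodule.mem_span_range_iff_exists_fun (ResidueField K)).1 h1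
    choose c0 hc0 using fun i => residue_surjective (a i)
    refine ⟨Fin.append c0 (fun _ : Fin d => 0), ?_⟩
    rw [Fin.sum_univ_add]
    simp only [Fin.append_left, Fin.append_right, mul_zero, Finset.sum_const_zero, add_zero]
    have h2 : π (⟨z, hz⟩ - ∑ i, c0 i • e0 i) = 0 := by
      rw [map_sub, map_sum, ← ha, sub_eq_zero]
      refine Finset.sum_congr rfl fun i _ => ?_
      rw [hsm, hc0, hπe]
    have h3 := (hker _).1 h2
    have e : ((⟨z, hz⟩ - ∑ i, c0 i • e0 i : maximalIdeal K) : K) = z - ∑ i, c0 i * e0 i := by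
      rw [AddSubgroupClass.coe_sub, AddSubmonoidClass.coe_finsetSum]
      rfl
    rw [e] at h3
    exact h3

end Pool.Agent.CRR
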