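import Pool.Agent.CRR.St2

/-!
Campaign CRR, part 2, N17: the dimension lemma for nilpotent rings.
-/

set_option autoImplicit false

namespace Pool.Agent.CRR

open Finset IsLocalRing

/-! ### linear algebra -/

private theorem dimN_family {F V : Type} [Field F] [AddCommGroup V] [Module F V]
    [FiniteDimensional F V] (W : Submodule F V) (n : ℕ) (h : Module.finrank F W ≤ n) :
    ∃ e : Fin n → V, (∀ i, e i ∈ W) ∧ ∀ z ∈ W, ∃ c : Fin n → F, z = ∑ i, c i • e i := by
  obtain ⟨k, rfl⟩ := Nat.exists_eq_add_of_le h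
  let b := Module.finBasis F W
  refine ⟨Fin.append (fun i => (b i : V)) (fun _ => 0), fun i => ?_, fun z hz => ?_⟩
  · refine Fin.addCases (fun i => ?_) (fun i => ?_) i
    · rw [Fin.append_left]
      exact (b i).2
    · rw [Fin.append_right]
      exact W.zero_mem
  · refine ⟨Fin.append (fun i => b.repr ⟨z, hz⟩ i) (fun _ => 0), ?_⟩
    have h1 := congrArg (fun v : W => (v : V)) (b.sum_repr ⟨z, hz⟩)
    rw [Fin.sum_univ_add]
    simp only [Fin.append_left, Fin.append_right, smul_zero, Finset.sum_const_zero, add_zero]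
    have h2 : ((∑ i, b.repr ⟨z, hz⟩ i • b i : W) : V) = z := h1
    refine h2.symm.trans ?_
    rw [Submodule.coe_sum]
    rfl

/-! ### the chain of ideals -/

private theorem prd_congrN {R : Type} [NonUnitalCommRing R] (x x' : ℕ → R) (k : ℕ)
    (h : ∀ i ≤ k, x i = x' i) : prd x k = prd x' k := by
  induction k with
  | zero => exact h 0 le_rfl
  | succ k ih =>
    show prd x k * x (k + 1) = prd x' k * x' (k + 1)
    rw [ih (fun i hi => h i (Nat.le_succ_of_le hi)), h (k + 1) le_rfl]

/-- the elements `p^a` times a product of `k + 1` factors with `a + k ≥ n` generate the `n`-th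
group of the chain -/
private def chN (R : Type) [NonUnitalCommRing R] (p n : ℕ) : AddSubgroup R :=
  AddSubgroup.closure {y | ∃ (a k : ℕ) (x : ℕ → R), n ≤ a + k ∧ y = (p ^ a) • prd x k}

private theorem chN_zero (R : Type) [NonUnitalCommRing R] (p : ℕ) (r : R) : r ∈ chN R p 0 := by
  refine AddSubgroup.subset_closure ⟨0, 0, fun _ => r, Nat.zero_le _, ?_⟩
  rw [pow_zero, one_smul]
  rfl

private theorem chN_mul (R : Type) [NonUnitalCommRing R] (p n : ℕ) (i : R) (hi : i ∈ chN R p n)
    (y : R) : i * y ∈ chN R p (n + 1) := by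
  unfold chN at hi
  induction hi using AddSubgroup.closure_induction with
  | mem z hz =>
    obtain ⟨a, k, x, h1, rfl⟩ := hz
    refine AddSubgroup.subset_closure ⟨a, k + 1, fun i => if i ≤ k then x i else y, by omega, ?_⟩
    show (p ^ a) • prd x k * y =
      (p ^ a) • (prd (fun i => if i ≤ k then x i else y) k * (if k + 1 ≤ k then x (k + 1) else y))
    rw [if_neg (by omega), smul_mul_assoc,
      prd_congrN x (fun i => if i ≤ k then x i else y) k (fun i hi => (if_pos hi).symm)]
  | zero =>
    rw [zero_mul]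
    exact AddSubgroup.zero_mem _
  | add a b _ _ ha hb =>
    rw [add_mul]
    exact AddSubgroup.add_mem _ ha hb
  | neg a _ ha =>
    rw [neg_mul]
    exact AddSubgroup.neg_mem _ ha

private theorem chN_p (R : Type) [NonUnitalCommRing R] (p n : ℕ) (i : R) (hi : i ∈ chN R p n) :
    p • i ∈ chN R p (n + 1) := by
  unfold chN at hi
  induction hi using AddSubgroup.closure_induction with
  | mem z hz =>
    obtain ⟨a, k, x, h1, rfl⟩ := hz
    refine AddSubgroup.subset_closure ⟨a + 1, k, x, by omega, ?_⟩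
    rw [smul_smul, pow_succ']
  | zero =>
    rw [smul_zero]
    exact AddSubgroup.zero_mem _
  | add a b _ _ ha hb =>
    rw [smul_add]
    exact AddSubgroup.add_mem _ ha hb
  | neg a _ ha =>
    rw [smul_neg]
    exact AddSubgroup.neg_mem _ ha

private theorem chN_bot (R : Type) [NonUnitalCommRing R] (p e c : ℕ)
    (he : ∀ x : R, (p ^ e) • x = 0) (hc : ∀ x : ℕ → R, prd x c = 0) (r : R)
    (hr : r ∈ chN R p (e + c)) : r = 0 := by
  have hle : chN R p (e + c) ≤ ⊥ := by
    refine (AddSubgroup.closure_le _).2 ?_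
    rintro z ⟨a, k, x, h1, rfl⟩
    show (p ^ a) • prd x k ∈ (⊥ : AddSubgroup R)
    rw [AddSubgroup.mem_bot]
    rcases Nat.lt_or_ge a e with h2 | h2
    · have h3 : c ≤ k := by omega
      have h4 : ∀ j, prd x (c + j) = 0 := by
        intro j
        induction j with
        | zero => exact hc x
        | succ j ih =>
          show prd x (c + j) * x (c + j + 1) = 0
          rw [ih, zero_mul]
      obtain ⟨j, rfl⟩ := Nat.exists_eq_add_of_le h3
      rw [h4 j, smul_zero]
    · obtain ⟨j, rfl⟩ := Nat.exists_eq_add_of_le h2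
      rw [pow_add, mul_comm, mul_smul, he, smul_zero]
  exact (AddSubgroup.mem_bot).1 (hle hr)

/-- a subring which together with `R^2 + pR` generates `R` is `R` -/
private theorem dimN_top (R : Type) [NonUnitalCommRing R] (p e c : ℕ)
    (he : ∀ x : R, (p ^ e) • x = 0) (hc : ∀ x : ℕ → R, prd x c = 0) (S : NonUnitalSubring R)
    (hS : ∀ r : R, ∃ s ∈ S, r - s ∈
      AddSubgroup.closure ({x | ∃ a b : R, x = a * b} ∪ {x | ∃ a : R, x = p • a})) (r : R) :
    r ∈ S := by
  have key : ∀ n : ℕ, ∀ r : R, ∃ s ∈ S, r - s ∈ chN R p n := by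
    intro n
    induction n with
    | zero => exact fun r => ⟨0, S.zero_mem, chN_zero R p _⟩
    | succ n ih =>
      intro r
      obtain ⟨s, hs, h1⟩ := hS r
      have h2 : ∀ t ∈ AddSubgroup.closure
          ({x | ∃ a b : R, x = a * b} ∪ {x | ∃ a : R, x = p • a}),
          ∃ s ∈ S, t - s ∈ chN R p (n + 1) := by
        intro t ht
        induction ht using AddSubgroup.closure_induction with
        | mem z hz =>
          rcases hz with ⟨a, b, rfl⟩ | ⟨a, rfl⟩
          · obtain ⟨s1, hs1, h3⟩ := ih a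
            obtain ⟨s2, hs2, h4⟩ := ih b
            refine ⟨s1 * s2, S.mul_mem hs1 hs2, ?_⟩
            have h5 := chN_mul R p n _ h3 b
            have h6 := chN_mul R p n _ h4 s1
            have h7 : a * b - s1 * s2 = (a - s1) * b + (b - s2) * s1 := by
              rw [sub_mul, sub_mul, mul_comm b s1, mul_comm s2 s1]
              abel
            rw [h7]
            exact AddSubgroup.add_mem _ h5 h6
          · obtain ⟨s1, hs1, h3⟩ := ih a
            refine ⟨p • s1, nsmul_mem hs1 p, ?_⟩
            rw [← smul_sub]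
            exact chN_p R p n _ h3
        | zero => exact ⟨0, S.zero_mem, by rw [sub_zero]; exact AddSubgroup.zero_mem _⟩
        | add a b _ _ ha hb =>
          obtain ⟨s1, hs1, h3⟩ := ha
          obtain ⟨s2, hs2, h4⟩ := hb
          refine ⟨s1 + s2, S.add_mem hs1 hs2, ?_⟩
          rw [add_sub_add_comm]
          exact AddSubgroup.add_mem _ h3 h4
        | neg a _ ha =>
          obtain ⟨s1, hs1, h3⟩ := ha
          refine ⟨-s1, S.neg_mem hs1, ?_⟩
          have h7 : -a - -s1 = -(a - s1) := by abel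
          rw [h7]
          exact AddSubgroup.neg_mem _ h3
      obtain ⟨s', hs', h8⟩ := h2 _ h1
      refine ⟨s + s', S.add_mem hs hs', ?_⟩
      rw [← sub_sub]
      exact h8
  obtain ⟨s, hs, h1⟩ := key (e + c) r
  have h2 := chN_bot R p e c he hc _ h1
  rw [sub_eq_zero.1 h2]
  exact hs

/-- the linear algebra -/
private theorem dimN_abs (R V : Type) [NonUnitalCommRing R] [AddCommGroup V] [Finite V]
    (p g : ℕ) [Fact p.Prime] [Module (ZMod p) V] (π : R →+ V) (hsurj : Function.Surjective π)
    (hmul : ∀ a b : R, π (a * b) = 0) (y : Fin g → R)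
    (hy : NonUnitalSubring.closure (Set.range y) = ⊤) (S : NonUnitalSubring R)
    (hS : ¬ ∀ v : V, ∃ s ∈ S, π s = v) :
    ∃ u : Fin (g - 1) → R, (∀ i, u i ∈ S) ∧ ∀ z ∈ S, ∃ c : Fin (g - 1) → ℤ,
      π (z - ∑ i, c i • u i) = 0 := by
  haveI : FiniteDimensional (ZMod p) V := Module.Finite.of_finite
  have hspan : Submodule.span (ZMod p) (Set.range fun i => π (y i)) = ⊤ := by
    rw [eq_top_iff]
    intro v hv
    clear hv
    obtain ⟨r, rfl⟩ := hsurj v
    have hr : r ∈ NonUnitalSubring.closure (Set.range y) := by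
      rw [hy]
      exact NonUnitalSubring.mem_top r
    have key : π r ∈ Submodule.span (ZMod p) (Set.range fun i => π (y i)) := by
      induction hr using NonUnitalSubring.closure_induction with
      | mem z hz =>
        obtain ⟨i, rfl⟩ := hz
        exact Submodule.subset_span ⟨i, rfl⟩
      | zero =>
        rw [map_zero]
        exact Submodule.zero_mem _
      | add a b _ _ ha hb =>
        rw [map_add]
        exact Submodule.add_mem _ ha hb
      | neg a _ ha =>
        rw [map_neg]
        exact Submodule.neg_mem _ ha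
      | mul a b _ _ _ _ =>
        rw [hmul]
        exact Submodule.zero_mem _
    exact key
  have hg : Module.finrank (ZMod p) V ≤ g := by
    have h1 := finrank_le_of_span_eq_top hspan
    rw [Fintype.card_fin] at h1
    exact h1
  let W : Submodule (ZMod p) V := AddSubgroup.toZModSubmodule p (S.toAddSubgroup.map π)
  have hW : ∀ v, v ∈ W ↔ ∃ s ∈ S, π s = v := fun v => Iff.rfl
  have hWt : W ≠ ⊤ := by
    intro hW1
    apply hS
    intro v
    refine (hW v).1 ?_
    rw [hW1]
    exact Submodule.mem_top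
  have hlt := Submodule.finrank_lt hWt
  obtain ⟨u', hu', hspanW⟩ := dimN_family W (g - 1) (by omega)
  choose u hu1 hu2 using fun i => (hW _).1 (hu' i)
  refine ⟨u, hu1, fun z hz => ?_⟩
  obtain ⟨c', hc'⟩ := hspanW (π z) ((hW _).2 ⟨z, hz, rfl⟩)
  refine ⟨fun i => (ZMod.cast (c' i) : ℤ), ?_⟩
  rw [map_sub, map_sum, hc', sub_eq_zero]
  refine Finset.sum_congr rfl fun i _ => ?_
  rw [map_zsmul, hu2, ← Int.cast_smul_eq_zsmul (ZMod p), ZMod.intCast_zmod_cast]

theorem dimN : St2_dimN := by
  intro R _ _ p e g y S hp he hc hy hS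
  obtain ⟨c, hc⟩ := hc
  let Rad : AddSubgroup R :=
    AddSubgroup.closure ({x | ∃ a b : R, x = a * b} ∪ {x | ∃ a : R, x = p • a})
  have hpR : ∀ x : R, p • x ∈ Rad := fun x => AddSubgroup.subset_closure (Or.inr ⟨x, rfl⟩)
  have hmR : ∀ a b : R, a * b ∈ Rad := fun a b =>
    AddSubgroup.subset_closure (Or.inl ⟨a, b, rfl⟩)
  haveI : Fact p.Prime := ⟨hp⟩
  letI : Module (ZMod p) (R ⧸ Rad) := QuotientAddGroup.zmodModule hpR
  have hker : ∀ r : R, QuotientAddGroup.mk' Rad r = 0 ↔ r ∈ Rad :=
    fun r => QuotientAddGroup.eq_zero_iff r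
  obtain ⟨u, hu1, hu2⟩ := dimN_abs R (R ⧸ Rad) p g (QuotientAddGroup.mk' Rad)
    (QuotientAddGroup.mk'_surjective Rad) (fun a b => (hker _).2 (hmR a b)) y hy S (by
      intro hall
      apply hS
      rw [eq_top_iff]
      intro r _
      refine dimN_top R p e c he hc S (fun r => ?_) r
      obtain ⟨s, hs, h2⟩ := hall (QuotientAddGroup.mk' Rad r)
      refine ⟨s, hs, ?_⟩
      have h3 : QuotientAddGroup.mk' Rad (r - s) = 0 := by rw [map_sub, h2, sub_self]
      exact (hker _).1 h3)
  refine ⟨u, hu1, fun z hz => ?_⟩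
  obtain ⟨c', hc'⟩ := hu2 z hz
  exact ⟨c', (hker _).1 hc'⟩

end Pool.Agent.CRR
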