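import Pool.Agent.CRR.St2

/-!
Campaign CRR, part 2, module Exc2 (N24): the exceptional ring with 16 elements.
-/

namespace Pool.Agent.CRR

open Finset IsLocalRing

private theorem ex_rep (K : Type) [CommRing K] [Finite K] (hcard : Nat.card K = 16)
    (h4 : (4 : K) ≠ 0) (y : K) (hy : 2 * y = 0) (hy2 : y ^ 2 = 4) :
    ∀ x : K, ∃ a b : ℕ, b ≤ 1 ∧ x = (a : K) + (b : K) * y := by
  have h8 : (8 : K) = 0 := by
    linear_combination (-2) * hy2 + y * hy
  -- integers which vanish in `K` are divisible by 8
  have hdiv : ∀ c : ℤ, (c : K) = 0 → (8 : ℤ) ∣ c := by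
    intro c hc
    have h1 : ((c % 8 : ℤ) : K) = 0 := by
      have h := Int.emod_add_mul_ediv c 8
      have h' : (c : K) = ((c % 8 : ℤ) : K) + 8 * ((c / 8 : ℤ) : K) := by
        have h'' := congrArg (Int.cast : ℤ → K) h
        rw [← h'']
        push_cast
        rfl
      rw [h', h8, zero_mul, add_zero] at hc
      exact hc
    have h2 : 0 ≤ c % 8 := Int.emod_nonneg c (by norm_num)
    have h3 : c % 8 < 8 := Int.emod_lt_of_pos c (by norm_num)
    apply Int.dvd_of_emod_eq_zero
    generalize c % 8 = m at h1 h2 h3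
    by_contra hne
    apply h4
    interval_cases m
    · exact absurd rfl hne
    · push_cast at h1
      linear_combination 4 * h1
    · push_cast at h1
      linear_combination 2 * h1
    · push_cast at h1
      linear_combination 4 * h1 - h8
    · push_cast at h1
      exact h1
    · push_cast at h1
      linear_combination 4 * h1 - 2 * h8
    · push_cast at h1
      linear_combination 2 * h1 - h8
    · push_cast at h1
      linear_combination 4 * h1 - 3 * h8
  have hyi : ∀ c : ℤ, y ≠ (c : K) := by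
    intro c hc
    have h1 : ((2 * c : ℤ) : K) = 0 := by
      push_cast
      rw [← hc, hy]
    obtain ⟨k, hk⟩ := hdiv _ h1
    have h2 : c = 4 * k := by omega
    apply h4
    rw [← hy2, hc, h2]
    push_cast
    linear_combination (2 * (k : K) ^ 2) * h8
  let f : Fin 8 × Fin 2 → K := fun p => ((p.1 : ℕ) : K) + ((p.2 : ℕ) : K) * y
  have hf : Function.Injective f := by
    rintro ⟨a, b⟩ ⟨a', b'⟩ h
    have h' : ((a : ℕ) : K) + ((b : ℕ) : K) * y = ((a' : ℕ) : K) + ((b' : ℕ) : K) * y := h
    by_cases hb : b = b'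
    · subst hb
      have h1 : (((a : ℕ) - (a' : ℕ) : ℤ) : K) = 0 := by
        push_cast
        linear_combination h'
      obtain ⟨k, hk⟩ := hdiv _ h1
      have h2 := a.2
      have h3 := a'.2
      have h5 : (a : ℕ) = (a' : ℕ) := by omega
      rw [Fin.ext h5]
    · exfalso
      have hb1 := b.2
      have hb2 := b'.2
      have hne : (b : ℕ) ≠ (b' : ℕ) := fun h => hb (Fin.ext h)
      have : ((b : ℕ) = 0 ∧ (b' : ℕ) = 1) ∨ ((b : ℕ) = 1 ∧ (b' : ℕ) = 0) := by omega
      rcases this with ⟨e1, e2⟩ | ⟨e1, e2⟩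
      · apply hyi ((a : ℕ) - (a' : ℕ))
        rw [e1, e2] at h'
        push_cast at h' ⊢
        linear_combination -h'
      · apply hyi ((a' : ℕ) - (a : ℕ))
        rw [e1, e2] at h'
        push_cast at h' ⊢
        linear_combination h'
  have hs : Function.Surjective f := by
    have h1 : Nat.card (Fin 8 × Fin 2) = Nat.card K := by
      rw [hcard]
      simp
    exact (Nat.bijective_iff_injective_and_card f).2 ⟨hf, h1⟩ |>.2
  intro x
  obtain ⟨⟨a, b⟩, hab⟩ := hs x
  exact ⟨a, b, by omega, hab.symm⟩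

theorem exc2 : St2_exc := by
  intro K _ _ hE
  obtain ⟨hcard, h4, y, hy, hy2⟩ := hE
  have hrep := ex_rep K hcard h4 y hy hy2
  have h8 : (8 : K) = 0 := by
    linear_combination (-2) * hy2 + y * hy
  have hnt : Nontrivial K := ⟨4, 0, h4⟩
  have hb2 : ∀ b : ℕ, b ≤ 1 → (b : K) ^ 2 = b := by
    intro b hb
    have : b = 0 ∨ b = 1 := by omega
    rcases this with rfl | rfl <;> simp
  have hnil : ∀ (a b : ℕ), IsNilpotent (2 * (a : K) + (b : K) * y) := by
    intro a b
    refine ⟨4, ?_⟩
    have h1 : (2 * (a : K) + (b : K) * y) ^ 2 = 4 * ((a : K) ^ 2 + (b : K) ^ 2) := by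
      linear_combination (b : K) ^ 2 * hy2 + (2 * a * b : K) * hy
    have h2 : (2 * (a : K) + (b : K) * y) ^ 4 = ((2 * (a : K) + (b : K) * y) ^ 2) ^ 2 := by ring
    rw [h2, h1]
    linear_combination (2 * ((a : K) ^ 2 + (b : K) ^ 2) ^ 2) * h8
  have hcases : ∀ x : K, (∃ a b : ℕ, b ≤ 1 ∧ x = 2 * (a : K) + (b : K) * y) ∨
      ∃ a b : ℕ, b ≤ 1 ∧ x = 1 + (2 * (a : K) + (b : K) * y) := by
    intro x
    obtain ⟨a, b, hb, hx⟩ := hrep x
    rcases Nat.even_or_odd' a with ⟨k, rfl | rfl⟩
    · left
      refine ⟨k, b, hb, ?_⟩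
      rw [hx]
      push_cast
      ring
    · right
      refine ⟨k, b, hb, ?_⟩
      rw [hx]
      push_cast
      ring
  have hloc : IsLocalRing K := by
    refine IsLocalRing.of_isUnit_or_isUnit_one_sub_self fun x => ?_
    rcases hcases x with ⟨a, b, -, rfl⟩ | ⟨a, b, -, rfl⟩
    · right
      exact (hnil a b).isUnit_one_sub
    · left
      exact (hnil a b).isUnit_one_add
  refine ⟨hloc, ?_, ?_⟩
  · rw [mem_maximalIdeal, mem_nonunits_iff]
    have h := hnil 1 0
    have e : (2 * ((1 : ℕ) : K) + ((0 : ℕ) : K) * y) = 2 := by simp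
    rw [e] at h
    exact h.not_isUnit
  have hJ : ∀ x ∈ maximalIdeal K, ∃ a b : ℕ, b ≤ 1 ∧ x = 2 * (a : K) + (b : K) * y := by
    intro x hx
    rcases hcases x with h | ⟨a, b, -, rfl⟩
    · exact h
    · exact absurd (hnil a b).isUnit_one_add hx
  have hfrm : ∀ z : ℕ → K, Frm ((2 : ℤ) : K) ((1 : ℤ) : K) 1 z = 2 * z 0 + z 0 ^ 2 := by
    intro z
    unfold Frm
    simp
    ring
  have hev : ∀ (a b : ℕ), b ≤ 1 → 2 * (2 * (a : K) + (b : K) * y) +
      (2 * (a : K) + (b : K) * y) ^ 2 = 4 * b := by
    intro a b hb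
    obtain ⟨k, hk⟩ := Nat.even_mul_succ_self a
    have hk' : (a : K) * (a + 1) = k + k := by
      have := congrArg (Nat.cast : ℕ → K) hk
      push_cast at this
      exact this
    have h1 := hb2 b hb
    linear_combination (b : K) ^ 2 * hy2 + (2 * a * b + b : K) * hy + 4 * hk' + 4 * h1 +
      (k : K) * h8
  have hymem : y ∈ maximalIdeal K := by
    rw [mem_maximalIdeal, mem_nonunits_iff]
    have h := hnil 0 1
    have e : (2 * ((0 : ℕ) : K) + ((1 : ℕ) : K) * y) = y := by simp
    rw [e] at h
    exact h.not_isUnit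
  refine ⟨⟨fun _ => y, fun _ => hymem, ?_⟩, ?_, ?_⟩
  · rw [hfrm, hy, zero_add, hy2]
    exact h4
  · intro I hI z hz
    have h4I : (4 : K) ∈ I := by
      obtain ⟨x, hxI, hx0⟩ := Submodule.exists_mem_ne_zero_of_ne_bot hI
      by_cases hu : IsUnit x
      · rw [Ideal.eq_top_of_isUnit_mem I hxI hu]
        trivial
      · obtain ⟨a, b, hb, rfl⟩ := hJ x hu
        have : b = 0 ∨ b = 1 := by omega
        rcases this with rfl | rfl
        · rcases Nat.even_or_odd' a with ⟨k, rfl | rfl⟩
          · rcases Nat.even_or_odd' k with ⟨m, rfl | rfl⟩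
            · exfalso
              apply hx0
              push_cast
              linear_combination (m : K) * h8
            · have e : (4 : K) = 2 * (((2 * (2 * m + 1) : ℕ)) : K) + ((0 : ℕ) : K) * y := by
                push_cast
                linear_combination (-(m : K)) * h8
              rw [e]
              exact hxI
          · have e : (4 : K) = 2 * (2 * (((2 * k + 1 : ℕ)) : K) + ((0 : ℕ) : K) * y) := by
              push_cast
              linear_combination (-(k : K)) * h8
            rw [e]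
            exact I.mul_mem_left _ hxI
        · have e : (4 : K) = y * (2 * (a : K) + ((1 : ℕ) : K) * y) := by
            push_cast
            linear_combination (-1 : K) * hy2 - (a : K) * hy
          rw [e]
          exact I.mul_mem_left _ hxI
    rw [hfrm]
    obtain ⟨a, b, hb, h⟩ := hJ _ (hz 0)
    rw [h, hev a b hb]
    exact I.mul_mem_right _ h4I
  · intro S hW hS z hz
    rw [hfrm]
    obtain ⟨a, b, hb, h⟩ := hJ _ (hz 0).1
    rw [h, hev a b hb]
    have : b = 0 ∨ b = 1 := by omega
    rcases this with rfl | rfl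
    · simp
    · exfalso
      apply hS
      have hyS : y ∈ S := by
        have h1 := S.sub_mem (hz 0).2 (S.mul_mem (natCast_mem S 2) (natCast_mem S a))
        have e : z 0 - ((2 : ℕ) : K) * (a : K) = y := by
          rw [h]
          push_cast
          ring
        rwa [e] at h1
      rw [eq_top_iff]
      intro x _
      obtain ⟨a', b', -, rfl⟩ := hrep x
      exact S.add_mem (natCast_mem S a') (S.mul_mem (natCast_mem S b') hyS)

end Pool.Agent.CRR
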