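import Pool.Agent.CRR.St2

/-!
Campaign CRR, part 2, module N2 (ExtOdd): extraction of a form, odd case.
-/

namespace Pool.Agent.CRR

open Finset

private lemma ExtOdd_split {K : Type} [CommRing K] (c : (ℕ →₀ ℕ) → K) (β : ℕ →₀ ℕ) (j : ℕ → K)
    (i : ℕ) (u : K) :
    c β * β.prod (fun a e => Function.update j i u a ^ e) =
      u ^ (β i) * (c β * (β.erase i).prod (fun a e => j a ^ e)) := by
  rw [← Finsupp.mul_prod_erase' β i (fun a e => Function.update j i u a ^ e)
    (fun a => pow_zero _)]
  have h : (β.erase i).prod (fun a e => Function.update j i u a ^ e) =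
      (β.erase i).prod (fun a e => j a ^ e) := by
    apply Finsupp.prod_congr
    intro a ha
    have hai : a ≠ i := by
      rintro rfl
      simp at ha
    simp [hai]
  rw [h]
  simp only [Function.update_self]
  ring

private lemma ExtOdd_one {K : Type} [CommRing K] (J : Ideal K) (hJ : Cube J) (N T : AddSubgroup K)
    (hT : ∀ x ∈ T, x ∈ J) (hN : ∀ x ∈ J, 2 * x ∈ N → x ∈ N) (S' : Finset (ℕ →₀ ℕ))
    (c : (ℕ →₀ ℕ) → K) (h : ∀ j : ℕ → K, (∀ i, j i ∈ T) → pval S' c j ∈ N) (i e : ℕ) (he : e ≤ 2) :
    ∀ j : ℕ → K, (∀ i, j i ∈ T) → pval (S'.filter (fun β => β i = e)) c j ∈ N := by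
  classical
  intro j hj
  set R : (ℕ →₀ ℕ) → K := fun β => c β * (β.erase i).prod (fun a e => j a ^ e) with hR
  set A : ℕ → K := fun e => ∑ β ∈ S'.filter (fun β => β i = e), R β with hA
  have h1 : ∀ u ∈ J, pval S' c (Function.update j i u) = A 0 + u * A 1 + u ^ 2 * A 2 := by
    intro u hu
    simp only [hA, pval, mul_sum, sum_filter]
    rw [← sum_add_distrib, ← sum_add_distrib]
    apply sum_congr rfl
    intro β _
    rw [ExtOdd_split]
    have hu3 : u ^ 3 = 0 := hJ u hu
    rcases Nat.lt_or_ge (β i) 3 with h3 | h3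
    · interval_cases hβ : β i <;> simp [hR]
    · have h4 : u ^ (β i) = 0 := by
        have : β i = 3 + (β i - 3) := by omega
        rw [this, pow_add, hu3, zero_mul]
      have a0 : β i ≠ 0 := by omega
      have a1 : β i ≠ 1 := by omega
      have a2 : β i ≠ 2 := by omega
      simp [h4, a0, a1, a2]
  have h2 : ∀ e, pval (S'.filter (fun β => β i = e)) c j = (j i) ^ e * A e := by
    intro e
    simp only [hA, pval, mul_sum]
    apply sum_congr rfl
    intro β hβ
    have hβ' : β i = e := (mem_filter.1 hβ).2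
    have := ExtOdd_split c β j i (j i)
    rw [Function.update_eq_self] at this
    rw [this, hβ']
  have hup : ∀ u ∈ T, A 0 + u * A 1 + u ^ 2 * A 2 ∈ N := by
    intro u hu
    rw [← h1 u (hT u hu)]
    apply h
    intro a
    by_cases ha : a = i
    · subst ha; simpa using hu
    · simpa [ha] using hj a
  have b0 : A 0 ∈ N := by
    have := hup 0 T.zero_mem
    simpa using this
  have b1 := hup (j i) (hj i)
  have b2 := hup (- j i) (T.neg_mem (hj i))
  have b3 : 2 * ((j i) ^ 2 * A 2) ∈ N := by
    have h5 : 2 * ((j i) ^ 2 * A 2) = (A 0 + j i * A 1 + (j i) ^ 2 * A 2) +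
        (A 0 + (- j i) * A 1 + (- j i) ^ 2 * A 2) - A 0 - A 0 := by ring
    rw [h5]
    exact N.sub_mem (N.sub_mem (N.add_mem b1 b2) b0) b0
  have b4 : (j i) ^ 2 * A 2 ∈ N := by
    apply hN _ _ b3
    have : (j i) ^ 2 * A 2 = (j i * A 2) * j i := by ring
    rw [this]
    exact J.mul_mem_left _ (hT _ (hj i))
  have b5 : j i * A 1 ∈ N := by
    have h5 : j i * A 1 = (A 0 + j i * A 1 + (j i) ^ 2 * A 2) - A 0 - (j i) ^ 2 * A 2 := by ring
    rw [h5]
    exact N.sub_mem (N.sub_mem b1 b0) b4
  rw [h2]
  interval_cases e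
  · simpa using b0
  · simpa using b5
  · exact b4

private lemma ExtOdd_all {K : Type} [CommRing K] (J : Ideal K) (hJ : Cube J) (N T : AddSubgroup K)
    (hT : ∀ x ∈ T, x ∈ J) (hN : ∀ x ∈ J, 2 * x ∈ N → x ∈ N) (S : Finset (ℕ →₀ ℕ))
    (c : (ℕ →₀ ℕ) → K) (h : ∀ j : ℕ → K, (∀ i, j i ∈ T) → pval S c j ∈ N) (α : ℕ →₀ ℕ)
    (hα : α ∈ S) (hα2 : ∀ i, α i ≤ 2) :
    ∀ j : ℕ → K, (∀ i, j i ∈ T) → c α * ∏ i ∈ α.support, j i ^ (α i) ∈ N := by
  classical
  have key : ∀ V : Finset ℕ, ∀ j : ℕ → K, (∀ i, j i ∈ T) →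
      pval (S.filter (fun β => ∀ i ∈ V, β i = α i)) c j ∈ N := by
    intro V
    induction V using Finset.induction_on with
    | empty => simpa using h
    | insert a V ha ih =>
      intro j hj
      have := ExtOdd_one J hJ N T hT hN _ c ih a (α a) (hα2 a) j hj
      rw [filter_filter] at this
      have e : S.filter (fun β => ∀ i ∈ insert a V, β i = α i) =
          S.filter (fun β => (∀ i ∈ V, β i = α i) ∧ β a = α a) := by
        apply filter_congr
        intro β _
        simp only [mem_insert, forall_eq_or_imp]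
        tauto
      rw [e]
      exact this
  intro j hj
  have h1 := key (S.biUnion (fun β => β.support)) j hj
  have e : S.filter (fun β => ∀ i ∈ S.biUnion (fun β => β.support), β i = α i) = {α} := by
    ext β
    simp only [mem_filter, mem_singleton, mem_biUnion]
    constructor
    · rintro ⟨hβ, h2⟩
      ext i
      by_cases h3 : β i = 0 ∧ α i = 0
      · rw [h3.1, h3.2]
      · by_cases h4 : β i = 0
        · exact h2 i ⟨α, hα, by
            rw [Finsupp.mem_support_iff]
            intro h5
            exact h3 ⟨h4, h5⟩⟩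
        · exact h2 i ⟨β, hβ, by rw [Finsupp.mem_support_iff]; exact h4⟩
    · rintro rfl
      exact ⟨hα, fun _ _ => rfl⟩
  rw [e] at h1
  simpa [pval, Finsupp.prod] using h1

private lemma ExtOdd_pol {K : Type} [CommRing K] (J : Ideal K) (N T : AddSubgroup K)
    (hT : ∀ x ∈ T, x ∈ J) (hN : ∀ x ∈ J, 2 * x ∈ N → x ∈ N) (c : K) (α : ℕ →₀ ℕ)
    (hα2 : ∀ i, α i ≤ 2)
    (h : ∀ j : ℕ → K, (∀ i, j i ∈ T) → c * ∏ i ∈ α.support, j i ^ (α i) ∈ N) :
    ∀ w : ℕ → ℕ → K, (∀ i s, w i s ∈ T) →
      c * ∏ i ∈ α.support, ∏ s ∈ range (α i), w i s ∈ N := by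
  classical
  have key : ∀ V : Finset ℕ, ∀ (j : ℕ → K) (w : ℕ → ℕ → K), (∀ i, j i ∈ T) → (∀ i s, w i s ∈ T) →
      c * ∏ i ∈ α.support, (if i ∈ V then ∏ s ∈ range (α i), w i s else j i ^ (α i)) ∈ N := by
    intro V
    induction V using Finset.induction_on with
    | empty =>
      intro j w hj _
      simpa using h j hj
    | insert a V ha ih =>
      intro j w hj hw
      by_cases has : a ∈ α.support
      · set R : K := ∏ i ∈ α.support.erase a,
          (if i ∈ V then ∏ s ∈ range (α i), w i s else j i ^ (α i)) with hR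
        have h1 : ∏ i ∈ α.support, (if i ∈ insert a V then ∏ s ∈ range (α i), w i s
            else j i ^ (α i)) = (∏ s ∈ range (α a), w a s) * R := by
          rw [← mul_prod_erase _ _ has, if_pos (mem_insert_self a V), hR]
          congr 1
          apply prod_congr rfl
          intro i hi
          have hia : i ≠ a := (mem_erase.1 hi).1
          simp [hia]
        have h2 : ∀ u ∈ T, c * (u ^ (α a) * R) ∈ N := by
          intro u hu
          have := ih (Function.update j a u) w (by
            intro i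
            by_cases hi : i = a
            · subst hi; simpa using hu
            · simpa [hi] using hj i) hw
          rw [← mul_prod_erase _ _ has, if_neg ha, Function.update_self] at this
          have h3 : ∏ i ∈ α.support.erase a, (if i ∈ V then ∏ s ∈ range (α i), w i s
              else Function.update j a u i ^ (α i)) = R := by
            apply prod_congr rfl
            intro i hi
            have hia : i ≠ a := (mem_erase.1 hi).1
            simp [hia]
          rw [h3] at this
          exact this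
        rw [h1]
        have h0 : α a ≠ 0 := Finsupp.mem_support_iff.1 has
        have h02 := hα2 a
        rcases (by omega : α a = 1 ∨ α a = 2) with h4 | h4
        · rw [h4]
          have := h2 (w a 0) (hw a 0)
          rw [h4] at this
          simpa using this
        · rw [h4] at h2 ⊢
          rw [prod_range_succ, prod_range_one]
          apply hN
          · have : c * (w a 0 * w a 1 * R) = (c * w a 0 * R) * w a 1 := by ring
            rw [this]
            exact J.mul_mem_left _ (hT _ (hw a 1))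
          · have : 2 * (c * (w a 0 * w a 1 * R)) = c * ((w a 0 + w a 1) ^ 2 * R) -
                c * ((w a 0) ^ 2 * R) - c * ((w a 1) ^ 2 * R) := by ring
            rw [this]
            exact N.sub_mem (N.sub_mem (h2 _ (T.add_mem (hw a 0) (hw a 1))) (h2 _ (hw a 0)))
              (h2 _ (hw a 1))
      · have h1 : ∏ i ∈ α.support, (if i ∈ insert a V then ∏ s ∈ range (α i), w i s
            else j i ^ (α i)) = ∏ i ∈ α.support, (if i ∈ V then ∏ s ∈ range (α i), w i s
            else j i ^ (α i)) := by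
          apply prod_congr rfl
          intro i hi
          have hia : i ≠ a := by
            rintro rfl
            exact has hi
          simp [hia]
        rw [h1]
        exact ih j w hj hw
  intro w hw
  have := key α.support (fun _ => 0) w (fun _ => T.zero_mem) hw
  have e : ∏ i ∈ α.support, (if i ∈ α.support then ∏ s ∈ range (α i), w i s
      else (0 : K) ^ (α i)) = ∏ i ∈ α.support, ∏ s ∈ range (α i), w i s := by
    apply prod_congr rfl
    intro i hi
    rw [if_pos hi]
  rw [e] at this
  exact this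

private lemma ExtOdd_enum (K : Type) [CommRing K] (α : ℕ →₀ ℕ) :
    ∃ (k : ℕ) (ι : ℕ → ℕ) (E : ℕ → ℕ → ℕ),
      (∀ z : ℕ → K, ∏ l ∈ range k, z l = ∏ i ∈ α.support, ∏ s ∈ range (α i), z (E i s)) ∧
      ∀ i ∈ α.support, ∀ s ∈ range (α i), ι (E i s) = i := by
  classical
  let σ : Finset (Σ _ : ℕ, ℕ) := α.support.sigma (fun i => range (α i))
  have hc : σ.card = (range σ.card).card := by simp
  let e : σ ≃ range σ.card := Finset.equivOfCardEq hc
  refine ⟨σ.card, fun l => if h : l ∈ range σ.card then (e.symm ⟨l, h⟩).1.1 else 0,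
    fun i s => if h : (⟨i, s⟩ : Σ _ : ℕ, ℕ) ∈ σ then (e ⟨⟨i, s⟩, h⟩ : ℕ) else 0, ?_, ?_⟩
  · intro z
    have h1 : ∏ i ∈ α.support, ∏ s ∈ range (α i),
        z (if h : (⟨i, s⟩ : Σ _ : ℕ, ℕ) ∈ σ then (e ⟨⟨i, s⟩, h⟩ : ℕ) else 0) =
        ∏ x ∈ σ, z (if h : x ∈ σ then (e ⟨x, h⟩ : ℕ) else 0) := by
      rw [prod_sigma]
    rw [h1, ← prod_coe_sort σ, ← prod_coe_sort (range σ.card)]
    rw [← Equiv.prod_comp e]
    apply prod_congr rfl
    intro x _
    simp
  · intro i hi s hs
    have h : (⟨i, s⟩ : Σ _ : ℕ, ℕ) ∈ σ := mem_sigma.2 ⟨hi, hs⟩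
    simp [h]

theorem extodd : St2_extodd := by
  classical
  intro K _ J W hJ S c hc hne
  obtain ⟨j, hj, hjne⟩ := hne
  obtain ⟨α, hα, hαne⟩ : ∃ α ∈ S, c α * α.prod (fun i e => j i ^ e) ≠ 0 := by
    by_contra hcon
    push Not at hcon
    exact hjne (sum_eq_zero hcon)
  have hα2 : ∀ i, α i ≤ 2 := by
    intro i
    by_contra hi
    apply hαne
    have := ExtOdd_split c α j i (j i)
    rw [Function.update_eq_self] at this
    rw [this]
    have h4 : (j i) ^ (α i) = 0 := by
      have : α i = 3 + (α i - 3) := by omega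
      rw [this, pow_add, hJ _ (hj i), zero_mul]
    rw [h4, zero_mul]
  obtain ⟨k, ι, E, hE, hι⟩ := ExtOdd_enum K α
  refine ⟨c α, hc α, k, ⟨fun l => j (ι l), fun l => hj _, ?_⟩, ?_⟩
  · have h1 : Frm (c α) 0 k (fun l => j (ι l)) = c α * α.prod (fun i e => j i ^ e) := by
      unfold Frm
      rw [hE]
      simp only [zero_mul, ite_self, add_zero]
      congr 1
      unfold Finsupp.prod
      apply prod_congr rfl
      intro i hi
      rw [prod_congr rfl (fun s hs => by rw [hι i hi s hs]), prod_const, card_range]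
    rw [h1]
    exact hαne
  · intro N T hT hN h z hz
    have h1 := ExtOdd_pol J N T hT hN (c α) α hα2 (ExtOdd_all J hJ N T hT hN S c h α hα hα2)
      (fun i s => z (E i s)) (fun i s => hz _)
    unfold Frm
    rw [hE]
    simpa using h1

end Pool.Agent.CRR
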