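import Pool.Agent.CRR.St2

/-!
CRR part 2, N3: extraction of a form, `p = 2` (helper99).
-/

namespace Pool.Agent.CRR

open Finset IsLocalRing

/-- the part of the polynomial with the set of variables `A` -/
private noncomputable def ExtTwo_G {K : Type} [CommRing K] (S : Finset (ℕ →₀ ℕ))
    (c : (ℕ →₀ ℕ) → K) (A : Finset ℕ) (j : ℕ → K) : K :=
  ∑ β ∈ S with β.support = A, c β * β.prod (fun i e => j i ^ e)

private theorem ExtTwo_prod0 {K : Type} [CommRing K] (β : ℕ →₀ ℕ) (j : ℕ → K) (A : Finset ℕ) :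
    β.prod (fun i e => (if i ∈ A then j i else 0) ^ e) =
      if β.support ⊆ A then β.prod (fun i e => j i ^ e) else 0 := by
  split_ifs with h
  · refine Finset.prod_congr rfl fun i hi => ?_
    show (if i ∈ A then j i else 0) ^ β i = j i ^ β i
    rw [if_pos (h hi)]
  · obtain ⟨i, hi, hiA⟩ := Finset.not_subset.1 h
    refine Finset.prod_eq_zero hi ?_
    show (if i ∈ A then j i else 0) ^ β i = 0
    rw [if_neg hiA, zero_pow (Finsupp.mem_support_iff.1 hi)]

private theorem ExtTwo_restr {K : Type} [CommRing K] (S : Finset (ℕ →₀ ℕ)) (c : (ℕ →₀ ℕ) → K)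
    (A : Finset ℕ) (j : ℕ → K) :
    pval S c (fun i => if i ∈ A then j i else 0) = ∑ B ∈ A.powerset, ExtTwo_G S c B j := by
  unfold pval ExtTwo_G
  have h1 : ∑ β ∈ S, c β * β.prod (fun i e => (if i ∈ A then j i else 0) ^ e) =
      ∑ β ∈ S with β.support ⊆ A, c β * β.prod (fun i e => j i ^ e) := by
    rw [Finset.sum_filter]
    refine Finset.sum_congr rfl fun β _ => ?_
    rw [ExtTwo_prod0]
    split_ifs
    · rfl
    · rw [mul_zero]
  rw [h1, ← Finset.sum_fiberwise_of_maps_to (s := S.filter fun β => β.support ⊆ A)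
    (t := A.powerset) (g := fun β => β.support)
    (fun β hβ => Finset.mem_powerset.2 (Finset.mem_filter.1 hβ).2)]
  refine Finset.sum_congr rfl fun B hB => ?_
  rw [Finset.filter_filter]
  refine Finset.sum_congr (Finset.filter_congr fun β _ => ?_) fun _ _ => rfl
  constructor
  · exact fun h => h.2
  · intro h
    exact ⟨h ▸ Finset.mem_powerset.1 hB, h⟩

private theorem ExtTwo_mem {K : Type} [CommRing K] (S : Finset (ℕ →₀ ℕ)) (c : (ℕ →₀ ℕ) → K)
    (N T : AddSubgroup K) (h : ∀ j : ℕ → K, (∀ i, j i ∈ T) → pval S c j ∈ N) (j : ℕ → K)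
    (hj : ∀ i, j i ∈ T) (A : Finset ℕ) : ExtTwo_G S c A j ∈ N := by
  induction A using Finset.strongInduction with
  | H A ih =>
    have h1 := h (fun i => if i ∈ A then j i else 0) (fun i => by
      show (if i ∈ A then j i else 0) ∈ T
      split_ifs
      · exact hj i
      · exact T.zero_mem)
    rw [ExtTwo_restr, ← Finset.add_sum_erase _ _ (Finset.mem_powerset_self A)] at h1
    have h2 : ∑ B ∈ A.powerset.erase A, ExtTwo_G S c B j ∈ N :=
      N.sum_mem fun B hB => by
        rw [Finset.mem_erase, Finset.mem_powerset] at hB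
        exact ih B (lt_of_le_of_ne hB.2 hB.1)
    have h3 := N.sub_mem h1 h2
    rwa [add_sub_cancel_right] at h3

private theorem ExtTwo_ex {K : Type} [CommRing K] (S : Finset (ℕ →₀ ℕ)) (c : (ℕ →₀ ℕ) → K)
    (j : ℕ → K) (h : pval S c j ≠ 0) : ∃ A, ExtTwo_G S c A j ≠ 0 := by
  by_contra hA
  push Not at hA
  refine h ?_
  unfold pval
  rw [← Finset.sum_fiberwise_of_maps_to (s := S) (t := S.image fun β => β.support)
    (g := fun β => β.support) (fun β hβ => Finset.mem_image_of_mem _ hβ)]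
  exact Finset.sum_eq_zero fun A _ => hA A

private theorem ExtTwo_one {K : Type} [CommRing K] {J : Ideal K}
    (hsw : ∀ x ∈ J, ∀ y ∈ J, x ^ 2 * y = x * y ^ 2) {A : Finset ℕ} {j : ℕ → K}
    (hj : ∀ i, j i ∈ J) {i n : ℕ} (hi : i ∈ A) (hn : n ∈ A) :
    j i * ∏ l ∈ A, j l = j n * ∏ l ∈ A, j l := by
  by_cases h : n = i
  · rw [h]
  · rw [← Finset.mul_prod_erase A j hi,
      ← Finset.mul_prod_erase (A.erase i) j (Finset.mem_erase.2 ⟨h, hn⟩)]
    linear_combination (∏ x ∈ (A.erase i).erase n, j x) * hsw (j i) (hj i) (j n) (hj n)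

private theorem ExtTwo_mono {K : Type} [CommRing K] {J : Ideal K} (hC : Cube J)
    (hsw : ∀ x ∈ J, ∀ y ∈ J, x ^ 2 * y = x * y ^ 2)
    (hz : ∀ x ∈ J, ∀ y ∈ J, ∀ z ∈ J, x ^ 2 * y * z = 0) (β : ℕ →₀ ℕ) {n : ℕ}
    (hn : n ∈ β.support) :
    (∀ j : ℕ → K, (∀ i, j i ∈ J) → β.prod (fun i e => j i ^ e) = ∏ i ∈ β.support, j i) ∨
    (∀ j : ℕ → K, (∀ i, j i ∈ J) →
      β.prod (fun i e => j i ^ e) = j n * ∏ i ∈ β.support, j i) ∨
    (∀ j : ℕ → K, (∀ i, j i ∈ J) → β.prod (fun i e => j i ^ e) = 0) := by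
  by_cases h1 : ∀ i ∈ β.support, β i = 1
  · left
    intro j _
    refine Finset.prod_congr rfl fun i hi => ?_
    show j i ^ β i = j i
    rw [h1 i hi, pow_one]
  · right
    push Not at h1
    obtain ⟨i, hi, hi1⟩ := h1
    have hi0 : β i ≠ 0 := Finsupp.mem_support_iff.1 hi
    by_cases h2 : β i = 2 ∧ ∀ l ∈ β.support, l ≠ i → β l = 1
    · left
      intro j hj
      rw [← ExtTwo_one hsw hj hi hn]
      unfold Finsupp.prod
      rw [← Finset.mul_prod_erase _ _ hi, ← Finset.mul_prod_erase _ j hi, h2.1,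
        Finset.prod_congr rfl (g := j) fun l hl => ?_]
      · ring
      · rw [Finset.mem_erase] at hl
        show j l ^ β l = j l
        rw [h2.2 l hl.2 hl.1, pow_one]
    · right
      intro j hj
      by_cases h3 : β i = 2
      · have h4 : ∃ l ∈ β.support, l ≠ i ∧ β l ≠ 1 := by
          by_contra h5
          push Not at h5
          exact h2 ⟨h3, h5⟩
        obtain ⟨l, hl, hli, hl1⟩ := h4
        have hl0 : β l ≠ 0 := Finsupp.mem_support_iff.1 hl
        unfold Finsupp.prod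
        rw [← Finset.mul_prod_erase _ _ hi,
          ← Finset.mul_prod_erase _ _ (Finset.mem_erase.2 ⟨hli, hl⟩), h3]
        obtain ⟨e, he⟩ : ∃ e, β l = e + 2 := ⟨β l - 2, by omega⟩
        rw [he]
        have h5 := hz (j i) (hj i) (j l) (hj l) (j l) (hj l)
        linear_combination (j l ^ e *
          ∏ x ∈ (β.support.erase i).erase l, j x ^ β x) * h5
      · refine Finset.prod_eq_zero hi ?_
        obtain ⟨e, he⟩ : ∃ e, β i = e + 3 := ⟨β i - 3, by omega⟩
        show j i ^ β i = 0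
        rw [he, pow_add, hC _ (hj i), mul_zero]

/-- the assignment of the variables in `A` -/
private noncomputable def ExtTwo_z {K : Type} [CommRing K] (A : Finset ℕ) (z : ℕ → K) (n : ℕ) :
    K := if h : n ∈ A then z (A.equivFin ⟨n, h⟩) else 0

private theorem ExtTwo_zprod {K : Type} [CommRing K] (A : Finset ℕ) (z : ℕ → K) :
    ∏ n ∈ A, ExtTwo_z A z n = ∏ i ∈ range A.card, z i := by
  rw [Finset.prod_range, ← Finset.prod_coe_sort, ← Equiv.prod_comp A.equivFin]
  refine Finset.prod_congr rfl fun n _ => ?_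
  unfold ExtTwo_z
  rw [dif_pos n.2]

private theorem ExtTwo_key {K : Type} [CommRing K] {J : Ideal K} (W : Subring K) (hC : Cube J)
    (hsw : ∀ x ∈ J, ∀ y ∈ J, x ^ 2 * y = x * y ^ 2)
    (hz : ∀ x ∈ J, ∀ y ∈ J, ∀ z ∈ J, x ^ 2 * y * z = 0) (β : ℕ →₀ ℕ) :
    ∃ a b : K, a ∈ W ∧ b ∈ W ∧ ∀ z : ℕ → K, (∀ i, z i ∈ J) →
      β.prod (fun i e => ExtTwo_z β.support z i ^ e) = Frm a b β.support.card z := by
  rcases Finset.eq_empty_or_nonempty β.support with h0 | h0
  · refine ⟨1, 0, W.one_mem, W.zero_mem, fun z _ => ?_⟩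
    have h1 : β = 0 := Finsupp.support_eq_empty.1 h0
    subst h1
    simp [Frm]
  · have hk : 0 < β.support.card := h0.card_pos
    have hJ : ∀ z : ℕ → K, (∀ i, z i ∈ J) → ∀ n, ExtTwo_z β.support z n ∈ J := by
      intro z hz n
      unfold ExtTwo_z
      split_ifs
      · exact hz _
      · exact J.zero_mem
    obtain ⟨n, hn⟩ : ∃ n, n = β.support.equivFin.symm ⟨0, hk⟩ := ⟨_, rfl⟩
    have hnz : ∀ z : ℕ → K, ExtTwo_z β.support z n = z 0 := by
      intro z
      unfold ExtTwo_z
      rw [dif_pos n.2]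
      have : β.support.equivFin ⟨(n : ℕ), n.2⟩ = ⟨0, hk⟩ := by
        rw [hn]
        exact β.support.equivFin.apply_symm_apply _
      rw [this]
    rcases ExtTwo_mono hC hsw hz β n.2 with h | h | h
    · refine ⟨1, 0, W.one_mem, W.zero_mem, fun z hzJ => ?_⟩
      rw [h _ (hJ z hzJ), ExtTwo_zprod, Frm, if_neg hk.ne']
      ring
    · refine ⟨0, 1, W.zero_mem, W.one_mem, fun z hzJ => ?_⟩
      rw [h _ (hJ z hzJ), ExtTwo_zprod, Frm, if_neg hk.ne', hnz]
      ring
    · refine ⟨0, 0, W.zero_mem, W.zero_mem, fun z hzJ => ?_⟩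
      rw [h _ (hJ z hzJ), Frm, if_neg hk.ne']
      ring

theorem exttwo : St2_exttwo := by
  intro K _ J W hC hsw hz S c hc hex
  obtain ⟨j₀, hj₀, hne⟩ := hex
  obtain ⟨A, hA⟩ := ExtTwo_ex S c j₀ hne
  choose a b ha hb hab using ExtTwo_key W hC hsw hz
  -- the form
  have hform : ∀ z : ℕ → K, (∀ i, z i ∈ J) → ExtTwo_G S c A (ExtTwo_z A z) =
      Frm (∑ β ∈ S with β.support = A, c β * a β) (∑ β ∈ S with β.support = A, c β * b β)
        A.card z := by
    intro z hzJ
    have h1 : ExtTwo_G S c A (ExtTwo_z A z) =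
        ∑ β ∈ S with β.support = A, c β * Frm (a β) (b β) A.card z := by
      refine Finset.sum_congr rfl fun β hβ => ?_
      have h2 : β.support = A := (Finset.mem_filter.1 hβ).2
      have h3 := hab β z hzJ
      rw [h2] at h3
      rw [h3]
    rw [h1]
    unfold Frm
    by_cases hk : A.card = 0
    · simp only [hk, if_true, add_zero]
      rw [Finset.sum_mul]
      exact Finset.sum_congr rfl fun β _ => by ring
    · simp only [hk, if_false]
      rw [Finset.sum_mul, Finset.sum_mul, ← Finset.sum_add_distrib]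
      exact Finset.sum_congr rfl fun β _ => by ring
  refine ⟨∑ β ∈ S with β.support = A, c β * a β,
    W.sum_mem fun β _ => W.mul_mem (hc β) (ha β),
    ∑ β ∈ S with β.support = A, c β * b β,
    W.sum_mem fun β _ => W.mul_mem (hc β) (hb β), A.card, ?_, ?_⟩
  · -- the form is not zero
    refine ⟨fun i => if h : i < A.card then j₀ (A.equivFin.symm ⟨i, h⟩) else 0, fun i => ?_, ?_⟩
    · show (if h : i < A.card then j₀ (A.equivFin.symm ⟨i, h⟩) else 0) ∈ J
      split_ifs
      · exact hj₀ _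
      · exact J.zero_mem
    · rw [← hform]
      · have h1 : ExtTwo_G S c A (ExtTwo_z A fun i =>
            if h : i < A.card then j₀ (A.equivFin.symm ⟨i, h⟩) else 0) = ExtTwo_G S c A j₀ := by
          refine Finset.sum_congr rfl fun β hβ => ?_
          have h2 : β.support = A := (Finset.mem_filter.1 hβ).2
          congr 1
          refine Finset.prod_congr rfl fun i hi => ?_
          have hiA : i ∈ A := h2 ▸ hi
          show ExtTwo_z A _ i ^ β i = j₀ i ^ β i
          congr 1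
          unfold ExtTwo_z
          rw [dif_pos hiA]
          show (if h : (A.equivFin ⟨i, hiA⟩ : ℕ) < A.card then
            j₀ (A.equivFin.symm ⟨(A.equivFin ⟨i, hiA⟩ : ℕ), h⟩) else 0) = j₀ i
          rw [dif_pos (A.equivFin ⟨i, hiA⟩).2]
          show j₀ (A.equivFin.symm (A.equivFin ⟨i, hiA⟩)) = j₀ i
          rw [Equiv.symm_apply_apply]
        rw [h1]
        exact hA
      · intro i
        show (if h : i < A.card then j₀ (A.equivFin.symm ⟨i, h⟩) else 0) ∈ J
        split_ifs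
        · exact hj₀ _
        · exact J.zero_mem
  · intro N T hT hN z hzT
    rw [← hform z fun i => hT _ (hzT i)]
    refine ExtTwo_mem S c N T hN _ (fun i => ?_) A
    unfold ExtTwo_z
    split_ifs
    · exact hzT _
    · exact T.zero_mem

end Pool.Agent.CRR
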