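import Pool.Agent.CRR.St2

/-!
Campaign CRR2, N14: a pure detecting form gives LocType.
-/

namespace Pool.Agent.CRR

open Finset IsLocalRing

private theorem fwd2_frm {K : Type} [CommRing K] (d : K) (k : ℕ) (z : ℕ → K) :
    Frm d 0 k z = d * ∏ i ∈ range k, z i := by
  unfold Frm
  by_cases h : k = 0 <;> simp [h]

theorem fwd2 (hwk : St2_wk) (hpow : St2_pow) (hpair : St2_pair) (hgen : St2_gen) : St2_fwd := by
  intro K _ _ _ p hp hpJ d hd k hD
  obtain ⟨-, hw2, hw3⟩ := hwk K p hp hpJ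
  set J := maximalIdeal K with hJ
  obtain ⟨z₁, hz₁, hne₁⟩ := hD.ne
  rw [fwd2_frm] at hne₁
  have hd0 : d ≠ 0 := fun h => hne₁ (by rw [h, zero_mul])
  obtain ⟨a₀, u, huW, hu, hdu⟩ := (hw3 d hd).resolve_left hd0
  -- values of p^a₀ * product of k elements
  have hval0 : ∀ z : ℕ → K, d * ∏ i ∈ range k, z i = 0 → (p : K) ^ a₀ * ∏ i ∈ range k, z i = 0 := by
    intro z h
    rw [hdu] at h
    have h1 : u * ((p : K) ^ a₀ * ∏ i ∈ range k, z i) = 0 := by linear_combination h
    exact (hu.mul_right_eq_zero).1 h1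
  have hvalI : ∀ I : Ideal K, I ≠ ⊥ → ∀ z : ℕ → K, (∀ i, z i ∈ J) →
      (p : K) ^ a₀ * ∏ i ∈ range k, z i ∈ I := by
    intro I hI z hz
    have h := hD.lst I hI z hz
    rw [fwd2_frm, hdu] at h
    obtain ⟨v, hv⟩ := hu.exists_left_inv
    have h1 : v * ((p : K) ^ a₀ * u * ∏ i ∈ range k, z i) ∈ I := I.mul_mem_left _ h
    have h2 : v * ((p : K) ^ a₀ * u * ∏ i ∈ range k, z i) = (p : K) ^ a₀ * ∏ i ∈ range k, z i := by
      linear_combination ((p : K) ^ a₀ * ∏ i ∈ range k, z i) * hv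
    rwa [h2] at h1
  -- the maximal l
  let P : ℕ → Prop := fun l => ∃ z : ℕ → K, (∀ i, z i ∈ J) ∧
    (p : K) ^ (a₀ + l) * ∏ i ∈ range (k - l), z i ≠ 0
  have hP0 : P 0 := by
    refine ⟨z₁, hz₁, ?_⟩
    intro h
    apply hne₁
    rw [hdu]
    simp only [add_zero, Nat.sub_zero] at h
    linear_combination u * h
  obtain ⟨l, hlk, hPl, hmax⟩ : ∃ l, l ≤ k ∧ P l ∧ ∀ l', l < l' → l' ≤ k → ¬ P l' := by
    classical
    refine ⟨Nat.findGreatest P k, Nat.findGreatest_le k, Nat.findGreatest_spec (Nat.zero_le k) hP0,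
      ?_⟩
    intro l' h1 h2
    exact Nat.findGreatest_is_greatest h1 h2
  -- a product of b = k - l elements
  have hext : ∀ z : ℕ → K, (p : K) ^ (a₀ + l) * ∏ i ∈ range (k - l), z i
      = (p : K) ^ a₀ * ∏ i ∈ range k, (if i < k - l then z i else (p : K)) := by
    intro z
    have e1 : k = (k - l) + l := by omega
    conv_rhs => rw [e1]
    rw [prod_range_add]
    have e2 : ∏ i ∈ range (k - l), (if i < k - l then z i else (p : K))
        = ∏ i ∈ range (k - l), z i := prod_congr rfl (fun i hi => by simp [mem_range.1 hi])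
    have e3 : ∏ i ∈ range l, (if (k - l) + i < k - l then z ((k - l) + i) else (p : K))
        = (p : K) ^ l := by
      rw [prod_congr rfl (g := fun _ => (p : K)) (fun i _ => by simp)]
      simp
    have e4 : k - l + l - l = k - l := by omega
    simp only [e4]
    rw [e2, e3, pow_add]
    ring
  have hextJ : ∀ z : ℕ → K, (∀ i, z i ∈ J) → ∀ i, (if i < k - l then z i else (p : K)) ∈ J := by
    intro z hz i
    by_cases h : i < k - l <;> simp [h, hz, hpJ]
  have hleast : ∀ I : Ideal K, I ≠ ⊥ → Ideal.span {(p : K) ^ (a₀ + l)} * J ^ (k - l) ≤ I := by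
    intro I hI
    rw [← hpow]
    intro z hz
    rw [hext]
    exact hvalI I hI _ (hextJ z hz)
  -- the key fact
  have hkey : ∀ Y : Set K, Y ⊆ (J : Set K) → ∀ z : ℕ → K, (∀ i, i < k - l → z i ∈ Y) →
      (p : K) ^ (a₀ + l) * ∏ i ∈ range (k - l), z i ≠ 0 →
      J = Ideal.span ({(p : K)} ∪ Y) := by
    intro Y hY z hz hne
    apply hgen K p Y hpJ hw2 hY
    by_contra hS
    apply hne
    rw [hext]
    apply hval0
    have h1 := hD.sub (Subring.closure ((WK K : Set K) ∪ Y))
      (fun x hx => Subring.subset_closure (Or.inl hx)) hS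
      (fun i => if i < k - l then z i else (p : K)) ?_
    · rw [fwd2_frm] at h1
      exact h1
    · intro i
      by_cases h : i < k - l
      · simp only [h, if_true]
        exact ⟨hY (hz i h), Subring.subset_closure (Or.inr (hz i h))⟩
      · simp only [h, if_false]
        exact ⟨hpJ, natCast_mem _ p⟩
  have h2unit : p ≠ 2 → ∀ x ∈ J, 2 * x = 0 → x = 0 := by
    intro hp2 x _ h2x
    have hodd : p % 2 = 1 := hp.eq_two_or_odd.resolve_left hp2
    have hu2 : IsUnit (2 : K) := by
      by_contra hn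
      have h2J : (2 : K) ∈ J := by
        rw [hJ, mem_maximalIdeal]
        exact hn
      have h1 : (1 : K) = (p : K) - (2 : K) * ((p / 2 : ℕ) : K) := by
        have h3 : p = 2 * (p / 2) + 1 := by omega
        have h4 : (p : K) = 2 * ((p / 2 : ℕ) : K) + 1 := by
          have h5 := congrArg (Nat.cast : ℕ → K) h3
          push_cast at h5
          exact h5
        rw [h4]; ring
      have h6 : (1 : K) ∈ J := by
        rw [h1]
        exact Ideal.sub_mem _ hpJ (Ideal.mul_mem_right _ _ h2J)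
      exact (maximalIdeal.isMaximal K).ne_top ((Ideal.eq_top_iff_one _).2 h6)
    exact (hu2.mul_right_eq_zero).1 h2x
  obtain ⟨z, hz, hzne⟩ := hPl
  refine ⟨p, a₀ + l, k - l, hp, ?_, hleast, ?_, ?_⟩
  · intro hbot
    apply hzne
    have h1 := (hpow K J ⊥ ((p : K) ^ (a₀ + l)) (k - l)).2 hbot.le z hz
    exact (Submodule.mem_bot K).1 h1
  · intro hb
    rw [← le_bot_iff, ← hpow]
    intro z' hz'
    rw [Submodule.mem_bot]
    by_contra hcon
    apply hmax (l + 1) (by omega) (by omega)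
    refine ⟨z', hz', ?_⟩
    have e1 : k - (l + 1) = k - l - 1 := by omega
    rw [e1, ← add_assoc]
    exact hcon
  · by_cases hp2 : p = 2
    · by_cases hE : (2 ≤ k - l ∧ ∃ x : ℕ → K, (∀ i, x i ∈ maximalIdeal K) ∧
        (p : K) ^ (a₀ + l) * (x 0 * ∏ i ∈ range (k - l - 1), x i) ≠ 0)
      · have hg : gnum p (k - l) (2 ≤ k - l ∧ ∃ x : ℕ → K, (∀ i, x i ∈ maximalIdeal K) ∧
            (p : K) ^ (a₀ + l) * (x 0 * ∏ i ∈ range (k - l - 1), x i) ≠ 0) = k - l - 1 := by
          unfold gnum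
          rw [if_pos hp2, if_pos hE]
        rw [hg]
        obtain ⟨hb, x, hx, hxne⟩ := hE
        refine ⟨fun i => x i, ?_⟩
        apply hkey _ _ (fun i => x (i - 1))
        · intro i hi
          exact ⟨⟨i - 1, by omega⟩, rfl⟩
        · have e1 : ∏ i ∈ range (k - l), x (i - 1) = x 0 * ∏ i ∈ range (k - l - 1), x i := by
            have e2 : k - l = (k - l - 1) + 1 := by omega
            conv_lhs => rw [e2]
            rw [prod_range_succ']
            simp only [Nat.add_sub_cancel, Nat.zero_sub]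
            ring
          rw [e1]
          exact hxne
        · rintro _ ⟨i, rfl⟩
          exact hx _
      · have hg : gnum p (k - l) (2 ≤ k - l ∧ ∃ x : ℕ → K, (∀ i, x i ∈ maximalIdeal K) ∧
            (p : K) ^ (a₀ + l) * (x 0 * ∏ i ∈ range (k - l - 1), x i) ≠ 0) = k - l := by
          unfold gnum
          rw [if_pos hp2, if_neg hE]
        rw [hg]
        refine ⟨fun i => z i, ?_⟩
        apply hkey _ _ z
        · intro i hi
          exact ⟨⟨i, hi⟩, rfl⟩
        · exact hzne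
        · rintro _ ⟨i, rfl⟩
          exact hz _
    · have hg : gnum p (k - l) (2 ≤ k - l ∧ ∃ x : ℕ → K, (∀ i, x i ∈ maximalIdeal K) ∧
          (p : K) ^ (a₀ + l) * (x 0 * ∏ i ∈ range (k - l - 1), x i) ≠ 0) = (k - l + 1) / 2 := by
        unfold gnum
        rw [if_neg hp2]
      rw [hg]
      obtain ⟨y, hy, hyne⟩ := hpair K J ((p : K) ^ (a₀ + l)) (k - l) (h2unit hp2) ⟨z, hz, hzne⟩
      refine ⟨fun i => y i, ?_⟩
      apply hkey _ _ (fun i => y (i / 2))
      · intro i hi
        exact ⟨⟨i / 2, by omega⟩, rfl⟩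
      · exact hyne
      · rintro _ ⟨i, rfl⟩
        exact hy _

end Pool.Agent.CRR
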