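import Pool.Agent.CRR.St2

/-!
Campaign CRR, part 2, module N15 (FwdN): the form gives the type of a nilpotent ring.
-/

namespace Pool.Agent.CRR

open Finset IsLocalRing

private lemma FwdN_congr {R : Type} [NonUnitalCommRing R] (z z' : ℕ → R) (k : ℕ)
    (h : ∀ i ≤ k, z i = z' i) : prd z k = prd z' k := by
  induction k with
  | zero => exact h 0 le_rfl
  | succ k ih =>
    show prd z k * z (k + 1) = prd z' k * z' (k + 1)
    rw [ih (fun i hi => h i (by omega)), h (k + 1) le_rfl]

private lemma FwdN_shift {R : Type} [NonUnitalCommRing R] (x : ℕ → R) (j : ℕ) :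
    prd (fun i => x (i - 1)) (j + 1) = x 0 * prd x j := by
  induction j with
  | zero => rfl
  | succ j ih =>
    show prd (fun i => x (i - 1)) (j + 1) * x (j + 2 - 1) = x 0 * (prd x j * x (j + 1))
    rw [ih, mul_assoc]
    rfl

private lemma FwdN_inr {R : Type} [NonUnitalCommRing R] (z : ℕ → R) (k : ℕ) :
    ∏ i ∈ range (k + 1), (Unitization.inr (z i) : Unitization ℤ R) = Unitization.inr (prd z k) := by
  induction k with
  | zero => rw [prod_range_one]; rfl
  | succ k ih =>
    rw [prod_range_succ, ih, ← Unitization.inr_mul]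
    rfl

private lemma FwdN_gen {R : Type} [NonUnitalCommRing R] (q k n : ℕ)
    (hsub : ∀ S : NonUnitalSubring R, S ≠ ⊤ → ∀ z : ℕ → R, (∀ i, z i ∈ S) → q • prd z k = 0)
    (y : Fin n → R) (z : ℕ → R) (hz : ∀ i ≤ k, z i ∈ Set.range y) (hne : q • prd z k ≠ 0) :
    NonUnitalSubring.closure (Set.range y) = ⊤ := by
  by_contra hS
  apply hne
  have h1 : prd z k = prd (fun i => if i ≤ k then z i else 0) k := by
    apply FwdN_congr
    intro i hi
    simp [hi]
  rw [h1]
  apply hsub _ hS
  intro i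
  by_cases hi : i ≤ k
  · simp only [hi, if_true]
    exact NonUnitalSubring.subset_closure (hz i hi)
  · simp only [hi, if_false]
    exact zero_mem _

theorem fwdN (hpair : St2_pair) : St2_fwdN := by
  classical
  intro R _ _ p e hp hcard hnil d k hD
  obtain ⟨hne, hlst, hsub⟩ := hD
  have hF : ∀ z : ℕ → R, FrmN d 0 k z = d • prd z k := by
    intro z
    simp [FrmN]
  simp only [hF] at hne hlst hsub
  obtain ⟨z₀, hz₀⟩ := hne
  have hd0 : d ≠ 0 := by
    rintro rfl
    simp at hz₀
  have hkill : ∀ x : R, (p ^ e) • x = 0 := by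
    intro x
    rw [← hcard]
    exact card_nsmul_eq_zero'
  obtain ⟨u, hu, hdu⟩ := ((Int.finiteMultiplicity_iff (a := (p : ℤ)) (b := d)).2
    ⟨by simpa using hp.ne_one, hd0⟩).exists_eq_pow_mul_and_not_dvd
  set a := multiplicity (p : ℤ) d with ha
  clear_value a
  have hpZ : Irreducible (p : ℤ) := (Nat.prime_iff_prime_int.1 hp).irreducible
  obtain ⟨s, u', hsu⟩ : IsCoprime ((p : ℤ) ^ e) u :=
    ((hpZ.coprime_iff_not_dvd).2 hdu).pow_left
  have hpa : ∀ x : R, (p ^ a) • x = u' • (d • x) := by
    intro x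
    have h1 : ((p : ℤ) ^ e) • x = 0 := by
      have := hkill x
      rw [← natCast_zsmul] at this
      push_cast at this
      exact this
    have h2 : (p ^ a) • x = ((p : ℤ) ^ a) • x := by
      rw [← natCast_zsmul]
      push_cast
      rfl
    rw [h2, smul_smul]
    have h3 : ((p : ℤ) ^ a) = (s * (p : ℤ) ^ a) * (p : ℤ) ^ e + u' * d := by
      rw [hu]
      linear_combination (-(p : ℤ) ^ a) * hsu
    rw [h3, add_smul, mul_smul, h1, smul_zero, zero_add]
  have hup : ∀ x : R, d • x = u • ((p ^ a) • x) := by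
    intro x
    have h2 : (p ^ a) • x = ((p : ℤ) ^ a) • x := by
      rw [← natCast_zsmul]
      push_cast
      rfl
    rw [h2, smul_smul, hu, mul_comm]
  have hne' : (p ^ a) • prd z₀ k ≠ 0 := by
    intro h
    apply hz₀
    rw [hup, h, smul_zero]
  have hlst' : ∀ I : AddSubgroup R, IsIdl R I → I ≠ ⊥ → ∀ z : ℕ → R, (p ^ a) • prd z k ∈ I := by
    intro I hI hI' z
    rw [hpa]
    exact I.zsmul_mem (hlst I hI hI' z) _
  have hsub' : ∀ S : NonUnitalSubring R, S ≠ ⊤ → ∀ z : ℕ → R, (∀ i, z i ∈ S) →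
      (p ^ a) • prd z k = 0 := by
    intro S hS z hz
    rw [hpa, hsub S hS z hz, smul_zero]
  refine ⟨p, a, k, hp, ⟨e, hcard⟩, hnil, ?_, ?_, ?_⟩
  · intro h
    apply hne'
    have : (p ^ a) • prd z₀ k ∈ pwr R p a k := AddSubgroup.subset_closure ⟨z₀, rfl⟩
    rw [h] at this
    simpa using this
  · intro I hI hI'
    unfold pwr
    rw [AddSubgroup.closure_le]
    rintro _ ⟨z, rfl⟩
    exact hlst' I hI hI' z
  · by_cases hp2 : p = 2
    · by_cases hE : 1 ≤ k ∧ ∃ x : ℕ → R, (p ^ a) • (x 0 * prd x (k - 1)) ≠ 0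
      · have hg : gnum p (k + 1) (1 ≤ k ∧ ∃ x : ℕ → R, (p ^ a) • (x 0 * prd x (k - 1)) ≠ 0) = k := by
          unfold gnum
          rw [if_pos hp2, if_pos hE]
          rfl
        rw [hg]
        obtain ⟨hk, x, hx⟩ := hE
        refine ⟨fun i => x i, ?_⟩
        apply FwdN_gen (p ^ a) k k hsub' _ (fun i => x (i - 1))
        · intro i hi
          exact ⟨⟨i - 1, by omega⟩, rfl⟩
        · obtain ⟨j, rfl⟩ : ∃ j, k = j + 1 := ⟨k - 1, by omega⟩
          rw [FwdN_shift]
          exact hx
      · have hg : gnum p (k + 1) (1 ≤ k ∧ ∃ x : ℕ → R, (p ^ a) • (x 0 * prd x (k - 1)) ≠ 0) =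
            k + 1 := by
          unfold gnum
          rw [if_pos hp2, if_neg hE]
        rw [hg]
        refine ⟨fun i => z₀ i, ?_⟩
        apply FwdN_gen (p ^ a) k (k + 1) hsub' _ z₀
        · intro i hi
          exact ⟨⟨i, by omega⟩, rfl⟩
        · exact hne'
    · have hg : gnum p (k + 1) (1 ≤ k ∧ ∃ x : ℕ → R, (p ^ a) • (x 0 * prd x (k - 1)) ≠ 0) =
          (k + 1 + 1) / 2 := by
        unfold gnum
        rw [if_neg hp2]
      rw [hg]
      let J : Ideal (Unitization ℤ R) := RingHom.ker (Unitization.fstHom ℤ R)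
      have hJ : ∀ x : Unitization ℤ R, x ∈ J ↔ x.fst = 0 := fun x => Iff.rfl
      have hJr : ∀ x ∈ J, x = Unitization.inr x.snd := by
        intro x hx
        ext
        · exact (hJ x).1 hx
        · rfl
      have hsm : ∀ x : R, ((p ^ a : ℕ) : Unitization ℤ R) * Unitization.inr x =
          Unitization.inr ((p ^ a) • x) := by
        intro x
        rw [← nsmul_eq_mul]
        exact (map_nsmul (Unitization.inrNonUnitalAlgHom ℤ R) (p ^ a) x).symm
      have hinj : Function.Injective (Unitization.inr : R → Unitization ℤ R) :=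
        Unitization.inr_injective
      have h2 : ∀ x ∈ J, 2 * x = 0 → x = 0 := by
        intro x hx h
        rw [hJr x hx] at h ⊢
        have h3 : (Unitization.inr (2 • x.snd) : Unitization ℤ R) = 0 := by
          rw [← h]
          have := (map_nsmul (Unitization.inrNonUnitalAlgHom ℤ R) 2 x.snd)
          rw [nsmul_eq_mul] at this
          exact_mod_cast this
        have h4 : 2 • x.snd = 0 := hinj (by rw [h3]; rfl)
        have h5 : x.snd = 0 := by
          have hcop : Nat.Coprime 2 (p ^ e) := by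
            apply Nat.Coprime.pow_right
            exact (Nat.coprime_primes Nat.prime_two hp).2 (Ne.symm hp2)
          have h6 : addOrderOf x.snd ∣ 2 := addOrderOf_dvd_of_nsmul_eq_zero h4
          have h7 : addOrderOf x.snd ∣ p ^ e := addOrderOf_dvd_of_nsmul_eq_zero (hkill _)
          have h8 := Nat.eq_one_of_dvd_coprimes hcop h6 h7
          exact AddMonoid.addOrderOf_eq_one_iff.1 h8
        rw [h5]
        rfl
      obtain ⟨y, hyJ, hy⟩ := hpair (Unitization ℤ R) J ((p ^ a : ℕ) : Unitization ℤ R) (k + 1) h2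
        ⟨fun i => Unitization.inr (z₀ i), fun i => by rw [hJ]; rfl, by
          rw [FwdN_inr, hsm]
          intro h
          exact hne' (hinj (by rw [h]; rfl))⟩
      refine ⟨fun i => (y i).snd, ?_⟩
      apply FwdN_gen (p ^ a) k _ hsub' _ (fun i => (y (i / 2)).snd)
      · intro i hi
        exact ⟨⟨i / 2, by omega⟩, rfl⟩
      · intro h
        apply hy
        have h9 : ∏ i ∈ range (k + 1), y (i / 2) =
            ∏ i ∈ range (k + 1), (Unitization.inr ((y (i / 2)).snd) : Unitization ℤ R) :=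
          prod_congr rfl (fun i _ => hJr _ (hyJ _))
        rw [h9, FwdN_inr (fun i => (y (i / 2)).snd), hsm, h]
        rfl

end Pool.Agent.CRR
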