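import Pool.Agent.CRR.St2

/-!
Campaign CRR2, N13: generators of the maximal ideal.
-/

namespace Pool.Agent.CRR

open Finset IsLocalRing

theorem gen2 : St2_gen := by
  intro K _ _ p Y hp hW hY hcl
  have key : ∀ x : K, ∃ w ∈ WK K, x - w ∈ Ideal.span Y := by
    intro x
    have hx : x ∈ Subring.closure ((WK K : Set K) ∪ Y) := by
      rw [hcl]
      exact Subring.mem_top x
    refine Subring.closure_induction (p := fun x _ => ∃ w ∈ WK K, x - w ∈ Ideal.span Y)
      ?_ ?_ ?_ ?_ ?_ ?_ hx
    · rintro x (hx | hx)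
      · exact ⟨x, hx, by simp⟩
      · exact ⟨0, (WK K).zero_mem, by simpa using Ideal.subset_span hx⟩
    · exact ⟨0, (WK K).zero_mem, by simp⟩
    · exact ⟨1, (WK K).one_mem, by simp⟩
    · rintro x y _ _ ⟨w, hw, h1⟩ ⟨w', hw', h2⟩
      refine ⟨w + w', (WK K).add_mem hw hw', ?_⟩
      have : x + y - (w + w') = (x - w) + (y - w') := by ring
      rw [this]
      exact Ideal.add_mem _ h1 h2
    · rintro x _ ⟨w, hw, h1⟩
      refine ⟨-w, (WK K).neg_mem hw, ?_⟩
      have : -x - -w = -(x - w) := by ring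
      rw [this]
      exact (Ideal.neg_mem_iff _).2 h1
    · rintro x y _ _ ⟨w, hw, h1⟩ ⟨w', hw', h2⟩
      refine ⟨w * w', (WK K).mul_mem hw hw', ?_⟩
      have : x * y - w * w' = y * (x - w) + w * (y - w') := by ring
      rw [this]
      exact Ideal.add_mem _ (Ideal.mul_mem_left _ _ h1) (Ideal.mul_mem_left _ _ h2)
  apply le_antisymm
  · intro x hx
    obtain ⟨w, hw, h1⟩ := key x
    have hYJ : Ideal.span Y ≤ maximalIdeal K := Ideal.span_le.2 hY
    have hwJ : w ∈ maximalIdeal K := by
      have : w = x - (x - w) := by ring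
      rw [this]
      exact Ideal.sub_mem _ hx (hYJ h1)
    obtain ⟨d, _, hd⟩ := hW w hw hwJ
    have : x = (x - w) + d * p := by rw [hd]; ring
    rw [this]
    apply Ideal.add_mem
    · exact Ideal.span_mono Set.subset_union_right h1
    · exact Ideal.mul_mem_left _ _ (Ideal.subset_span (Or.inl rfl))
  · rw [Ideal.span_le]
    rintro x (hx | hx)
    · rw [Set.mem_singleton_iff] at hx
      rw [hx]; exact hp
    · exact hY hx

end Pool.Agent.CRR
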