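import Pool.Agent.CRR.St

/-!
Campaign CRR, M12: the identity x^3 = x^n in a finite local ring of order prime to 6.
-/

namespace Pool.Agent.CRR

open IsLocalRing

theorem InMUnit_expand {K : Type} [CommRing K] (j : K) (hj : j * j * j = 0) (N : ℕ) :
    (1 + j) ^ N = 1 + (N : K) * j + (N.choose 2 : K) * (j * j) := by
  induction N with
  | zero => simp
  | succ N ih =>
    rw [pow_succ, ih, Nat.choose_succ_succ' N 1, Nat.choose_one_right]
    push_cast
    have h1 : (1 + (N : K) * j + (N.choose 2 : K) * (j * j)) * (1 + j)
        = 1 + ((N : K) + 1) * j + ((N : K) + (N.choose 2 : K)) * (j * j)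
          + (N.choose 2 : K) * (j * j * j) := by ring
    rw [h1, hj]
    ring

theorem InMUnit_natUnit {K : Type} [CommRing K] [Finite K] (m : ℕ)
    (h : (Nat.card K).Coprime m) : IsUnit (m : K) := by
  have h0 : ((Nat.card K : ℕ) : K) = 0 := by
    have h1 : Nat.card K • (1 : K) = 0 := card_nsmul_eq_zero'
    rwa [nsmul_eq_mul, mul_one] at h1
  obtain ⟨a, b, hab⟩ := Nat.isCoprime_iff_coprime.2 h
  have h2 : ((a : K)) * ((Nat.card K : ℕ) : K) + (b : K) * (m : K) = 1 := by
    have := congrArg (Int.cast : ℤ → K) hab
    push_cast at this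
    exact this
  rw [h0, mul_zero, zero_add] at h2
  exact IsUnit.of_mul_eq_one_right _ h2

theorem InMUnit_inM_iff {K : Type} [CommRing K] (n : ℕ) (hn : 4 ≤ n) :
    InM n K ↔ ∀ x : K, x ^ 3 = x ^ 3 * x ^ (n - 3) := by
  have h1 : ∀ x : K, x ^ 3 * x ^ (n - 3) = x ^ n := by
    intro x
    rw [← pow_add]
    congr 1
    omega
  constructor
  · intro h x
    have := h x
    rw [pw_eq_pow, pw_eq_pow] at this
    rw [h1]
    have e : n - 1 + 1 = n := by omega
    rw [e] at this
    exact this
  · intro h x
    rw [pw_eq_pow, pw_eq_pow]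
    have e : n - 1 + 1 = n := by omega
    rw [e, ← h1]
    exact h x

theorem inM_unit : St_inM_unit := by
  intro n hn K _ _ _ hcop
  have h6 : IsUnit ((6 : ℕ) : K) := InMUnit_natUnit 6 hcop
  have h2 : IsUnit ((2 : ℕ) : K) :=
    InMUnit_natUnit 2 (Nat.Coprime.coprime_dvd_right (by norm_num) hcop)
  have h2' : ∀ x : K, 2 * x = 0 → x = 0 := by
    intro x hx
    have : ((2 : ℕ) : K) * x = ((2 : ℕ) : K) * 0 := by
      push_cast
      rw [hx, mul_zero]
    exact h2.mul_left_cancel this
  have hfinR : Finite (ResidueField K) := Finite.of_surjective (residue K) residue_surjective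
  haveI : Fintype (ResidueField K) := Fintype.ofFinite _
  rw [InMUnit_inM_iff n hn]
  constructor
  · intro h
    -- cubes vanish on the maximal ideal
    have hcube : ∀ x ∈ maximalIdeal K, x ^ 3 = 0 := by
      intro x hx
      have hxN : x ^ (n - 3) ∈ maximalIdeal K := Ideal.pow_mem_of_mem _ hx _ (by omega)
      have hu : IsUnit (1 - x ^ (n - 3)) := by
        by_contra hcon
        have h1 : (1 : K) - x ^ (n - 3) ∈ maximalIdeal K := (mem_maximalIdeal _).2 hcon
        have h3 : (1 : K) ∈ maximalIdeal K := by
          have := Ideal.add_mem _ h1 hxN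
          rwa [sub_add_cancel] at this
        exact (Ideal.ne_top_iff_one _).1 (maximalIdeal.isMaximal K).ne_top h3
      have h4 : (1 - x ^ (n - 3)) * x ^ 3 = (1 - x ^ (n - 3)) * 0 := by
        have := h x
        rw [mul_zero, sub_mul, one_mul, mul_comm (x ^ (n - 3)) (x ^ 3), ← this, sub_self]
      exact hu.mul_left_cancel h4
    have hCZ : CubeZero K (maximalIdeal K) := by
      intro x hx y hy z hz
      have e : ((6 : ℕ) : K) * (x * y * z) = ((6 : ℕ) : K) * 0 := by
        have h1 := hcube (x + y + z) (Ideal.add_mem _ (Ideal.add_mem _ hx hy) hz)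
        have h2 := hcube (x + y) (Ideal.add_mem _ hx hy)
        have h3 := hcube (y + z) (Ideal.add_mem _ hy hz)
        have h4 := hcube (x + z) (Ideal.add_mem _ hx hz)
        have h5 := hcube x hx
        have h6 := hcube y hy
        have h7 := hcube z hz
        push_cast
        rw [mul_zero]
        have : (6 : K) * (x * y * z) = (x + y + z) ^ 3 - (x + y) ^ 3 - (y + z) ^ 3 - (x + z) ^ 3
            + x ^ 3 + y ^ 3 + z ^ 3 := by ring
        rw [this, h1, h2, h3, h4, h5, h6, h7]
        ring
      exact h6.mul_left_cancel e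
    -- units satisfy u^(n-3) = 1
    have hunit : ∀ u : K, IsUnit u → u ^ (n - 3) = 1 := by
      intro u hu
      have h1 := h u
      have h3 : u ^ 3 * 1 = u ^ 3 * u ^ (n - 3) := by rw [mul_one]; exact h1
      exact ((hu.pow 3).mul_left_cancel h3).symm
    refine ⟨hCZ, ?_, ?_⟩
    · have h1 := (FiniteField.forall_pow_eq_one_iff (ResidueField K) (n - 3)).1 (by
        intro x
        obtain ⟨y, hy⟩ := residue_surjective (R := K) (x : ResidueField K)
        have hyu : IsUnit y := by
          rw [← residue_ne_zero_iff_isUnit, hy]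
          exact x.ne_zero
        have h3 := congrArg (residue K) (hunit y hyu)
        rw [map_pow, map_one, hy] at h3
        apply Units.ext
        push_cast
        exact h3)
      rwa [Nat.card_eq_fintype_card]
    · intro j hj
      have hone : ∀ j ∈ maximalIdeal K, IsUnit (1 + j) := by
        intro j hj
        by_contra hcon
        have h1 : (1 : K) + j ∈ maximalIdeal K := (mem_maximalIdeal _).2 hcon
        have h3 : (1 : K) ∈ maximalIdeal K := by
          have := Ideal.sub_mem _ h1 hj
          rwa [add_sub_cancel_right] at this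
        exact (Ideal.ne_top_iff_one _).1 (maximalIdeal.isMaximal K).ne_top h3
      have hex : ∀ j ∈ maximalIdeal K, ((n - 3 : ℕ) : K) * j
          + ((n - 3).choose 2 : K) * (j * j) = 0 := by
        intro j hj
        have h1 := hunit (1 + j) (hone j hj)
        rw [InMUnit_expand j (hCZ j hj j hj j hj)] at h1
        have h3 : ((n - 3 : ℕ) : K) * j + ((n - 3).choose 2 : K) * (j * j)
            = (1 + ((n - 3 : ℕ) : K) * j + ((n - 3).choose 2 : K) * (j * j)) - 1 := by ring
        rw [h3, h1, sub_self]
      have e1 := hex j hj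
      have e2 := hex (2 * j) (Ideal.mul_mem_left _ _ hj)
      have e3 : ((n - 3).choose 2 : K) * (j * j) = 0 := by
        apply h2'
        have : 2 * (((n - 3).choose 2 : K) * (j * j)) = (((n - 3 : ℕ) : K) * (2 * j)
          + ((n - 3).choose 2 : K) * ((2 * j) * (2 * j))) - 2 * (((n - 3 : ℕ) : K) * j
          + ((n - 3).choose 2 : K) * (j * j)) := by ring
        rw [this, e1, e2]
        ring
      rw [e3, add_zero] at e1
      rw [nsmul_eq_mul]
      exact e1
  · rintro ⟨hCZ, hdvd, hN⟩ x
    by_cases hx : IsUnit x
    · obtain ⟨M, hM⟩ := hdvd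
      rw [Nat.card_eq_fintype_card] at hM
      set q : ℕ := Fintype.card (ResidueField K) with hq
      have hq1 : 1 ≤ q := Fintype.card_pos
      have hres : residue K x ≠ 0 := (residue_ne_zero_iff_isUnit x).2 hx
      have h1 : (residue K x) ^ (q - 1) = 1 := FiniteField.pow_card_sub_one_eq_one _ hres
      have hj : x ^ (q - 1) - 1 ∈ maximalIdeal K := by
        rw [← residue_eq_zero_iff, map_sub, map_pow, map_one, h1, sub_self]
      set j : K := x ^ (q - 1) - 1 with hjdef
      have hxq : x ^ (q - 1) = 1 + j := by rw [hjdef]; ring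
      have hqu : IsUnit ((q - 1 : ℕ) : K) := by
        rw [← residue_ne_zero_iff_isUnit, Nat.cast_sub hq1, map_sub, map_natCast, Nat.cast_one,
          map_one]
        have h3 : ((q : ℕ) : ResidueField K) = 0 := by
          rw [hq]
          exact Nat.cast_card_eq_zero _
        rw [h3, zero_sub]
        exact neg_ne_zero.2 one_ne_zero
      have hMj : (M : K) * j = 0 := by
        have h3 := hN j hj
        rw [hM, nsmul_eq_mul] at h3
        have h4 : ((q - 1 : ℕ) : K) * ((M : K) * j) = ((q - 1 : ℕ) : K) * 0 := by
          rw [mul_zero, ← h3]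
          push_cast
          ring
        exact hqu.mul_left_cancel h4
      have hch : ((M.choose 2 : ℕ) : K) * (j * j) = 0 := by
        apply h2'
        have h3 : 2 * M.choose 2 = M * (M - 1) := by
          rw [Nat.choose_two_right]
          exact Nat.mul_div_cancel' (Nat.even_mul_pred_self M).two_dvd
        have h4 : (2 : K) * ((M.choose 2 : ℕ) : K) = (M : K) * ((M - 1 : ℕ) : K) := by
          have := congrArg (Nat.cast : ℕ → K) h3
          push_cast at this
          exact this
        rw [← mul_assoc, h4]
        have : (M : K) * ((M - 1 : ℕ) : K) * (j * j) = ((M - 1 : ℕ) : K) * ((M : K) * j) * j := by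
          ring
        rw [this, hMj]
        ring
      have hfin : x ^ (n - 3) = 1 := by
        rw [hM, pow_mul, hxq, InMUnit_expand j (hCZ j hj j hj j hj), hMj, hch]
        ring
      rw [hfin, mul_one]
    · have hxm : x ∈ maximalIdeal K := (mem_maximalIdeal _).2 hx
      have h1 : x ^ 3 = 0 := by
        have := hCZ x hxm x hxm x hxm
        rw [← this]
        ring
      rw [h1, zero_mul]

end Pool.Agent.CRR
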