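import Pool.Agent.CRR.St2

/-!
# N19: pigeonhole for products
-/

namespace Pool.Agent.CRR

open Finset IsLocalRing

private lemma Kap2_seq {K : Type} [CommRing K] (J : Ideal K) (y : ℕ → K) (S : Finset ℕ)
    (hy : ∀ s ∈ S, y s ∈ J) : ∃ x : ℕ → K, (∀ i, x i ∈ J) ∧
      ∏ i ∈ range S.card, x i = ∏ s ∈ S, y s := by
  classical
  induction S using Finset.induction_on with
  | empty => exact ⟨fun _ => 0, fun _ => J.zero_mem, by simp⟩
  | insert a S ha ih =>
    obtain ⟨x, hx, h⟩ := ih fun s hs => hy s (Finset.mem_insert_of_mem hs)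
    refine ⟨fun k => if k < S.card then x k else y a, ?_, ?_⟩
    · intro i
      show (if i < S.card then x i else y a) ∈ J
      split_ifs
      · exact hx i
      · exact hy a (Finset.mem_insert_self a S)
    · rw [Finset.card_insert_of_notMem ha, Finset.prod_range_succ, Finset.prod_insert ha, ← h]
      rw [if_neg (lt_irrefl _), mul_comm]
      congr 1
      apply Finset.prod_congr rfl
      intro i hi
      rw [if_pos (Finset.mem_range.1 hi)]

private lemma Kap2_prod {K : Type} [CommRing K] (b m : ℕ) (e : Fin m → K) (κ : ℕ → Fin m) :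
    ∏ i ∈ range b, e (κ i) = ∏ l : Fin m, e l ^ #{i ∈ range b | κ i = l} := by
  rw [← Finset.prod_fiberwise (range b) κ (fun i => e (κ i))]
  apply Finset.prod_congr rfl
  intro l _
  rw [Finset.prod_congr rfl (g := fun _ => e l), Finset.prod_const]
  intro i hi
  rw [(Finset.mem_filter.1 hi).2]

private lemma Kap2_three {K : Type} [CommRing K] (J : Ideal K) (b m : ℕ) (e : Fin m → K)
    (hJ : Cube J) (he : ∀ l, e l ∈ J) (κ : ℕ → Fin m) (l : Fin m)
    (hl : 3 ≤ #{i ∈ range b | κ i = l}) : ∏ i ∈ range b, e (κ i) = 0 := by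
  rw [Kap2_prod]
  have h1 : e l ^ 3 ∣ ∏ l : Fin m, e l ^ #{i ∈ range b | κ i = l} :=
    (pow_dvd_pow _ hl).trans (Finset.dvd_prod_of_mem _ (Finset.mem_univ l))
  have h2 : e l ^ 3 = 0 := by
    have := hJ (e l) (he l)
    first
      | exact this
      | (rw [pow_succ, pow_two]; exact this)
  rw [h2] at h1
  exact zero_dvd_iff.1 h1

theorem kap2 : St2_kap := by
  intro K _ J A b m e hJ he h κ
  classical
  rcases h with h | ⟨h, hxy⟩ | ⟨h, hx⟩
  · -- some factor occurs three times
    obtain ⟨l, -, hl⟩ := Finset.exists_lt_card_fiber_of_mul_lt_card_of_maps_to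
      (s := range b) (t := (Finset.univ : Finset (Fin m))) (f := κ) (n := 2)
      (fun i _ => Finset.mem_univ _) (by
        rw [Finset.card_univ, Fintype.card_fin, Finset.card_range, mul_comm]; exact h)
    rw [Kap2_three J b m e hJ he κ l hl, mul_zero]
  · by_cases h3 : ∃ l, 3 ≤ #{i ∈ range b | κ i = l}
    · obtain ⟨l, hl⟩ := h3
      rw [Kap2_three J b m e hJ he κ l hl, mul_zero]
    · push Not at h3
      have hs : ∑ l : Fin m, #{i ∈ range b | κ i = l} = b := by
        rw [← Finset.card_eq_sum_card_fiberwise (fun i _ => Finset.mem_univ _),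
          Finset.card_range]
      have hT : 1 < #{l : Fin m | 2 ≤ #{i ∈ range b | κ i = l}} := by
        by_contra hT
        push Not at hT
        have h4 : ∑ l : Fin m, #{i ∈ range b | κ i = l} ≤
            ∑ l : Fin m, (1 + if 2 ≤ #{i ∈ range b | κ i = l} then 1 else 0) := by
          apply Finset.sum_le_sum
          intro l _
          have := h3 l
          split_ifs <;> omega
        rw [hs, Finset.sum_add_distrib, Finset.sum_const, ← Finset.card_filter, Finset.card_univ,
          Fintype.card_fin] at h4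
        simp only [smul_eq_mul, mul_one] at h4
        omega
      obtain ⟨l, hl, l', hl', hne⟩ := Finset.one_lt_card.1 hT
      have hl := (Finset.mem_filter.1 hl).2
      have hl' := (Finset.mem_filter.1 hl').2
      rw [Kap2_prod]
      have h5 : e l ^ 2 * e l' ^ 2 ∣ ∏ l : Fin m, e l ^ #{i ∈ range b | κ i = l} := by
        have h6 : ∏ x ∈ ({l, l'} : Finset (Fin m)), e x ^ #{i ∈ range b | κ i = x} ∣
            ∏ l : Fin m, e l ^ #{i ∈ range b | κ i = l} :=
          Finset.prod_dvd_prod_of_subset _ _ _ (Finset.subset_univ _)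
        rw [Finset.prod_pair hne] at h6
        exact (mul_dvd_mul (pow_dvd_pow _ hl) (pow_dvd_pow _ hl')).trans h6
      rw [hxy _ (he l) _ (he l')] at h5
      rw [zero_dvd_iff.1 h5, mul_zero]
  · have hm : 0 < m := lt_of_le_of_lt (Nat.zero_le _) (κ 0).2
    have hb : 2 ≤ b := by omega
    obtain ⟨i, hi, j, hj, hij, hk⟩ := Finset.exists_ne_map_eq_of_card_lt_of_maps_to
      (s := range b) (t := (Finset.univ : Finset (Fin m))) (f := κ) (by
        rw [Finset.card_univ, Fintype.card_fin, Finset.card_range]; omega)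
      (fun i _ => Finset.mem_univ _)
    have hjS : j ∈ (range b).erase i := Finset.mem_erase.2 ⟨fun h => hij h.symm, hj⟩
    have hc : (((range b).erase i).erase j).card = b - 2 := by
      rw [Finset.card_erase_of_mem hjS, Finset.card_erase_of_mem hi, Finset.card_range]
      omega
    obtain ⟨x, hxJ, hxp⟩ := Kap2_seq J (fun k => e (κ k)) (((range b).erase i).erase j)
      fun s _ => he _
    rw [hc] at hxp
    have h7 := hx hb (fun k => if k = 0 then e (κ i) else x (k - 1)) (by
      intro k
      show (if k = 0 then e (κ i) else x (k - 1)) ∈ J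
      split_ifs
      · exact he _
      · exact hxJ _)
    rw [show b - 1 = (b - 2) + 1 by omega, Finset.prod_range_succ'] at h7
    simp only [if_true, Nat.add_eq_zero_iff, one_ne_zero, and_false, if_false,
      Nat.add_sub_cancel] at h7
    rw [hxp] at h7
    rw [← Finset.mul_prod_erase (range b) _ hi, ← Finset.mul_prod_erase _ _ hjS, ← hk]
    rw [← h7]
    ring

end Pool.Agent.CRR
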