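import Pool.Agent.CRR.St

/-!
Campaign CRR, module M13: a critical commutative ring with identity in the variety
`x^3 = x^n` is local.
-/

namespace Pool.Agent.CRR

/-- In a critical commutative ring with identity the idempotents are trivial. -/
theorem Local_idem {K : Type} [CommRing K] (hc : Critical K) (e : K) (he : e * e = e) :
    e = 0 ∨ e = 1 := by
  let A : AddSubgroup K := (Ideal.span {e} : Ideal K).toAddSubgroup
  let B : AddSubgroup K := (Ideal.span {1 - e} : Ideal K).toAddSubgroup
  have hA : ∀ x : K, x ∈ A ↔ x ∈ Ideal.span {e} := fun x => Iff.rfl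
  have hB : ∀ x : K, x ∈ B ↔ x ∈ Ideal.span {1 - e} := fun x => Iff.rfl
  have h := critical_ideals hc A B
    (fun r i hi => (Ideal.span {e} : Ideal K).mul_mem_left r hi)
    (fun r i hi => (Ideal.span {1 - e} : Ideal K).mul_mem_left r hi) (by
      rw [eq_bot_iff]
      intro x hx
      rw [AddSubgroup.mem_inf] at hx
      obtain ⟨hx1, hx2⟩ := hx
      rw [hA, Ideal.mem_span_singleton] at hx1
      rw [hB, Ideal.mem_span_singleton] at hx2
      obtain ⟨a, ha⟩ := hx1
      obtain ⟨b, hb⟩ := hx2
      rw [AddSubgroup.mem_bot]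
      have h1 : e * x = x := by
        rw [ha, ← mul_assoc, he]
      have h2 : e * x = 0 := by
        rw [hb, ← mul_assoc]
        have : e * (1 - e) = 0 := by
          rw [mul_sub, mul_one, he, sub_self]
        rw [this, zero_mul]
      rw [← h1, h2])
  rcases h with h | h
  · left
    have h1 : e ∈ A := by
      rw [hA]
      exact Ideal.subset_span rfl
    rw [h, AddSubgroup.mem_bot] at h1
    exact h1
  · right
    have h1 : (1 - e) ∈ B := by
      rw [hB]
      exact Ideal.subset_span rfl
    rw [h, AddSubgroup.mem_bot] at h1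
    exact (sub_eq_zero.1 h1).symm

theorem Local_pow {K : Type} [CommRing K] (n : ℕ) (hn : 4 ≤ n) (hM : InM n K) (x : K) :
    x ^ 3 = x ^ (3 + (n - 3)) := by
  have h := hM x
  rw [pw_eq_pow, pw_eq_pow] at h
  have e1 : n - 1 + 1 = 3 + (n - 3) := by omega
  rw [e1] at h
  exact h

theorem Local_pow' {K : Type} [CommRing K] (n : ℕ) (hn : 4 ≤ n) (hM : InM n K) (x : K)
    (k : ℕ) : x ^ 3 = x ^ (3 + k * (n - 3)) := by
  induction k with
  | zero => simp
  | succ k ih =>
    have e1 : 3 + (k + 1) * (n - 3) = (3 + (n - 3)) + k * (n - 3) := by ring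
    rw [e1, pow_add x (3 + (n - 3)), ← Local_pow n hn hM x, ← pow_add]
    exact ih

theorem local_of_critical : St_local := by
  intro n hn K _ hc hM
  have hnt : Nontrivial K := critical_nontrivial hc
  refine IsLocalRing.of_isUnit_or_isUnit_one_sub_self (fun x => ?_)
  have hN : 1 ≤ n - 3 := by omega
  have he : x ^ (3 * (n - 3)) * x ^ (3 * (n - 3)) = x ^ (3 * (n - 3)) := by
    have e1 : x ^ (3 * (n - 3)) * x ^ (3 * (n - 3)) =
        x ^ (3 + 3 * (n - 3)) * x ^ (3 * (n - 3) - 3) := by
      rw [← pow_add, ← pow_add]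
      congr 1
      omega
    rw [e1, ← Local_pow' n hn hM x 3, ← pow_add]
    congr 1
    omega
  rcases Local_idem hc _ he with h | h
  · right
    have hnil : IsNilpotent x := ⟨_, h⟩
    exact hnil.isUnit_one_sub
  · left
    refine IsUnit.of_pow_eq_one h ?_
    omega

end Pool.Agent.CRR
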