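import Pool.Agent.CRR.St

/-!
Campaign CRR, module M9: the nilpotent types are critical.
-/

namespace Pool.Agent.CRR

open Finset

/-- the term `k t` -/
def NilBwd_nsm : ℕ → RTerm → RTerm
  | 0, t => .add t (.neg t)
  | k + 1, t => .add (NilBwd_nsm k t) t

theorem NilBwd_eval_nsm {R : Type} [NonUnitalRing R] (v : ℕ → R) (k : ℕ) (t : RTerm) :
    (NilBwd_nsm k t).eval v = k • t.eval v := by
  induction k with
  | zero => simp [NilBwd_nsm, RTerm.eval]
  | succ k ih => rw [NilBwd_nsm, RTerm.eval, ih, succ_nsmul]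

theorem NilBwd_pw {R : Type} [NonUnitalRing R] (x : R) (h : x * x * x = 0) (k : ℕ) :
    pw x (k + 2) = 0 := by
  induction k with
  | zero => exact h
  | succ k ih => rw [show k + 1 + 2 = (k + 2) + 1 by ring, pw, ih, zero_mul]

theorem NilBwd_inM {R : Type} [NonUnitalRing R] (h : ∀ x : R, x * x * x = 0) (n : ℕ)
    (hn : 4 ≤ n) : InM n R := by
  intro x
  obtain ⟨m, rfl⟩ : ∃ m, n = m + 3 := ⟨n - 3, by omega⟩
  rw [show m + 3 - 1 = m + 2 by omega, NilBwd_pw x (h x) m]
  exact h x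

/-- `w g ∈ H`, `w g ≠ 0` and `p^b g = 0` imply `p^(b-1) g ∈ H` -/
theorem NilBwd_soc {R : Type} [AddCommGroup R] (H : AddSubgroup R) (p b : ℕ) (hp : p.Prime)
    (g : R) (hg : (p ^ b) • g = 0) (w : ℤ) (hw : w • g ∈ H) (h0 : w • g ≠ 0) :
    (p ^ (b - 1)) • g ∈ H := by
  obtain ⟨i, hi, hgcd⟩ := (Nat.dvd_prime_pow hp).1
    (show Int.gcd w ((p ^ b : ℕ) : ℤ) ∣ p ^ b from by
      have := Int.gcd_dvd_right w ((p ^ b : ℕ) : ℤ)
      exact_mod_cast this)
  have hib : i < b := by
    rcases lt_or_eq_of_le hi with h | h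
    · exact h
    · exfalso
      apply h0
      have h1 : ((p ^ b : ℕ) : ℤ) ∣ w := by
        have := Int.gcd_dvd_left w ((p ^ b : ℕ) : ℤ)
        rw [hgcd, h] at this
        exact this
      obtain ⟨t, ht⟩ := h1
      rw [ht, mul_comm, mul_smul, natCast_zsmul, hg, smul_zero]
  have hbez := Int.gcd_eq_gcd_ab w ((p ^ b : ℕ) : ℤ)
  rw [hgcd] at hbez
  have h2 : (p ^ i) • g ∈ H := by
    have h3 : (p ^ i) • g = (Int.gcdA w ((p ^ b : ℕ) : ℤ)) • (w • g) := by
      rw [← natCast_zsmul g (p ^ i), hbez, add_smul, mul_comm w, mul_smul,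
        mul_comm ((p ^ b : ℕ) : ℤ), mul_smul, natCast_zsmul, hg, smul_zero, add_zero]
    rw [h3]
    exact H.zsmul_mem hw _
  have h4 : (p ^ (b - 1)) • g = (p ^ (b - 1 - i)) • ((p ^ i) • g) := by
    rw [← mul_smul, ← pow_add]
    congr 2
    omega
  rw [h4]
  exact H.nsmul_mem h2 _

/-- `u g ∈ H`, `u` prime to `p` and `p^k g = 0` imply `g ∈ H` -/
theorem NilBwd_unit {R : Type} [AddCommGroup R] (H : AddSubgroup R) (p k : ℕ) (hp : p.Prime)
    (g : R) (hg : (p ^ k) • g = 0) (u : ℤ) (hu : ¬ (p : ℤ) ∣ u) (h : u • g ∈ H) : g ∈ H := by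
  have hc : IsCoprime u ((p ^ k : ℕ) : ℤ) := by
    push_cast
    apply IsCoprime.pow_right
    exact ((Nat.prime_iff_prime_int.1 hp).coprime_iff_not_dvd.2 hu).symm
  obtain ⟨s, t, hst⟩ := hc
  have h3 : g = s • (u • g) := by
    calc g = (1 : ℤ) • g := (one_smul _ _).symm
      _ = (s * u + t * ((p ^ k : ℕ) : ℤ)) • g := by rw [hst]
      _ = s • (u • g) := by
          rw [add_smul, mul_smul, mul_smul, natCast_zsmul, hg, smul_zero, add_zero]
  rw [h3]
  exact H.zsmul_mem h _

theorem NilBwd_type1 (R : Type) [NonUnitalCommRing R] [Finite R] (p : ℕ) (x : R) (hp : p.Prime)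
    (b c : ℕ) (hc : 1 ≤ c) (hbc : 2 * b ≤ c) (hcard : Nat.card R = p ^ c)
    (hgen : ∀ r : R, ∃ a : ℤ, r = a • x) (hxx : x * x = (p ^ (c - b)) • x) :
    Critical R ∧ ∀ n, 4 ≤ n → InM n R := by
  have hpc : (p ^ c) • x = 0 := by
    rw [← hcard]
    exact card_nsmul_eq_zero'
  have hx3 : x * x * x = 0 := by
    rw [hxx, smul_mul_assoc, hxx, ← mul_smul, ← pow_add,
      show c - b + (c - b) = (c - 2 * b) + c by omega, pow_add, mul_smul, hpc, smul_zero]
  refine ⟨?_, fun n hn => NilBwd_inM ?_ n hn⟩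
  · apply critical_of_exists (NilBwd_nsm (p ^ (c - 1)) (.var 0)) (NilBwd_nsm 0 (.var 0))
    · intro F _ hF hne v
      rw [NilBwd_eval_nsm, NilBwd_eval_nsm, zero_smul]
      have h1 := hF.card_dvd
      have h2 := hF.card_lt hne
      rw [hcard] at h1 h2
      obtain ⟨i, hi, hFi⟩ := (Nat.dvd_prime_pow hp).1 h1
      have hic : i ≤ c - 1 := by
        rw [hFi] at h2
        have := (Nat.pow_lt_pow_iff_right hp.one_lt).1 h2
        omega
      have h3 : (p ^ i) • (RTerm.eval v (.var 0)) = 0 := by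
        rw [← hFi]
        exact card_nsmul_eq_zero'
      rw [show c - 1 = (c - 1 - i) + i by omega, pow_add, mul_smul, h3, smul_zero]
    · intro h
      have h1 := h (fun _ => x)
      rw [NilBwd_eval_nsm, NilBwd_eval_nsm, zero_smul] at h1
      have h2 : (p ^ (c - 1)) • x = 0 := h1
      have h3 : addOrderOf x ∣ p ^ (c - 1) := addOrderOf_dvd_of_nsmul_eq_zero h2
      have h4 : Nat.card R = addOrderOf x := by
        rw [← Nat.card_zmultiples x]
        apply Nat.card_congr
        refine (Equiv.subtypeUnivEquiv (fun r => ?_)).symm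
        obtain ⟨a, ha⟩ := hgen r
        exact ⟨a, ha.symm⟩
      rw [← h4, hcard] at h3
      have h5 := Nat.le_of_dvd (pow_pos hp.pos _) h3
      have h6 := (Nat.pow_le_pow_iff_right hp.one_lt).1 h5
      omega
  · intro r
    obtain ⟨a, rfl⟩ := hgen r
    rw [smul_mul_smul_comm, smul_mul_smul_comm, hx3, smul_zero]

theorem NilBwd_type2 (R : Type) [NonUnitalCommRing R] [Finite R] (p : ℕ) (x : R) (hp : p.Prime)
    (b j : ℕ) (hj : 1 ≤ j) (hjb : j ≤ b) (hcard : Nat.card R = p ^ (2 * b))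
    (hgen : ∀ r : R, ∃ a a' : ℤ, r = a • x + a' • (x * x))
    (hbx : (p ^ b) • x = (p ^ j) • (x * x)) (hbv : (p ^ b) • (x * x) = 0)
    (hx3 : x * x * x = 0) :
    Critical R ∧ ∀ n, 4 ≤ n → InM n R := by
  have hx3' : x * (x * x) = 0 := by rw [← mul_assoc]; exact hx3
  have hsq : ∀ a a' : ℤ, (a • x + a' • (x * x)) * (a • x + a' • (x * x)) =
      (a * a) • (x * x) := by
    intro a a'
    have e3 : x * x * (x * x) = 0 := by rw [← mul_assoc, hx3, zero_mul]
    rw [add_mul, mul_add, mul_add, smul_mul_smul_comm, smul_mul_smul_comm, smul_mul_smul_comm,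
      smul_mul_smul_comm, hx3, hx3', e3]
    simp
  have hcube : ∀ r : R, r * r * r = 0 := by
    intro r
    obtain ⟨a, a', rfl⟩ := hgen r
    rw [hsq, mul_add, smul_mul_smul_comm, smul_mul_smul_comm, hx3,
      show x * x * (x * x) = 0 by rw [← mul_assoc, hx3, zero_mul]]
    simp
  -- the order of `x^2`
  have hord : addOrderOf (x * x) = p ^ b := by
    have d1 : addOrderOf (x * x) ∣ p ^ b := addOrderOf_dvd_of_nsmul_eq_zero hbv
    have hle : Nat.card R ≤ addOrderOf (x * x) * p ^ b := by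
      let V : AddSubgroup R := AddSubgroup.zmultiples (x * x)
      have c1 : Nat.card R = Nat.card (R ⧸ V) * Nat.card V :=
        AddSubgroup.card_eq_card_quotient_mul_card_addSubgroup V
      have c2 : Nat.card V = addOrderOf (x * x) := Nat.card_zmultiples (x * x)
      have c3 : Nat.card (R ⧸ V) = addOrderOf (x : R ⧸ V) := by
        rw [← Nat.card_zmultiples (x : R ⧸ V)]
        apply Nat.card_congr
        refine (Equiv.subtypeUnivEquiv (fun r => ?_)).symm
        obtain ⟨s, rfl⟩ := QuotientAddGroup.mk_surjective r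
        obtain ⟨a, a', rfl⟩ := hgen s
        refine ⟨a, ?_⟩
        show a • (x : R ⧸ V) = ((a • x + a' • (x * x) : R) : R ⧸ V)
        rw [QuotientAddGroup.mk_add, QuotientAddGroup.mk_zsmul, QuotientAddGroup.mk_zsmul,
          (QuotientAddGroup.eq_zero_iff (x * x)).2 (AddSubgroup.mem_zmultiples (x * x)),
          smul_zero, add_zero]
      have c4 : addOrderOf (x : R ⧸ V) ∣ p ^ b := by
        apply addOrderOf_dvd_of_nsmul_eq_zero
        rw [← QuotientAddGroup.mk_nsmul, hbx, QuotientAddGroup.eq_zero_iff]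
        exact V.nsmul_mem (AddSubgroup.mem_zmultiples (x * x)) _
      have c5 := Nat.le_of_dvd (pow_pos hp.pos _) c4
      rw [c1, c2, c3, mul_comm]
      exact Nat.mul_le_mul_left _ c5
    rw [hcard, two_mul, pow_add] at hle
    have h1 : p ^ b ≤ addOrderOf (x * x) := Nat.le_of_mul_le_mul_right hle (pow_pos hp.pos _)
    exact le_antisymm (Nat.le_of_dvd (pow_pos hp.pos _) d1) h1
  have hb1 : (p ^ (b - 1)) • (x * x) ≠ 0 := by
    intro h
    have h1 := addOrderOf_dvd_of_nsmul_eq_zero h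
    rw [hord] at h1
    have h2 := Nat.le_of_dvd (pow_pos hp.pos _) h1
    have h3 := (Nat.pow_le_pow_iff_right hp.one_lt).1 h2
    omega
  have hxfin : (p ^ (2 * b)) • x = 0 := by
    rw [← hcard]
    exact card_nsmul_eq_zero'
  refine ⟨?_, fun n hn => NilBwd_inM hcube n hn⟩
  apply critical_of_exists (NilBwd_nsm (p ^ (b - 1)) (.mul (.var 0) (.var 0)))
    (NilBwd_nsm 0 (.var 0))
  · intro F _ hF hne w
    rw [NilBwd_eval_nsm, NilBwd_eval_nsm, zero_smul]
    by_contra hcon
    obtain ⟨S, f, hf⟩ := hF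
    obtain ⟨⟨y, hyS⟩, hy⟩ := hf (w 0)
    have hcon2 : (p ^ (b - 1)) • (w 0 * w 0) ≠ 0 := hcon
    obtain ⟨u, v, huv⟩ := hgen y
    have hyy : y * y = (u * u) • (x * x) := by rw [huv, hsq]
    -- `u` is prime to `p`
    have hu : ¬ (p : ℤ) ∣ u := by
      rintro ⟨t, ht⟩
      apply hcon2
      have h1 : (p ^ (b - 1)) • (y * y) = 0 := by
        rw [hyy, ht, show (p : ℤ) * t * (p * t) = (p * t * t) * (p : ℤ) by ring, mul_smul,
          natCast_zsmul, smul_comm (p ^ (b - 1)) (((p : ℤ) * t * t)), ← mul_smul (p ^ (b - 1)) p,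
          ← pow_succ, show b - 1 + 1 = b by omega, hbv, smul_zero]
      have h2 : f ((p ^ (b - 1)) • ((⟨y, hyS⟩ : S) * ⟨y, hyS⟩)) = (p ^ (b - 1)) • (w 0 * w 0) := by
        rw [map_nsmul, map_mul, hy]
      have h3 : (p ^ (b - 1)) • ((⟨y, hyS⟩ : S) * ⟨y, hyS⟩) = 0 := Subtype.ext h1
      rw [← h2, h3, map_zero]
    have huu : ¬ (p : ℤ) ∣ u * u := by
      intro h
      rcases (Nat.prime_iff_prime_int.1 hp).dvd_or_dvd h with h | h <;> exact hu h
    -- `x^2, x` are in `S`
    have hvS : x * x ∈ S := by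
      have h1 : (u * u) • (x * x) ∈ S.toAddSubgroup := by
        rw [← hyy]
        exact S.mul_mem hyS hyS
      exact NilBwd_unit S.toAddSubgroup p b hp (x * x) hbv (u * u) huu h1
    have hxS : x ∈ S := by
      have h1 : u • x ∈ S.toAddSubgroup := by
        have h2 : u • x = y - v • (x * x) := by rw [huv]; abel
        rw [h2]
        exact S.toAddSubgroup.sub_mem hyS (S.toAddSubgroup.zsmul_mem hvS v)
      exact NilBwd_unit S.toAddSubgroup p (2 * b) hp x hxfin u hu h1
    have hS : ∀ r : R, r ∈ S := by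
      intro r
      obtain ⟨a, a', rfl⟩ := hgen r
      exact S.toAddSubgroup.add_mem (S.toAddSubgroup.zsmul_mem hxS a)
        (S.toAddSubgroup.zsmul_mem hvS a')
    -- the homomorphism on `R`
    let g : R →ₙ+* F :=
      { toFun := fun r => f ⟨r, hS r⟩
        map_mul' := fun r s => by rw [← map_mul]; rfl
        map_zero' := by rw [← map_zero f]; rfl
        map_add' := fun r s => by rw [← map_add]; rfl }
    have hgs : Function.Surjective g := by
      intro r
      obtain ⟨s, hs⟩ := hf r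
      exact ⟨s.1, hs⟩
    have hgy : g y = w 0 := hy
    have hsoc : g ((p ^ (b - 1)) • (x * x)) ≠ 0 := by
      intro h
      apply hcon2
      have h2 : (p ^ (b - 1)) • (w 0 * w 0) = g ((p ^ (b - 1)) • (y * y)) := by
        rw [map_nsmul, map_mul, hgy]
      rw [h2, hyy, smul_comm, map_zsmul, h, smul_zero]
    let H : AddSubgroup R := (g : R →+ F).ker
    have hH : ∀ z, z ∈ H ↔ g z = 0 := fun z => AddMonoidHom.mem_ker
    have hker : ∀ w' : ℤ, w' • (x * x) ∈ H → w' • (x * x) = 0 := by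
      intro w' hw'
      by_contra h0
      exact hsoc ((hH _).1 (NilBwd_soc H p b hp (x * x) hbv w' hw' h0))
    have hinj : Function.Injective g := by
      rw [injective_iff_map_eq_zero]
      intro z hz
      obtain ⟨a, a', rfl⟩ := hgen z
      have h1 : a • (x * x) = 0 := by
        apply hker
        rw [hH]
        have h2 : g (x * (a • x + a' • (x * x))) = 0 := by rw [map_mul, hz, mul_zero]
        rw [mul_add, mul_smul_comm, mul_smul_comm, hx3', smul_zero, add_zero] at h2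
        exact h2
      have h3 : ((p ^ b : ℕ) : ℤ) ∣ a := by
        rw [← hord]
        exact addOrderOf_dvd_iff_zsmul_eq_zero.2 h1
      obtain ⟨t, ht⟩ := h3
      have h4 : a • x + a' • (x * x) = (t * (p ^ j : ℕ) + a') • (x * x) := by
        rw [ht, mul_comm _ t, mul_smul t, natCast_zsmul, hbx, add_smul, mul_smul t, natCast_zsmul]
      rw [h4] at hz ⊢
      exact hker _ ((hH _).2 hz)
    exact hne.false (RingEquiv.ofBijective g ⟨hinj, hgs⟩).symm
  · intro h
    have h1 := h (fun _ => x)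
    rw [NilBwd_eval_nsm, NilBwd_eval_nsm, zero_smul] at h1
    exact hb1 h1

/-- M9 -/
theorem nil_bwd : St_nil_bwd := by
  intro R _ _ hR
  obtain ⟨p, x, hp, h | h⟩ := hR
  · obtain ⟨b, c, hc, hbc, hcard, hgen, hxx⟩ := h
    exact NilBwd_type1 R p x hp b c hc hbc hcard hgen hxx
  · obtain ⟨b, j, hj, hjb, hcard, hgen, hbx, hbv, hx3⟩ := h
    exact NilBwd_type2 R p x hp b j hj hjb hcard hgen hbx hbv hx3

end Pool.Agent.CRR
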