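import Pool.Agent.CRR.St

/-!
Campaign CRR, M8: one-generated subdirectly irreducible p-rings with vanishing triple products.
-/

namespace Pool.Agent.CRR

private theorem NilClassify_inv {p : ℕ} (hp : p.Prime) (k : ℕ) (w : ℤ) (hw : ¬ (p : ℤ) ∣ w) :
    ∃ u : ℤ, (p : ℤ) ^ k ∣ u * w - 1 := by
  have h1 : IsCoprime (p : ℤ) w :=
    ((Nat.prime_iff_prime_int.1 hp).coprime_iff_not_dvd).2 hw
  have h2 : IsCoprime ((p : ℤ) ^ k) w := h1.pow_left
  obtain ⟨a, b, hab⟩ := h2
  exact ⟨b, -a, by linear_combination hab⟩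

theorem nil_classify : St_nil_classify := by
  intro R _ _ _ p k hp hcard hmul ⟨x, hx⟩ hSI
  have hp1 : 1 < p := hp.one_lt
  have hk : 1 ≤ k := by
    rcases Nat.eq_zero_or_pos k with h | h
    · rw [h, pow_zero] at hcard
      have : 1 < Nat.card R := Finite.one_lt_card
      omega
    · exact h
  have hpk : ∀ r : R, ((p : ℤ) ^ k) • r = 0 := by
    intro r
    have h1 : (p ^ k) • r = 0 := by
      rw [← hcard]
      exact card_nsmul_eq_zero'
    have h2 : ((p : ℤ) ^ k) = ((p ^ k : ℕ) : ℤ) := by push_cast; rfl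
    rw [h2, natCast_zsmul, h1]
  have hmod : ∀ (a b : ℤ) (r : R), (p : ℤ) ^ k ∣ a - b → a • r = b • r := by
    intro a b r ⟨c, hc⟩
    have h1 : a = b + c * (p : ℤ) ^ k := by linear_combination hc
    rw [h1, add_smul, mul_smul, hpk, smul_zero, add_zero]
  set v : R := x * x with hv
  have hvr : ∀ r : R, v * r = 0 := fun r => hmul x x r
  have hrv : ∀ r : R, r * v = 0 := fun r => by rw [mul_comm]; exact hvr r
  rcases eq_or_ne v 0 with hv0 | hv0
  · -- `x ^ 2 = 0`
    refine ⟨p, x, hp, Or.inl ⟨0, k, hk, by omega, hcard, ?_, ?_⟩⟩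
    · intro r
      obtain ⟨a, a', h⟩ := hx r
      exact ⟨a, by rw [h, hv0, smul_zero, add_zero]⟩
    · rw [← hv, hv0, Nat.sub_zero]
      have h2 : ((p : ℤ) ^ k) = ((p ^ k : ℕ) : ℤ) := by push_cast; rfl
      have h3 := hpk x
      rw [h2, natCast_zsmul] at h3
      exact h3.symm
  · -- orders
    set V : AddSubgroup R := AddSubgroup.zmultiples v with hV
    obtain ⟨β, hβk, hβ⟩ : ∃ β ≤ k, addOrderOf v = p ^ β := by
      have h1 : addOrderOf v ∣ p ^ k := by
        rw [← hcard]
        exact addOrderOf_dvd_natCard v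
      exact (Nat.dvd_prime_pow hp).1 h1
    have hβ1 : 1 ≤ β := by
      rcases Nat.eq_zero_or_pos β with h | h
      · rw [h, pow_zero, AddMonoid.addOrderOf_eq_one_iff] at hβ
        exact absurd hβ hv0
      · exact h
    have hvz : ∀ n : ℤ, n • v = 0 ↔ (p : ℤ) ^ β ∣ n := by
      intro n
      rw [← addOrderOf_dvd_iff_zsmul_eq_zero, hβ]
      push_cast
      rfl
    have hcardV : Nat.card V = p ^ β := by
      rw [hV, Nat.card_zmultiples, hβ]
    -- the quotient
    set q : R ⧸ V := (QuotientAddGroup.mk x : R ⧸ V) with hq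
    have hqgen : ∀ y : R ⧸ V, y ∈ AddSubgroup.zmultiples q := by
      intro y
      obtain ⟨r, rfl⟩ := QuotientAddGroup.mk_surjective y
      obtain ⟨a, a', h⟩ := hx r
      rw [AddSubgroup.mem_zmultiples_iff]
      refine ⟨a, ?_⟩
      rw [h, hq, ← QuotientAddGroup.mk_zsmul, eq_comm, QuotientAddGroup.eq]
      refine AddSubgroup.mem_zmultiples_iff.2 ⟨-a', ?_⟩
      rw [neg_smul]
      abel
    have hcq : Nat.card (R ⧸ V) = addOrderOf q :=
      (addOrderOf_eq_card_of_forall_mem_zmultiples hqgen).symm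
    have hcm : Nat.card R = Nat.card (R ⧸ V) * Nat.card V :=
      AddSubgroup.card_eq_card_quotient_mul_card_addSubgroup V
    obtain ⟨γ, hγk, hγ⟩ : ∃ γ ≤ k, addOrderOf q = p ^ γ := by
      have h1 : addOrderOf q ∣ p ^ k := by
        rw [← hcq, ← hcard, hcm]
        exact Dvd.intro _ rfl
      exact (Nat.dvd_prime_pow hp).1 h1
    have hcR : Nat.card R = p ^ (γ + β) := by
      rw [hcm, hcq, hγ, hcardV, pow_add]
    have hqz : ∀ n : ℤ, (∃ c : ℤ, c • v = n • x) ↔ (p : ℤ) ^ γ ∣ n := by
      intro n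
      have h1 : n • q = 0 ↔ (p : ℤ) ^ γ ∣ n := by
        rw [← addOrderOf_dvd_iff_zsmul_eq_zero, hγ]
        push_cast
        rfl
      rw [← h1, hq, ← QuotientAddGroup.mk_zsmul, QuotientAddGroup.eq_zero_iff, hV,
        AddSubgroup.mem_zmultiples_iff]
    obtain ⟨c, hc⟩ := (hqz ((p : ℤ) ^ γ)).2 dvd_rfl
    have hβγ : β ≤ γ := by
      have h1 : ((p : ℤ) ^ γ) • v = 0 := by
        have h2 : (((p : ℤ) ^ γ) • x) * x = 0 := by
          rw [← hc, smul_mul_assoc, hvr, smul_zero]
        rwa [smul_mul_assoc, ← hv] at h2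
      have h2 := (hvz _).1 h1
      have h3 : p ^ β ∣ p ^ γ := by exact_mod_cast h2
      exact (Nat.pow_dvd_pow_iff_le_right hp1).1 h3
    have hsq : ∀ a : ℤ, (a • x) * (a • x) = (a * a) • v := by
      intro a
      rw [smul_mul_assoc, mul_smul_comm, ← mul_smul, ← hv]
    rcases eq_or_lt_of_le hβγ with heq | hlt
    · -- `γ = β`
      subst heq
      obtain ⟨j, w, hjβ, hw, hjw⟩ : ∃ (j : ℕ) (w : ℤ), j ≤ β ∧ ¬ (p : ℤ) ∣ w ∧
          ((p : ℤ) ^ β) • x = (((p : ℤ) ^ j) * w) • v := by
        by_cases hd : (p : ℤ) ^ β ∣ c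
        · refine ⟨β, 1, le_rfl, ?_, ?_⟩
          · intro h
            have := Int.eq_one_of_dvd_one (by positivity) h
            omega
          · rw [← hc, (hvz c).2 hd, mul_one, (hvz _).2 dvd_rfl]
        · have hc0 : c ≠ 0 := fun h => hd (h ▸ dvd_zero _)
          have hfin : FiniteMultiplicity (p : ℤ) c := by
            rw [Int.finiteMultiplicity_iff]
            refine ⟨?_, hc0⟩
            simp only [Int.natAbs_natCast]
            omega
          obtain ⟨w, hw1, hw2⟩ := hfin.exists_eq_pow_mul_and_not_dvd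
          refine ⟨multiplicity (p : ℤ) c, w, ?_, hw2, ?_⟩
          · by_contra hlt
            push Not at hlt
            apply hd
            rw [hw1]
            exact Dvd.dvd.mul_right (pow_dvd_pow _ hlt.le) _
          · rw [← hc, ← hw1]
      obtain ⟨u, hu⟩ := NilClassify_inv hp k w hw
      set x' : R := w • x with hx'
      have hx'2 : x' * x' = (w * w) • v := hsq w
      have hxx' : x = u • x' := by
        rw [hx', ← mul_smul, hmod (u * w) 1 x hu, one_smul]
      have hvx' : v = (u * u) • (x' * x') := by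
        rw [hx'2, ← mul_smul, hmod (u * u * (w * w)) 1 v ?_, one_smul]
        obtain ⟨e, he⟩ := hu
        exact ⟨e * (u * w + 1), by linear_combination (u * w + 1) * he⟩
      have hrel : ((p : ℤ) ^ β) • x' = ((p : ℤ) ^ j) • (x' * x') := by
        rw [hx'2, hx', ← mul_smul, mul_comm ((p : ℤ) ^ β) w, mul_smul, hjw, ← mul_smul,
          ← mul_smul]
        congr 1
        ring
      have hgen : ∀ r : R, ∃ a a' : ℤ, r = a • x' + a' • (x' * x') := by
        intro r
        obtain ⟨a, a', h⟩ := hx r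
        refine ⟨a * u, a' * (u * u), ?_⟩
        rw [h, mul_smul, ← hxx', mul_smul a', ← hvx']
      have hn : ∀ (m : ℕ) (r : R), ((p : ℤ) ^ m) • r = (p ^ m) • r := by
        intro m r
        have h2 : ((p : ℤ) ^ m) = ((p ^ m : ℕ) : ℤ) := by push_cast; rfl
        rw [h2, natCast_zsmul]
      rcases Nat.eq_zero_or_pos j with hj | hj
      · subst hj
        rw [pow_zero, one_smul] at hrel
        refine ⟨p, x', hp, Or.inl ⟨β, β + β, by omega, by omega, hcR, ?_, ?_⟩⟩
        · intro r
          obtain ⟨a, a', h⟩ := hgen r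
          refine ⟨a + a' * (p : ℤ) ^ β, ?_⟩
          rw [h, ← hrel, add_smul, mul_smul]
        · rw [Nat.add_sub_cancel, ← hn, hrel]
      · refine ⟨p, x', hp, Or.inr ⟨β, j, hj, hjβ, ?_, hgen, ?_, ?_, hmul _ _ _⟩⟩
        · rw [hcR, two_mul]
        · rw [← hn, ← hn, hrel]
        · rw [← hn, hx'2, ← mul_smul, mul_comm, mul_smul, (hvz _).2 dvd_rfl, smul_zero]
    · -- `β < γ`
      have hn : ∀ (m : ℕ) (r : R), ((p : ℤ) ^ m) • r = (p ^ m) • r := by
        intro m r
        have h2 : ((p : ℤ) ^ m) = ((p ^ m : ℕ) : ℤ) := by push_cast; rfl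
        rw [h2, natCast_zsmul]
      have hcp : ¬ (p : ℤ) ∣ c := by
        rintro ⟨c', hc'⟩
        obtain ⟨g, rfl⟩ : ∃ g, γ = g + 1 := ⟨γ - 1, by omega⟩
        set z : R := ((p : ℤ) ^ g) • x - c' • v with hz
        have hpz : (p : ℤ) • z = 0 := by
          rw [hz, smul_sub, ← mul_smul, ← mul_smul, ← pow_succ', ← hc, hc', sub_self]
        have hzV : z ∉ V := by
          intro h
          rw [hV, AddSubgroup.mem_zmultiples_iff] at h
          obtain ⟨e, he⟩ := h
          have h1 : (p : ℤ) ^ (g + 1) ∣ (p : ℤ) ^ g := by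
            rw [← hqz]
            refine ⟨e + c', ?_⟩
            rw [add_smul, he, hz]
            abel
          have h2 : p ^ (g + 1) ∣ p ^ g := by exact_mod_cast h1
          have h3 := (Nat.pow_dvd_pow_iff_le_right hp1).1 h2
          omega
        have hzr : ∀ r : R, r * z = 0 := by
          intro r
          obtain ⟨a, a', h⟩ := hx r
          rw [h, add_mul, smul_mul_assoc, smul_mul_assoc, hvr, smul_zero, add_zero, hz, mul_sub,
            mul_smul_comm, mul_smul_comm, hrv, smul_zero, sub_zero, ← hv,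
            (hvz _).2 (pow_dvd_pow _ (by omega)), smul_zero]
        have hdis : AddSubgroup.zmultiples z ⊓ V = ⊥ := by
          rw [eq_bot_iff]
          intro y hy
          rw [AddSubgroup.mem_inf, AddSubgroup.mem_zmultiples_iff] at hy
          obtain ⟨⟨a, rfl⟩, hy2⟩ := hy
          rw [AddSubgroup.mem_bot]
          by_cases hpa : (p : ℤ) ∣ a
          · obtain ⟨e, rfl⟩ := hpa
            rw [mul_comm, mul_smul, hpz, smul_zero]
          · exfalso
            apply hzV
            obtain ⟨u, hu⟩ := NilClassify_inv hp k a hpa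
            have h1 : z = u • (a • z) := by
              rw [← mul_smul, hmod (u * a) 1 z hu, one_smul]
            rw [h1]
            exact V.zsmul_mem hy2 u
        have hI : ∀ r : R, ∀ i ∈ AddSubgroup.zmultiples z, r * i ∈ AddSubgroup.zmultiples z := by
          intro r i hi
          rw [AddSubgroup.mem_zmultiples_iff] at hi
          obtain ⟨a, rfl⟩ := hi
          rw [mul_smul_comm, hzr, smul_zero]
          exact AddSubgroup.zero_mem _
        have hJ : ∀ r : R, ∀ i ∈ V, r * i ∈ V := by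
          intro r i hi
          rw [hV, AddSubgroup.mem_zmultiples_iff] at hi
          obtain ⟨a, rfl⟩ := hi
          rw [mul_smul_comm, hrv, smul_zero]
          exact AddSubgroup.zero_mem _
        rcases hSI (AddSubgroup.zmultiples z) V hI hJ hdis with h | h
        · rw [AddSubgroup.zmultiples_eq_bot] at h
          exact hzV (h ▸ V.zero_mem)
        · rw [hV, AddSubgroup.zmultiples_eq_bot] at h
          exact hv0 h
      obtain ⟨d, hd⟩ := NilClassify_inv hp k c hcp
      have hdp : ¬ (p : ℤ) ∣ d := by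
        intro h
        have h1 : (p : ℤ) ∣ d * c - 1 := (dvd_pow_self _ (by omega)).trans hd
        have h2 : (p : ℤ) ∣ 1 := by
          have := dvd_sub (h.mul_right c) h1
          simpa using this
        have := Int.eq_one_of_dvd_one (by positivity) h2
        omega
      obtain ⟨u, hu⟩ := NilClassify_inv hp k d hdp
      have hvd : v = d • (((p : ℤ) ^ γ) • x) := by
        rw [← hc, ← mul_smul, hmod (d * c) 1 v hd, one_smul]
      set x' : R := u • x with hx'
      have hxd : x = d • x' := by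
        rw [hx', ← mul_smul, mul_comm, hmod (u * d) 1 x hu, one_smul]
      have hx'2 : x' * x' = ((p : ℤ) ^ γ) • x' := by
        rw [hx', hsq, mul_smul, hvd, ← mul_smul u d, hmod (u * d) 1 _ hu, one_smul, ← mul_smul,
          ← mul_smul, mul_comm]
      refine ⟨p, x', hp, Or.inl ⟨β, γ + β, by omega, by omega, hcR, ?_, ?_⟩⟩
      · intro r
        obtain ⟨a, a', h⟩ := hx r
        refine ⟨(a + a' * (d * (p : ℤ) ^ γ)) * d, ?_⟩
        rw [mul_smul, ← hxd, h, add_smul, mul_smul a', mul_smul d, ← hvd]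
      · rw [Nat.add_sub_cancel, ← hn, hx'2]

end Pool.Agent.CRR
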