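import Pool.Agent.CRR.St

/-!
Campaign CRR, modules M6 and M7: nilpotent rings of order prime to 6.
-/

namespace Pool.Agent.CRR

open Finset IsLocalRing

/-- the inclusion of a ring into its unitization over the integers -/
def NilOneGen_inr (R : Type) [NonUnitalCommRing R] : R →ₙ+* Unitization ℤ R where
  toFun r := (r : Unitization ℤ R)
  map_mul' a b := Unitization.inr_mul ℤ a b
  map_zero' := Unitization.inr_zero ℤ
  map_add' a b := Unitization.inr_add ℤ a b

theorem NilOneGen_inr_inj (R : Type) [NonUnitalCommRing R] :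
    Function.Injective (NilOneGen_inr R) := by
  intro a b h
  exact Unitization.inr_injective h

/-- multiplication by a number prime to the order is injective -/
theorem NilOneGen_coprime {R : Type} [NonUnitalCommRing R] [Finite R] (k : ℕ)
    (hk : (Nat.card R).Coprime k) (x : R) (hx : k • x = 0) : x = 0 := by
  have h1 : addOrderOf x ∣ k := addOrderOf_dvd_of_nsmul_eq_zero hx
  have h2 : addOrderOf x ∣ Nat.card R := addOrderOf_dvd_natCard x
  have h3 : addOrderOf x = 1 := Nat.eq_one_of_dvd_coprimes hk h2 h1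
  exact AddMonoid.addOrderOf_eq_one_iff.1 h3

theorem nil_mul3 : St_nil_mul3 := by
  intro R _ _ hcard hx x y z
  apply NilOneGen_coprime 6 hcard
  apply NilOneGen_inr_inj R
  have hc : ∀ a : R, NilOneGen_inr R a ^ 3 = 0 := by
    intro a
    have h1 : NilOneGen_inr R (a * a * a) = 0 := by rw [hx, map_zero]
    rw [map_mul, map_mul] at h1
    rw [← h1]
    ring
  have h1 := hc (x + y + z)
  have h2 := hc (x + y)
  have h3 := hc (y + z)
  have h4 := hc (x + z)
  have h5 := hc x
  have h6 := hc y
  have h7 := hc z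
  rw [map_add, map_add] at h1
  rw [map_add] at h2 h3 h4
  rw [map_nsmul, map_mul, map_mul, map_zero]
  set X := NilOneGen_inr R x
  set Y := NilOneGen_inr R y
  set Z := NilOneGen_inr R z
  have h8 : 6 • (X * Y * Z) = (X + Y + Z) ^ 3 - (X + Y) ^ 3 - (Y + Z) ^ 3 - (X + Z) ^ 3
      + X ^ 3 + Y ^ 3 + Z ^ 3 := by
    rw [nsmul_eq_mul]
    push_cast
    ring
  rw [h8, h1, h2, h3, h4, h5, h6, h7]
  ring

/-- the subring generated by one element -/
def NilOneGen_S {R : Type} [NonUnitalCommRing R] (h0 : ∀ x y z : R, x * y * z = 0) (x : R) :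
    NonUnitalSubring R where
  carrier := {r | ∃ a a' : ℤ, r = a • x + a' • (x * x)}
  zero_mem' := ⟨0, 0, by simp⟩
  add_mem' := by
    rintro r s ⟨a, a', rfl⟩ ⟨b, b', rfl⟩
    refine ⟨a + b, a' + b', ?_⟩
    rw [add_smul, add_smul]
    abel
  neg_mem' := by
    rintro r ⟨a, a', rfl⟩
    refine ⟨-a, -a', ?_⟩
    rw [neg_smul, neg_smul]
    abel
  mul_mem' := by
    rintro r s ⟨a, a', rfl⟩ ⟨b, b', rfl⟩
    refine ⟨0, a * b, ?_⟩
    have e1 : x * (x * x) = 0 := by rw [← mul_assoc, h0]
    have e2 : x * x * x = 0 := h0 _ _ _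
    have e3 : x * x * (x * x) = 0 := h0 _ _ _
    rw [add_mul, mul_add, mul_add, smul_mul_smul_comm, smul_mul_smul_comm, smul_mul_smul_comm,
      smul_mul_smul_comm, e1, e2, e3]
    simp

theorem nil_onegen (h : St_transfer) : St_nil_onegen := by
  intro R _ hc hcard h0
  have hfin : Finite R := hc.1
  by_contra hcon
  push Not at hcon
  apply critical_subrings hc (fun S => ∃ x : R, S = NilOneGen_S h0 x)
  · rintro S ⟨x, rfl⟩ htop
    obtain ⟨r, hr⟩ := hcon x
    have h1 : r ∈ NilOneGen_S h0 x := by rw [htop]; exact NonUnitalSubring.mem_top r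
    obtain ⟨a, a', h2⟩ := h1
    exact hr a a' h2
  · intro s t hst v
    let J : Ideal (Unitization ℤ R) := RingHom.ker (Unitization.fstHom ℤ R)
    have hJ : ∀ x : Unitization ℤ R, x ∈ J ↔ ∃ a : R, x = NilOneGen_inr R a := by
      intro x
      constructor
      · intro hx
        have h1 : x.fst = 0 := hx
        refine ⟨x.snd, ?_⟩
        apply Unitization.ext
        · rw [h1]
          rfl
        · rfl
      · rintro ⟨a, rfl⟩
        show (Unitization.fstHom ℤ R) (NilOneGen_inr R a) = 0
        rfl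
    have hcz : CubeZero (Unitization ℤ R) J := by
      intro x hx y hy z hz
      obtain ⟨a, rfl⟩ := (hJ x).1 hx
      obtain ⟨b, rfl⟩ := (hJ y).1 hy
      obtain ⟨c, rfl⟩ := (hJ z).1 hz
      rw [← map_mul, ← map_mul, h0, map_zero]
    have h2 : ∀ x ∈ J, 2 * x = 0 → x = 0 := by
      intro x hx hx2
      obtain ⟨a, rfl⟩ := (hJ x).1 hx
      have h3 : 2 • a = 0 := by
        apply NilOneGen_inr_inj R
        rw [map_nsmul, map_zero, nsmul_eq_mul]
        exact_mod_cast hx2
      have h4 : (Nat.card R).Coprime 2 := Nat.Coprime.coprime_dvd_right (by norm_num) hcard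
      rw [NilOneGen_coprime 2 h4 a h3, map_zero]
    have h3 := h (Unitization ℤ R) J hcz h2 (fun _ => 0) s t ?_ (fun i => NilOneGen_inr R (v i))
      (fun i => (hJ _).2 ⟨_, rfl⟩)
    · simp only [zero_add] at h3
      rw [← eval_map, ← eval_map] at h3
      exact NilOneGen_inr_inj R h3
    · intro y hy A
      obtain ⟨a, rfl⟩ := (hJ y).1 hy
      have h4 : (fun i : ℕ => (0 : Unitization ℤ R) + if i ∈ A then NilOneGen_inr R a else 0) =
          fun i => NilOneGen_inr R (if i ∈ A then a else 0) := by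
        funext i
        rw [zero_add]
        split_ifs
        · rfl
        · rw [map_zero]
      rw [h4, ← eval_map, ← eval_map]
      congr 1
      apply hst _ ⟨a, rfl⟩
      intro i
      split_ifs
      · exact ⟨1, 0, by simp⟩
      · exact ⟨0, 0, by simp⟩

end Pool.Agent.CRR
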