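import Pool.Agent.CRR.St

/-!
Campaign CRR, module M2: a critical ring in the variety `x^3 = x^n` is nil or has an identity
(helper82).
-/

set_option autoImplicit false

namespace Pool.Agent.CRR

/-- the idempotent power of an element -/
theorem NilOrUnit_idem {R : Type} [NonUnitalCommRing R] {n : ℕ} (hn : 4 ≤ n) (h : InM n R)
    (x : R) : ∃ e : R, e * e = e ∧ x * x * x * e = x * x * x := by
  obtain ⟨N, hN⟩ : ∃ N, n = N + 4 := ⟨n - 4, by omega⟩
  subst hN
  obtain ⟨f, hinj⟩ : ∃ f : R →ₙ+* Unitization ℤ R, Function.Injective f :=
    ⟨{ toFun := Unitization.inr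
       map_mul' := fun a b => Unitization.inr_mul ℤ a b
       map_zero' := Unitization.inr_zero ℤ
       map_add' := fun a b => Unitization.inr_add ℤ a b }, Unitization.inr_injective⟩
  set y : Unitization ℤ R := f x with hy
  have h1 : y ^ 3 = y ^ (3 + (N + 1)) := by
    have h2 := congrArg f (h x)
    rw [pw_map, pw_map, pw_eq_pow, pw_eq_pow] at h2
    have e1 : N + 4 - 1 + 1 = 3 + (N + 1) := by omega
    rw [e1] at h2
    exact h2
  have h3 : ∀ k : ℕ, y ^ 3 = y ^ (3 + k * (N + 1)) := by
    intro k
    induction k with
    | zero => simp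
    | succ k ih =>
      have e1 : 3 + (k + 1) * (N + 1) = (3 + (N + 1)) + k * (N + 1) := by ring
      rw [e1, pow_add, ← h1, ← pow_add]
      exact ih
  have h4 : y ^ 3 * y ^ (3 * (N + 1)) = y ^ 3 := by
    rw [← pow_add]
    exact (h3 3).symm
  have hpw : f (pw x (3 * N + 2)) = y ^ (3 * (N + 1)) := by
    rw [pw_map, pw_eq_pow]
    congr 1
  refine ⟨pw x (3 * N + 2), hinj ?_, hinj ?_⟩
  · rw [map_mul, hpw]
    have e1 : 3 * (N + 1) = 3 * N + 3 := by ring
    calc y ^ (3 * (N + 1)) * y ^ (3 * (N + 1))
        = y ^ (3 * N) * (y ^ 3 * y ^ (3 * (N + 1))) := by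
          rw [← mul_assoc (y ^ (3 * N)), ← pow_add y (3 * N) 3, ← e1]
      _ = y ^ (3 * N) * y ^ 3 := by rw [h4]
      _ = y ^ (3 * (N + 1)) := by rw [← pow_add, ← e1]
  · have e1 : f (x * x * x) = y ^ 3 := by
      rw [map_mul, map_mul]
      ring
    rw [map_mul, hpw, e1]
    exact h4

/-- a nonzero idempotent of a critical commutative ring is an identity -/
theorem NilOrUnit_one {R : Type} [NonUnitalCommRing R] (hc : Critical R) {e : R} (he : e * e = e)
    (he0 : e ≠ 0) (r : R) : e * r = r := by
  by_contra hr
  let S1 : NonUnitalSubring R :=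
    { carrier := {r | e * r = r}
      mul_mem' := fun {a b} ha hb => by
        show e * (a * b) = a * b
        rw [← mul_assoc, show e * a = a from ha]
      add_mem' := fun {a b} ha hb => by
        show e * (a + b) = a + b
        rw [mul_add, show e * a = a from ha, show e * b = b from hb]
      zero_mem' := mul_zero e
      neg_mem' := fun {a} ha => by
        show e * (-a) = -a
        rw [mul_neg, show e * a = a from ha] }
  let S2 : NonUnitalSubring R :=
    { carrier := {r | e * r = 0}
      mul_mem' := fun {a b} ha hb => by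
        show e * (a * b) = 0
        rw [← mul_assoc, show e * a = 0 from ha, zero_mul]
      add_mem' := fun {a b} ha hb => by
        show e * (a + b) = 0
        rw [mul_add, show e * a = 0 from ha, show e * b = 0 from hb, add_zero]
      zero_mem' := mul_zero e
      neg_mem' := fun {a} ha => by
        show e * (-a) = 0
        rw [mul_neg, show e * a = 0 from ha, neg_zero] }
  let φ : R →ₙ+* R :=
    { toFun := fun r => e * r
      map_mul' := fun a b => by
        show e * (a * b) = e * a * (e * b)
        rw [mul_mul_mul_comm, he]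
      map_zero' := mul_zero e
      map_add' := fun a b => mul_add e a b }
  let ψ : R →ₙ+* R :=
    { toFun := fun r => r - e * r
      map_mul' := fun a b => by
        show a * b - e * (a * b) = (a - e * a) * (b - e * b)
        have h1 : e * a * (e * b) = e * (a * b) := by rw [mul_mul_mul_comm, he]
        have h2 : a * (e * b) = e * (a * b) := by rw [mul_left_comm]
        rw [sub_mul, mul_sub, mul_sub, h1, h2, mul_assoc]
        abel
      map_zero' := by
        show (0 : R) - e * 0 = 0
        rw [mul_zero, sub_zero]
      map_add' := fun a b => by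
        show a + b - e * (a + b) = (a - e * a) + (b - e * b)
        rw [mul_add]
        abel }
  refine critical_subrings hc (fun S => S = S1 ∨ S = S2) ?_ ?_
  · rintro S (rfl | rfl) htop
    · have h1 : r ∈ S1 := by
        rw [htop]
        exact NonUnitalSubring.mem_top r
      exact hr h1
    · have h1 : e ∈ S2 := by
        rw [htop]
        exact NonUnitalSubring.mem_top e
      have h2 : e * e = 0 := h1
      rw [he] at h2
      exact he0 h2
  · intro s t hst v
    have h1 : φ (s.eval v) = φ (t.eval v) := by
      rw [eval_map, eval_map]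
      refine hst S1 (Or.inl rfl) _ fun i => ?_
      show e * (e * v i) = e * v i
      rw [← mul_assoc, he]
    have h2 : ψ (s.eval v) = ψ (t.eval v) := by
      rw [eval_map, eval_map]
      refine hst S2 (Or.inr rfl) _ fun i => ?_
      show e * (v i - e * v i) = 0
      rw [mul_sub, ← mul_assoc, he, sub_self]
    have h3 : ∀ a : R, a = φ a + ψ a := fun a => by
      show a = e * a + (a - e * a)
      abel
    rw [h3 (s.eval v), h1, h2, ← h3]

theorem nil_or_unit : St_nil_or_unit := by
  intro n hn R _ hc hM
  by_cases hall : ∀ x : R, ∀ e : R, e * e = e → x * x * x * e = x * x * x → e = 0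
  · left
    intro x
    obtain ⟨e, h1, h2⟩ := NilOrUnit_idem hn hM x
    rw [hall x e h1 h2, mul_zero] at h2
    exact h2.symm
  · right
    push Not at hall
    obtain ⟨x, e, h1, -, h3⟩ := hall
    exact ⟨e, h3, fun r => NilOrUnit_one hc h1 h3 r⟩

end Pool.Agent.CRR
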