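import Pool.Agent.CRR.St2

/-!
CRR part 2, N29: nilpotency (helper99).
-/

namespace Pool.Agent.CRR

open Finset IsLocalRing

private theorem Nilp2_inr {R : Type} [NonUnitalCommRing R] (x : ℕ → R) (k : ℕ) :
    ((prd x k : R) : Unitization ℤ R) = ∏ i ∈ range (k + 1), ((x i : R) : Unitization ℤ R) := by
  induction k with
  | zero => simp [prd]
  | succ k ih => rw [prd, Unitization.inr_mul, ih, Finset.prod_range_succ _ (k + 1)]

private theorem Nilp2_shift {R : Type} [NonUnitalRing R] (x : R) {a b : ℕ} (h : pw x a = pw x b)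
    (m : ℕ) : pw x (a + m) = pw x (b + m) := by
  induction m with
  | zero => exact h
  | succ m ih =>
    rw [← add_assoc, ← add_assoc, pw, pw, ih]

private theorem Nilp2_zero {R : Type} [NonUnitalRing R] (x : R) {a : ℕ} (h : pw x a = 0)
    (m : ℕ) : pw x (a + m) = 0 := by
  induction m with
  | zero => exact h
  | succ m ih => rw [← add_assoc, pw, ih, zero_mul]

private theorem Nilp2_prd {R : Type} [NonUnitalCommRing R] (x : R) (k : ℕ) :
    prd (fun _ => x) k = pw x k := by
  induction k with
  | zero => rfl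
  | succ k ih => rw [prd, pw, ih]

theorem nilp2 : St2_nilp := by
  refine ⟨?_, ?_, ?_⟩
  · intro R _ _ hcube
    classical
    have := Fintype.ofFinite R
    refine ⟨2 * Fintype.card R, fun x => ?_⟩
    obtain ⟨u, -, hu⟩ := Finset.exists_lt_card_fiber_of_mul_lt_card_of_maps_to
      (s := range (2 * Fintype.card R + 1)) (t := (Finset.univ : Finset R)) (f := x) (n := 2)
      (fun _ _ => Finset.mem_univ _) (by rw [Finset.card_univ, Finset.card_range]; omega)
    apply Unitization.inr_injective (R := ℤ)
    rw [Unitization.inr_zero, Nilp2_inr, ← Finset.prod_filter_mul_prod_filter_not _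
      (fun i => x i = u)]
    have h1 : ∏ i ∈ range (2 * Fintype.card R + 1) with x i = u,
        ((x i : R) : Unitization ℤ R) = 0 := by
      rw [Finset.prod_congr rfl (g := fun _ => ((u : R) : Unitization ℤ R)) fun i hi => by
        rw [(Finset.mem_filter.1 hi).2], Finset.prod_const]
      obtain ⟨e, he⟩ := Nat.exists_eq_add_of_le hu
      have h3 : ((u : R) : Unitization ℤ R) ^ 3 = 0 := by
        rw [pow_succ, pow_two, ← Unitization.inr_mul, ← Unitization.inr_mul, hcube,
          Unitization.inr_zero]
      rw [he, pow_add, show (2 : ℕ).succ = 3 from rfl, h3, zero_mul]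
    rw [h1, zero_mul]
  · intro n hn R _ hM hnil x
    obtain ⟨c, hc⟩ := hnil
    have h1 : ∀ i : ℕ, pw x 2 = pw x (2 + i * (n - 3)) := by
      intro i
      induction i with
      | zero => rw [zero_mul, add_zero]
      | succ i ih =>
        have h2 := Nilp2_shift x (hM x) (i * (n - 3))
        rw [← ih] at h2
        rw [h2]
        congr 1
        rw [Nat.succ_mul]
        omega
    have h2 : pw x c = 0 := by rw [← Nilp2_prd, hc]
    have h3 : c ≤ 2 + c * (n - 3) := by
      have : c * 1 ≤ c * (n - 3) := Nat.mul_le_mul_left c (by omega)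
      omega
    obtain ⟨m, hm⟩ := Nat.exists_eq_add_of_le h3
    have h4 := h1 c
    rw [hm, Nilp2_zero x h2 m] at h4
    exact h4
  · intro n hn K _ _ hM x hx
    have h1 := hM x
    rw [pw_eq_pow, pw_eq_pow] at h1
    have h2 : x ^ (n - 1 + 1) = x ^ 3 * x ^ (n - 3) := by
      rw [← pow_add]
      congr 1
      omega
    have h3 : x ^ 3 * (1 - x ^ (n - 3)) = 0 := by
      have h4 : x ^ (2 + 1) = x ^ 3 := rfl
      rw [h2, h4] at h1
      linear_combination h1
    have h5 : x ^ (n - 3) ∈ maximalIdeal K := Ideal.pow_mem_of_mem _ hx _ (by omega)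
    have h6 : IsUnit (1 - x ^ (n - 3)) :=
      isUnit_one_sub_self_of_mem_nonunits _ ((mem_maximalIdeal _).1 h5)
    exact (h6.mul_left_eq_zero).1 h3

end Pool.Agent.CRR
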