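import Pool.Agent.CRR.St2

/-!
Campaign CRR2, N12: polarisation to squares.
-/

namespace Pool.Agent.CRR

open Finset

theorem pair2 : St2_pair := by
  intro K _ J c b h2
  induction b using Nat.strong_induction_on generalizing c with
  | _ b ih =>
    intro ⟨z, hz, hne⟩
    rcases Nat.lt_or_ge b 2 with hb | hb
    · refine ⟨fun _ => z 0, fun _ => hz 0, ?_⟩
      interval_cases b
      · simpa using hne
      · simpa using hne
    · obtain ⟨m, rfl⟩ := Nat.exists_eq_add_of_le' hb
      have hne' : (c * z m * z (m + 1)) * ∏ i ∈ range m, z i ≠ 0 := by
        intro h
        apply hne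
        rw [prod_range_succ, prod_range_succ]
        linear_combination h
      obtain ⟨y, hy, hyne⟩ := ih m (by omega) (c * z m * z (m + 1)) ⟨z, hz, hne'⟩
      have hc' : (c * ∏ i ∈ range m, y (i / 2)) * (z m * z (m + 1)) ≠ 0 := by
        intro h
        apply hyne
        linear_combination h
      obtain ⟨v, hv, hvne⟩ : ∃ v ∈ J, (c * ∏ i ∈ range m, y (i / 2)) * (v * v) ≠ 0 := by
        by_contra hcon
        push Not at hcon
        apply hc'
        have e1 := hcon _ (hz m)
        have e2 := hcon _ (hz (m + 1))
        have e3 := hcon _ (J.add_mem (hz m) (hz (m + 1)))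
        apply h2
        · exact J.mul_mem_left _ (J.mul_mem_right _ (hz m))
        · linear_combination e3 - e1 - e2
      refine ⟨fun i => if i = 0 then v else y (i - 1), ?_, ?_⟩
      · intro i
        by_cases h : i = 0 <;> simp [h, hv, hy]
      · have e : ∏ i ∈ range (m + 2), (fun i => if i = 0 then v else y (i - 1)) (i / 2)
            = (∏ i ∈ range m, y (i / 2)) * (v * v) := by
          rw [prod_range_succ', prod_range_succ']
          have h1 : ∀ i ∈ range m, (fun i => if i = 0 then v else y (i - 1)) ((i + 1 + 1) / 2)
              = y (i / 2) := by
            intro i _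
            have h3 : (i + 1 + 1) / 2 = i / 2 + 1 := by omega
            simp only [h3]
            simp
          rw [prod_congr rfl h1]
          simp
          ring
        rw [e]
        intro h
        apply hvne
        linear_combination h

end Pool.Agent.CRR
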