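import Pool.Agent.CRR.St2

/-!
Campaign CRR, part 2, N1: terms are polynomials.
-/

namespace Pool.Agent.CRR

/-- The polynomial of a term. -/
private noncomputable def Poly_P {K : Type} [CommRing K] (W : Subring K) (w : ℕ → W) :
    RTerm → MvPolynomial ℕ W
  | .var i => MvPolynomial.C (w i) + MvPolynomial.X i
  | .add s t => Poly_P W w s + Poly_P W w t
  | .neg s => -Poly_P W w s
  | .mul s t => Poly_P W w s * Poly_P W w t

private lemma Poly_eval {K : Type} [CommRing K] (W : Subring K) (w : ℕ → W) (j : ℕ → K)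
    (t : RTerm) : t.eval (fun i => (w i : K) + j i) =
      MvPolynomial.eval₂ W.subtype j (Poly_P W w t) := by
  induction t with
  | var i =>
    simp only [Poly_P, RTerm.eval, MvPolynomial.eval₂_add, MvPolynomial.eval₂_C,
      MvPolynomial.eval₂_X]
    rfl
  | add s t hs ht => simp only [Poly_P, RTerm.eval, MvPolynomial.eval₂_add, hs, ht]
  | neg s hs =>
    simp only [Poly_P, RTerm.eval, hs]
    rw [← MvPolynomial.coe_eval₂Hom, map_neg]
  | mul s t hs ht => simp only [Poly_P, RTerm.eval, MvPolynomial.eval₂_mul, hs, ht]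

theorem poly : St2_poly := by
  intro K _ W w hw s t
  refine ⟨(Poly_P W (fun i => ⟨w i, hw i⟩) s - Poly_P W (fun i => ⟨w i, hw i⟩) t).support,
    fun β => ((Poly_P W (fun i => ⟨w i, hw i⟩) s -
      Poly_P W (fun i => ⟨w i, hw i⟩) t).coeff β : W), fun β => Subtype.property _, fun j => ?_⟩
  have h1 := Poly_eval W (fun i => (⟨w i, hw i⟩ : W)) j s
  have h2 := Poly_eval W (fun i => (⟨w i, hw i⟩ : W)) j t
  rw [h1, h2, ← MvPolynomial.coe_eval₂Hom, ← map_sub, MvPolynomial.coe_eval₂Hom,
    MvPolynomial.eval₂_eq]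
  rfl

end Pool.Agent.CRR
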