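import Pool.Agent.CRR.St2

/-!
# CRR, part 2: `(c) J^b ≤ I` iff all `c z_1 ... z_b` are in `I` (N11)
-/

namespace Pool.Agent.CRR

open Finset IsLocalRing

private theorem pow2_mem {K : Type} [CommRing K] (J : Ideal K) (z : ℕ → K) (hz : ∀ i, z i ∈ J)
    (b : ℕ) : ∏ i ∈ range b, z i ∈ J ^ b := by
  induction b with
  | zero =>
    rw [pow_zero, Ideal.one_eq_top]
    exact Submodule.mem_top
  | succ b ih =>
    rw [prod_range_succ, pow_succ]
    exact Ideal.mul_mem_mul ih (hz b)

private theorem pow2_fwd {K : Type} [CommRing K] (J I : Ideal K) (b : ℕ) : ∀ c : K,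
    (∀ z : ℕ → K, (∀ i, z i ∈ J) → c * ∏ i ∈ range b, z i ∈ I) →
      Ideal.span {c} * J ^ b ≤ I := by
  induction b with
  | zero =>
    intro c h
    have h1 := h (fun _ => 0) (fun _ => J.zero_mem)
    rw [prod_range_zero, mul_one] at h1
    rw [pow_zero, mul_one, Ideal.span_singleton_le_iff_mem]
    exact h1
  | succ b ih =>
    intro c h
    rw [pow_succ', ← mul_assoc, Ideal.mul_le]
    intro r hr s hs
    rw [Ideal.mem_span_singleton_mul] at hr
    obtain ⟨y, hy, rfl⟩ := hr
    have h1 : Ideal.span {c * y} * J ^ b ≤ I := by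
      apply ih
      intro z hz
      have h2 := h (fun i => if i = 0 then y else z (i - 1)) (by
        intro i
        by_cases hi : i = 0
        · simp only [hi, if_true]
          exact hy
        · simp only [hi, if_false]
          exact hz _)
      rw [prod_range_succ'] at h2
      simp only [if_true, Nat.add_eq_zero_iff, one_ne_zero, and_false, if_false,
        Nat.add_sub_cancel] at h2
      have h3 : c * y * ∏ i ∈ range b, z i = c * ((∏ i ∈ range b, z i) * y) := by ring
      rw [h3]
      exact h2
    exact h1 (Ideal.mul_mem_mul (Ideal.mem_span_singleton_self _) hs)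

/-- The module N11. -/
theorem pow2 : St2_pow := by
  intro K _ J I c b
  constructor
  · exact pow2_fwd J I b c
  · intro h z hz
    exact h (Ideal.mul_mem_mul (Ideal.mem_span_singleton_self _) (pow2_mem J z hz b))

end Pool.Agent.CRR
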