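import Pool.Agent.CRR.St

/-!
Campaign CRR, M1: a critical commutative ring has prime power order.
-/

namespace Pool.Agent.CRR

/-- the elements killed by `a` -/
def primaryKer (R : Type) [NonUnitalCommRing R] (a : ℤ) : NonUnitalSubring R where
  carrier := {x | a • x = 0}
  zero_mem' := smul_zero a
  add_mem' := by
    intro x y hx hy
    show a • (x + y) = 0
    rw [smul_add, show a • x = 0 from hx, show a • y = 0 from hy, add_zero]
  neg_mem' := by
    intro x hx
    show a • (-x) = 0
    rw [smul_neg, show a • x = 0 from hx, neg_zero]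
  mul_mem' := by
    intro x y hx _
    show a • (x * y) = 0
    rw [← smul_mul_assoc, show a • x = 0 from hx, zero_mul]

/-- multiplication by an integer which is idempotent modulo the order -/
def primaryHom (R : Type) [NonUnitalCommRing R] (c : ℤ) (hc : ∀ x : R, (c * c) • x = c • x) :
    R →ₙ+* R where
  toFun x := c • x
  map_mul' x y := by
    rw [smul_mul_smul_comm, hc]
  map_zero' := smul_zero c
  map_add' x y := smul_add c x y

theorem primary_ne_top {R : Type} [NonUnitalCommRing R] [Finite R] {a b : ℕ} (hab : a.Coprime b)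
    (hb : b ≠ 1) (hbR : b ∣ Nat.card R) : primaryKer R (a : ℤ) ≠ ⊤ := by
  intro h
  obtain ⟨l, hl, hlb⟩ := Nat.exists_prime_and_dvd hb
  have : Fact l.Prime := ⟨hl⟩
  obtain ⟨x, hx⟩ := exists_prime_addOrderOf_dvd_card' l (hlb.trans hbR)
  have h1 : x ∈ primaryKer R (a : ℤ) := by rw [h]; exact NonUnitalSubring.mem_top x
  have h2 : (a : ℤ) • x = 0 := h1
  rw [natCast_zsmul] at h2
  have h3 : l ∣ a := by
    rw [← hx]
    exact addOrderOf_dvd_of_nsmul_eq_zero h2
  have h4 : l ∣ Nat.gcd a b := Nat.dvd_gcd h3 hlb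
  rw [hab] at h4
  exact hl.one_lt.ne' (Nat.dvd_one.1 h4)

theorem primary_coprime {R : Type} [NonUnitalCommRing R] (hc : Critical R) {a b : ℕ}
    (hab : a.Coprime b) (ha : a ≠ 1) (hb : b ≠ 1) (hN : Nat.card R = a * b) : False := by
  have hfin := hc.1
  have hz : ∀ x : R, ∀ c : ℤ, (c * (a * b)) • x = 0 := by
    intro x c
    have h1 : Nat.card R • x = 0 := card_nsmul_eq_zero'
    rw [hN] at h1
    have h2 : ((a : ℤ) * b) • x = 0 := by
      rw [← Nat.cast_mul, natCast_zsmul]
      exact h1
    rw [mul_smul, h2, smul_zero]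
  obtain ⟨u, v, huv⟩ : ∃ u v : ℤ, u * a + v * b = 1 := by
    have h1 := Nat.isCoprime_iff_coprime.2 hab
    exact h1
  -- idempotents
  have hi1 : ∀ x : R, ((v * b) * (v * b)) • x = (v * b) • x := by
    intro x
    have h1 : (v * b) * (v * b) = v * b + (-(u * v)) * (a * b) := by
      have h2 : (v : ℤ) * b = 1 - u * a := by linarith
      calc (v * b) * (v * b) = (v * b) * (1 - u * a) := by rw [← h2]
        _ = v * b + (-(u * v)) * (a * b) := by ring
    rw [h1, add_smul, hz, add_zero]
  have hi2 : ∀ x : R, ((u * a) * (u * a)) • x = (u * a) • x := by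
    intro x
    have h1 : (u * a) * (u * a) = u * a + (-(u * v)) * (a * b) := by
      have h2 : (u : ℤ) * a = 1 - v * b := by linarith
      calc (u * a) * (u * a) = (u * a) * (1 - v * b) := by rw [← h2]
        _ = u * a + (-(u * v)) * (a * b) := by ring
    rw [h1, add_smul, hz, add_zero]
  refine critical_subrings hc (fun S => S = primaryKer R (a : ℤ) ∨ S = primaryKer R (b : ℤ)) ?_ ?_
  · rintro S (rfl | rfl)
    · exact primary_ne_top hab hb (hN ▸ Dvd.intro_left a rfl)
    · exact primary_ne_top hab.symm ha (hN ▸ Dvd.intro b rfl)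
  · intro s t h w
    have e1 := h _ (Or.inl rfl) (fun i => primaryHom R (v * b) hi1 (w i)) (fun i => by
      show (a : ℤ) • ((v * b) • w i) = 0
      rw [← mul_smul, show (a : ℤ) * (v * b) = v * (a * b) by ring, hz])
    have e2 := h _ (Or.inr rfl) (fun i => primaryHom R (u * a) hi2 (w i)) (fun i => by
      show (b : ℤ) • ((u * a) • w i) = 0
      rw [← mul_smul, show (b : ℤ) * (u * a) = u * (a * b) by ring, hz])
    rw [← eval_map, ← eval_map] at e1 e2
    have e3 : ∀ x : R, primaryHom R (u * a) hi2 x + primaryHom R (v * b) hi1 x = x := by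
      intro x
      show (u * a) • x + (v * b) • x = x
      rw [← add_smul, huv, one_smul]
    rw [← e3 (s.eval w), ← e3 (t.eval w), e1, e2]

theorem primary : St_primary := by
  intro R _ hc
  have hfin := hc.1
  have hnt := critical_nontrivial hc
  have h1 : Nat.card R ≠ 1 := (Finite.one_lt_card (α := R)).ne'
  have h0 : Nat.card R ≠ 0 := Nat.card_pos.ne'
  obtain ⟨p, hp, hpd⟩ := Nat.exists_prime_and_dvd h1
  obtain ⟨k, m, hm, hN⟩ := Nat.exists_eq_pow_mul_and_not_dvd h0 p hp.ne_one
  have hk : 1 ≤ k := by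
    rcases Nat.eq_zero_or_pos k with hk | hk
    · rw [hk, pow_zero, one_mul] at hN
      exact absurd (hN ▸ hpd) hm
    · exact hk
  refine ⟨p, k, hp, hk, ?_⟩
  by_cases hm1 : m = 1
  · rw [hN, hm1, mul_one]
  · exfalso
    refine primary_coprime hc (a := p ^ k) (b := m) ?_ ?_ hm1 hN
    · exact Nat.Coprime.pow_left k ((Nat.Prime.coprime_iff_not_dvd hp).2 hm)
    · exact (Nat.one_lt_pow (by omega) hp.one_lt).ne'

end Pool.Agent.CRR
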