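import Pool.Agent.CRR.St2

/-!
Campaign CRR2, N18: multilinear expansion of a product.
-/

namespace Pool.Agent.CRR

open Finset

theorem prod2 : St2_prod := by
  intro K _ J Rad A b m e hb he hrad hkap z hz
  choose hzJ c hc using hz
  let s : ℕ → K := fun i => ∑ l, c i l * e l
  have hsJ : ∀ i, s i ∈ J := fun i => Ideal.sum_mem _ (fun l _ => J.mul_mem_left _ (he l))
  -- replace the factors one after the other
  have step : ∀ n, n ≤ b → A * ∏ i ∈ range b, (if i < n then s i else z i)
      = A * ∏ i ∈ range b, z i := by
    intro n
    induction n with
    | zero => intro _; simp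
    | succ n ih =>
      intro hn
      rw [← ih (by omega)]
      have hnb : n ∈ range b := by simp; omega
      have e1 : ∏ i ∈ range b, (if i < n + 1 then s i else z i)
          = s n * ∏ i ∈ (range b).erase n, (if i < n then s i else z i) := by
        rw [← mul_prod_erase _ _ hnb]
        congr 1
        · simp
        · apply prod_congr rfl
          intro i hi
          have hin : i ≠ n := (mem_erase.1 hi).1
          by_cases h : i < n
          · simp [h, Nat.lt_succ_of_lt h]
          · have h' : ¬ i < n + 1 := by omega
            simp [h, h']
      have e2 : ∏ i ∈ range b, (if i < n then s i else z i)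
          = z n * ∏ i ∈ (range b).erase n, (if i < n then s i else z i) := by
        rw [← mul_prod_erase _ _ hnb]
        simp
      have e3 : A * ∏ i ∈ range b, (if i = n then z n - s n else if i < n then s i else z i)
          = 0 := by
        apply hrad
        · intro i
          by_cases h : i = n
          · simp only [h, if_true]
            exact J.sub_mem (hzJ n) (hsJ n)
          · simp only [h, if_false]
            by_cases h' : i < n
            · simp only [h', if_true]; exact hsJ i
            · simp only [h', if_false]; exact hzJ i
        · exact ⟨n, by omega, by simpa using hc n⟩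
      have e4 : ∏ i ∈ range b, (if i = n then z n - s n else if i < n then s i else z i)
          = (z n - s n) * ∏ i ∈ (range b).erase n, (if i < n then s i else z i) := by
        rw [← mul_prod_erase _ _ hnb]
        congr 1
        · simp
        · apply prod_congr rfl
          intro i hi
          have hin : i ≠ n := (mem_erase.1 hi).1
          simp [hin]
      rw [e4] at e3
      rw [e1, e2]
      linear_combination -e3
  rw [← step b le_rfl]
  have e5 : ∏ i ∈ range b, (if i < b then s i else z i) = ∏ i ∈ range b, s i :=
    prod_congr rfl (fun i hi => by simp [mem_range.1 hi])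
  rw [e5]
  have e6 : ∏ i ∈ range b, s i = ∑ κ ∈ Fintype.piFinset (fun _ : Fin b => (univ : Finset (Fin m))),
      ∏ i : Fin b, c i (κ i) * e (κ i) := by
    rw [← Fin.prod_univ_eq_prod_range (fun i => s i) b]
    exact prod_univ_sum (fun _ => univ) (fun (i : Fin b) l => c i l * e l)
  rw [e6, mul_sum]
  apply sum_eq_zero
  intro κ _
  rw [prod_mul_distrib]
  have hb0 : 0 < b := hb
  have e7 : A * ∏ i : Fin b, e (κ i) = 0 := by
    have h1 := hkap (fun i => if h : i < b then κ ⟨i, h⟩ else κ ⟨0, hb0⟩)
    rw [← Fin.prod_univ_eq_prod_range
      (fun i => e (if h : i < b then κ ⟨i, h⟩ else κ ⟨0, hb0⟩)) b] at h1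
    simpa using h1
  linear_combination (∏ i : Fin b, c i (κ i)) * e7

end Pool.Agent.CRR
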