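import Pool.Agent.CRR.St2

/-!
# CRR, part 2: `p = 2`, reduction to pure forms, case A (N25)
-/

namespace Pool.Agent.CRR

open Finset IsLocalRing

/-- The two forms have the same values on `J`. -/
private theorem redA_congr {K : Type} [CommRing K] {J : Ideal K} {W : Subring K} {d d' : K}
    {k : ℕ} (h : Det K J W d d' k)
    (he : ∀ z : ℕ → K, (∀ i, z i ∈ J) → Frm d d' k z = Frm d 0 k z) : Det K J W d 0 k := by
  refine ⟨?_, ?_, ?_⟩
  · obtain ⟨z, hz, hne⟩ := h.ne
    exact ⟨z, hz, by rwa [← he z hz]⟩
  · intro I hI z hz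
    rw [← he z hz]
    exact h.lst I hI z hz
  · intro S hS hT z hz
    rw [← he z fun i => (hz i).1]
    exact h.sub S hS hT z hz

/-- The module N25. -/
theorem redA (hsoc : St2_soc) (h2 : St2_two) : St2_redA := by
  intro K _ _ _ hp hcube d d' k hdet hk1 hk2
  obtain ⟨-, -, h3⟩ := h2 K (maximalIdeal K) 3 hcube (by
    intro x _
    rw [hcube 2 hp, zero_mul])
  apply redA_congr hdet
  intro z hz
  unfold Frm
  by_cases hk0 : k = 0
  · rw [if_pos hk0, if_pos hk0]
  rw [if_neg hk0, if_neg hk0, zero_mul]
  congr 1
  have hkey : z 0 * ∏ i ∈ range k, z i = 0 := by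
    by_cases hk : k = 2
    · subst hk
      obtain ⟨u, hu⟩ := hk2 rfl
      have hxyz : ∀ x ∈ maximalIdeal K, ∀ y ∈ maximalIdeal K, ∀ t ∈ maximalIdeal K,
          x * y * t = 0 := by
        intro x hx y hy t ht
        have h4 := hdet.lst
        have hv : ∀ w : ℕ → K, Frm d d' 2 w = d * (w 0 * w 1) + d' * (w 0 * (w 0 * w 1)) := by
          intro w
          unfold Frm
          rw [if_neg (by norm_num), prod_range_succ, prod_range_one]
        have h5 : Frm d d' 2 (fun i => if i = 0 then x else y) * t = 0 := by
          by_cases h0 : Frm d d' 2 (fun i => if i = 0 then x else y) = 0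
          · rw [h0, zero_mul]
          · refine (hsoc K _ h0 (fun I hI => h4 I hI _ ?_)).1 t ht
            intro i
            by_cases hi : i = 0
            · simp only [hi, if_true]
              exact hx
            · simp only [hi, if_false]
              exact hy
        rw [hv] at h5
        simp only [if_true, one_ne_zero, if_false] at h5
        have h6 := h3 x hx y hy t ht
        have h7 : d * (x * y * t) = 0 := by
          linear_combination h5 - d' * h6
        have h8 : (↑u⁻¹ : K) * (d * (x * y * t)) = x * y * t := by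
          rw [← hu, ← mul_assoc, Units.inv_mul, one_mul]
        rw [← h8, h7, mul_zero]
      rw [prod_range_succ, prod_range_one]
      have h9 := hxyz (z 0) (hz 0) (z 0) (hz 0) (z 1) (hz 1)
      linear_combination h9
    · obtain ⟨j, rfl⟩ : ∃ j, k = j + 3 := ⟨k - 3, by omega⟩
      rw [show j + 3 = j + 2 + 1 from rfl, prod_range_succ']
      rw [prod_range_succ']
      have h9 := h3 (z 0) (hz 0) (z (0 + 1)) (hz _) (z (j + 1 + 1)) (hz _)
      rw [prod_range_succ]
      linear_combination (∏ i ∈ range j, z (i + 1 + 1)) * h9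
  rw [hkey, mul_zero]

end Pool.Agent.CRR
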