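import Pool.Agent.CRR.St2

/-!
Campaign CRR2, N26: reduction to pure forms for p = 2, case B.
-/

namespace Pool.Agent.CRR

open Finset IsLocalRing

private theorem redB_frm {K : Type} [CommRing K] (d d' : K) (z : ℕ → K) :
    Frm d d' 2 z = d * (z 0 * z 1) + d' * (z 0 * (z 0 * z 1)) := by
  simp [Frm, prod_range_succ]

private theorem redB_frm3 {K : Type} [CommRing K] (z : ℕ → K) :
    Frm 1 0 3 z = z 0 * z 1 * z 2 := by
  simp [Frm, prod_range_succ]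

theorem redB (hwk : St2_wk) (hsoc : St2_soc) (hgen : St2_gen) (hdim : St2_dim)
    (h2 : St2_two) : St2_redB := by
  intro K _ _ _ h2J hcube d hd d' hd' hD hdu
  have hpJ : ((2 : ℕ) : K) ∈ maximalIdeal K := by simpa using h2J
  obtain ⟨w1, w2, -⟩ := hwk K 2 Nat.prime_two hpJ
  have hs : ∀ x ∈ maximalIdeal K, (2 : K) ^ 3 * x = 0 := by
    intro x _
    rw [hcube 2 h2J, zero_mul]
  obtain ⟨f1, f2, f3⟩ := h2 K (maximalIdeal K) 3 hcube hs
  by_cases hx : ∀ x ∈ maximalIdeal K, ∀ y ∈ maximalIdeal K, d' * (x * (x * y)) = 0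
  · refine ⟨d, hd, 2, ?_⟩
    have heq : ∀ z : ℕ → K, (∀ i, z i ∈ maximalIdeal K) → Frm d d' 2 z = Frm d 0 2 z := by
      intro z hz
      rw [redB_frm, redB_frm, hx _ (hz 0) _ (hz 1), zero_mul]
    obtain ⟨⟨z, hz, hne⟩, hl, hsub⟩ := hD
    refine ⟨⟨z, hz, ?_⟩, ?_, ?_⟩
    · rw [← heq z hz]; exact hne
    · intro I hI z hz
      rw [← heq z hz]
      exact hl I hI z hz
    · intro S hS hS' z hz
      rw [← heq z (fun i => (hz i).1)]
      exact hsub S hS hS' z hz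
  · push Not at hx
    obtain ⟨x₀, hx₀, y₀, hy₀, hxy⟩ := hx
    have hd'u : IsUnit d' := by
      by_contra hn
      obtain ⟨d₂, -, rfl⟩ := w2 d' hd' ((mem_maximalIdeal _).2 hn)
      apply hxy
      have := f1 x₀ hx₀ x₀ hx₀ y₀ hy₀
      push_cast
      linear_combination d₂ * this
    obtain ⟨d₁, hd₁, hdd⟩ := w2 d hd ((mem_maximalIdeal _).2 hdu)
    have hdd' : d = 2 * d₁ := by rw [hdd]; push_cast; ring
    obtain ⟨z, hz, hzne⟩ := hD.ne
    let y : Fin 2 → K := ![z 0, z 1]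
    have hyJ : ∀ i, y i ∈ maximalIdeal K := by
      intro i
      fin_cases i
      · exact hz 0
      · exact hz 1
    have hcl : Subring.closure ((WK K : Set K) ∪ Set.range y) = ⊤ := by
      by_contra hS
      apply hzne
      have h1 := hD.sub _ (fun x hx => Subring.subset_closure (Or.inl hx)) hS
        (fun i => if i = 0 then z 0 else z 1) ?_
      · rw [redB_frm] at h1 ⊢
        simpa using h1
      · intro i
        by_cases h : i = 0
        · simp only [h, if_true]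
          exact ⟨hz 0, Subring.subset_closure (Or.inr ⟨0, rfl⟩)⟩
        · simp only [h, if_false]
          exact ⟨hz 1, Subring.subset_closure (Or.inr ⟨1, rfl⟩)⟩
    have hJ : maximalIdeal K = Ideal.span ({((2 : ℕ) : K)} ∪ Set.range y) := by
      apply hgen K 2 _ hpJ w2 _ hcl
      rintro _ ⟨i, rfl⟩
      exact hyJ i
    have hrep : ∀ x ∈ maximalIdeal K, ∃ a b c : K, x = 2 * a + (b * z 0 + c * z 1) := by
      intro x hx
      rw [hJ, Ideal.span_union, Submodule.mem_sup] at hx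
      obtain ⟨u, hu, w, hw, rfl⟩ := hx
      obtain ⟨a, rfl⟩ := Ideal.mem_span_singleton'.1 hu
      obtain ⟨c, rfl⟩ := Ideal.mem_span_range_iff_exists_fun.1 hw
      refine ⟨a, c 0, c 1, ?_⟩
      rw [Fin.sum_univ_two]
      push_cast
      simp only [y, Matrix.cons_val_zero, Matrix.cons_val_one]
      ring
    have hc0 := hcube _ (hz 0)
    have hc1 := hcube _ (hz 1)
    have hm := f3 _ (hz 0) _ (hz 1) _ (hz 1)
    have h4 : ∀ x₁ ∈ maximalIdeal K, ∀ x₂ ∈ maximalIdeal K, ∀ x₃ ∈ maximalIdeal K,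
        ∀ x₄ ∈ maximalIdeal K, x₁ * x₂ * (x₃ * x₄) = 0 := by
      intro x₁ hx₁ x₂ hx₂ x₃ hx₃ x₄ hx₄
      obtain ⟨a₁, b₁, c₁, e₁⟩ := hrep x₁ hx₁
      obtain ⟨a₂, b₂, c₂, e₂⟩ := hrep x₂ hx₂
      obtain ⟨a₃, b₃, c₃, e₃⟩ := hrep x₃ hx₃
      obtain ⟨a₄, b₄, c₄, e₄⟩ := hrep x₄ hx₄
      have hu : ∀ b c : K, b * z 0 + c * z 1 ∈ maximalIdeal K := fun b c =>
        Ideal.add_mem _ (Ideal.mul_mem_left _ _ (hz 0)) (Ideal.mul_mem_left _ _ (hz 1))
      have g1 := f1 x₂ hx₂ x₃ hx₃ x₄ hx₄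
      have g2 := f1 _ (hu b₁ c₁) x₃ hx₃ x₄ hx₄
      have g3 := f1 _ (hu b₁ c₁) _ (hu b₂ c₂) x₄ hx₄
      have g4 := f1 _ (hu b₁ c₁) _ (hu b₂ c₂) _ (hu b₃ c₃)
      have e5 : x₁ * x₂ * (x₃ * x₄) = (b₁ * z 0 + c₁ * z 1) * (b₂ * z 0 + c₂ * z 1) *
          ((b₃ * z 0 + c₃ * z 1) * (b₄ * z 0 + c₄ * z 1)) := by
        have k1 : x₁ * x₂ * (x₃ * x₄) = (b₁ * z 0 + c₁ * z 1) * x₂ * (x₃ * x₄) := by
          rw [e₁]; linear_combination a₁ * g1
        have k2 : (b₁ * z 0 + c₁ * z 1) * x₂ * (x₃ * x₄) =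
            (b₁ * z 0 + c₁ * z 1) * (b₂ * z 0 + c₂ * z 1) * (x₃ * x₄) := by
          rw [e₂]; linear_combination a₂ * g2
        have k3 : (b₁ * z 0 + c₁ * z 1) * (b₂ * z 0 + c₂ * z 1) * (x₃ * x₄) =
            (b₁ * z 0 + c₁ * z 1) * (b₂ * z 0 + c₂ * z 1) * ((b₃ * z 0 + c₃ * z 1) * x₄) := by
          rw [e₃]; linear_combination a₃ * g3
        have k4 : (b₁ * z 0 + c₁ * z 1) * (b₂ * z 0 + c₂ * z 1) *
            ((b₃ * z 0 + c₃ * z 1) * x₄) = (b₁ * z 0 + c₁ * z 1) * (b₂ * z 0 + c₂ * z 1) *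
            ((b₃ * z 0 + c₃ * z 1) * (b₄ * z 0 + c₄ * z 1)) := by
          rw [e₄]; linear_combination a₄ * g4
        rw [k1, k2, k3, k4]
      rw [e5]
      linear_combination (b₁ * b₂ * b₃ * b₄ * z 0 + (b₁ * b₂ * b₃ * c₄ + b₁ * b₂ * c₃ * b₄ +
        b₁ * c₂ * b₃ * b₄ + c₁ * b₂ * b₃ * b₄) * z 1) * hc0 +
        (b₁ * b₂ * c₃ * c₄ + b₁ * c₂ * b₃ * c₄ + b₁ * c₂ * c₃ * b₄ + c₁ * b₂ * b₃ * c₄ +
        c₁ * b₂ * c₃ * b₄ + c₁ * c₂ * b₃ * b₄) * hm +
        ((b₁ * c₂ * c₃ * c₄ + c₁ * b₂ * c₃ * c₄ + c₁ * c₂ * b₃ * c₄ + c₁ * c₂ * c₃ * b₄) * z 0 +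
        c₁ * c₂ * c₃ * c₄ * z 1) * hc1
    have h4' : ∀ r ∈ maximalIdeal K ^ 2, ∀ x ∈ maximalIdeal K, ∀ x' ∈ maximalIdeal K,
        r * (x * x') = 0 := by
      intro r hr x hx x' hx'
      rw [pow_two] at hr
      refine Submodule.mul_induction_on hr ?_ ?_
      · intro m hm n hn
        exact h4 m hm n hn x hx x' hx'
      · intro a b ha hb
        rw [add_mul, ha, hb, add_zero]
    refine ⟨1, (WK K).one_mem, 3, ⟨fun i => if i = 2 then y₀ else x₀, ?_, ?_⟩, ?_, ?_⟩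
    · intro i
      by_cases h : i = 2 <;> simp [h, hx₀, hy₀]
    · rw [redB_frm3]
      simp only [OfNat.zero_ne_ofNat, if_false, OfNat.one_ne_ofNat, if_true]
      intro h
      apply hxy
      rw [← mul_assoc x₀ x₀ y₀, h, mul_zero]
    · intro I hI w hw
      have hv := fun I hI => hD.lst I hI z hz
      apply (hsoc K _ hzne hv).2 _ _ I hI
      intro x hx
      rw [redB_frm3]
      have := h4 _ (hw 0) _ (hw 1) _ (hw 2) x hx
      linear_combination this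
    · intro S hS hS' w hw
      obtain ⟨e, he, hez⟩ := hdim K 2 2 y S hJ w1 hS hS'
      have he0 := he 0
      have q1 := hD.sub S hS hS' (fun _ => e 0) (fun _ => he 0)
      have q2 := hD.sub S hS hS' (fun i => if i = 0 then 2 else e 0) (fun i => by
        by_cases h : i = 0
        · simp only [h, if_true]
          exact ⟨h2J, by simp⟩
        · simp only [h, if_false]
          exact he 0)
      rw [redB_frm] at q1 q2
      simp only [if_true, one_ne_zero, if_false] at q2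
      have q3 := hcube _ (he 0).1
      have q4 := f2 2 h2J _ (he 0).1
      have q5 : d * (e 0) ^ 2 = 0 := by linear_combination q1 - d' * q3
      have q6 : d' * (4 * e 0) = 0 := by
        have : d * (2 * e 0) = d * (e 0) ^ 2 := by
          rw [hdd']; linear_combination d₁ * q4
        linear_combination q2 - this - q5
      have q7 : 4 * e 0 = 0 := (hd'u.mul_right_eq_zero).1 q6
      have q8 : 2 * (e 0) ^ 2 = 0 := by linear_combination q7 - q4
      have q9 : (2 : K) ^ 3 = 0 := hcube 2 h2J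
      have hrep' : ∀ i, ∃ c s r : K, r ∈ maximalIdeal K ^ 2 ∧ w i = c * e 0 + 2 * s + r := by
        intro i
        obtain ⟨c, hc⟩ := hez (w i) (hw i).1 (hw i).2
        rw [Submodule.mem_sup] at hc
        obtain ⟨r, hr, t, ht, hrt⟩ := hc
        obtain ⟨s, rfl⟩ := Ideal.mem_span_singleton'.1 ht
        refine ⟨c 0, s, r, hr, ?_⟩
        have h5 : (∑ i : Fin (2 - 1), c i * e i) = c 0 * e 0 := by
          simp
        rw [h5] at hrt
        push_cast at hrt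
        linear_combination -hrt
      obtain ⟨c₀, s₀, r₀, hr₀, E₀⟩ := hrep' 0
      obtain ⟨c₁, s₁, r₁, hr₁, E₁⟩ := hrep' 1
      obtain ⟨c₂, s₂, r₂, hr₂, E₂⟩ := hrep' 2
      have ht : ∀ c s : K, c * e 0 + 2 * s ∈ maximalIdeal K := fun c s =>
        Ideal.add_mem _ (Ideal.mul_mem_left _ _ (he 0).1) (Ideal.mul_mem_right _ _ h2J)
      rw [redB_frm3]
      have k0 := h4' r₀ hr₀ (w 1) (hw 1).1 (w 2) (hw 2).1
      have k1 := h4' r₁ hr₁ _ (ht c₀ s₀) (w 2) (hw 2).1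
      have k2 := h4' r₂ hr₂ _ (ht c₀ s₀) _ (ht c₁ s₁)
      have m1 : w 0 * w 1 * w 2 = (c₀ * e 0 + 2 * s₀) * w 1 * w 2 := by
        rw [E₀]; linear_combination k0
      have m2 : (c₀ * e 0 + 2 * s₀) * w 1 * w 2 =
          (c₀ * e 0 + 2 * s₀) * (c₁ * e 0 + 2 * s₁) * w 2 := by
        rw [E₁]; linear_combination k1
      have m3 : (c₀ * e 0 + 2 * s₀) * (c₁ * e 0 + 2 * s₁) * w 2 =
          (c₀ * e 0 + 2 * s₀) * (c₁ * e 0 + 2 * s₁) * (c₂ * e 0 + 2 * s₂) := by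
        rw [E₂]; linear_combination k2
      rw [m1, m2, m3]
      linear_combination c₀ * c₁ * c₂ * q3 +
        (c₀ * c₁ * s₂ + c₀ * s₁ * c₂ + s₀ * c₁ * c₂) * q8 +
        (c₀ * s₁ * s₂ + s₀ * c₁ * s₂ + s₀ * s₁ * c₂) * q7 + s₀ * s₁ * s₂ * q9

end Pool.Agent.CRR
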