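import Pool.Agent.CRR.St2

/-!
Campaign CRR, part 2 (MP_1bb14d_al): reduction of the forms of degree one, `p = 2`.
-/

namespace Pool.Agent.CRR

open Finset IsLocalRing

section

variable {K : Type} [CommRing K]

private theorem RedC_frm1 (d d' : K) (z : ℕ → K) : Frm d d' 1 z = d * z 0 + d' * (z 0 * z 0) := by
  simp [Frm]

private theorem RedC_frm3 (z : ℕ → K) : Frm 1 0 3 z = z 0 * z 1 * z 2 := by
  simp [Frm, Finset.prod_range_succ]

private theorem RedC_frm2 (z : ℕ → K) : Frm 1 0 2 z = z 0 * z 1 := by
  simp [Frm, Finset.prod_range_succ]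

private theorem RedC_frm10 (z : ℕ → K) : Frm 1 0 1 z = z 0 := by
  simp [Frm]

private theorem RedC_frm0 (d : K) (z : ℕ → K) : Frm d 0 0 z = d := by
  simp [Frm]

/-- induction over the square of an ideal -/
private theorem RedC_sq (J : Ideal K) (P : K → Prop) (h0 : ∀ a ∈ J, ∀ b ∈ J, P (a * b))
    (ha : ∀ x y, P x → P y → P (x + y)) : ∀ r ∈ J ^ 2, P r := by
  intro r hr
  rw [pow_two] at hr
  exact Submodule.mul_induction_on hr h0 ha

/-- a ring of 16 elements -/
private theorem RedC_card (Y : K) (h8 : (8 : K) = 0) (h4 : (4 : K) ≠ 0) (hY : 2 * Y = 0)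
    (hY2 : Y ^ 2 = 4)
    (hall : ∀ x : K, ∃ (a b : ℕ), x = (a : K) + (b : K) * Y) : Nat.card K = 16 := by
  have hchar : CharP K 8 := by
    obtain ⟨c, hc⟩ := CharP.exists K
    have h1 : c ∣ 2 ^ 3 := by
      rw [← CharP.cast_eq_zero_iff K c]
      push_cast
      rw [← h8]
    have h2 : ¬ c ∣ 4 := by
      rw [← CharP.cast_eq_zero_iff K c]
      push_cast
      exact h4
    obtain ⟨k, hk, hck⟩ := (Nat.dvd_prime_pow Nat.prime_two).1 h1
    interval_cases k
    · exact absurd (hck ▸ by norm_num) h2
    · exact absurd (hck ▸ by norm_num) h2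
    · exact absurd (hck ▸ by norm_num) h2
    · have : c = 8 := hck
      rw [← this]
      exact hc
  have hz : ∀ n : ℤ, (n : K) = 0 → (8 : ℤ) ∣ n := by
    intro n hn
    have := (CharP.intCast_eq_zero_iff K 8 n).1 hn
    exact_mod_cast this
  have hno : ∀ n : ℤ, Y ≠ (n : K) := by
    intro n hn
    have h1 : ((2 * n : ℤ) : K) = 0 := by
      push_cast
      rw [← hn]
      exact hY
    obtain ⟨m, hm⟩ := hz _ h1
    have h2 : n = 4 * m := by omega
    apply h4
    rw [← hY2, hn, h2]
    push_cast
    linear_combination (2 * (m : K) ^ 2) * h8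
  let f : Fin 8 × Fin 2 → K := fun p => ((p.1 : ℕ) : K) + ((p.2 : ℕ) : K) * Y
  have hf : Function.Bijective f := by
    constructor
    · rintro ⟨a, b⟩ ⟨a', b'⟩ h
      have h1 : ((a : ℕ) : K) + ((b : ℕ) : K) * Y = ((a' : ℕ) : K) + ((b' : ℕ) : K) * Y := h
      have ha := a.2
      have ha' := a'.2
      have hb := b.2
      have hb' := b'.2
      have hbb : (b : ℕ) = (b' : ℕ) := by
        by_contra hne
        have h01 : ((b : ℕ) = 0 ∧ (b' : ℕ) = 1) ∨ ((b : ℕ) = 1 ∧ (b' : ℕ) = 0) := by omega
        rcases h01 with ⟨e1, e2⟩ | ⟨e1, e2⟩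
        · rw [e1, e2] at h1
          apply hno ((a : ℕ) - (a' : ℕ) : ℤ)
          push_cast
          push_cast at h1
          linear_combination -h1
        · rw [e1, e2] at h1
          apply hno ((a' : ℕ) - (a : ℕ) : ℤ)
          push_cast
          push_cast at h1
          linear_combination h1
      rw [hbb] at h1
      have h2 : (((a : ℕ) - (a' : ℕ) : ℤ) : K) = 0 := by
        push_cast
        linear_combination h1
      have h3 := hz _ h2
      have haa : (a : ℕ) = (a' : ℕ) := by omega
      exact Prod.ext (Fin.ext haa) (Fin.ext hbb)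
    · intro x
      obtain ⟨a, b, rfl⟩ := hall x
      refine ⟨(⟨a % 8, Nat.mod_lt _ (by norm_num)⟩, ⟨b % 2, Nat.mod_lt _ (by norm_num)⟩), ?_⟩
      show ((a % 8 : ℕ) : K) + ((b % 2 : ℕ) : K) * Y = (a : K) + (b : K) * Y
      have e1 : (a : K) = (8 : K) * ((a / 8 : ℕ) : K) + ((a % 8 : ℕ) : K) := by
        conv_lhs => rw [← Nat.div_add_mod a 8]
        push_cast
        rfl
      have e2 : (b : K) = (2 : K) * ((b / 2 : ℕ) : K) + ((b % 2 : ℕ) : K) := by
        conv_lhs => rw [← Nat.div_add_mod b 2]
        push_cast
        rfl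
      rw [e1, e2]
      linear_combination -((a / 8 : ℕ) : K) * h8 - ((b / 2 : ℕ) : K) * hY
  rw [← Nat.card_eq_of_bijective f hf]
  simp

end

/-- REDC -/
theorem redC (hwk : St2_wk) (hsoc : St2_soc) (hgen : St2_gen) (hdim : St2_dim) (h2 : St2_two) :
    St2_redC := by
  intro K _ _ _ h2J hcube d hd d' hd' hDet
  have h2J' : ((2 : ℕ) : K) ∈ maximalIdeal K := by
    push_cast
    exact h2J
  obtain ⟨hw1, hw2, -⟩ := hwk K 2 Nat.prime_two h2J'
  have hw2' : ∀ d ∈ WK K, d ∈ maximalIdeal K → ∃ d₁ ∈ WK K, d = 2 * d₁ := by
    intro d hd hdJ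
    obtain ⟨d₁, h1, h3⟩ := hw2 d hd hdJ
    exact ⟨d₁, h1, by rw [h3]; push_cast; rfl⟩
  have h8 : (8 : K) = 0 := by
    have := hcube 2 h2J
    linear_combination this
  obtain ⟨ht1, ht2, ht3⟩ := h2 K (maximalIdeal K) 3 hcube (by
    intro x _
    linear_combination x * h8)
  -- the element y
  obtain ⟨z₀, hz₀, hv₀⟩ := hDet.ne
  obtain ⟨y, hy⟩ : ∃ y, y = z₀ 0 := ⟨_, rfl⟩
  have hyJ : y ∈ maximalIdeal K := by rw [hy]; exact hz₀ 0
  rw [RedC_frm1, ← hy] at hv₀
  have hlst : ∀ I : Ideal K, I ≠ ⊥ → d * y + d' * (y * y) ∈ I := by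
    intro I hI
    have := hDet.lst I hI z₀ hz₀
    rwa [RedC_frm1, ← hy] at this
  obtain ⟨-, hs2⟩ := hsoc K (d * y + d' * (y * y)) hv₀ hlst
  -- J is generated by 2 and y
  have hspan : maximalIdeal K = Ideal.span ({((2 : ℕ) : K)} ∪ {y}) := by
    refine hgen K 2 {y} h2J' hw2 (Set.singleton_subset_iff.2 hyJ) ?_
    by_contra hne
    apply hv₀
    have := hDet.sub (Subring.closure ((WK K : Set K) ∪ {y}))
      (fun x hx => Subring.subset_closure (Or.inl hx)) hne (fun _ => y)
      (fun _ => ⟨hyJ, Subring.subset_closure (Or.inr rfl)⟩)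
    rwa [RedC_frm1] at this
  have hJ : ∀ x ∈ maximalIdeal K, ∃ a b : K, x = 2 * a + b * y := by
    intro x hx
    rw [hspan, Set.singleton_union, Ideal.mem_span_pair] at hx
    obtain ⟨a, b, hab⟩ := hx
    refine ⟨a, b, ?_⟩
    rw [← hab]
    push_cast
    ring
  have hy3 : y ^ 3 = 0 := hcube y hyJ
  have h4y : 4 * y ^ 2 = 0 := by
    have := ht1 2 h2J y hyJ y hyJ
    linear_combination this
  have hfour : ∀ a ∈ maximalIdeal K, ∀ b ∈ maximalIdeal K, ∀ c ∈ maximalIdeal K,
      ∀ e ∈ maximalIdeal K, a * b * c * e = 0 := by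
    intro a ha b hb c hc e he
    obtain ⟨a1, a2, rfl⟩ := hJ a ha
    obtain ⟨b1, b2, rfl⟩ := hJ b hb
    obtain ⟨c1, c2, rfl⟩ := hJ c hc
    obtain ⟨e1, e2, rfl⟩ := hJ e he
    linear_combination (2 * a1 * b1 * c1 * e1 + a2 * y * b1 * c1 * e1 + a1 * b2 * y * c1 * e1 +
      a1 * b1 * c2 * y * e1 + a1 * b1 * c1 * e2 * y) * h8 +
      (a2 * b2 * c1 * e1 + a2 * b1 * c2 * e1 + a2 * b1 * c1 * e2 + a1 * b2 * c2 * e1 +
        a1 * b2 * c1 * e2 + a1 * b1 * c2 * e2) * h4y +
      (2 * a1 * b2 * c2 * e2 + 2 * a2 * b1 * c2 * e2 + 2 * a2 * b2 * c1 * e2 +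
        2 * a2 * b2 * c2 * e1 + a2 * b2 * c2 * e2 * y) * hy3
  -- elements of proper subrings
  have hS : ∀ S : Subring K, WK K ≤ S → S ≠ ⊤ → ∀ z ∈ maximalIdeal K, z ∈ S →
      ∃ s : K, ∃ r ∈ maximalIdeal K ^ 2, z = 2 * s + r := by
    intro S hWS hSt z hz hzS
    have hsp : maximalIdeal K = Ideal.span ({((2 : ℕ) : K)} ∪ Set.range (fun _ : Fin 1 => y)) := by
      rw [Set.range_const]
      exact hspan
    obtain ⟨e, -, he⟩ := hdim K 2 1 (fun _ => y) S hsp hw1 hWS hSt
    obtain ⟨c, hc⟩ := he z hz hzS
    have e0 : ∑ i : Fin (1 - 1), c i * e i = 0 := by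
      apply Finset.sum_eq_zero
      intro i
      exact absurd i.2 (by simp)
    rw [e0, sub_zero, Submodule.mem_sup] at hc
    obtain ⟨r, hr, t, ht, hrt⟩ := hc
    rw [Ideal.mem_span_singleton] at ht
    obtain ⟨s, rfl⟩ := ht
    refine ⟨s, r, hr, ?_⟩
    rw [← hrt]
    push_cast
    ring
  by_cases hc1 : ∃ x₁ ∈ maximalIdeal K, ∃ x₂ ∈ maximalIdeal K, ∃ x₃ ∈ maximalIdeal K,
      x₁ * x₂ * x₃ ≠ 0
  · -- case 1
    obtain ⟨x₁, hx₁, x₂, hx₂, x₃, hx₃, hne⟩ := hc1
    refine Or.inr ⟨1, (WK K).one_mem, 3, ?_, ?_, ?_⟩
    · refine ⟨fun i => if i = 0 then x₁ else if i = 1 then x₂ else x₃, ?_, ?_⟩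
      · intro i
        dsimp only
        split_ifs
        · exact hx₁
        · exact hx₂
        · exact hx₃
      · rw [RedC_frm3]
        simpa using hne
    · intro I hI z hz
      rw [RedC_frm3]
      exact hs2 _ (fun w hw => hfour _ (hz 0) _ (hz 1) _ (hz 2) _ hw) I hI
    · intro S hWS hSt z hz
      rw [RedC_frm3]
      have hrr : ∀ r ∈ maximalIdeal K ^ 2, ∀ a ∈ maximalIdeal K, ∀ b ∈ maximalIdeal K,
          r * a * b = 0 := by
        intro r hr a ha b hb
        refine RedC_sq (maximalIdeal K) (fun r => r * a * b = 0) ?_ ?_ r hr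
        · intro u hu v hv
          exact hfour u hu v hv a ha b hb
        · intro u v hu hv
          linear_combination hu + hv
      have hle : ∀ r ∈ maximalIdeal K ^ 2, r ∈ maximalIdeal K := fun r hr =>
        Ideal.pow_le_self (by norm_num) hr
      obtain ⟨s, r, hr, e1⟩ := hS S hWS hSt _ (hz 0).1 (hz 0).2
      obtain ⟨s', r', hr', e2⟩ := hS S hWS hSt _ (hz 1).1 (hz 1).2
      obtain ⟨s'', r'', hr'', e3⟩ := hS S hWS hSt _ (hz 2).1 (hz 2).2
      have m1 : 2 * s ∈ maximalIdeal K := Ideal.mul_mem_right _ _ h2J
      have m2 : 2 * s' ∈ maximalIdeal K := Ideal.mul_mem_right _ _ h2J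
      have m3 := hle _ hr''
      have m4 := hle _ hr'
      have m5 : z 1 ∈ maximalIdeal K := (hz 1).1
      have m6 : z 2 ∈ maximalIdeal K := (hz 2).1
      have k1 := hrr r hr _ m5 _ m6
      have k2 := hrr r' hr' _ m1 _ m6
      have k3 := hrr r'' hr'' _ m1 _ m2
      calc z 0 * z 1 * z 2 = (2 * s + r) * z 1 * z 2 := by rw [← e1]
        _ = r * z 1 * z 2 + 2 * s * z 1 * z 2 := by ring
        _ = 2 * s * (2 * s' + r') * z 2 := by rw [k1, zero_add, ← e2]
        _ = r' * (2 * s) * z 2 + 2 * s * (2 * s') * z 2 := by ring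
        _ = 2 * s * (2 * s') * (2 * s'' + r'') := by rw [k2, zero_add, ← e3]
        _ = r'' * (2 * s) * (2 * s') + s * s' * s'' * 8 := by ring
        _ = 0 := by rw [k3, h8]; ring
  · push Not at hc1
    by_cases hc2 : ∃ x₁ ∈ maximalIdeal K, ∃ x₂ ∈ maximalIdeal K, x₁ * x₂ ≠ 0
    · -- case 2
      obtain ⟨x₁, hx₁, x₂, hx₂, hne⟩ := hc2
      by_cases h4 : (4 : K) = 0
      · -- case 2a
        refine Or.inr ⟨1, (WK K).one_mem, 2, ?_, ?_, ?_⟩
        · refine ⟨fun i => if i = 0 then x₁ else x₂, ?_, ?_⟩
          · intro i
            dsimp only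
            split_ifs
            · exact hx₁
            · exact hx₂
          · rw [RedC_frm2]
            simpa using hne
        · intro I hI z hz
          rw [RedC_frm2]
          exact hs2 _ (fun w hw => hc1 _ (hz 0) _ (hz 1) _ hw) I hI
        · intro S hWS hSt z hz
          rw [RedC_frm2]
          have hrr : ∀ r ∈ maximalIdeal K ^ 2, ∀ a ∈ maximalIdeal K, r * a = 0 := by
            intro r hr a ha
            refine RedC_sq (maximalIdeal K) (fun r => r * a = 0) ?_ ?_ r hr
            · intro u hu v hv
              exact hc1 u hu v hv a ha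
            · intro u v hu hv
              linear_combination hu + hv
          obtain ⟨s, r, hr, e1⟩ := hS S hWS hSt _ (hz 0).1 (hz 0).2
          obtain ⟨s', r', hr', e2⟩ := hS S hWS hSt _ (hz 1).1 (hz 1).2
          have m1 : 2 * s ∈ maximalIdeal K := Ideal.mul_mem_right _ _ h2J
          have k1 := hrr r hr _ (hz 1).1
          have k2 := hrr r' hr' _ m1
          calc z 0 * z 1 = (2 * s + r) * z 1 := by rw [← e1]
            _ = r * z 1 + 2 * s * z 1 := by ring
            _ = 2 * s * (2 * s' + r') := by rw [k1, zero_add, ← e2]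
            _ = r' * (2 * s) + s * s' * 4 := by ring
            _ = 0 := by rw [k2, h4]; ring
      · by_cases hWt : WK K = ⊤
        · -- case 2b
          refine Or.inr ⟨4, by rw [hWt]; exact Subring.mem_top _, 0, ?_, ?_, ?_⟩
          · exact ⟨fun _ => 0, fun _ => (maximalIdeal K).zero_mem, by rw [RedC_frm0]; exact h4⟩
          · intro I hI z _
            rw [RedC_frm0]
            refine hs2 _ (fun w hw => ?_) I hI
            have := hc1 2 h2J 2 h2J w hw
            linear_combination this
          · intro S hWS hSt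
            exact absurd (top_le_iff.1 (hWt ▸ hWS)) hSt
        · -- case 2c
          have hform : ∀ w ∈ WK K, 2 * d * w + 4 * d' * w ^ 2 = 0 := by
            intro w hw
            have h22 : (2 : K) ∈ WK K := by
              have := natCast_mem (WK K) 2
              push_cast at this
              exact this
            have := hDet.sub (WK K) le_rfl hWt (fun _ => 2 * w)
              (fun _ => ⟨Ideal.mul_mem_right _ _ h2J, (WK K).mul_mem h22 hw⟩)
            rw [RedC_frm1] at this
            linear_combination this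
          have h2ne : (2 : K) ≠ 0 := by
            intro h
            apply h4
            linear_combination 2 * h
          have hunit : ∀ x : K, x ∉ maximalIdeal K → IsUnit x := by
            intro x hx
            by_contra h
            exact hx ((IsLocalRing.mem_maximalIdeal x).2 h)
          have hdJ : d ∈ maximalIdeal K := by
            by_contra h
            have h1 : d + 2 * d' ∉ maximalIdeal K := by
              intro h3
              apply h
              have := (maximalIdeal K).sub_mem h3 (Ideal.mul_mem_right d' _ h2J)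
              simpa using this
            obtain ⟨u, hu⟩ := (hunit _ h1)
            have h3 := hform 1 (WK K).one_mem
            apply h2ne
            have h5 : (2 : K) * (u : K) = 0 := by
              rw [hu]
              linear_combination h3
            have h6 := congrArg (fun t => t * ((u⁻¹ : Kˣ) : K)) h5
            simpa [mul_assoc] using h6
          obtain ⟨d₁, hd₁, hdd⟩ := hw2' d hd hdJ
          have h4J : ∀ x : K, 4 * x = 0 → x ∈ maximalIdeal K := by
            intro x hx
            by_contra h
            obtain ⟨u, hu⟩ := hunit _ h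
            apply h4
            have h5 : (4 : K) * (u : K) = 0 := by rw [hu]; exact hx
            have h6 := congrArg (fun t => t * ((u⁻¹ : Kˣ) : K)) h5
            simpa [mul_assoc] using h6
          have hform2 : ∀ w ∈ WK K, d₁ * w + d' * w ^ 2 ∈ maximalIdeal K := by
            intro w hw
            apply h4J
            have := hform w hw
            rw [hdd] at this
            linear_combination this
          have hdd1 : d₁ + d' ∈ maximalIdeal K := by
            have := hform2 1 (WK K).one_mem
            simpa using this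
          have hd'J : d' ∉ maximalIdeal K := by
            intro h
            have h1 : d₁ ∈ maximalIdeal K := by
              have := (maximalIdeal K).sub_mem hdd1 h
              simpa using this
            apply hv₀
            have e1 := hc1 2 h2J d₁ h1 y hyJ
            have e2 := hc1 d' h y hyJ y hyJ
            rw [hdd]
            linear_combination e1 + e2
          have hprime : (maximalIdeal K).IsPrime := (IsLocalRing.maximalIdeal.isMaximal K).isPrime
          have hWK01 : ∀ w ∈ WK K, w ∈ maximalIdeal K ∨ w - 1 ∈ maximalIdeal K := by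
            intro w hw
            have h1 : d' * (w * (w - 1)) ∈ maximalIdeal K := by
              have h3 := (maximalIdeal K).sub_mem (hform2 w hw)
                (Ideal.mul_mem_right w _ hdd1)
              have e : d₁ * w + d' * w ^ 2 - (d₁ + d') * w = d' * (w * (w - 1)) := by ring
              rwa [e] at h3
            rcases hprime.mem_or_mem h1 with h | h
            · exact absurd h hd'J
            · exact hprime.mem_or_mem h
          have hK01 : ∀ x : K, x ∈ maximalIdeal K ∨ x - 1 ∈ maximalIdeal K := by
            intro x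
            obtain ⟨w, hw, hxw⟩ := hw1 x
            rcases hWK01 w hw with h | h
            · left
              have := (maximalIdeal K).add_mem hxw h
              simpa using this
            · right
              have := (maximalIdeal K).add_mem hxw h
              have e : x - w + (w - 1) = x - 1 := by ring
              rwa [e] at this
          have hsq : ∀ a ∈ maximalIdeal K, ∀ b ∈ maximalIdeal K, a * b = 0 ∨ a * b = 4 := by
            intro a ha b hb
            have h1 : a * b ∈ Ideal.span {(4 : K)} := by
              refine hs2 _ (fun w hw => hc1 _ ha _ hb _ hw) _ ?_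
              intro h
              rw [Ideal.span_singleton_eq_bot] at h
              exact h4 h
            rw [Ideal.mem_span_singleton] at h1
            obtain ⟨x, hx⟩ := h1
            rcases hK01 x with h | h
            · left
              have := hc1 2 h2J 2 h2J x h
              rw [hx]
              linear_combination this
            · right
              have := hc1 2 h2J 2 h2J (x - 1) h
              rw [hx]
              linear_combination this
          -- the value of the form
          have hd'1 : d' - 1 ∈ maximalIdeal K := (hK01 d').resolve_left hd'J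
          have hd₁1 : d₁ - 1 ∈ maximalIdeal K := by
            have e : d₁ - 1 = (d₁ + d') - (d' - 1) - 2 := by ring
            rw [e]
            exact (maximalIdeal K).sub_mem ((maximalIdeal K).sub_mem hdd1 hd'1) h2J
          have hv : 2 * y + y * y ≠ 0 := by
            intro h
            apply hv₀
            have e1 := hc1 2 h2J _ hd₁1 y hyJ
            have e2 := hc1 _ hd'1 y hyJ y hyJ
            rw [hdd]
            linear_combination e1 + e2 + h
          obtain ⟨Y, hYJ, hY1, hY2, hYy⟩ : ∃ Y : K, Y ∈ maximalIdeal K ∧ 2 * Y = 0 ∧ Y ^ 2 = 4 ∧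
              ∃ c : K, y = Y + 2 * c := by
            rcases hsq 2 h2J y hyJ with h | h <;> rcases hsq y hyJ y hyJ with h' | h'
            · exact absurd (by rw [h, h']; ring) hv
            · exact ⟨y, hyJ, h, by rw [pow_two]; exact h', 0, by ring⟩
            · refine ⟨y + 2, (maximalIdeal K).add_mem hyJ h2J, ?_, ?_, -1, by ring⟩
              · linear_combination h + h8
              · linear_combination h' + 2 * h + h8
            · exfalso
              apply hv
              rw [h, h']
              linear_combination h8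
          have hsmall : ∀ u ∈ maximalIdeal K, ∀ a : K, ∃ m n : ℕ, a * u = (m : K) * u + 4 * (n : K) := by
            intro u hu a
            rcases hK01 a with h | h
            · rcases hsq a h u hu with h' | h'
              · exact ⟨0, 0, by rw [h']; push_cast; ring⟩
              · exact ⟨0, 1, by rw [h']; push_cast; ring⟩
            · rcases hsq _ h u hu with h' | h'
              · exact ⟨1, 0, by push_cast; linear_combination h'⟩
              · exact ⟨1, 1, by push_cast; linear_combination h'⟩
          have hJall : ∀ x ∈ maximalIdeal K, ∃ a b : ℕ, x = (a : K) + (b : K) * Y := by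
            intro x hx
            obtain ⟨a, b, rfl⟩ := hJ x hx
            obtain ⟨c, hc⟩ := hYy
            obtain ⟨m, n, h1⟩ := hsmall 2 h2J (a + b * c)
            obtain ⟨m', n', h3⟩ := hsmall Y hYJ b
            refine ⟨2 * m + 4 * n + 4 * n', m', ?_⟩
            rw [hc]
            push_cast
            linear_combination h1 + h3
          have hall : ∀ x : K, ∃ a b : ℕ, x = (a : K) + (b : K) * Y := by
            intro x
            rcases hK01 x with h | h
            · exact hJall x h
            · obtain ⟨a, b, hab⟩ := hJall _ h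
              refine ⟨a + 1, b, ?_⟩
              push_cast
              linear_combination hab
          exact Or.inl ⟨RedC_card Y h8 h4 hY1 hY2 hall, h4, Y, hY1, hY2⟩
    · -- case 3
      push Not at hc2
      have hdy : d * y ≠ 0 := by
        intro h
        apply hv₀
        rw [h, hc2 y hyJ y hyJ]
        ring
      have hyne : y ≠ 0 := by
        intro h
        apply hdy
        rw [h, mul_zero]
      by_cases h20 : (2 : K) = 0
      · refine Or.inr ⟨1, (WK K).one_mem, 1, ?_, ?_, ?_⟩
        · exact ⟨fun _ => y, fun _ => hyJ, by rw [RedC_frm10]; exact hyne⟩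
        · intro I hI z hz
          rw [RedC_frm10]
          exact hs2 _ (fun w hw => hc2 _ (hz 0) _ hw) I hI
        · intro S hWS hSt z hz
          rw [RedC_frm10]
          obtain ⟨s, r, hr, e1⟩ := hS S hWS hSt _ (hz 0).1 (hz 0).2
          have hr0 : r = 0 := by
            refine RedC_sq (maximalIdeal K) (fun r => r = 0) hc2 ?_ r hr
            intro u v hu hv
            rw [hu, hv, add_zero]
          rw [e1, hr0, h20]
          ring
      · have hy2 : y ∈ Ideal.span {(2 : K)} := by
          refine hs2 _ (fun w hw => hc2 _ hyJ _ hw) _ ?_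
          intro h
          rw [Ideal.span_singleton_eq_bot] at h
          exact h20 h
        rw [Ideal.mem_span_singleton] at hy2
        obtain ⟨c, hc⟩ := hy2
        have hJ2 : ∀ x ∈ maximalIdeal K, ∃ a : K, x = 2 * a := by
          intro x hx
          obtain ⟨a, b, rfl⟩ := hJ x hx
          exact ⟨a + b * c, by rw [hc]; ring⟩
        have h40 : (4 : K) = 0 := by
          have := hc2 2 h2J 2 h2J
          linear_combination this
        have hWt : WK K = ⊤ := by
          rw [eq_top_iff]
          intro x _
          obtain ⟨w, hw, hxw⟩ := hw1 x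
          obtain ⟨a, ha⟩ := hJ2 _ hxw
          obtain ⟨w', hw', haw⟩ := hw1 a
          obtain ⟨b, hb⟩ := hJ2 _ haw
          have h22 : (2 : K) ∈ WK K := by
            have := natCast_mem (WK K) 2
            push_cast at this
            exact this
          have e : x = w + 2 * w' := by
            linear_combination ha + 2 * hb + b * h40
          rw [e]
          exact (WK K).add_mem hw ((WK K).mul_mem h22 hw')
        refine Or.inr ⟨2, by rw [hWt]; exact Subring.mem_top _, 0, ?_, ?_, ?_⟩
        · exact ⟨fun _ => 0, fun _ => (maximalIdeal K).zero_mem, by rw [RedC_frm0]; exact h20⟩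
        · intro I hI z _
          rw [RedC_frm0]
          exact hs2 _ (fun w hw => hc2 _ h2J _ hw) I hI
        · intro S hWS hSt
          exact absurd (top_le_iff.1 (hWt ▸ hWS)) hSt

end Pool.Agent.CRR
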