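import Pool.Agent.CRR.St2

/-!
Campaign CRR, part 2, module RedN (N28): the nilpotent case, reduction to `d' = 0`.
-/

namespace Pool.Agent.CRR

open Finset IsLocalRing

private theorem rn_two (h2 : St2_two) (R : Type) [NonUnitalCommRing R] (e : ℕ)
    (hc : ∀ x : R, (2 ^ e : ℕ) • x = 0) (h3 : ∀ x : R, x * x * x = 0) :
    (∀ x y z : R, (2 : ℕ) • (x * y * z) = 0) ∧ (∀ x y z : R, x * x * y * z = 0) := by
  let φ := Unitization.inrNonUnitalAlgHom ℤ R
  have hinj : Function.Injective φ := Unitization.inr_injective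
  let J : Ideal (Unitization ℤ R) := RingHom.ker (Unitization.fstHom ℤ R)
  have hmem : ∀ r : R, φ r ∈ J := by
    intro r
    rw [RingHom.mem_ker]
    exact Unitization.fst_inr ℤ r
  have hJ : ∀ x ∈ J, ∃ r : R, x = φ r := by
    intro x hx
    rw [RingHom.mem_ker] at hx
    refine ⟨x.snd, Unitization.ext ?_ ?_⟩
    · exact hx.trans (Unitization.fst_inr ℤ x.snd).symm
    · exact (Unitization.snd_inr ℤ x.snd).symm
  have hC : Cube (K := Unitization ℤ R) J := by
    intro x hx
    obtain ⟨r, rfl⟩ := hJ x hx
    have h : φ r ^ 3 = φ (r * r * r) := by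
      rw [map_mul, map_mul]
      ring
    rw [h, h3, map_zero]
  have hP : ∀ x ∈ J, (2 : Unitization ℤ R) ^ e * x = 0 := by
    intro x hx
    obtain ⟨r, rfl⟩ := hJ x hx
    have h : (2 : Unitization ℤ R) ^ e * φ r = φ ((2 ^ e : ℕ) • r) := by
      have h0 : ((2 ^ e : ℕ) : Unitization ℤ R) = 2 ^ e := by norm_num
      rw [map_nsmul, ← h0]
      exact (nsmul_eq_mul _ _).symm
    rw [h, hc, map_zero]
  obtain ⟨h4, -, h5⟩ := h2 (Unitization ℤ R) J e hC hP
  refine ⟨fun x y z => ?_, fun x y z => ?_⟩
  · have h := h4 _ (hmem x) _ (hmem y) _ (hmem z)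
    apply hinj
    rw [map_zero, ← h, map_nsmul, map_mul, map_mul, nsmul_eq_mul]
    push_cast
    ring
  · have h := h5 _ (hmem x) _ (hmem y) _ (hmem z)
    apply hinj
    rw [map_zero, ← h, map_mul, map_mul, map_mul]
    ring

section

variable {R : Type} [NonUnitalCommRing R]

private theorem rn_prd_congr (z z' : ℕ → R) (n : ℕ) (h : ∀ i, i ≤ n → z i = z' i) :
    prd z n = prd z' n := by
  induction n with
  | zero => exact h 0 le_rfl
  | succ n ih => rw [prd, prd, ih (fun i hi => h i (by omega)), h (n + 1) le_rfl]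

private theorem rn_prd_mul (z : ℕ → R) (n : ℕ) (s : R) : ∃ z', prd z n * s = prd z' (n + 1) := by
  refine ⟨fun i => if i = n + 1 then s else z i, ?_⟩
  rw [prd, rn_prd_congr z (fun i => if i = n + 1 then s else z i) n fun i hi => by
    rw [if_neg (by omega)]]
  simp

private theorem rn_ind {Y : Set R} (hY : NonUnitalSubring.closure Y = ⊤) (P : R → Prop)
    (h0 : P 0) (ha : ∀ x y, P x → P y → P (x + y)) (hn : ∀ x, P x → P (-x))
    (hm : ∀ s t, P (s * t)) (hy : ∀ y ∈ Y, P y) (x : R) : P x := by
  let B : NonUnitalSubring R :=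
    { carrier := {x | P x}
      zero_mem' := h0
      add_mem' := fun {a b} h h' => ha a b h h'
      neg_mem' := fun {a} h => hn a h
      mul_mem' := fun {a b} _ _ => hm a b }
  have h : NonUnitalSubring.closure Y ≤ B := NonUnitalSubring.closure_le.2 hy
  rw [hY] at h
  exact h (NonUnitalSubring.mem_top x)

private theorem rn_rad (P : R → Prop)
    (h0 : P 0) (ha : ∀ x y, P x → P y → P (x + y)) (hn : ∀ x, P x → P (-x))
    (hm : ∀ s t, P (s * t)) (h2 : ∀ a, P (2 • a)) (x : R)
    (hx : x ∈ AddSubgroup.closure ({x : R | ∃ a b : R, x = a * b} ∪ {x | ∃ a : R, x = 2 • a})) :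
    P x := by
  induction hx using AddSubgroup.closure_induction with
  | mem x hx =>
    rcases hx with ⟨a, b, rfl⟩ | ⟨a, rfl⟩
    · exact hm a b
    · exact h2 a
  | zero => exact h0
  | add x y _ _ h h' => exact ha x y h h'
  | neg x _ h => exact hn x h

private theorem rn_four {Y : Set R} (hY : NonUnitalSubring.closure Y = ⊤)
    (hY3 : ∀ a ∈ Y, ∀ b ∈ Y, ∀ c ∈ Y, a = b ∨ a = c ∨ b = c)
    (hc : ∃ c, ∀ x : ℕ → R, prd x c = 0) (h3 : ∀ x y z : R, x * x * y * z = 0) :
    ∀ x a b c : R, x * a * b * c = 0 := by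
  obtain ⟨N, hN⟩ := hc
  have key : ∀ m n : ℕ, n + m = N → ∀ (z : ℕ → R) (a b c : R), prd z n * a * b * c = 0 := by
    intro m
    induction m with
    | zero =>
      intro n hn z a b c
      have : n = N := by omega
      subst this
      rw [hN, zero_mul, zero_mul, zero_mul]
    | succ m ih =>
      intro n hn z
      have ih' := ih (n + 1) (by omega)
      have hx : ∀ s a b c : R, prd z n * s * a * b * c = 0 := by
        intro s a b c
        obtain ⟨z', hz'⟩ := rn_prd_mul z n s
        rw [hz']
        exact ih' z' a b c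
      generalize prd z n = x at hx
      have h0 : ∀ y ∈ Y, ∀ y' ∈ Y, ∀ y'' ∈ Y, x * y * y' * y'' = 0 := by
        intro y hy y' hy' y'' hy''
        rcases hY3 y hy y' hy' y'' hy'' with rfl | rfl | rfl
        · have h := h3 y x y''
          rw [← h]
          ac_rfl
        · have h := h3 y x y'
          rw [← h]
          ac_rfl
        · have h := h3 y' x y
          rw [← h]
          ac_rfl
      refine rn_ind hY (fun a => ∀ b c, x * a * b * c = 0) ?_ ?_ ?_ ?_ ?_
      · intro b c
        simp
      · intro a a' h h' b c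
        rw [mul_add, add_mul, add_mul, h, h', add_zero]
      · intro a h b c
        rw [mul_neg, neg_mul, neg_mul, h, neg_zero]
      · intro s t b c
        have h := hx s t b c
        rw [← h]
        ac_rfl
      · intro y hy
        refine rn_ind hY (fun b => ∀ c, x * y * b * c = 0) ?_ ?_ ?_ ?_ ?_
        · intro c
          simp
        · intro a a' h h' c
          rw [mul_add, add_mul, h, h', add_zero]
        · intro a h c
          rw [mul_neg, neg_mul, h, neg_zero]
        · intro s t c
          have h := hx s t y c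
          rw [← h]
          ac_rfl
        · intro y' hy'
          refine rn_ind hY (fun c => x * y * y' * c = 0) ?_ ?_ ?_ ?_ ?_
          · simp
          · intro a a' h h'
            rw [mul_add, h, h', add_zero]
          · intro a h
            rw [mul_neg, h, neg_zero]
          · intro s t
            have h := hx s t y y'
            rw [← h]
            ac_rfl
          · exact fun y'' hy'' => h0 y hy y' hy' y'' hy''
  intro x a b c
  exact key N 0 (by omega) (fun _ => x) a b c

private theorem rn_three {y : R} (hY : NonUnitalSubring.closure {y} = ⊤)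
    (hc : ∃ c, ∀ x : ℕ → R, prd x c = 0) (h3 : ∀ x y z : R, x * x * y * z = 0)
    (hy3 : y * y * y = 0) :
    ∀ x a b : R, x * a * b = 0 := by
  have hxy : ∀ x, x * y * y = 0 := by
    refine rn_ind hY (fun x => x * y * y = 0) ?_ ?_ ?_ ?_ ?_
    · simp
    · intro a a' h h'
      rw [add_mul, add_mul, h, h', add_zero]
    · intro a h
      rw [neg_mul, neg_mul, h, neg_zero]
    · intro s t
      have h := h3 y s t
      rw [← h]
      ac_rfl
    · intro z hz
      rw [Set.mem_singleton_iff] at hz
      rw [hz]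
      exact hy3
  obtain ⟨N, hN⟩ := hc
  have key : ∀ m n : ℕ, n + m = N → ∀ (z : ℕ → R) (a b : R), prd z n * a * b = 0 := by
    intro m
    induction m with
    | zero =>
      intro n hn z a b
      have : n = N := by omega
      subst this
      rw [hN, zero_mul, zero_mul]
    | succ m ih =>
      intro n hn z
      have ih' := ih (n + 1) (by omega)
      have hx : ∀ s a b : R, prd z n * s * a * b = 0 := by
        intro s a b
        obtain ⟨z', hz'⟩ := rn_prd_mul z n s
        rw [hz']
        exact ih' z' a b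
      generalize prd z n = x at hx
      refine rn_ind hY (fun a => ∀ b, x * a * b = 0) ?_ ?_ ?_ ?_ ?_
      · intro b
        simp
      · intro a a' h h' b
        rw [mul_add, add_mul, h, h', add_zero]
      · intro a h b
        rw [mul_neg, neg_mul, h, neg_zero]
      · intro s t b
        have h := hx s t b
        rw [← h]
        ac_rfl
      · intro y' hy'
        rw [Set.mem_singleton_iff] at hy'
        rw [hy']
        refine rn_ind hY (fun b => x * y * b = 0) ?_ ?_ ?_ ?_ ?_
        · simp
        · intro a a' h h'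
          rw [mul_add, h, h', add_zero]
        · intro a h
          rw [mul_neg, h, neg_zero]
        · intro s t
          have h := hx s t y
          rw [← h]
          ac_rfl
        · intro z hz
          rw [Set.mem_singleton_iff] at hz
          rw [hz]
          exact hxy x
  intro x a b
  exact key N 0 (by omega) (fun _ => x) a b

private theorem rn_eq {d d' d₁ d₁' : ℤ} {k : ℕ}
    (h : ∀ z : ℕ → R, FrmN d d' k z = FrmN d₁ d₁' k z) (hD : DetN R d d' k) :
    DetN R d₁ d₁' k := by
  refine ⟨?_, ?_, ?_⟩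
  · obtain ⟨z, hz⟩ := hD.ne
    exact ⟨z, by rwa [← h]⟩
  · intro I hI hI' z
    rw [← h]
    exact hD.lst I hI hI' z
  · intro S hS z hz
    rw [← h]
    exact hD.sub S hS z hz

private theorem rn_max (x : R) (e : ℕ) (hx : x ≠ 0) (he : (2 ^ e : ℕ) • x = 0) :
    ∃ a : ℕ, (2 ^ a : ℕ) • x ≠ 0 ∧ (2 ^ (a + 1) : ℕ) • x = 0 := by
  classical
  have hex : ∃ n, (2 ^ n : ℕ) • x = 0 := ⟨e, he⟩
  obtain ⟨m, hm⟩ : ∃ m, Nat.find hex = m + 1 := by
    refine Nat.exists_eq_succ_of_ne_zero fun h => ?_
    have h1 := Nat.find_spec hex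
    rw [h, pow_zero, one_smul] at h1
    exact hx h1
  refine ⟨m, ?_, ?_⟩
  · exact Nat.find_min hex (by omega)
  · have h1 := Nat.find_spec hex
    rwa [hm] at h1

end

theorem redN (hsocN : St2_socN) (hdimN : St2_dimN) (h2 : St2_two) : St2_redN := by
  intro R _ _ e he hc h3 d d' k hD
  have hce : ∀ x : R, (2 ^ e : ℕ) • x = 0 := by
    intro x
    rw [← he]
    exact card_nsmul_eq_zero'
  obtain ⟨N, hN⟩ := hc
  obtain ⟨hF1, hF3⟩ := rn_two h2 R e hce h3
  have hval : ∀ z : ℕ → R, ∀ r, r * FrmN d d' k z = 0 := by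
    intro z r
    by_cases hz : FrmN d d' k z = 0
    · rw [hz, mul_zero]
    · exact (hsocN R 2 e N _ Nat.prime_two hce hN hz fun I hI hI' => hD.lst I hI hI' z).1 r
  obtain ⟨z₀, hz₀⟩ := hD.ne
  obtain ⟨-, -, hsoc⟩ := hsocN R 2 e N _ Nat.prime_two hce hN hz₀
    fun I hI hI' => hD.lst I hI hI' z₀
  have h2odd : ∀ (m : ℤ) (x : R), Odd m → m • x = 0 → (2 : ℕ) • x = 0 → x = 0 := by
    rintro m x ⟨j, rfl⟩ h h'
    have h1 : (2 * j + 1) • x = j • ((2 : ℕ) • x) + x := by
      rw [add_smul, one_smul, ← natCast_zsmul, smul_smul]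
      congr 2
      push_cast
      ring
    rw [h1, h', smul_zero, zero_add] at h
    exact h
  match k, hD, hval, z₀, hz₀ with
  | k + 2, hD, hval, z₀, hz₀ =>
    refine ⟨d, k + 2, rn_eq (fun z => ?_) hD⟩
    have h1 : ∀ k, z 0 * prd z (k + 2) = 0 := by
      intro k
      induction k with
      | zero =>
        have h := hF3 (z 0) (z 1) (z 2)
        rw [← h]
        change z 0 * (z 0 * z 1 * z 2) = _
        ac_rfl
      | succ k ih =>
        change z 0 * (prd z (k + 2) * z (k + 3)) = 0
        rw [← mul_assoc, ih, zero_mul]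
    unfold FrmN
    rw [h1, smul_zero, smul_zero]
  | 1, hD, hval, z₀, hz₀ =>
    have hfrm : ∀ z : ℕ → R, FrmN d d' 1 z = d • (z 0 * z 1) + d' • (z 0 * (z 0 * z 1)) :=
      fun z => rfl
    by_cases hcase : ∀ x y : R, d' • (x * (x * y)) = 0
    · refine ⟨d, 1, rn_eq (fun z => ?_) hD⟩
      rw [hfrm, hcase, add_zero]
      unfold FrmN
      rw [zero_smul, add_zero]
      rfl
    push Not at hcase
    obtain ⟨x₀, y₀, hxy⟩ := hcase
    have h2xy : ∀ x y : R, (2 : ℕ) • (x * (x * y)) = 0 := by
      intro x y
      rw [← mul_assoc]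
      exact hF1 x x y
    have hxy' : x₀ * x₀ * y₀ ≠ 0 := by
      intro h
      apply hxy
      rw [← mul_assoc, h, smul_zero]
    have hd : ¬ Odd d := by
      intro hodd
      apply hxy'
      have h4 := hval (fun i => if i = 0 then x₀ else x₀) y₀
      rw [hfrm] at h4
      simp only [ite_self] at h4
      rw [mul_add, mul_smul_comm, mul_smul_comm] at h4
      have h5 : y₀ * (x₀ * (x₀ * x₀)) = 0 := by
        rw [← mul_assoc x₀ x₀ x₀, h3, mul_zero]
      rw [h5, smul_zero, add_zero] at h4
      have h6 := h2odd d _ hodd h4 (by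
        have h := hF1 x₀ x₀ y₀
        rw [← h]
        congr 1
        ac_rfl)
      rw [← h6]
      ac_rfl
    set y₁ := z₀ 0 with hy₁
    set y₂ := z₀ 1 with hy₂
    have hY : NonUnitalSubring.closure (Set.range ![y₁, y₂]) = ⊤ := by
      by_contra hne
      apply hz₀
      have h := hD.sub _ hne (fun i => if i = 0 then y₁ else y₂) (fun i => by
        apply NonUnitalSubring.subset_closure
        by_cases hi : i = 0
        · simp only [hi, if_true]
          exact ⟨0, rfl⟩
        · simp only [hi, if_false]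
          exact ⟨1, rfl⟩)
      rw [hfrm] at h ⊢
      simpa using h
    have h4 : ∀ x a b c : R, x * a * b * c = 0 := by
      refine rn_four hY ?_ ⟨N, hN⟩ hF3
      rintro _ ⟨i, rfl⟩ _ ⟨j, rfl⟩ _ ⟨l, rfl⟩
      fin_cases i <;> fin_cases j <;> fin_cases l <;> simp
    have hf2 : ∀ z : ℕ → R, FrmN 1 0 2 z = z 0 * z 1 * z 2 := by
      intro z
      unfold FrmN
      rw [one_smul, zero_smul, add_zero]
      rfl
    refine ⟨1, 2, ⟨?_, ?_, ?_⟩⟩
    · refine ⟨fun i => if i = 2 then y₀ else x₀, ?_⟩
      rw [hf2]
      simpa using hxy'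
    · intro I hI hI' z
      rw [hf2]
      refine hsoc _ (fun r => ?_) (hF1 _ _ _) I hI hI'
      have h := h4 r (z 0) (z 1) (z 2)
      rw [← h]
      ac_rfl
    · intro S hS z hz
      obtain ⟨u, -, hu⟩ := hdimN R 2 e 2 ![y₁, y₂] S Nat.prime_two hce ⟨N, hN⟩ hY hS
      rw [hf2]
      have hrad : ∀ r ∈ AddSubgroup.closure
          ({x : R | ∃ a b : R, x = a * b} ∪ {x | ∃ a : R, x = 2 • a}),
          ∀ x y : R, r * x * y = 0 := by
        intro r hr
        refine rn_rad (fun r => ∀ x y : R, r * x * y = 0) ?_ ?_ ?_ ?_ ?_ r hr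
        · intro x y
          simp
        · intro a b h h' x y
          rw [add_mul, add_mul, h, h', add_zero]
        · intro a h x y
          rw [neg_mul, neg_mul, h, neg_zero]
        · intro s t x y
          exact h4 s t x y
        · intro a x y
          rw [smul_mul_assoc, smul_mul_assoc]
          exact hF1 a x y
      obtain ⟨c₀, h₀⟩ := hu _ (hz 0)
      obtain ⟨c₁, h₁⟩ := hu _ (hz 1)
      obtain ⟨c₂, h₂⟩ := hu _ (hz 2)
      have e₀ : z 0 = c₀ 0 • u 0 + (z 0 - ∑ i, c₀ i • u i) := by
        simp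
      have e₁ : z 1 = c₁ 0 • u 0 + (z 1 - ∑ i, c₁ i • u i) := by
        simp
      have e₂ : z 2 = c₂ 0 • u 0 + (z 2 - ∑ i, c₂ i • u i) := by
        simp
      generalize z 0 - ∑ i, c₀ i • u i = r₀ at h₀ e₀
      generalize z 1 - ∑ i, c₁ i • u i = r₁ at h₁ e₁
      generalize z 2 - ∑ i, c₂ i • u i = r₂ at h₂ e₂
      have hr₀ := hrad r₀ h₀
      have hr₁ := hrad r₁ h₁
      have hr₂ := hrad r₂ h₂
      have g1 : z 0 * z 1 * z 2 = c₀ 0 • (u 0 * z 1 * z 2) := by
        conv_lhs => rw [e₀]
        rw [add_mul, add_mul, hr₀, add_zero, smul_mul_assoc, smul_mul_assoc]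
      have g2 : u 0 * z 1 * z 2 = c₁ 0 • (u 0 * u 0 * z 2) := by
        conv_lhs => rw [e₁]
        have h := hr₁ (u 0) (z 2)
        rw [mul_add, add_mul, mul_comm (u 0) r₁, h, add_zero, mul_smul_comm, smul_mul_assoc]
      have g3 : u 0 * u 0 * z 2 = 0 := by
        conv_lhs => rw [e₂]
        have h := hr₂ (u 0) (u 0)
        rw [mul_add, mul_smul_comm, h3, smul_zero, zero_add, ← h]
        ac_rfl
      rw [g1, g2, g3, smul_zero, smul_zero]
  | 0, hD, hval, z₀, hz₀ =>
    have hfrm : ∀ z : ℕ → R, FrmN d d' 0 z = d • z 0 + d' • (z 0 * z 0) := fun z => rfl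
    set y := z₀ 0 with hy
    have hY : NonUnitalSubring.closure ({y} : Set R) = ⊤ := by
      by_contra hne
      apply hz₀
      have h := hD.sub _ hne (fun _ => y) (fun i => by
        apply NonUnitalSubring.subset_closure
        exact Set.mem_singleton y)
      rw [hfrm] at h ⊢
      exact h
    have hY' : NonUnitalSubring.closure (Set.range ![y]) = ⊤ := by
      rw [← hY]
      congr 1
      simp
    have h4 := rn_three hY ⟨N, hN⟩ hF3 (h3 y)
    have hsub : ∀ S : NonUnitalSubring R, S ≠ ⊤ → ∀ z ∈ S, z ∈ AddSubgroup.closure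
          ({x : R | ∃ a b : R, x = a * b} ∪ {x | ∃ a : R, x = 2 • a}) := by
      intro S hS z hz
      obtain ⟨u, -, hu⟩ := hdimN R 2 e 1 ![y] S Nat.prime_two hce ⟨N, hN⟩ hY' hS
      obtain ⟨c, hc⟩ := hu z hz
      simpa using hc
    by_cases hyy : y * y = 0
    · have hst : ∀ s t : R, s * t = 0 := by
        refine rn_ind hY (fun s => ∀ t, s * t = 0) ?_ ?_ ?_ ?_ ?_
        · intro t
          simp
        · intro a b h h' t
          rw [add_mul, h, h', add_zero]
        · intro a h t
          rw [neg_mul, h, neg_zero]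
        · intro s t x
          exact h4 s t x
        · intro w hw
          rw [Set.mem_singleton_iff] at hw
          rw [hw]
          refine rn_ind hY (fun t => y * t = 0) ?_ ?_ ?_ ?_ ?_
          · simp
          · intro a b h h'
            rw [mul_add, h, h', add_zero]
          · intro a h
            rw [mul_neg, h, neg_zero]
          · intro s t
            rw [← mul_assoc]
            exact h4 y s t
          · intro w hw
            rw [Set.mem_singleton_iff] at hw
            rw [hw, hyy]
      have hy0 : y ≠ 0 := by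
        intro h0
        apply hz₀
        rw [hfrm, ← hy, h0]
        simp
      obtain ⟨a, ha, ha'⟩ := rn_max y e hy0 (hce y)
      have hall : ∀ s : R, (2 ^ (a + 1) : ℕ) • s = 0 := by
        refine rn_ind hY (fun s => (2 ^ (a + 1) : ℕ) • s = 0) ?_ ?_ ?_ ?_ ?_
        · simp
        · intro s t h h'
          rw [smul_add, h, h', add_zero]
        · intro s h
          rw [smul_neg, h, neg_zero]
        · intro s t
          rw [hst, smul_zero]
        · intro w hw
          rw [Set.mem_singleton_iff] at hw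
          rw [hw]
          exact ha'
      have hf : ∀ z : ℕ → R, FrmN ((2 ^ a : ℕ) : ℤ) 0 0 z = (2 ^ a : ℕ) • z 0 := by
        intro z
        unfold FrmN
        rw [zero_smul, add_zero, natCast_zsmul]
        rfl
      refine ⟨((2 ^ a : ℕ) : ℤ), 0, ⟨⟨fun _ => y, by rwa [hf]⟩, ?_, ?_⟩⟩
      · intro I hI hI' z
        rw [hf]
        refine hsoc _ (fun r => hst _ _) ?_ I hI hI'
        rw [smul_smul, ← pow_succ']
        exact hall _
      · intro S hS z hz
        rw [hf]
        refine rn_rad (fun r => (2 ^ a : ℕ) • r = 0) ?_ ?_ ?_ ?_ ?_ _ (hsub S hS _ (hz 0))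
        · simp
        · intro s t h h'
          rw [smul_add, h, h', add_zero]
        · intro s h
          rw [smul_neg, h, neg_zero]
        · intro s t
          rw [hst, smul_zero]
        · intro s
          rw [smul_smul, ← pow_succ]
          exact hall s
    · obtain ⟨a, ha, ha'⟩ := rn_max (y * y) e hyy (hce _)
      have hall : ∀ s t : R, (2 ^ (a + 1) : ℕ) • (s * t) = 0 := by
        refine rn_ind hY (fun s => ∀ t : R, (2 ^ (a + 1) : ℕ) • (s * t) = 0) ?_ ?_ ?_ ?_ ?_
        · intro t
          simp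
        · intro s s' h h' t
          rw [add_mul, smul_add, h, h', add_zero]
        · intro s h t
          rw [neg_mul, smul_neg, h, neg_zero]
        · intro s s' t
          rw [h4, smul_zero]
        · intro w hw
          rw [Set.mem_singleton_iff] at hw
          rw [hw]
          refine rn_ind hY (fun t : R => (2 ^ (a + 1) : ℕ) • (y * t) = 0) ?_ ?_ ?_ ?_ ?_
          · simp
          · intro s s' h h'
            rw [mul_add, smul_add, h, h', add_zero]
          · intro s h
            rw [mul_neg, smul_neg, h, neg_zero]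
          · intro s s'
            rw [← mul_assoc, h4, smul_zero]
          · intro w hw
            rw [Set.mem_singleton_iff] at hw
            rw [hw]
            exact ha'
      have hf : ∀ z : ℕ → R, FrmN ((2 ^ a : ℕ) : ℤ) 0 1 z = (2 ^ a : ℕ) • (z 0 * z 1) := by
        intro z
        unfold FrmN
        rw [zero_smul, add_zero, natCast_zsmul]
        rfl
      refine ⟨((2 ^ a : ℕ) : ℤ), 1, ⟨⟨fun _ => y, by rwa [hf]⟩, ?_, ?_⟩⟩
      · intro I hI hI' z
        rw [hf]
        refine hsoc _ (fun r => ?_) ?_ I hI hI'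
        · rw [mul_smul_comm, ← mul_assoc, h4, smul_zero]
        · rw [smul_smul, ← pow_succ']
          exact hall _ _
      · intro S hS z hz
        rw [hf]
        refine rn_rad (fun r => ∀ t : R, (2 ^ a : ℕ) • (r * t) = 0) ?_ ?_ ?_ ?_ ?_ _
          (hsub S hS _ (hz 0)) (z 1)
        · intro t
          simp
        · intro s s' h h' t
          rw [add_mul, smul_add, h, h', add_zero]
        · intro s h t
          rw [neg_mul, smul_neg, h, neg_zero]
        · intro s s' t
          rw [h4, smul_zero]
        · intro s t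
          rw [smul_mul_assoc, smul_smul, ← pow_succ]
          exact hall s t

end Pool.Agent.CRR
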