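import Pool.Agent.CRR.St2

/-!
# CRR, part 2: the socle of a local ring with a least nonzero ideal (N9)
-/

namespace Pool.Agent.CRR

open Finset IsLocalRing

/-- The module N9. -/
theorem soc : St2_soc := by
  intro K _ _ v hv hmin
  constructor
  · intro z hz
    by_contra hne
    have h1 : v ∈ Ideal.span {v * z} := hmin _ (by
      rw [Ne, Ideal.span_singleton_eq_bot]
      exact hne)
    obtain ⟨r, hr⟩ := Ideal.mem_span_singleton'.1 h1
    have h2 : v * (1 - r * z) = 0 := by
      rw [mul_sub, mul_one]
      have h3 : v * (r * z) = r * (v * z) := by ring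
      rw [h3, hr, sub_self]
    have h3 : IsUnit (1 - r * z) := by
      by_contra hu
      have h4 : 1 - r * z ∈ maximalIdeal K := (mem_maximalIdeal _).2 hu
      have h5 : (1 : K) ∈ maximalIdeal K := by
        have h6 := (maximalIdeal K).add_mem h4 ((maximalIdeal K).mul_mem_left r hz)
        rwa [sub_add_cancel] at h6
      exact (maximalIdeal.isMaximal K).ne_top ((Ideal.eq_top_iff_one _).2 h5)
    exact hv ((h3.mul_left_eq_zero).1 h2)
  · intro x hx I hI
    by_cases hx0 : x = 0
    · rw [hx0]
      exact I.zero_mem
    · have h1 : v ∈ Ideal.span {x} := hmin _ (by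
        rw [Ne, Ideal.span_singleton_eq_bot]
        exact hx0)
      obtain ⟨r, hr⟩ := Ideal.mem_span_singleton'.1 h1
      have h2 : IsUnit r := by
        by_contra hu
        have h4 : r ∈ maximalIdeal K := (mem_maximalIdeal _).2 hu
        have h5 := hx r h4
        rw [mul_comm] at h5
        exact hv (hr.symm.trans h5)
      obtain ⟨u, hu⟩ := h2
      have h3 : x = (↑u⁻¹ : K) * v := by
        rw [← hr, ← hu, ← mul_assoc, Units.inv_mul, one_mul]
      rw [h3]
      exact I.mul_mem_left _ (hmin I hI)

end Pool.Agent.CRR
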