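import Pool.Agent.CRR.St2

/-!
Campaign CRR, part 2, N10: the socle of a nilpotent ring with a least nonzero ideal.
-/

namespace Pool.Agent.CRR

private lemma SocN_pow {R : Type} [NonUnitalCommRing R] (t v : R) (h : v = t * v) (n : ℕ) :
    v = prd (fun _ => t) n * v := by
  induction n with
  | zero => exact h
  | succ n ih =>
    have h1 : prd (fun _ => t) (n + 1) * v = prd (fun _ => t) n * (t * v) := by
      simp only [prd]
      rw [mul_assoc]
    rw [h1, ← h]
    exact ih

private lemma SocN_zpow {R : Type} [NonUnitalCommRing R] (v : R) (m : ℤ) (p : ℕ)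
    (h : v = m • (p • v)) (n : ℕ) : v = (m ^ n) • ((p ^ n) • v) := by
  induction n with
  | zero => simp
  | succ n ih =>
    have h1 : (m ^ (n + 1)) • ((p ^ (n + 1)) • v) = (m ^ n) • ((p ^ n) • (m • (p • v))) := by
      rw [smul_comm (p ^ n) m (p • v), smul_smul (m ^ n) m, smul_smul (p ^ n) p, ← pow_succ,
        ← pow_succ]
    rw [h1, ← h]
    exact ih

/-- the ideal generated by `u` -/
private def SocN_gen {R : Type} [NonUnitalCommRing R] (u : R) : AddSubgroup R where
  carrier := {y | ∃ (m : ℤ) (s : R), y = m • u + s * u}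
  zero_mem' := ⟨0, 0, by simp⟩
  add_mem' := by
    rintro _ _ ⟨m, s, rfl⟩ ⟨m', s', rfl⟩
    refine ⟨m + m', s + s', ?_⟩
    rw [add_smul, add_mul]
    abel
  neg_mem' := by
    rintro _ ⟨m, s, rfl⟩
    refine ⟨-m, -s, ?_⟩
    rw [neg_smul, neg_mul, neg_add]

theorem socN : St2_socN := by
  intro R _ p e c v hp hpe hc hv hI
  have ha : ∀ r, r * v = 0 := by
    intro r
    by_contra hu
    have h1 : IsIdl R (SocN_gen (r * v)) := by
      rintro r' _ ⟨m, s, rfl⟩
      refine ⟨0, m • r' + r' * s, ?_⟩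
      rw [mul_add, zero_smul, zero_add, add_mul, mul_assoc r' s, smul_mul_assoc, mul_smul_comm]
    have h2 : SocN_gen (r * v) ≠ ⊥ := by
      intro h
      have h3 : r * v ∈ SocN_gen (r * v) := ⟨1, 0, by simp⟩
      rw [h, AddSubgroup.mem_bot] at h3
      exact hu h3
    obtain ⟨m, s, h3⟩ := hI _ h1 h2
    have h4 : v = (m • r + s * r) * v := by
      rw [add_mul, smul_mul_assoc, mul_assoc s r v]
      exact h3
    have h5 := SocN_pow _ v h4 c
    rw [hc, zero_mul] at h5
    exact hv h5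
  have hz : ∀ x : R, (∀ r, r * x = 0) → x ≠ 0 → ∃ m : ℤ, v = m • x := by
    intro x hx hx0
    have h1 : IsIdl R (AddSubgroup.zmultiples x) := by
      rintro r y hy
      obtain ⟨m, rfl⟩ := AddSubgroup.mem_zmultiples_iff.1 hy
      rw [mul_smul_comm, hx r, smul_zero]
      exact AddSubgroup.zero_mem _
    have h2 : AddSubgroup.zmultiples x ≠ ⊥ := by
      intro h
      exact hx0 (AddSubgroup.zmultiples_eq_bot.1 h)
    obtain ⟨m, h3⟩ := AddSubgroup.mem_zmultiples_iff.1 (hI _ h1 h2)
    exact ⟨m, h3.symm⟩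
  have hb : p • v = 0 := by
    by_contra hpv
    obtain ⟨m, hm⟩ := hz (p • v) (fun r => by rw [mul_smul_comm, ha r, smul_zero]) hpv
    have h1 := SocN_zpow v m p hm e
    rw [hpe, smul_zero] at h1
    exact hv h1
  refine ⟨ha, hb, fun x hx hpx I hIi hI0 => ?_⟩
  by_cases hx0 : x = 0
  · rw [hx0]
    exact I.zero_mem
  obtain ⟨m, hm⟩ := hz x hx hx0
  have hpm : ¬ (p : ℤ) ∣ m := by
    rintro ⟨m', rfl⟩
    apply hv
    rw [hm, mul_comm, mul_smul, natCast_zsmul, hpx, smul_zero]
  have hcop : IsCoprime m (p : ℤ) := ((Nat.prime_iff_prime_int.1 hp).coprime_iff_not_dvd.2 hpm).symm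
  obtain ⟨a, b, hab⟩ := hcop
  have h1 : x = a • v := by
    have h2 : x = (a * m + b * p) • x := by rw [hab, one_smul]
    rw [add_smul, mul_smul, mul_smul, natCast_zsmul, hpx, smul_zero, add_zero, ← hm] at h2
    exact h2
  rw [h1]
  exact I.zsmul_mem (hI I hIi hI0) a

end Pool.Agent.CRR
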