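import Pool.Agent.CRR.Basic

/-!
Campaign CRR: module statements with paper proofs (MP_1bb14d_al, commutative critical rings of
order prime to 6 in the variety x^3 = x^n).  Each module `Pool/Agent/CRR/<File>.lean` imports
this file (and the modules named in its offer) and proves `theorem <name> : St_<name>`.
`Pool/Agent/CRR/Basic.lean` has the facts on terms, factors and critical rings
(eval_map, critical_exists, critical_of_exists, critical_subrings, critical_ideals,
IsFactor.card_lt, IsFactor.card_dvd, Critical.congr, InM.congr, pw_eq_pow ...).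
-/

namespace Pool.Agent.CRR

open Finset IsLocalRing

/-- `J^3 = 0` for the maximal ideal. -/
def CubeZero (K : Type) [CommRing K] (J : Ideal K) : Prop :=
  ∀ x ∈ J, ∀ y ∈ J, ∀ z ∈ J, x * y * z = 0

/-- M1 (Primary.lean). Proof: if `card R = a * b`, `a, b` coprime and `> 1`, take integers
`u a + v b = 1`.  `φ r = (v b) • r` and `ψ r = (u a) • r` are ring homomorphisms `R → R`
(`(v b)^2 - v b` is a multiple of `a b`), `r = φ r + ψ r`; their ranges are proper subrings
(`a` kills the range of `φ`, but `R` has an element of prime order `ℓ ∣ b`, Cauchy), and an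
identity which holds in both ranges holds in `R` (eval_map); use critical_subrings.
So `card R` is a prime power, not 1 by critical_nontrivial
(e.g. `Nat.Coprime`-induction, or p = minFac and split card = p^k * rest via ordProj). -/
def St_primary : Prop :=
  ∀ (R : Type) [NonUnitalCommRing R], Critical R →
    ∃ p k : ℕ, p.Prime ∧ 1 ≤ k ∧ Nat.card R = p ^ k

/-- M2 (NilOrUnit.lean). Proof: `N = n - 3 ≥ 1`, `x^3 = x^(3+N) = x^(3+kN)`, so
`e = x^(3N)` is idempotent.  If all these are 0 then `x^3 = x^3 x^(3N) = 0`.  Otherwise let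
`e ≠ 0` be idempotent: `φ r = e r`, `ψ r = r - e r` are ring homomorphisms `R → R` with
`r = φ r + ψ r`.  If `ψ ≠ 0` (i.e. `e` is not an identity) both ranges are proper subrings
(`e` is not in the range of `ψ`; an element `ψ r ≠ 0` is killed by `e`, elements of the range of
`φ` are fixed by `e`), contradiction as in M1 (critical_subrings). -/
def St_nil_or_unit : Prop :=
  ∀ (n : ℕ), 4 ≤ n → ∀ (R : Type) [NonUnitalCommRing R], Critical R → InM n R →
    (∀ x : R, x * x * x = 0) ∨ ∃ e : R, e ≠ 0 ∧ ∀ r : R, e * r = r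

/-- M3 (Taylor.lean). Second order Taylor formula.  Induction on the term `t`; for a product
`D = s(w) D_t + t(w) D_s`, `E i k = s(w) E_t i k + t(w) E_s i k + D_s i * D_t k`, all products
of three elements of `J` vanish. -/
def St_taylor : Prop :=
  ∀ (K : Type) [CommRing K] (J : Ideal K), CubeZero K J → ∀ (W : Subring K) (w : ℕ → K),
    (∀ i, w i ∈ W) → ∀ t : RTerm, t.eval w ∈ W ∧ ∃ N0 : ℕ, ∀ N, N0 ≤ N →
      ∃ (D : ℕ → K) (E : ℕ → ℕ → K), (∀ i, D i ∈ W) ∧ (∀ i k, E i k ∈ W) ∧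
        ∀ j : ℕ → K, (∀ i, j i ∈ J) →
          t.eval (fun i => w i + j i) = t.eval w + ∑ i ∈ range N, D i * j i
            + ∑ i ∈ range N, ∑ k ∈ range N, E i k * (j i * j k)

/-- M4 (Transfer.lean, imports Taylor). Proof: let `G j = (s - t)(w + j)
= c + ∑ D i j_i + ∑ E i k j_i j_k` for `j ∈ J` (M3, `W = ⊤`, difference of the two expansions).
`G (y 1_A) = 0` for all `y ∈ J` and finite `A`.  `A = ∅`: `c = 0`.  `A = {i}` with `y` and `2 y`:
`D i y + E i i y^2 = 0 = 2 D i y + 4 E i i y^2`, so `2 E i i y^2 = 0`, `E i i y^2 = 0`,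
`D i y = 0`.  `A = {i, k}`: `(E i k + E k i) y^2 = 0` for `y ∈ J`; polarise (`y + z`):
`2 (E i k + E k i) y z = 0`, so `(E i k + E k i) y z = 0` (also for `i = k`).  Then
`2 ∑ E i k j_i j_k = ∑ (E i k + E k i) j_i j_k = 0`. -/
def St_transfer : Prop :=
  ∀ (K : Type) [CommRing K] (J : Ideal K), CubeZero K J → (∀ x ∈ J, 2 * x = 0 → x = 0) →
    ∀ (w : ℕ → K) (s t : RTerm),
      (∀ y ∈ J, ∀ A : Finset ℕ, s.eval (fun i => w i + if i ∈ A then y else 0) =
        t.eval (fun i => w i + if i ∈ A then y else 0)) →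
      ∀ j : ℕ → K, (∀ i, j i ∈ J) →
        s.eval (fun i => w i + j i) = t.eval (fun i => w i + j i)

/-- M5 (Transfer2.lean, imports Taylor). Proof: as M4, with `W` as given: the difference has an
expansion with `c, D i, E i k ∈ W`, and `G (y 1_A) = 0` for `y = p` and `y = 2 p` (these are in
`W ∩ J`).  So `D i p = 0`, `(E i k + E k i) p^2 = 0`.  `E i k + E k i` is in `J` (else a unit and
`p^2 = 0`), so it kills `J^2`.  `D i ∈ J` (else a unit and `p = 0`), `D i = p b`, `b ∈ W`,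
`p^2 b = 0`, so `b ∈ J` (not a unit), `b = p b'`, `D i = p^2 b'` kills `J`.  Conclude as in M4. -/
def St_transfer2 : Prop :=
  ∀ (K : Type) [CommRing K] (J : Ideal K), CubeZero K J → (∀ x ∈ J, 2 * x = 0 → x = 0) →
    (∀ a : K, a ∉ J → IsUnit a) → ∀ (W : Subring K) (p : ℕ), (p : K) ∈ J → (p : K) ^ 2 ≠ 0 →
    (∀ a ∈ W, a ∈ J → ∃ b ∈ W, a = p * b) →
    ∀ (w : ℕ → K), (∀ i, w i ∈ W) → ∀ (s t : RTerm),
      (∀ v : ℕ → K, (∀ i, v i ∈ W) → s.eval v = t.eval v) →
      ∀ j : ℕ → K, (∀ i, j i ∈ J) →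
        s.eval (fun i => w i + j i) = t.eval (fun i => w i + j i)

/-- M6 (NilMul.lean). Polarise `x^3 = 0`: `6 x y z = 0`; `card R` is prime to 6. -/
def St_nil_mul3 : Prop :=
  ∀ (R : Type) [NonUnitalCommRing R] [Finite R], (Nat.card R).Coprime 6 →
    (∀ x : R, x * x * x = 0) → ∀ x y z : R, x * y * z = 0

/-- M7 (NilOneGen.lean; assume `St_transfer` as a hypothesis `(h : St_transfer)`).
Proof: for `x : R` the set `{a x + a' x^2}` is a subring `S_x`.  If the claim fails all `S_x` are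
proper; use critical_subrings with the family `S_x`: let `s, t` agree on every `S_x`.  Take
`K = Unitization ℤ R`, `J` = the ideal of elements with `fst = 0` (it is the image of `R`, so
`J^3 = 0` and 2 is injective on it), `w = 0`: by `St_transfer` (and eval_map for
`Unitization.inrNonUnitalRingHom`) `s, t` agree on `R`, since `y 1_A` has values in `S_y`. -/
def St_nil_onegen : Prop :=
  ∀ (R : Type) [NonUnitalCommRing R], Critical R → (Nat.card R).Coprime 6 →
    (∀ x y z : R, x * y * z = 0) → ∃ x : R, ∀ r : R, ∃ a a' : ℤ, r = a • x + a' • (x * x)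

/-- M8 (NilClassify.lean). Proof: `v = x^2`.  Every subgroup inside `Ann = {z : z R = 0}` is an
ideal; `v ∈ Ann`.  If `v = 0`, `R` is cyclic of order `p^c`: first type with `b = 0`.
Else let `p^β` (`β ≥ 1`) be the order of `v`, and `γ` minimal with `p^γ x ∈ ⟨v⟩`;
`card R = p^(γ+β)`; multiplying `p^γ x = c v` by `x`: `β ≤ γ`.
If `γ = β`: `p^β x = c v`, write `c = p^j w` modulo `p^β` with `w` prime to `p`, `0 ≤ j ≤ β`;
`x' = w x` satisfies `x'^2 = w^2 v`, `p^β x' = p^j x'^2` and generates; if `j = 0` then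
`x'^2 = p^β x'` and `x'` generates additively: first type with `c = 2β`, `b = β`; if `j ≥ 1`:
second type.
If `γ > β`: then `c` is prime to `p`: otherwise `c = p c'` and `z = p^(γ-1) x - c' v` has
`p z = 0`, `z ∈ Ann` (as `p^(γ-1) v = 0`), `z ∉ ⟨v⟩`, so `⟨z⟩ ∩ ⟨v⟩ = 0`, contradiction with
subdirect irreducibility.  So `v = d p^γ x`, `d` prime to `p`, and `R` is additively cyclic;
`x' = u x` with `u d = 1` modulo `p^β` gives `x'^2 = u^2 d p^γ x = p^γ x'`: first type with
`c = γ + β`, `b = β`. -/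
def St_nil_classify : Prop :=
  ∀ (R : Type) [NonUnitalCommRing R] [Finite R] [Nontrivial R] (p k : ℕ), p.Prime →
    Nat.card R = p ^ k → (∀ x y z : R, x * y * z = 0) →
    (∃ x : R, ∀ r : R, ∃ a a' : ℤ, r = a • x + a' • (x * x)) →
    (∀ I J : AddSubgroup R, (∀ r : R, ∀ i ∈ I, r * i ∈ I) → (∀ r : R, ∀ i ∈ J, r * i ∈ J) →
      I ⊓ J = ⊥ → I = ⊥ ∨ J = ⊥) → NilType R

/-- M9 (NilBwd.lean). Proof. All cubes vanish (first type: `x^3 = p^(2(c-b)) x = 0`), so
`InM n R`.  First type: the identity `p^(c-1) x = 0` (a term: `x` added `p^(c-1)` times, equal to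
`x + (-x)`) fails at the generator and holds in proper factors `F`: `card F` is a proper divisor
of `p^c` (IsFactor.card_dvd, IsFactor.card_lt), so divides `p^(c-1)`.
Second type: identity `p^(b-1) (y y) = 0`.  `card R = p^(2b)` forces the order of `x^2` to be
`p^b` exactly and `p^b` to be the order of `x` modulo `⟨x^2⟩`; it fails at `y = x`.  Let
`F = f(S)` be a factor and `y = u x + v x^2 ∈ S` with `f(p^(b-1) y^2) ≠ 0`; `y^2 = u^2 x^2`, so
`u` is prime to `p`, `x^2 ∈ S`, `x ∈ S`, `S = R`.  If `z = a x + a' x^2 ≠ 0` is in the kernel: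
`a x^2` is in the kernel; if `a x^2 ≠ 0` then `p^(b-1) x^2` (in the subgroup generated by
`a x^2`) is in the kernel; if `a x^2 = 0` then `p^b ∣ a`, `z ∈ ⟨x^2⟩` and again `p^(b-1) x^2` is
in the kernel: contradiction, so `f` is injective and `F` is isomorphic to `R`. -/
def St_nil_bwd : Prop :=
  ∀ (R : Type) [NonUnitalCommRing R] [Finite R], NilType R →
    Critical R ∧ ∀ n, 4 ≤ n → InM n R

/-- M10 (Teich.lean). Teichmüller elements.  `q = card` of the residue field, `p` its
characteristic (`card K` is a power of `p` times ... : `p ∣ card K`, so `p ≥ 5`).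
`p ∈ J`, so `p^2 J = 0`.  If `x = y + j`: `x^(q^2) = y^(q^2) + q^2 y^(q^2-1) j +
C(q^2,2) y^(q^2-2) j^2 = y^(q^2)` since `p^2` divides `q^2` and `C(q^2,2)` (`p` odd).
`x^q - x ∈ J` (residue field).  `(x^(q^2))^q = (x^q)^(q^2) = x^(q^2)`. -/
def St_teich : Prop :=
  ∀ (K : Type) [CommRing K] [IsLocalRing K] [Finite K], (Nat.card K).Coprime 6 →
    CubeZero K (maximalIdeal K) →
    ∃ p m : ℕ, p.Prime ∧ 5 ≤ p ∧ 1 ≤ m ∧ Nat.card (ResidueField K) = p ^ m ∧
      (p : K) ∈ maximalIdeal K ∧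
      (∀ x y : K, x - y ∈ maximalIdeal K → x ^ ((p ^ m) ^ 2) = y ^ ((p ^ m) ^ 2)) ∧
      (∀ x : K, x ^ ((p ^ m) ^ 2) - x ∈ maximalIdeal K) ∧
      (∀ x : K, (x ^ ((p ^ m) ^ 2)) ^ (p ^ m) = x ^ ((p ^ m) ^ 2))

/-- The subring generated by the elements with `x^q = x`. -/
def TW (K : Type) [CommRing K] (q : ℕ) : Subring K := Subring.closure {x : K | x ^ q = x}

/-- M11 (WRing.lean). Proof: `T = {x : x^q = x}` is closed under multiplication, so `W = TW K q`
is the additive subgroup generated by `T`.  For `a ∈ W` one has `a^q - a ∈ p W` (induction: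
`a = ∑ ± t_i`; `(a + b)^q - a^q - b^q ∈ p W` for `a, b ∈ W`, `q = p^m`; `q` odd).  Hence
`a^(q^2) - a ∈ p W` (apply twice: `a^q = a + p b`, `(a + p b)^q ∈ a^q + p W`), and for
`a ∈ W ∩ J`, `a^(q^2) = 0` as `a^3 = 0`. -/
def St_wring : Prop :=
  ∀ (K : Type) [CommRing K] (J : Ideal K), CubeZero K J → ∀ (p m : ℕ), p.Prime → 5 ≤ p →
    1 ≤ m → ∀ a ∈ TW K (p ^ m), a ∈ J → ∃ b ∈ TW K (p ^ m), a = p * b

/-- M12 (InMUnit.lean). Proof. `J` = non-units = nilpotents.  (⇒) `pw_eq_pow`: `x^3 = x^n`.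
For `x ∈ J`: `x^3 = x^(3 + k (n-3)) = 0`; polarise, 6 is a unit: `J^3 = 0`.  The residue field
(cyclic unit group of order `q-1`) satisfies `x^3 = x^n`, so `u^(n-3) = 1` and `q-1 ∣ n-3`.  For
`j ∈ J`, `N = n-3`: `(1+j)^N = 1`, `N j + C(N,2) j^2 = 0`, the same for `2 j`:
`2 C(N,2) j^2 = 0`, `C(N,2) j^2 = 0`, `N j = 0`.
(⇐) `x ∈ J`: `x^3 = 0 = x^n`.  `x` unit: `x^(q-1) = 1 + j`, `N = M (q-1)`, `M j = 0` since
`N j = 0` and `q - 1` is a unit of `K` (`q` is nilpotent), `(1+j)^M = 1 + M j + C(M,2) j^2 = 1`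
(`2 C(M,2) j^2 = (M-1) (M j) j = 0`). -/
def St_inM_unit : Prop :=
  ∀ (n : ℕ), 4 ≤ n → ∀ (K : Type) [CommRing K] [IsLocalRing K] [Finite K],
    (Nat.card K).Coprime 6 →
    (InM n K ↔ (CubeZero K (maximalIdeal K) ∧ (Nat.card (ResidueField K) - 1 ∣ n - 3) ∧
      ∀ j ∈ maximalIdeal K, (n - 3) • j = 0))

/-- M13 (Local.lean). Proof: `e = x^(3N)` (`N = n-3`) is idempotent, and a critical ring with
identity has only the idempotents 0 and 1 (critical_ideals with `e K` and `(1-e) K`).  If `e = 1`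
then `x` is a unit, if `e = 0` then `x` is nilpotent and `1 - x` is a unit. -/
def St_local : Prop :=
  ∀ (n : ℕ), 4 ≤ n → ∀ (K : Type) [CommRing K], Critical K → InM n K → IsLocalRing K

/-- The shape of the maximal ideal. -/
def Shape (K : Type) [CommRing K] [IsLocalRing K] : Prop :=
  (∃ z : K, maximalIdeal K = Ideal.span {z}) ∨
    (∃ (p : ℕ) (y : K), p.Prime ∧ maximalIdeal K = Ideal.span {(p : K), y} ∧
      (p : K) ^ 2 = 0 ∧ y ^ 2 = 0 ∧ (p : K) * y ≠ 0)

/-- M14 (UnitFwd.lean; hypotheses `St_transfer`, `St_transfer2`, `St_teich`, `St_wring`). -/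
def St_unit_fwd : Prop :=
  ∀ (K : Type) [CommRing K] [IsLocalRing K], Critical K → (Nat.card K).Coprime 6 →
    CubeZero K (maximalIdeal K) → Shape K

/-- M15 (UnitBwd.lean; hypothesis `St_teich`).  Write `q = p^m`, `J` for the maximal ideal,
`τ x = x^(q^2)` (a term), `ν y = y - y^(q^2)` (a term; `ν y ∈ J` for every `y`, `ν y = y` for
`y ∈ J`), `T = {x : x^q = x}` = values of `τ`; `K = T + J`; two elements of `T` congruent
modulo `J` are equal; nonzero elements of `T` are units, `T \ {0}` is cyclic of order `q - 1`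
(it maps isomorphically onto the units of the residue field).  Term
`δ x = τ x * ∏_{0 < i < q-1} ((τ x)^i - (τ x)^(q-1))`: `δ x` is a unit if the residue of `x`
generates the units of `K/J`, and is 0 otherwise (then some `(τ x)^i = 1 = (τ x)^(q-1)` or
`τ x = 0`).  Let `F = f(S)` be a factor of `K`, `x ∈ S` with `δ x ≠ 0`: then `τ x ∈ S`
generates `T \ {0}`, so `T ⊆ S`, `1 ∈ S`.  The separating identity is
(a) `J = 0`: `δ x = 0`.  (b) `J = (z) ≠ 0`, `J^2 = 0`: `δ x ν y = 0`.
(c) `J = (z)`, `J^2 ≠ 0`: `δ x (ν y)^2 = 0`.  (d) `J = (p, y_0)`: `δ x (p • ν y) = 0`.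
Each fails in `K`.  Suppose it fails in `F = f(S)` at `f x, f y`; `j = ν y ∈ S ∩ J`.
(b) `j = u z` with `u` a unit, `J = T j ⊆ S`, `S = K`; a nonzero ideal of `K` contains `J`,
`f j ≠ 0`, so `f` is injective.  (c) `j^2 ≠ 0` so `j ∉ J^2`, `j = u z`, `u` a unit,
`K = T + T j + T j^2 ⊆ S`; a nonzero ideal contains `J^2 = T j^2`, and `f (j^2) ≠ 0`.
(d) `p j ≠ 0`, `j = a p + b y_0` with `b` a unit, `J = (p, j)`, `J^2 = T p j`,
`K = T + T p + T j + T p j ⊆ S`; a nonzero ideal contains `p j` (if `α p + β j + ..` is in it,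
multiply by `p` or `j`), and `f (p j) ≠ 0`.  So `f` is injective and `F` is isomorphic to `K`:
the identity holds in all proper factors; critical_of_exists. -/
def St_unit_bwd : Prop :=
  ∀ (K : Type) [CommRing K] [IsLocalRing K] [Finite K], (Nat.card K).Coprime 6 →
    CubeZero K (maximalIdeal K) → Shape K → Critical K

end Pool.Agent.CRR
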