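import Pool.Agent.CRR.St

/-!
Campaign CRR, module M3: second order Taylor formula for ring terms.
-/

namespace Pool.Agent.CRR

open Finset

theorem taylor : St_taylor := by
  intro K _ J hJ W w hw t
  induction t with
  | var m =>
    refine ⟨hw m, m + 1, fun N hN => ⟨fun i => if i = m then 1 else 0, fun _ _ => 0, ?_, ?_, ?_⟩⟩
    · intro i
      show (if i = m then (1 : K) else 0) ∈ W
      split_ifs
      · exact W.one_mem
      · exact W.zero_mem
    · intro i k
      exact W.zero_mem
    · intro j hj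
      have hm : m ∈ range N := mem_range.2 hN
      simp only [RTerm.eval, ite_mul, one_mul, zero_mul, sum_const_zero, add_zero]
      rw [sum_ite_eq' (range N) m j, if_pos hm]
  | add s t hs ht =>
    obtain ⟨hs0, Ns, hs⟩ := hs
    obtain ⟨ht0, Nt, ht⟩ := ht
    refine ⟨W.add_mem hs0 ht0, max Ns Nt, fun N hN => ?_⟩
    obtain ⟨Ds, Es, hDs, hEs, es⟩ := hs N ((le_max_left _ _).trans hN)
    obtain ⟨Dt, Et, hDt, hEt, et⟩ := ht N ((le_max_right _ _).trans hN)
    refine ⟨fun i => Ds i + Dt i, fun i k => Es i k + Et i k, fun i => W.add_mem (hDs i) (hDt i),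
      fun i k => W.add_mem (hEs i k) (hEt i k), ?_⟩
    intro j hj
    have e1 := es j hj
    have e2 := et j hj
    simp only [RTerm.eval, add_mul, sum_add_distrib]
    rw [e1, e2]
    ring
  | neg s hs =>
    obtain ⟨hs0, Ns, hs⟩ := hs
    refine ⟨W.neg_mem hs0, Ns, fun N hN => ?_⟩
    obtain ⟨Ds, Es, hDs, hEs, es⟩ := hs N hN
    refine ⟨fun i => -Ds i, fun i k => -Es i k, fun i => W.neg_mem (hDs i),
      fun i k => W.neg_mem (hEs i k), ?_⟩
    intro j hj
    have e1 := es j hj
    simp only [RTerm.eval, neg_mul, sum_neg_distrib]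
    rw [e1]
    ring
  | mul s t hs ht =>
    obtain ⟨hs0, Ns, hs⟩ := hs
    obtain ⟨ht0, Nt, ht⟩ := ht
    refine ⟨W.mul_mem hs0 ht0, max Ns Nt, fun N hN => ?_⟩
    obtain ⟨Ds, Es, hDs, hEs, es⟩ := hs N ((le_max_left _ _).trans hN)
    obtain ⟨Dt, Et, hDt, hEt, et⟩ := ht N ((le_max_right _ _).trans hN)
    refine ⟨fun i => s.eval w * Dt i + t.eval w * Ds i,
      fun i k => s.eval w * Et i k + t.eval w * Es i k + Ds i * Dt k,
      fun i => W.add_mem (W.mul_mem hs0 (hDt i)) (W.mul_mem ht0 (hDs i)),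
      fun i k => W.add_mem (W.add_mem (W.mul_mem hs0 (hEt i k)) (W.mul_mem ht0 (hEs i k)))
        (W.mul_mem (hDs i) (hDt k)), ?_⟩
    intro j hj
    have e1 := es j hj
    have e2 := et j hj
    -- the quadratic parts are killed by `J`
    have hQ : ∀ (E : ℕ → ℕ → K) (x : K), x ∈ J →
        x * (∑ i ∈ range N, ∑ k ∈ range N, E i k * (j i * j k)) = 0 := by
      intro E x hx
      rw [mul_sum]
      apply sum_eq_zero
      intro i _
      rw [mul_sum]
      apply sum_eq_zero
      intro k _
      have h3 := hJ x hx (j i) (hj i) (j k) (hj k)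
      linear_combination (E i k) * h3
    have hL : ∀ D : ℕ → K, (∑ i ∈ range N, D i * j i) ∈ J := by
      intro D
      exact J.sum_mem (fun i _ => J.mul_mem_left _ (hj i))
    have hQJ : ∀ E : ℕ → ℕ → K, (∑ i ∈ range N, ∑ k ∈ range N, E i k * (j i * j k)) ∈ J := by
      intro E
      exact J.sum_mem (fun i _ => J.sum_mem (fun k _ => J.mul_mem_left _ (J.mul_mem_left _ (hj k))))
    have hprod : (∑ i ∈ range N, Ds i * j i) * (∑ k ∈ range N, Dt k * j k)
        = ∑ i ∈ range N, ∑ k ∈ range N, Ds i * Dt k * (j i * j k) := by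
      rw [sum_mul_sum]
      refine sum_congr rfl fun i _ => sum_congr rfl fun k _ => ?_
      ring
    have hD : ∑ i ∈ range N, (s.eval w * Dt i + t.eval w * Ds i) * j i
        = s.eval w * (∑ i ∈ range N, Dt i * j i) + t.eval w * (∑ i ∈ range N, Ds i * j i) := by
      rw [mul_sum, mul_sum, ← sum_add_distrib]
      refine sum_congr rfl fun i _ => ?_
      ring
    have hE : ∑ i ∈ range N, ∑ k ∈ range N,
        (s.eval w * Et i k + t.eval w * Es i k + Ds i * Dt k) * (j i * j k)
        = s.eval w * (∑ i ∈ range N, ∑ k ∈ range N, Et i k * (j i * j k))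
          + t.eval w * (∑ i ∈ range N, ∑ k ∈ range N, Es i k * (j i * j k))
          + (∑ i ∈ range N, Ds i * j i) * (∑ k ∈ range N, Dt k * j k) := by
      rw [hprod, mul_sum, mul_sum, ← sum_add_distrib, ← sum_add_distrib]
      refine sum_congr rfl fun i _ => ?_
      rw [mul_sum, mul_sum, ← sum_add_distrib, ← sum_add_distrib]
      refine sum_congr rfl fun k _ => ?_
      ring
    have q1 := hQ Et _ (hL Ds)
    have q2 := hQ Es _ (hL Dt)
    have q3 := hQ Et _ (hQJ Es)
    simp only [RTerm.eval]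
    rw [hD, hE, e1, e2]
    linear_combination q1 + q2 + q3

end Pool.Agent.CRR
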