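import Pool.Agent.CRR.St

/-!
Campaign CRR, module M10: Teichmueller elements in a finite local ring with `J^3 = 0`.
-/

namespace Pool.Agent.CRR

open Finset IsLocalRing

theorem Teich_binom {K : Type} [CommRing K] (y j : K) (hj : j * j * j = 0) (n : ℕ) :
    (y + j) ^ (n + 2) = y ^ (n + 2) + ((n + 2 : ℕ) : K) * (y ^ (n + 1) * j) +
      (Nat.choose (n + 2) 2 : K) * (y ^ n * (j * j)) := by
  induction n with
  | zero =>
    simp only [zero_add, Nat.choose_self, pow_zero, Nat.cast_ofNat, Nat.cast_one]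
    ring
  | succ n ih =>
    have h1 : (Nat.choose (n + 1 + 2) 2 : K) = ((n + 2 : ℕ) : K) + (Nat.choose (n + 2) 2 : K) := by
      rw [show n + 1 + 2 = (n + 2) + 1 from rfl, Nat.choose_succ_succ' (n + 2) 1, Nat.choose_one_right,
        Nat.cast_add]
    have h2 : (y + j) ^ (n + 1 + 2) = (y + j) ^ (n + 2) * (y + j) := by
      rw [← pow_succ]
    rw [h2, ih, h1]
    have h3 : (((n + 1 + 2 : ℕ)) : K) = ((n + 2 : ℕ) : K) + 1 := by
      push_cast
      ring
    rw [h3]
    linear_combination ((Nat.choose (n + 2) 2 : K) * y ^ n) * hj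

theorem teich : St_teich := by
  intro K _ _ _ hcop hJ
  classical
  have hfF : Finite (ResidueField K) := Finite.of_surjective (residue K) residue_surjective
  let _ : Fintype (ResidueField K) := Fintype.ofFinite _
  obtain ⟨n, hp, hcard⟩ := FiniteField.card (ResidueField K) (ringChar (ResidueField K))
  set p := ringChar (ResidueField K) with hpdef
  set m : ℕ := (n : ℕ) with hm
  have hm1 : 1 ≤ m := n.2
  have hcard' : Nat.card (ResidueField K) = p ^ m := by
    rw [Nat.card_eq_fintype_card]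
    exact hcard
  -- `p` divides the order of `K`
  have hdvd : p ∣ Nat.card K := by
    have h1 : Nat.card (ResidueField K) ∣ Nat.card K :=
      AddSubgroup.card_dvd_of_surjective (residue K).toAddMonoidHom residue_surjective
    rw [hcard'] at h1
    exact (dvd_pow_self p (by omega)).trans h1
  have hp5 : 5 ≤ p := by
    have h2 : p ≠ 2 := by
      intro h
      rw [h] at hdvd
      have h4 : 2 ∣ Nat.gcd (Nat.card K) 6 := Nat.dvd_gcd hdvd (by norm_num)
      rw [Nat.Coprime.gcd_eq_one hcop] at h4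
      omega
    have h3 : p ≠ 3 := by
      intro h
      rw [h] at hdvd
      have h4 : 3 ∣ Nat.gcd (Nat.card K) 6 := Nat.dvd_gcd hdvd (by norm_num)
      rw [Nat.Coprime.gcd_eq_one hcop] at h4
      omega
    have h5 : p ≠ 4 := by
      intro h
      rw [h] at hp
      exact absurd hp (by norm_num)
    have h6 := hp.two_le
    omega
  have hpJ : (p : K) ∈ maximalIdeal K := by
    rw [← residue_eq_zero_iff, map_natCast]
    exact ringChar.Nat.cast_ringChar
  -- the key power identity
  have hq2 : p ^ 2 ∣ (p ^ m) ^ 2 := pow_dvd_pow_of_dvd (dvd_pow_self p (by omega)) 2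
  have hpow : ∀ x y : K, x - y ∈ maximalIdeal K → x ^ ((p ^ m) ^ 2) = y ^ ((p ^ m) ^ 2) := by
    intro x y hxy
    have hx : x = y + (x - y) := by ring
    set j := x - y with hj
    have hj3 : j * j * j = 0 := hJ j hxy j hxy j hxy
    obtain ⟨c, hc⟩ := hq2
    have hbig : 2 ≤ (p ^ m) ^ 2 := by
      have h1 : 2 ≤ p ^ m := by
        calc 2 ≤ p := by omega
          _ = p ^ 1 := (pow_one p).symm
          _ ≤ p ^ m := Nat.pow_le_pow_right (by omega) hm1
      nlinarith
    obtain ⟨k, hk⟩ := Nat.exists_eq_add_of_le hbig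
    rw [Nat.add_comm] at hk
    have hn0 : (((p ^ m) ^ 2 : ℕ) : K) * (y ^ (k + 1) * j) = 0 := by
      rw [hc]
      push_cast
      have h1 := hJ (p : K) hpJ (p : K) hpJ j hxy
      linear_combination ((c : K) * y ^ (k + 1)) * h1
    have hch : p ∣ Nat.choose ((p ^ m) ^ 2) 2 := by
      have h1 : Nat.choose ((p ^ m) ^ 2) 2 * 2 = (p ^ m) ^ 2 * ((p ^ m) ^ 2 - 1) := by
        rw [Nat.choose_two_right]
        exact Nat.div_mul_cancel (Nat.even_mul_pred_self _).two_dvd
      have h2 : p ∣ Nat.choose ((p ^ m) ^ 2) 2 * 2 := by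
        rw [h1]
        exact Dvd.dvd.mul_right ((dvd_pow_self p (by omega)).trans
          (dvd_pow_self (p ^ m) (by norm_num))) _
      rcases (Nat.Prime.dvd_mul hp).1 h2 with h3 | h3
      · exact h3
      · exact absurd (Nat.le_of_dvd (by norm_num) h3) (by omega)
    obtain ⟨c', hc'⟩ := hch
    have hch0 : (Nat.choose ((p ^ m) ^ 2) 2 : K) * (y ^ k * (j * j)) = 0 := by
      rw [hc']
      push_cast
      have h1 := hJ (p : K) hpJ j hxy j hxy
      linear_combination ((c' : K) * y ^ k) * h1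
    rw [hx]
    rw [hk] at hn0 hch0 ⊢
    rw [Teich_binom y j hj3 k, hn0, hch0, add_zero, add_zero]
  have hres : ∀ x : K, x ^ (p ^ m) - x ∈ maximalIdeal K := by
    intro x
    rw [← residue_eq_zero_iff, map_sub, map_pow, sub_eq_zero, ← hcard]
    exact FiniteField.pow_card _
  have hres2 : ∀ x : K, x ^ ((p ^ m) ^ 2) - x ∈ maximalIdeal K := by
    intro x
    have h1 := hres (x ^ (p ^ m))
    have h2 := hres x
    have h3 : x ^ ((p ^ m) ^ 2) - x = ((x ^ (p ^ m)) ^ (p ^ m) - x ^ (p ^ m)) + (x ^ (p ^ m) - x) := by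
      have h4 : x ^ ((p ^ m) ^ 2) = (x ^ (p ^ m)) ^ (p ^ m) := by
        rw [pow_two (p ^ m), pow_mul]
      rw [h4]
      ring
    rw [h3]
    exact Ideal.add_mem _ h1 h2
  refine ⟨p, m, hp, hp5, hm1, hcard', hpJ, hpow, hres2, ?_⟩
  intro x
  have h1 := hpow (x ^ (p ^ m)) x (hres x)
  calc (x ^ ((p ^ m) ^ 2)) ^ (p ^ m) = (x ^ (p ^ m)) ^ ((p ^ m) ^ 2) := pow_right_comm x _ _
    _ = x ^ ((p ^ m) ^ 2) := h1

end Pool.Agent.CRR
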