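import Pool.Agent.CRR.St2

/-!
Campaign CRR, part 2, module N7 (Teich2): Teichmueller elements in a finite local ring.
-/

namespace Pool.Agent.CRR

open Finset IsLocalRing

private lemma Teich2_step {K : Type} [CommRing K] [IsLocalRing K] (p : ℕ)
    (hpJ : (p : K) ∈ maximalIdeal K) (i : ℕ) (x y : K) (hi : x - y ∈ maximalIdeal K ^ (i + 1)) :
    x ^ p - y ^ p ∈ maximalIdeal K ^ (i + 2) := by
  have h1 : x - y ∈ maximalIdeal K := Ideal.pow_le_self (Nat.succ_ne_zero i) hi
  have h2 : (∑ s ∈ range p, x ^ s * y ^ (p - 1 - s)) ∈ maximalIdeal K := by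
    rw [← residue_eq_zero_iff, map_sum]
    have hxy : residue K x = residue K y := by
      rw [← sub_eq_zero, ← map_sub, residue_eq_zero_iff]
      exact h1
    have hp0 : ((p : ℕ) : ResidueField K) = 0 := by
      rw [← map_natCast (residue K), residue_eq_zero_iff]
      exact hpJ
    simp only [map_mul, map_pow, hxy]
    rw [geom_sum₂_self, hp0, zero_mul]
  rw [← geom_sum₂_mul x y p, show i + 2 = 1 + (i + 1) by ring, pow_add, pow_one]
  exact Ideal.mul_mem_mul h2 hi

private lemma Teich2_pow {K : Type} [CommRing K] [IsLocalRing K] (p : ℕ)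
    (hpJ : (p : K) ∈ maximalIdeal K) (x y : K) (h : x - y ∈ maximalIdeal K) (t : ℕ) :
    x ^ (p ^ t) - y ^ (p ^ t) ∈ maximalIdeal K ^ (t + 1) := by
  induction t with
  | zero => simpa using h
  | succ t ih =>
    rw [pow_succ p t, pow_mul, pow_mul]
    exact Teich2_step p hpJ t _ _ ih

theorem teich2 : St2_teich := by
  intro K _ _ _ p hp hpJ
  classical
  have hfF : Finite (ResidueField K) := Finite.of_surjective (residue K) residue_surjective
  let _ : Fintype (ResidueField K) := Fintype.ofFinite _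
  obtain ⟨n, hp', hcard⟩ := FiniteField.card (ResidueField K) (ringChar (ResidueField K))
  have hp0 : ((p : ℕ) : ResidueField K) = 0 := by
    rw [← map_natCast (residue K), residue_eq_zero_iff]
    exact hpJ
  have hpp : ringChar (ResidueField K) = p :=
    (Nat.prime_dvd_prime_iff_eq hp' hp).1 (ringChar.dvd hp0)
  rw [hpp] at hcard
  obtain ⟨N, hN⟩ : IsNilpotent (maximalIdeal K) := by
    have := IsArtinianRing.isNilpotent_jacobson_bot (R := K)
    rwa [IsLocalRing.jacobson_eq_maximalIdeal ⊥ bot_ne_top] at this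
  have hn1 : 1 ≤ (n : ℕ) := n.2
  have hpow : ∀ x y : K, x - y ∈ maximalIdeal K →
      x ^ ((p ^ (n : ℕ)) ^ (N + 1)) = y ^ ((p ^ (n : ℕ)) ^ (N + 1)) := by
    intro x y h
    rw [← pow_mul, ← sub_eq_zero]
    have h1 := Teich2_pow p hpJ x y h ((n : ℕ) * (N + 1))
    have h2 : N ≤ (n : ℕ) * (N + 1) + 1 := by nlinarith
    have h3 := Ideal.pow_le_pow_right (I := maximalIdeal K) h2 h1
    rw [hN] at h3
    simpa using h3
  have hpos : (p ^ (n : ℕ)) ^ (N + 1) ≠ 0 := pow_ne_zero _ (pow_ne_zero _ hp.ne_zero)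
  have hres : ∀ (x : K) (s : ℕ), x ^ ((p ^ (n : ℕ)) ^ s) - x ∈ maximalIdeal K := by
    intro x s
    rw [← residue_eq_zero_iff, map_sub, map_pow, sub_eq_zero, ← hcard]
    exact FiniteField.pow_card_pow s _
  refine ⟨n, N + 1, hn1, by omega, by rw [Nat.card_eq_fintype_card]; exact hcard, hpow, ?_,
    fun x => hres x _, ?_⟩
  · intro x hx
    rw [hpow x 0 (by simpa using hx), zero_pow hpos]
  · intro x
    have h1 := hres x 1
    rw [pow_one] at h1
    have h2 := hpow _ _ h1
    rw [pow_right_comm]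
    exact h2

end Pool.Agent.CRR
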