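import Pool.Agent.CRR.St

/-!
Campaign CRR, module M4: identity transfer from one-generated pieces.
-/

namespace Pool.Agent.CRR

open Finset

theorem transfer (h : St_taylor) : St_transfer := by
  intro K _ J hJ h2 w s t hst j hj
  obtain ⟨-, N1, hN1⟩ := h K J hJ ⊤ w (fun _ => Subring.mem_top _) s
  obtain ⟨-, N2, hN2⟩ := h K J hJ ⊤ w (fun _ => Subring.mem_top _) t
  obtain ⟨D1, E1, -, -, hs⟩ := hN1 (max N1 N2) (le_max_left _ _)
  obtain ⟨D2, E2, -, -, ht⟩ := hN2 (max N1 N2) (le_max_right _ _)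
  generalize max N1 N2 = N at *
  obtain ⟨D, hD⟩ : ∃ D : ℕ → K, D = fun i => D1 i - D2 i := ⟨_, rfl⟩
  obtain ⟨E, hE⟩ : ∃ E : ℕ → ℕ → K, E = fun i k => E1 i k - E2 i k := ⟨_, rfl⟩
  have hc : s.eval w = t.eval w := by
    have h3 := hst 0 J.zero_mem ∅
    simpa using h3
  have hG : ∀ j : ℕ → K, (∀ i, j i ∈ J) →
      s.eval (fun i => w i + j i) - t.eval (fun i => w i + j i) =
        ∑ i ∈ range N, D i * j i + ∑ i ∈ range N, ∑ k ∈ range N, E i k * (j i * j k) := by
    intro j hj
    rw [hs j hj, ht j hj, hc]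
    simp only [hD, hE, sub_mul, sum_sub_distrib]
    ring
  have hG0 : ∀ y ∈ J, ∀ A : Finset ℕ, A ⊆ range N →
      ∑ i ∈ A, D i * y + ∑ i ∈ A, ∑ k ∈ A, E i k * (y * y) = 0 := by
    intro y hyJ A hA
    have h3 := hG (fun i => if i ∈ A then y else 0) (by
      intro i
      split_ifs
      · exact hyJ
      · exact J.zero_mem)
    rw [hst y hyJ A, sub_self] at h3
    have h5 : range N ∩ A = A := inter_eq_right.2 hA
    simp only [mul_ite, mul_zero, ite_mul, zero_mul, sum_ite_mem, h5] at h3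
    have h6 : ∀ i ∈ range N, (∑ k ∈ A, (if i ∈ A then E i k * (y * y) else 0)) =
        if i ∈ A then ∑ k ∈ A, E i k * (y * y) else 0 := by
      intro i _
      split_ifs
      · rfl
      · exact sum_const_zero
    rw [sum_congr rfl h6, sum_ite_mem, h5] at h3
    exact h3.symm
  have hdiag : ∀ y ∈ J, ∀ i ∈ range N, E i i * (y * y) = 0 ∧ D i * y = 0 := by
    intro y hy i hi
    have h3 := hG0 y hy {i} (by simpa using hi)
    have h4 := hG0 (y + y) (J.add_mem hy hy) {i} (by simpa using hi)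
    simp only [sum_singleton] at h3 h4
    have h5 : 2 * (E i i * (y * y)) = 0 := by
      linear_combination h4 - 2 * h3
    have h6 : E i i * (y * y) = 0 :=
      h2 _ (J.mul_mem_left _ (J.mul_mem_left _ hy)) h5
    refine ⟨h6, ?_⟩
    linear_combination h3 - h6
  have hoff : ∀ y ∈ J, ∀ i ∈ range N, ∀ k ∈ range N, (E i k + E k i) * (y * y) = 0 := by
    intro y hy i hi k hk
    by_cases hik : i = k
    · subst hik
      linear_combination 2 * (hdiag y hy i hi).1
    · have h3 := hG0 y hy {i, k} (by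
        intro x hx
        rw [mem_insert, mem_singleton] at hx
        rcases hx with rfl | rfl
        · exact hi
        · exact hk)
      simp only [sum_pair hik] at h3
      have e1 := hdiag y hy i hi
      have e2 := hdiag y hy k hk
      linear_combination h3 - e1.1 - e1.2 - e2.1 - e2.2
  have hpol : ∀ y ∈ J, ∀ z ∈ J, ∀ i ∈ range N, ∀ k ∈ range N,
      (E i k + E k i) * (y * z) = 0 := by
    intro y hy z hz i hi k hk
    have e1 := hoff y hy i hi k hk
    have e2 := hoff z hz i hi k hk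
    have e3 := hoff (y + z) (J.add_mem hy hz) i hi k hk
    refine h2 _ (J.mul_mem_left _ (J.mul_mem_left _ hz)) ?_
    linear_combination e3 - e1 - e2
  have h7 := hG j hj
  have h8 : ∑ i ∈ range N, D i * j i = 0 :=
    sum_eq_zero (fun i hi => (hdiag (j i) (hj i) i hi).2)
  rw [h8, zero_add] at h7
  have h9 : ∑ i ∈ range N, ∑ k ∈ range N, E i k * (j i * j k) =
      ∑ i ∈ range N, ∑ k ∈ range N, E k i * (j i * j k) := by
    rw [sum_comm]
    refine sum_congr rfl (fun i _ => sum_congr rfl (fun k _ => ?_))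
    ring
  have h10 : 2 * (∑ i ∈ range N, ∑ k ∈ range N, E i k * (j i * j k)) = 0 := by
    rw [two_mul]
    nth_rewrite 2 [h9]
    rw [← sum_add_distrib]
    refine sum_eq_zero (fun i hi => ?_)
    rw [← sum_add_distrib]
    refine sum_eq_zero (fun k hk => ?_)
    rw [← add_mul]
    exact hpol _ (hj i) _ (hj k) i hi k hk
  have h11 : ∑ i ∈ range N, ∑ k ∈ range N, E i k * (j i * j k) = 0 := by
    refine h2 _ ?_ h10
    exact J.sum_mem (fun i _ => J.sum_mem (fun k _ =>
      J.mul_mem_left _ (J.mul_mem_right _ (hj i))))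
  rw [h11] at h7
  exact sub_eq_zero.1 h7

end Pool.Agent.CRR
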