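import Pool.Agent.CRR.St

/-!
Campaign CRR, module M5: identity transfer from the Galois ring.
-/

namespace Pool.Agent.CRR

open Finset

theorem transfer2 (h : St_taylor) : St_transfer2 := by
  intro K _ J hJ h2 hu W p hp hp2 hW w hw s t hst j hj
  obtain ⟨-, N1, hN1⟩ := h K J hJ W w hw s
  obtain ⟨-, N2, hN2⟩ := h K J hJ W w hw t
  obtain ⟨D1, E1, hD1, hE1, hs⟩ := hN1 (max N1 N2) (le_max_left _ _)
  obtain ⟨D2, E2, hD2, hE2, ht⟩ := hN2 (max N1 N2) (le_max_right _ _)
  generalize max N1 N2 = N at *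
  obtain ⟨D, hD⟩ : ∃ D : ℕ → K, D = fun i => D1 i - D2 i := ⟨_, rfl⟩
  obtain ⟨E, hE⟩ : ∃ E : ℕ → ℕ → K, E = fun i k => E1 i k - E2 i k := ⟨_, rfl⟩
  have hDW : ∀ i, D i ∈ W := by
    intro i
    rw [hD]
    exact W.sub_mem (hD1 i) (hD2 i)
  have hG : ∀ j : ℕ → K, (∀ i, j i ∈ J) →
      s.eval (fun i => w i + j i) - t.eval (fun i => w i + j i) =
        ∑ i ∈ range N, D i * j i + ∑ i ∈ range N, ∑ k ∈ range N, E i k * (j i * j k) := by
    intro j hj
    rw [hs j hj, ht j hj, hst w hw]
    simp only [hD, hE, sub_mul, sum_sub_distrib]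
    ring
  have hG0 : ∀ y ∈ W, y ∈ J → ∀ A : Finset ℕ, A ⊆ range N →
      ∑ i ∈ A, D i * y + ∑ i ∈ A, ∑ k ∈ A, E i k * (y * y) = 0 := by
    intro y hyW hyJ A hA
    have h3 := hG (fun i => if i ∈ A then y else 0) (by
      intro i
      split_ifs
      · exact hyJ
      · exact J.zero_mem)
    have h4 : s.eval (fun i => w i + (if i ∈ A then y else 0)) =
        t.eval (fun i => w i + (if i ∈ A then y else 0)) := by
      apply hst
      intro i
      split_ifs
      · exact W.add_mem (hw i) hyW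
      · exact W.add_mem (hw i) W.zero_mem
    rw [h4, sub_self] at h3
    have h5 : range N ∩ A = A := inter_eq_right.2 hA
    simp only [mul_ite, mul_zero, ite_mul, zero_mul, sum_ite_mem, h5] at h3
    have h6 : ∀ i ∈ range N, (∑ k ∈ A, (if i ∈ A then E i k * (y * y) else 0)) =
        if i ∈ A then ∑ k ∈ A, E i k * (y * y) else 0 := by
      intro i _
      split_ifs
      · rfl
      · exact sum_const_zero
    rw [sum_congr rfl h6, sum_ite_mem, h5] at h3
    exact h3.symm
  have hpW : (p : K) ∈ W := natCast_mem W p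
  have hp0 : (p : K) ≠ 0 := by
    intro h3
    apply hp2
    rw [h3]
    ring
  have h2p : (p : K) + p ∈ W := W.add_mem hpW hpW
  have h2pJ : (p : K) + p ∈ J := J.add_mem hp hp
  -- the diagonal
  have hdiag : ∀ i ∈ range N, E i i * (p * p) = 0 ∧ D i * p = 0 := by
    intro i hi
    have h3 := hG0 p hpW hp {i} (by simpa using hi)
    have h4 := hG0 (p + p) h2p h2pJ {i} (by simpa using hi)
    simp only [sum_singleton] at h3 h4
    have h5 : 2 * (E i i * (p * p)) = 0 := by
      linear_combination h4 - 2 * h3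
    have h6 : E i i * (p * p) = 0 :=
      h2 _ (J.mul_mem_left _ (J.mul_mem_left _ hp)) h5
    refine ⟨h6, ?_⟩
    linear_combination h3 - h6
  have hoff : ∀ i ∈ range N, ∀ k ∈ range N, (E i k + E k i) * (p * p) = 0 := by
    intro i hi k hk
    by_cases hik : i = k
    · subst hik
      linear_combination 2 * (hdiag i hi).1
    · have h3 := hG0 p hpW hp {i, k} (by
        intro x hx
        rw [mem_insert, mem_singleton] at hx
        rcases hx with rfl | rfl
        · exact hi
        · exact hk)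
      simp only [sum_pair hik] at h3
      have e1 := hdiag i hi
      have e2 := hdiag k hk
      linear_combination h3 - e1.1 - e1.2 - e2.1 - e2.2
  have hEJ : ∀ i ∈ range N, ∀ k ∈ range N, E i k + E k i ∈ J := by
    intro i hi k hk
    by_contra hc
    have h3 := hu _ hc
    apply hp2
    rw [pow_two]
    exact (h3.mul_right_eq_zero).1 (hoff i hi k hk)
  have hunit : ∀ a : K, a * (p * p) = 0 → a ∈ J := by
    intro a ha
    by_contra hc
    have h3 := hu _ hc
    apply hp2
    rw [pow_two]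
    exact (h3.mul_right_eq_zero).1 ha
  have hDk : ∀ i ∈ range N, ∀ x ∈ J, D i * x = 0 := by
    intro i hi x hx
    have h3 := (hdiag i hi).2
    have h4 : D i ∈ J := by
      apply hunit
      rw [← mul_assoc, h3, zero_mul]
    obtain ⟨b, hb, hb'⟩ := hW _ (hDW i) h4
    have h5 : b * (p * p) = 0 := by
      rw [hb'] at h3
      linear_combination h3
    obtain ⟨b', -, hb''⟩ := hW b hb (hunit b h5)
    have h6 : D i * x = p * (p * b') * x := by
      rw [hb', hb'']
    rw [h6]
    exact hJ _ hp _ (J.mul_mem_right _ hp) _ hx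
  have h7 := hG j hj
  have h8 : ∑ i ∈ range N, D i * j i = 0 :=
    sum_eq_zero (fun i hi => hDk i hi _ (hj i))
  rw [h8, zero_add] at h7
  have h9 : ∑ i ∈ range N, ∑ k ∈ range N, E i k * (j i * j k) =
      ∑ i ∈ range N, ∑ k ∈ range N, E k i * (j i * j k) := by
    rw [sum_comm]
    refine sum_congr rfl (fun i _ => sum_congr rfl (fun k _ => ?_))
    ring
  have h10 : 2 * (∑ i ∈ range N, ∑ k ∈ range N, E i k * (j i * j k)) = 0 := by
    rw [two_mul]
    nth_rewrite 2 [h9]
    rw [← sum_add_distrib]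
    refine sum_eq_zero (fun i hi => ?_)
    rw [← sum_add_distrib]
    refine sum_eq_zero (fun k hk => ?_)
    rw [← add_mul, ← mul_assoc]
    exact hJ _ (hEJ i hi k hk) _ (hj i) _ (hj k)
  have h11 : ∑ i ∈ range N, ∑ k ∈ range N, E i k * (j i * j k) = 0 := by
    refine h2 _ ?_ h10
    exact J.sum_mem (fun i _ => J.sum_mem (fun k _ =>
      J.mul_mem_left _ (J.mul_mem_right _ (hj i))))
  rw [h11] at h7
  exact sub_eq_zero.1 h7

end Pool.Agent.CRR
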