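import Pool.Agent.CRR.St2

/-!
CRR part 2, N4: identities for `p = 2` (helper99).
-/

namespace Pool.Agent.CRR

open Finset IsLocalRing

theorem two : St2_two := by
  intro K _ J s hC hs
  have h3 : ∀ u ∈ J, 3 * u = 0 → u = 0 := by
    intro u hu h
    have h1 : ∀ n : ℕ, (2 : K) ^ n * u = (-1) ^ n * u := by
      intro n
      induction n with
      | zero => rw [pow_zero, pow_zero]
      | succ n ih =>
        rw [pow_succ, pow_succ]
        linear_combination 2 * ih + (-1) ^ n * h
    have h2 := h1 s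
    rw [hs u hu] at h2
    have h4 : (-1 : K) ^ s * (-1) ^ s = 1 := by
      rw [← mul_pow]
      simp
    linear_combination (-u) * h4 - (-1) ^ s * h2
  have hxy : ∀ x ∈ J, ∀ y ∈ J, x ^ 2 * y + x * y ^ 2 = 0 := by
    intro x hx y hy
    refine h3 _ (J.add_mem (J.mul_mem_left _ hy) (J.mul_mem_right _ hx)) ?_
    have h1 := hC (x + y) (J.add_mem hx hy)
    have h2 := hC x hx
    have h4 := hC y hy
    linear_combination h1 - h2 - h4
  have hxyz : ∀ x ∈ J, ∀ y ∈ J, ∀ z ∈ J, 2 * x * y * z = 0 := by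
    intro x hx y hy z hz
    linear_combination hxy (x + z) (J.add_mem hx hz) y hy - hxy x hx y hy - hxy z hz y hy
  have hsw : ∀ x ∈ J, ∀ y ∈ J, x ^ 2 * y = x * y ^ 2 := by
    intro x hx y hy
    linear_combination hxy x hx y hy - hxyz x hx y hy y hy
  have h22 : ∀ x ∈ J, ∀ y ∈ J, x ^ 2 * y ^ 2 = 0 := by
    intro x hx y hy
    linear_combination y * hsw x hx y hy + x * hC y hy
  refine ⟨hxyz, hsw, fun x hx y hy z hz => ?_⟩
  linear_combination x * h22 y hy z hz - hsw (y * z) (J.mul_mem_left _ hz) x hx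

end Pool.Agent.CRR
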