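import Pool.Agent.CRR.St

/-!
Campaign CRR, module M14: the shape of the maximal ideal of a critical local ring.
-/

namespace Pool.Agent.CRR

open Finset IsLocalRing

theorem unitFwd_two {K : Type} [CommRing K] [Finite K] (h6 : (Nat.card K).Coprime 6) (x : K)
    (hx : 2 * x = 0) : x = 0 := by
  have h1 : addOrderOf x ∣ 2 := by
    rw [addOrderOf_dvd_iff_nsmul_eq_zero, nsmul_eq_mul]
    exact_mod_cast hx
  have h2 : addOrderOf x ∣ Nat.card K := addOrderOf_dvd_natCard x
  have h3 : (Nat.card K).Coprime 2 := Nat.Coprime.coprime_dvd_right (by norm_num) h6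
  have h4 : addOrderOf x ∣ 1 := by
    rw [← h3.gcd_eq_one]
    exact Nat.dvd_gcd h2 h1
  exact AddMonoid.addOrderOf_eq_one_iff.1 (Nat.dvd_one.1 h4)

/-- A critical ring with identity: two nonzero principal ideals meet. -/
theorem unitFwd_meet {K : Type} [CommRing K] (hc : Critical K) (a b : K) (ha : a ≠ 0)
    (hb : b ≠ 0) : ∃ c d : K, c * a = d * b ∧ c * a ≠ 0 := by
  by_contra hcon
  push Not at hcon
  have h := critical_ideals hc (Ideal.span {a} : Ideal K).toAddSubgroup
    (Ideal.span {b} : Ideal K).toAddSubgroup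
    (fun r i hi => (Ideal.span {a}).mul_mem_left r hi)
    (fun r i hi => (Ideal.span {b}).mul_mem_left r hi) (by
      rw [eq_bot_iff]
      intro x hx
      obtain ⟨h1, h2⟩ := hx
      obtain ⟨c, hc1⟩ := Ideal.mem_span_singleton'.1 h1
      obtain ⟨d, hd1⟩ := Ideal.mem_span_singleton'.1 h2
      have := hcon c d (hc1.trans hd1.symm)
      rw [AddSubgroup.mem_bot, ← hc1, this])
  rcases h with h | h
  · apply ha
    have : a ∈ (Ideal.span {a} : Ideal K).toAddSubgroup := Ideal.mem_span_singleton_self a
    rwa [h, AddSubgroup.mem_bot] at this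
  · apply hb
    have : b ∈ (Ideal.span {b} : Ideal K).toAddSubgroup := Ideal.mem_span_singleton_self b
    rwa [h, AddSubgroup.mem_bot] at this

/-- If `a` is killed by the maximal ideal and `b ≠ 0`, then `a` is a multiple of `b`. -/
theorem unitFwd_multiple {K : Type} [CommRing K] [IsLocalRing K] (hc : Critical K) (a b : K)
    (ha : ∀ j ∈ maximalIdeal K, j * a = 0) (hb : b ≠ 0) : ∃ c : K, a = c * b := by
  by_cases ha0 : a = 0
  · exact ⟨0, by rw [ha0, zero_mul]⟩
  obtain ⟨c, d, h1, h2⟩ := unitFwd_meet hc a b ha0 hb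
  have hcu : IsUnit c := by
    by_contra hcn
    exact h2 (ha c ((mem_maximalIdeal c).2 hcn))
  obtain ⟨u, rfl⟩ := hcu
  refine ⟨(↑u⁻¹ : K) * d, ?_⟩
  rw [mul_assoc, ← h1, ← mul_assoc, Units.inv_mul, one_mul]

theorem unitFwd_onegen (hT : St_transfer) {K : Type} [CommRing K] [IsLocalRing K]
    (hc : Critical K) (h6 : (Nat.card K).Coprime 6) (hJ : CubeZero K (maximalIdeal K))
    (W : Subring K) (tau : K → K) (htW : ∀ x, tau x ∈ W)
    (htJ : ∀ x, x - tau x ∈ maximalIdeal K) :
    ∃ y ∈ maximalIdeal K, Subring.closure ((W : Set K) ∪ {y}) = ⊤ := by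
  have hfin := hc.1
  by_contra hcon
  push Not at hcon
  refine critical_subrings hc (fun S => ∃ y ∈ maximalIdeal K,
    S = (Subring.closure ((W : Set K) ∪ {y})).toNonUnitalSubring) ?_ ?_
  · rintro S ⟨y, hy, rfl⟩ hS
    apply hcon y hy
    rw [eq_top_iff]
    intro x _
    have hx : x ∈ (Subring.closure ((W : Set K) ∪ {y})).toNonUnitalSubring := by
      rw [hS]; exact NonUnitalSubring.mem_top x
    exact hx
  · intro s t h v
    have key := hT K (maximalIdeal K) hJ (fun x _ hx => unitFwd_two h6 x hx)
      (fun i => tau (v i)) s t ?_ (fun i => v i - tau (v i)) (fun i => htJ _)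
    · have e : (fun i => tau (v i) + (v i - tau (v i))) = v := by
        funext i; ring
      rwa [e] at key
    · intro y hy A
      apply h _ ⟨y, hy, rfl⟩
      intro i
      show tau (v i) + (if i ∈ A then y else 0) ∈ Subring.closure ((W : Set K) ∪ {y})
      apply Subring.add_mem
      · exact Subring.subset_closure (Or.inl (htW _))
      · split_ifs
        · exact Subring.subset_closure (Or.inr rfl)
        · exact Subring.zero_mem _

theorem unitFwd_form {K : Type} [CommRing K] (W : Subring K) (y : K) (hy : y * y * y = 0)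
    (htop : Subring.closure ((W : Set K) ∪ {y}) = ⊤) (r : K) :
    ∃ a ∈ W, ∃ b ∈ W, ∃ c ∈ W, r = a + b * y + c * (y * y) := by
  have hr : r ∈ Subring.closure ((W : Set K) ∪ {y}) := by rw [htop]; exact Subring.mem_top r
  induction hr using Subring.closure_induction with
  | mem x hx =>
    rcases hx with hx | hx
    · exact ⟨x, hx, 0, W.zero_mem, 0, W.zero_mem, by ring⟩
    · rw [Set.mem_singleton_iff] at hx
      exact ⟨0, W.zero_mem, 1, W.one_mem, 0, W.zero_mem, by rw [hx]; ring⟩
  | zero => exact ⟨0, W.zero_mem, 0, W.zero_mem, 0, W.zero_mem, by ring⟩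
  | one => exact ⟨1, W.one_mem, 0, W.zero_mem, 0, W.zero_mem, by ring⟩
  | add x z _ _ hx hz =>
    obtain ⟨a, ha, b, hb, c, hc, rfl⟩ := hx
    obtain ⟨a', ha', b', hb', c', hc', rfl⟩ := hz
    exact ⟨a + a', W.add_mem ha ha', b + b', W.add_mem hb hb', c + c', W.add_mem hc hc',
      by ring⟩
  | neg x _ hx =>
    obtain ⟨a, ha, b, hb, c, hc, rfl⟩ := hx
    exact ⟨-a, W.neg_mem ha, -b, W.neg_mem hb, -c, W.neg_mem hc, by ring⟩
  | mul x z _ _ hx hz =>
    obtain ⟨a, ha, b, hb, c, hc, rfl⟩ := hx
    obtain ⟨a', ha', b', hb', c', hc', rfl⟩ := hz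
    refine ⟨a * a', W.mul_mem ha ha', a * b' + b * a', W.add_mem (W.mul_mem ha hb')
      (W.mul_mem hb ha'), a * c' + b * b' + c * a', W.add_mem (W.add_mem (W.mul_mem ha hc')
      (W.mul_mem hb hb')) (W.mul_mem hc ha'), ?_⟩
    linear_combination (b * c' + c * b' + c * c' * y) * hy

theorem unit_fwd (hT : St_transfer) (hT2 : St_transfer2) (hTe : St_teich) (hW : St_wring) :
    St_unit_fwd := by
  intro K _ _ hc h6 hJ
  have hfin := hc.1
  obtain ⟨p, m, hp, hp5, hm, hq, hpJ, ht1, ht2, ht3⟩ := hTe K h6 hJ
  have hWJ := hW K (maximalIdeal K) hJ p m hp hp5 hm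
  set W : Subring K := TW K (p ^ m) with hWdef
  have htW : ∀ x : K, x ^ ((p ^ m) ^ 2) ∈ W := fun x => Subring.subset_closure (ht3 x)
  have htJ : ∀ x : K, x - x ^ ((p ^ m) ^ 2) ∈ maximalIdeal K := by
    intro x
    have := (maximalIdeal K).neg_mem (ht2 x)
    rwa [neg_sub] at this
  have hun : ∀ a : K, a ∉ maximalIdeal K → IsUnit a := by
    intro a ha
    by_contra h
    exact ha ((mem_maximalIdeal a).2 h)
  by_cases hpp : (p : K) ^ 2 ≠ 0
  · -- the Galois ring of characteristic p^3
    left
    have htop : W = ⊤ := by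
      by_contra hne
      refine critical_subrings hc (fun S => S = W.toNonUnitalSubring) ?_ ?_
      · rintro S rfl hS
        apply hne
        rw [eq_top_iff]
        intro x _
        have hx : x ∈ W.toNonUnitalSubring := by
          rw [hS]; exact NonUnitalSubring.mem_top x
        exact hx
      · intro s t h v
        have key := hT2 K (maximalIdeal K) hJ (fun x _ hx => unitFwd_two h6 x hx) hun W p hpJ
          hpp hWJ (fun i => v i ^ ((p ^ m) ^ 2)) (fun i => htW _) s t
          (fun u hu => h _ rfl u hu) (fun i => v i - v i ^ ((p ^ m) ^ 2)) (fun i => htJ _)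
        have e : (fun i => v i ^ ((p ^ m) ^ 2) + (v i - v i ^ ((p ^ m) ^ 2))) = v := by
          funext i; ring
        rwa [e] at key
    refine ⟨(p : K), le_antisymm ?_ ?_⟩
    · intro r hr
      obtain ⟨b, _, hb⟩ := hWJ r (by rw [htop]; exact Subring.mem_top r) hr
      rw [Ideal.mem_span_singleton']
      exact ⟨b, by rw [hb, mul_comm]⟩
    · rw [Ideal.span_singleton_le_iff_mem]
      exact hpJ
  · push Not at hpp
    have hpp' : (p : K) * p = 0 := by rw [← sq]; exact hpp
    obtain ⟨y, hyJ, htop⟩ := unitFwd_onegen hT hc h6 hJ W (fun x => x ^ ((p ^ m) ^ 2)) htW htJ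
    have hy3 : y * y * y = 0 := hJ y hyJ y hyJ y hyJ
    have hspan : maximalIdeal K = Ideal.span {(p : K), y} := by
      apply le_antisymm
      · intro r hr
        obtain ⟨a, ha, b, hb, c, hc', rfl⟩ := unitFwd_form W y hy3 htop r
        have haJ : a ∈ maximalIdeal K := by
          have h1 : b * y + c * (y * y) ∈ maximalIdeal K :=
            (maximalIdeal K).add_mem ((maximalIdeal K).mul_mem_left _ hyJ)
              ((maximalIdeal K).mul_mem_left _ ((maximalIdeal K).mul_mem_left _ hyJ))
          have h2 := (maximalIdeal K).sub_mem hr h1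
          have e : a + b * y + c * (y * y) - (b * y + c * (y * y)) = a := by ring
          rwa [e] at h2
        obtain ⟨d, _, hd⟩ := hWJ a ha haJ
        rw [Ideal.mem_span_pair]
        exact ⟨d, b + c * y, by rw [hd]; ring⟩
      · rw [Ideal.span_le]
        intro z hz
        rcases hz with hz | hz
        · rw [hz]; exact hpJ
        · rw [Set.mem_singleton_iff] at hz
          rw [hz]; exact hyJ
    -- elements killed by the two generators are killed by the maximal ideal
    have hann : ∀ a : K, (p : K) * a = 0 → y * a = 0 → ∀ j ∈ maximalIdeal K, j * a = 0 := by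
      intro a h1 h2 j hj
      rw [hspan, Ideal.mem_span_pair] at hj
      obtain ⟨c, d, rfl⟩ := hj
      linear_combination c * h1 + d * h2
    by_cases hpy : (p : K) * y = 0
    · left
      by_cases hy0 : y = 0
      · refine ⟨(p : K), ?_⟩
        rw [hspan, hy0]
        apply le_antisymm
        · rw [Ideal.span_le]
          intro z hz
          rcases hz with hz | hz
          · rw [hz]; exact Ideal.mem_span_singleton_self _
          · rw [Set.mem_singleton_iff] at hz
            rw [hz]; exact Ideal.zero_mem _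
        · exact Ideal.span_mono (by simp)
      · have hmem : (p : K) ∈ Ideal.span {y} := by
          by_cases hyy : y * y = 0
          · obtain ⟨c, hc'⟩ := unitFwd_multiple hc (p : K) y
              (hann _ hpp' (by rw [mul_comm]; exact hpy)) hy0
            rw [hc']
            exact Ideal.mul_mem_left _ _ (Ideal.mem_span_singleton_self y)
          · obtain ⟨c, hc'⟩ := unitFwd_multiple hc (p : K) (y * y)
              (hann _ hpp' (by rw [mul_comm]; exact hpy)) hyy
            rw [hc', ← mul_assoc]
            exact Ideal.mul_mem_left _ _ (Ideal.mem_span_singleton_self y)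
        refine ⟨y, ?_⟩
        rw [hspan]
        apply le_antisymm
        · rw [Ideal.span_le]
          intro z hz
          rcases hz with hz | hz
          · rw [hz]; exact hmem
          · rw [Set.mem_singleton_iff] at hz
            rw [hz]; exact Ideal.mem_span_singleton_self y
        · exact Ideal.span_mono (by simp)
    · right
      -- y^2 = c p y
      obtain ⟨c, hc'⟩ := unitFwd_multiple hc (y * y) ((p : K) * y)
        (hann _ (hJ _ hpJ _ hyJ _ hyJ ▸ by ring) (hy3 ▸ by ring)) hpy
      have h2u : IsUnit (2 : K) := by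
        apply hun
        intro h2
        have hodd : ∃ k : ℕ, p = 2 * k + 1 := by
          rcases hp.eq_two_or_odd' with h | h
          · omega
          · exact h
        obtain ⟨k, hk⟩ := hodd
        have h1 : (1 : K) ∈ maximalIdeal K := by
          have e : (1 : K) = (p : K) - (k : K) * 2 := by
            rw [hk]; push_cast; ring
          rw [e]
          exact (maximalIdeal K).sub_mem hpJ ((maximalIdeal K).mul_mem_left _ h2)
        exact (Ideal.ne_top_iff_one _).1 (maximalIdeal.isMaximal K).ne_top h1
      obtain ⟨h, hh⟩ := h2u.exists_left_inv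
      refine ⟨p, y - h * c * p, hp, ?_, hpp, ?_, ?_⟩
      · rw [hspan]
        apply le_antisymm
        · rw [Ideal.span_le]
          intro z hz
          rcases hz with hz | hz
          · rw [hz]; exact Ideal.subset_span (Set.mem_insert _ _)
          · rw [Set.mem_singleton_iff] at hz
            rw [hz, SetLike.mem_coe, Ideal.mem_span_pair]
            exact ⟨h * c, 1, by ring⟩
        · rw [Ideal.span_le]
          intro z hz
          rcases hz with hz | hz
          · rw [hz]; exact Ideal.subset_span (Set.mem_insert _ _)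
          · rw [Set.mem_singleton_iff] at hz
            rw [hz, SetLike.mem_coe, Ideal.mem_span_pair]
            exact ⟨-(h * c), 1, by ring⟩
      · linear_combination hc' - c * (p : K) * y * hh + h ^ 2 * c ^ 2 * hpp'
      · intro h0
        apply hpy
        linear_combination h0 + h * c * hpp'

end Pool.Agent.CRR
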