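import Pool.Agent.CRR.St2

/-!
Campaign CRR, part 2, N20: a local ring of the list has a detecting form (helper20).
-/

namespace Pool.Agent.CRR

open Finset IsLocalRing

private theorem Van2_frm {K : Type} [CommRing K] (d : K) (k : ℕ) (z : ℕ → K) :
    Frm d 0 k z = d * ∏ i ∈ range k, z i := by
  unfold Frm
  rw [zero_mul, ite_self, add_zero]

/-- The number of elements of `e`. -/
private theorem Van2_num {K : Type} [CommRing K] {J : Ideal K} {p b : ℕ} {A : K}
    (hb : 1 ≤ b) (hJ : p = 2 → ∀ x ∈ J, ∀ y ∈ J, x ^ 2 * y ^ 2 = 0) (g : ℕ)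
    (hg : g = gnum p b (2 ≤ b ∧ ∃ x : ℕ → K, (∀ i, x i ∈ J) ∧
        A * (x 0 * ∏ i ∈ range (b - 1), x i) ≠ 0)) :
    2 * (g - 1) < b ∨ (g - 1 + 2 ≤ b ∧ ∀ x ∈ J, ∀ y ∈ J, x ^ 2 * y ^ 2 = 0) ∨
      (g - 1 + 1 ≤ b ∧ (2 ≤ b → ∀ x : ℕ → K, (∀ i, x i ∈ J) →
        A * (x 0 * ∏ i ∈ range (b - 1), x i) = 0)) := by
  by_cases h2 : p = 2
  · by_cases hE : 2 ≤ b ∧ ∃ x : ℕ → K, (∀ i, x i ∈ J) ∧
        A * (x 0 * ∏ i ∈ range (b - 1), x i) ≠ 0
    · right
      left
      rw [gnum, if_pos h2, if_pos hE] at hg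
      have := hE.1
      exact ⟨by omega, hJ h2⟩
    · right
      right
      rw [gnum, if_pos h2, if_neg hE] at hg
      refine ⟨by omega, fun hb2 x hx => ?_⟩
      by_contra hne
      exact hE ⟨hb2, x, hx, hne⟩
  · left
    rw [gnum, if_neg h2] at hg
    omega

private theorem Van2_b0 {K : Type} [CommRing K] [IsLocalRing K] {p : ℕ}
    (hJp : maximalIdeal K = Ideal.span {(p : K)}) (hp3 : (p : K) ^ 3 = 0)
    (hw : ∀ x : K, ∃ w ∈ WK K, x - w ∈ maximalIdeal K) : ∀ x : K, x ∈ WK K := by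
  have step : ∀ n : ℕ, ∀ x : K, ∃ w ∈ WK K, ∃ r : K, x = w + (p : K) ^ n * r := by
    intro n
    induction n with
    | zero =>
      intro x
      exact ⟨0, (WK K).zero_mem, x, by simp⟩
    | succ n ih =>
      intro x
      obtain ⟨w, hw1, r, hr⟩ := ih x
      obtain ⟨w', hw', hj⟩ := hw r
      rw [hJp, Ideal.mem_span_singleton'] at hj
      obtain ⟨c, hc⟩ := hj
      refine ⟨w + (p : K) ^ n * w', (WK K).add_mem hw1 ((WK K).mul_mem ((WK K).pow_mem
        (natCast_mem (WK K) p) n) hw'), c, ?_⟩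
      rw [hr]
      linear_combination (-(p : K) ^ n) * hc
  intro x
  obtain ⟨w, hw1, r, hr⟩ := step 3 x
  rw [hp3, zero_mul, add_zero] at hr
  rwa [hr]

theorem van2 (hwk : St2_wk) (hpow : St2_pow) (hsoc : St2_soc) (hdim : St2_dim)
    (hprod : St2_prod) (hkap : St2_kap) (h2 : St2_two) : St2_van := by
  intro K _ _ _ hcube hloc
  obtain ⟨p, a, b, hp, hne, hlst, hz, y, hy⟩ := hloc
  have hpJ : (p : K) ∈ maximalIdeal K := by
    rw [hy]
    exact Ideal.subset_span (Or.inl rfl)
  have hp3 : (p : K) ^ 3 = 0 := hcube _ hpJ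
  obtain ⟨hw, -, -⟩ := hwk K p hp hpJ
  refine ⟨p, a, b, hp, hpJ, ?_, ?_, ?_⟩
  · by_contra hcon
    apply hne
    rw [eq_bot_iff, ← hpow K (maximalIdeal K) ⊥ ((p : K) ^ a) b]
    intro z hzJ
    rw [Submodule.mem_bot]
    by_contra h
    exact hcon ⟨z, hzJ, by rwa [Van2_frm]⟩
  · intro I hI z hzJ
    rw [Van2_frm]
    exact (hpow K (maximalIdeal K) I ((p : K) ^ a) b).2 (hlst I hI) z hzJ
  · intro S hWS hS z hzS
    rw [Van2_frm]
    by_cases hb : b = 0
    · exfalso
      subst hb
      apply hS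
      have hE : IsEmpty (Fin (gnum p 0 (2 ≤ 0 ∧ ∃ x : ℕ → K, (∀ i, x i ∈ maximalIdeal K) ∧
          (p : K) ^ a * (x 0 * ∏ i ∈ range (0 - 1), x i) ≠ 0))) := by
        have hg : gnum p 0 (2 ≤ 0 ∧ ∃ x : ℕ → K, (∀ i, x i ∈ maximalIdeal K) ∧
          (p : K) ^ a * (x 0 * ∏ i ∈ range (0 - 1), x i) ≠ 0) = 0 := by
          unfold gnum
          split_ifs <;> rfl
        rw [hg]
        exact Fin.isEmpty
      have hJp : maximalIdeal K = Ideal.span {(p : K)} := by
        rw [hy, Set.range_eq_empty, Set.union_empty]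
      rw [eq_top_iff]
      intro x _
      exact hWS (Van2_b0 hJp hp3 hw x)
    · have hb1 : 1 ≤ b := Nat.one_le_iff_ne_zero.2 hb
      obtain ⟨e, he, hec⟩ := hdim K p _ y S hy hw hWS hS
      have hM : ∀ v ∈ Ideal.span {(p : K) ^ a} * maximalIdeal K ^ b, ∀ t ∈ maximalIdeal K,
          v * t = 0 := by
        intro v hv t ht
        by_cases hv0 : v = 0
        · rw [hv0, zero_mul]
        · exact (hsoc K v hv0 fun I hI => hlst I hI hv).1 t ht
      refine hprod K (maximalIdeal K)
        (maximalIdeal K ^ 2 ⊔ Ideal.span {(p : K)}).toAddSubgroup ((p : K) ^ a) b _ e hb1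
        (fun l => (he l).1) ?_ ?_ z ?_
      · rintro z' hz' ⟨i₀, hi₀, hr⟩
        obtain ⟨P, hP⟩ : ∃ P, P = ∏ i ∈ (range b).erase i₀, z' i := ⟨_, rfl⟩
        have hPJ : P ∈ maximalIdeal K ^ (b - 1) := by
          have h1 := Ideal.prod_mem_prod (s := (range b).erase i₀) (x := z')
            (I := fun _ => maximalIdeal K) fun i _ => hz' i
          rw [prod_const, card_erase_of_mem (mem_range.2 hi₀), card_range] at h1
          rwa [hP]
        have hprodP : ∏ i ∈ range b, z' i = P * z' i₀ := by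
          rw [hP, prod_erase_mul _ _ (mem_range.2 hi₀)]
        rw [hprodP]
        have hA : ∀ x ∈ maximalIdeal K, (p : K) ^ a * (P * x) ∈
            Ideal.span {(p : K) ^ a} * maximalIdeal K ^ b := by
          intro x hx
          refine Ideal.mul_mem_mul (Ideal.mem_span_singleton_self _) ?_
          have h1 : b = b - 1 + 1 := by omega
          rw [h1, pow_succ]
          exact Ideal.mul_mem_mul hPJ hx
        have hr' : z' i₀ ∈ maximalIdeal K ^ 2 ⊔ Ideal.span {(p : K)} := hr
        rw [Submodule.mem_sup] at hr'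
        obtain ⟨j, hj, t, ht, hjt⟩ := hr'
        have e1 : (p : K) ^ a * (P * j) = 0 := by
          rw [pow_two] at hj
          refine Submodule.mul_induction_on hj (fun x hx y hy => ?_) (fun x y hx hy => ?_)
          · have := hM _ (hA x hx) y hy
            linear_combination this
          · linear_combination hx + hy
        have e2 : (p : K) ^ a * (P * t) = 0 := by
          rw [Ideal.mem_span_singleton'] at ht
          obtain ⟨c, hc⟩ := ht
          have h1 : (p : K) ^ (a + 1) * P ∈ Ideal.span {(p : K) ^ (a + 1)} *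
              maximalIdeal K ^ (b - 1) :=
            Ideal.mul_mem_mul (Ideal.mem_span_singleton_self _) hPJ
          rw [hz hb1, Ideal.mem_bot] at h1
          rw [← hc]
          linear_combination c * h1
        rw [← hjt]
        linear_combination e1 + e2
      · refine hkap K (maximalIdeal K) ((p : K) ^ a) b _ e hcube (fun l => (he l).1) ?_
        refine Van2_num hb1 (fun hp2 x hx y hy => ?_) _ rfl
        have h8 : ∀ x ∈ maximalIdeal K, (2 : K) ^ 3 * x = 0 := by
          intro x _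
          have : (2 : K) = (p : K) := by rw [hp2]; norm_num
          rw [this, hp3, zero_mul]
        have := (h2 K (maximalIdeal K) 3 hcube h8).2.2 x hx y hy y hy
        linear_combination this
      · intro i
        exact ⟨(hzS i).1, hec _ (hzS i).1 (hzS i).2⟩

end Pool.Agent.CRR
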