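import Pool.Agent.CRR.St2

/-!
Campaign CRR, part 2, N21: the rings of `NilpType` have a detecting form.
-/

namespace Pool.Agent.CRR

open Finset

private lemma VanN_ex (R : Type) [NonUnitalCommRing R] :
    ∃ (K : Type) (_ : CommRing K) (φ : R →ₙ+* K) (J : Ideal K), Function.Injective φ ∧
      ∀ x : K, x ∈ J ↔ ∃ r : R, x = φ r := by
  refine ⟨Unitization ℤ R, inferInstance,
    { toFun := fun r => (r : Unitization ℤ R)
      map_mul' := fun a b => Unitization.inr_mul ℤ a b
      map_zero' := Unitization.inr_zero ℤ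
      map_add' := fun a b => Unitization.inr_add ℤ a b },
    RingHom.ker (Unitization.fstHom ℤ R), fun a b h => Unitization.inr_injective h, fun x => ?_⟩
  constructor
  · intro h
    refine ⟨x.snd, ?_⟩
    apply Unitization.ext
    · exact h
    · rfl
  · rintro ⟨a, rfl⟩
    show (Unitization.fstHom ℤ R) (a : Unitization ℤ R) = 0
    rfl

private lemma VanN_prd {R K : Type} [NonUnitalCommRing R] [CommRing K] (φ : R →ₙ+* K)
    (x : ℕ → R) (k : ℕ) : ∏ i ∈ range (k + 1), φ (x i) = φ (prd x k) := by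
  induction k with
  | zero => simp [prd]
  | succ k ih => rw [prod_range_succ, ih, ← map_mul]; rfl

private lemma VanN_nat {R K : Type} [NonUnitalCommRing R] [CommRing K] (φ : R →ₙ+* K)
    (n : ℕ) (r : R) : (n : K) * φ r = φ (n • r) := by
  rw [← nsmul_eq_mul, map_nsmul]

theorem vanN (hsocN : St2_socN) (hdimN : St2_dimN) (hprod : St2_prod) (hkap : St2_kap)
    (h2 : St2_two) : St2_vanN := by
  intro R _ _ hcube hN
  obtain ⟨p, a, k, hp, ⟨e, he⟩, ⟨c, hc⟩, hne, hlst, y, hy⟩ := hN
  have hpe : ∀ x : R, (p ^ e) • x = 0 := by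
    intro x
    rw [← he]
    exact card_nsmul_eq_zero'
  have hv : ∀ z : ℕ → R, (∀ r, r * ((p ^ a) • prd z k) = 0) ∧ p • ((p ^ a) • prd z k) = 0 := by
    intro z
    by_cases h0 : (p ^ a) • prd z k = 0
    · rw [h0]
      exact ⟨fun r => mul_zero r, smul_zero _⟩
    · obtain ⟨h3, h4, -⟩ := hsocN R p e c _ hp hpe hc h0 fun I hI hI0 =>
        hlst I hI hI0 (AddSubgroup.subset_closure ⟨z, rfl⟩)
      exact ⟨h3, h4⟩
  have hF : ∀ z : ℕ → R, FrmN ((p : ℤ) ^ a) 0 k z = (p ^ a) • prd z k := by
    intro z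
    unfold FrmN
    rw [zero_smul, add_zero, ← Nat.cast_pow, natCast_zsmul]
  refine ⟨p, a, k, hp, ⟨?_, fun I hI hI0 z => ?_, fun S hS z hz => ?_⟩⟩
  · by_contra hcon
    push Not at hcon
    apply hne
    unfold pwr
    rw [AddSubgroup.closure_eq_bot_iff]
    rintro _ ⟨x, rfl⟩
    rw [Set.mem_singleton_iff, ← hF]
    exact hcon x
  · rw [hF]
    exact hlst I hI hI0 (AddSubgroup.subset_closure ⟨z, rfl⟩)
  · rw [hF]
    obtain ⟨K, _, φ, J, hinj, hJm⟩ := VanN_ex R
    obtain ⟨A, hA⟩ : ∃ A : K, A = (p : K) ^ a := ⟨_, rfl⟩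
    have hAr : ∀ r : R, A * φ r = φ ((p ^ a) • r) := by
      intro r
      rw [hA, ← Nat.cast_pow]
      exact VanN_nat φ _ r
    have hCube : Cube J := by
      intro x hx
      obtain ⟨r, rfl⟩ := (hJm x).1 hx
      rw [pow_succ, pow_two, ← map_mul, ← map_mul, hcube, map_zero]
    obtain ⟨g, hg, y, hy⟩ : ∃ g : ℕ, g = gnum p (k + 1)
        (1 ≤ k ∧ ∃ x : ℕ → R, (p ^ a) • (x 0 * prd x (k - 1)) ≠ 0) ∧
        ∃ y : Fin g → R, NonUnitalSubring.closure (Set.range y) = ⊤ := ⟨_, rfl, y, hy⟩
    obtain ⟨u, huS, hu⟩ := hdimN R p e g y S hp hpe ⟨c, hc⟩ hy hS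
    set R0 : AddSubgroup R :=
      AddSubgroup.closure ({x | ∃ a b : R, x = a * b} ∪ {x | ∃ a : R, x = p • a}) with hR0
    set Rad : AddSubgroup K := R0.map (φ : R →+ K) with hRad
    -- the condition on `Rad`
    have hrad : ∀ z : ℕ → K, (∀ i, z i ∈ J) → (∃ i, i < k + 1 ∧ z i ∈ Rad) →
        A * ∏ i ∈ range (k + 1), z i = 0 := by
      rintro z hzJ ⟨i₀, hi₀, hzi⟩
      choose x hx using fun i => (hJm (z i)).1 (hzJ i)
      set P : K := A * ∏ i ∈ (range (k + 1)).erase i₀, z i with hP
      have hkey : ∀ r : R, φ r * P = φ ((p ^ a) • prd (Function.update x i₀ r) k) := by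
        intro r
        have h5 : ∏ i ∈ range (k + 1), φ (Function.update x i₀ r i) =
            φ r * ∏ i ∈ (range (k + 1)).erase i₀, z i := by
          rw [← mul_prod_erase (range (k + 1)) _ (mem_range.2 hi₀), Function.update_self]
          congr 1
          refine prod_congr rfl fun i hi => ?_
          rw [Function.update_of_ne (ne_of_mem_erase hi), hx i]
        rw [← hAr, ← VanN_prd, h5, hP]
        ring
      have hall : ∀ r ∈ R0, φ r * P = 0 := by
        intro r hr
        induction hr using AddSubgroup.closure_induction with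
        | mem r hr =>
          rcases hr with ⟨b, b', rfl⟩ | ⟨b, rfl⟩
          · rw [map_mul, mul_assoc, hkey, ← map_mul, (hv _).1, map_zero]
          · rw [← VanN_nat, mul_assoc, hkey, VanN_nat, (hv _).2, map_zero]
        | zero => rw [map_zero, zero_mul]
        | add r r' _ _ h6 h7 => rw [map_add, add_mul, h6, h7, add_zero]
        | neg r _ h6 => rw [map_neg, neg_mul, h6, neg_zero]
      obtain ⟨r, hr, hr'⟩ := hzi
      have hr'' : φ r = z i₀ := hr'
      rw [← mul_prod_erase (range (k + 1)) _ (mem_range.2 hi₀), ← hr'']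
      have h8 := hall r hr
      rw [hP] at h8
      linear_combination h8
    -- the condition on `κ`
    have hkp : ∀ κ : ℕ → Fin (g - 1), A * ∏ i ∈ range (k + 1), φ (u (κ i)) = 0 := by
      refine hkap K J A (k + 1) (g - 1) (fun l => φ (u l)) hCube
        (fun l => (hJm _).2 ⟨_, rfl⟩) ?_
      by_cases hp2 : p = 2
      · by_cases hE : 1 ≤ k ∧ ∃ x : ℕ → R, (p ^ a) • (x 0 * prd x (k - 1)) ≠ 0
        · right
          left
          have hg' : g = k + 1 - 1 := by
            rw [hg, gnum, if_pos hp2, if_pos hE]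
          refine ⟨by have := hE.1; omega, fun x hx y hy => ?_⟩
          obtain ⟨-, -, h9⟩ := h2 K J e hCube (by
            intro x hx
            obtain ⟨r, rfl⟩ := (hJm x).1 hx
            have h10 := VanN_nat φ (2 ^ e) r
            rw [Nat.cast_pow, Nat.cast_ofNat] at h10
            rw [h10, ← hp2, hpe, map_zero])
          have h11 := h9 x hx y hy y hy
          rw [pow_two y, ← mul_assoc]
          exact h11
        · right
          right
          have hg' : g = k + 1 := by
            rw [hg, gnum, if_pos hp2, if_neg hE]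
          refine ⟨by omega, fun hk x hx => ?_⟩
          choose x' hx' using fun i => (hJm (x i)).1 (hx i)
          obtain ⟨k', rfl⟩ : ∃ k', k = k' + 1 := ⟨k - 1, by omega⟩
          have h12 : ∏ i ∈ range (k' + 1 + 1 - 1), x i = φ (prd x' k') := by
            rw [Nat.add_sub_cancel, ← VanN_prd]
            exact prod_congr rfl fun i _ => hx' i
          rw [h12, hx' 0, ← map_mul, hAr]
          by_contra h13
          apply hE
          refine ⟨by omega, x', fun h14 => h13 ?_⟩
          rw [Nat.add_sub_cancel] at h14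
          rw [h14, map_zero]
      · left
        have hg' : g = (k + 1 + 1) / 2 := by
          rw [hg, gnum, if_neg hp2]
        omega
    have hfin := hprod K J Rad A (k + 1) (g - 1) (fun l => φ (u l)) (by omega)
      (fun l => (hJm _).2 ⟨_, rfl⟩) hrad hkp (fun i => φ (z i)) fun i => ?_
    · rw [VanN_prd, hAr] at hfin
      apply hinj
      rw [map_zero]
      exact hfin
    · refine ⟨(hJm _).2 ⟨_, rfl⟩, ?_⟩
      obtain ⟨cc, hcc⟩ := hu (z i) (hz i)
      refine ⟨fun l => ((cc l : ℤ) : K), ?_⟩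
      refine ⟨_, hcc, ?_⟩
      show φ (z i - ∑ l, cc l • u l) = φ (z i) - ∑ l, ((cc l : ℤ) : K) * φ (u l)
      rw [map_sub, map_sum]
      congr 1
      refine sum_congr rfl fun l _ => ?_
      rw [map_zsmul, zsmul_eq_mul]

end Pool.Agent.CRR
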