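import Pool.Agent.CRR.St

/-!
Campaign CRR, M11: the subring generated by the elements with `x^q = x` (helper42).
-/

namespace Pool.Agent.CRR

open Finset IsLocalRing

/-- `a^q - a` is a multiple of `p` in `W` -/
theorem WRing_frob (K : Type) [CommRing K] (p m : ℕ) (hp : p.Prime) (hp5 : 5 ≤ p) (a : K)
    (ha : a ∈ TW K (p ^ m)) : ∃ b ∈ TW K (p ^ m), a ^ (p ^ m) = a + p * b := by
  have hq0 : p ^ m ≠ 0 := pow_ne_zero m hp.pos.ne'
  have hodd : Odd (p ^ m) := (hp.odd_of_ne_two (by omega)).pow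
  unfold TW at ha ⊢
  induction ha using Subring.closure_induction with
  | mem x hx =>
    refine ⟨0, Subring.zero_mem _, ?_⟩
    have h : x ^ (p ^ m) = x := hx
    rw [h, mul_zero, add_zero]
  | zero => exact ⟨0, Subring.zero_mem _, by rw [zero_pow hq0, mul_zero, add_zero]⟩
  | one => exact ⟨0, Subring.zero_mem _, by rw [one_pow, mul_zero, add_zero]⟩
  | add x y hx hy h1 h2 =>
    obtain ⟨b, hb, hb'⟩ := h1
    obtain ⟨c, hc, hc'⟩ := h2
    obtain ⟨r, hr⟩ := exists_add_pow_prime_pow_eq hp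
      (⟨x, hx⟩ : Subring.closure {x : K | x ^ (p ^ m) = x}) ⟨y, hy⟩ m
    have hr' := congrArg (fun z : Subring.closure {x : K | x ^ (p ^ m) = x} => (z : K)) hr
    have hr'' : (x + y) ^ (p ^ m) = x ^ (p ^ m) + y ^ (p ^ m) + p * x * y * (r : K) := by
      simpa using hr'
    refine ⟨b + c + x * y * r, Subring.add_mem _ (Subring.add_mem _ hb hc)
      (Subring.mul_mem _ (Subring.mul_mem _ hx hy) r.2), ?_⟩
    rw [hr'', hb', hc']
    ring
  | neg x hx h1 =>
    obtain ⟨b, hb, hb'⟩ := h1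
    refine ⟨-b, Subring.neg_mem _ hb, ?_⟩
    rw [hodd.neg_pow, hb']
    ring
  | mul x y hx hy h1 h2 =>
    obtain ⟨b, hb, hb'⟩ := h1
    obtain ⟨c, hc, hc'⟩ := h2
    refine ⟨b * y + x * c + p * (b * c), ?_, ?_⟩
    · refine Subring.add_mem _ (Subring.add_mem _ (Subring.mul_mem _ hb hy)
        (Subring.mul_mem _ hx hc)) (Subring.mul_mem _ ?_ (Subring.mul_mem _ hb hc))
      exact natCast_mem _ p
    · rw [mul_pow, hb', hc']
      ring

theorem wring : St_wring := by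
  intro K _ J hJ p m hp hp5 hm a ha haJ
  obtain ⟨b, hb, h⟩ := WRing_frob K p m hp hp5 a ha
  have h3 : 3 ≤ p ^ m := by
    have h4 : p ^ 1 ≤ p ^ m := Nat.pow_le_pow_right hp.pos hm
    rw [pow_one] at h4
    omega
  have h0 : a ^ (p ^ m) = 0 := by
    have h5 : a ^ 3 = 0 := by
      have h6 := hJ a haJ a haJ a haJ
      rw [← h6]
      ring
    obtain ⟨j, hj⟩ := Nat.exists_eq_add_of_le h3
    rw [hj, pow_add, h5, zero_mul]
  refine ⟨-b, Subring.neg_mem _ hb, ?_⟩
  rw [h0] at h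
  linear_combination -h

end Pool.Agent.CRR
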