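import Pool.Agent.CRR.St2

/-!
Campaign CRR, part 2, N8: the coefficient ring `WK K` of a finite local ring.
-/

set_option autoImplicit false

namespace Pool.Agent.CRR

open Finset IsLocalRing

/-- `a^q - a` is a multiple of `p` in the subring generated by the solutions of `x^q = x` -/
private theorem wk_frob (K : Type) [CommRing K] (p m : ℕ) (hp : p.Prime) (a : K)
    (ha : a ∈ Subring.closure {x : K | x ^ (p ^ m) = x}) :
    ∃ b ∈ Subring.closure {x : K | x ^ (p ^ m) = x}, a ^ (p ^ m) = a + p * b := by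
  have hq0 : p ^ m ≠ 0 := pow_ne_zero m hp.pos.ne'
  induction ha using Subring.closure_induction with
  | mem x hx =>
    refine ⟨0, Subring.zero_mem _, ?_⟩
    have h : x ^ (p ^ m) = x := hx
    rw [h, mul_zero, add_zero]
  | zero => exact ⟨0, Subring.zero_mem _, by rw [zero_pow hq0, mul_zero, add_zero]⟩
  | one => exact ⟨0, Subring.zero_mem _, by rw [one_pow, mul_zero, add_zero]⟩
  | add x y hx hy h1 h2 =>
    obtain ⟨b, hb, hb'⟩ := h1
    obtain ⟨c, hc, hc'⟩ := h2
    obtain ⟨r, hr⟩ := exists_add_pow_prime_pow_eq hp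
      (⟨x, hx⟩ : Subring.closure {x : K | x ^ (p ^ m) = x}) ⟨y, hy⟩ m
    have hr' := congrArg (fun z : Subring.closure {x : K | x ^ (p ^ m) = x} => (z : K)) hr
    have hr'' : (x + y) ^ (p ^ m) = x ^ (p ^ m) + y ^ (p ^ m) + p * x * y * (r : K) := by
      simpa using hr'
    refine ⟨b + c + x * y * r, Subring.add_mem _ (Subring.add_mem _ hb hc)
      (Subring.mul_mem _ (Subring.mul_mem _ hx hy) r.2), ?_⟩
    rw [hr'', hb', hc']
    ring
  | neg x hx h1 =>
    obtain ⟨b, hb, hb'⟩ := h1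
    rcases Nat.even_or_odd (p ^ m) with he | ho
    · have hp2 : p = 2 := by
        by_contra hne
        have h3 : Odd (p ^ m) := (hp.odd_of_ne_two hne).pow
        exact (Nat.not_even_iff_odd.2 h3) he
      refine ⟨x + b, Subring.add_mem _ hx hb, ?_⟩
      rw [he.neg_pow, hb', hp2]
      push_cast
      ring
    · refine ⟨-b, Subring.neg_mem _ hb, ?_⟩
      rw [ho.neg_pow, hb']
      ring
  | mul x y hx hy h1 h2 =>
    obtain ⟨b, hb, hb'⟩ := h1
    obtain ⟨c, hc, hc'⟩ := h2
    refine ⟨b * y + x * c + p * (b * c), ?_, ?_⟩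
    · refine Subring.add_mem _ (Subring.add_mem _ (Subring.mul_mem _ hb hy)
        (Subring.mul_mem _ hx hc)) (Subring.mul_mem _ ?_ (Subring.mul_mem _ hb hc))
      exact natCast_mem _ p
    · rw [mul_pow, hb', hc']
      ring

/-- the same for all powers of `q` -/
private theorem wk_frobL (K : Type) [CommRing K] (p m : ℕ) (hp : p.Prime) (a : K)
    (ha : a ∈ Subring.closure {x : K | x ^ (p ^ m) = x}) (L : ℕ) :
    ∃ b ∈ Subring.closure {x : K | x ^ (p ^ m) = x}, a ^ ((p ^ m) ^ L) = a + p * b := by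
  induction L with
  | zero => exact ⟨0, Subring.zero_mem _, by rw [pow_zero, pow_one, mul_zero, add_zero]⟩
  | succ L ih =>
    obtain ⟨b, hb, hb'⟩ := ih
    obtain ⟨c, hc, hc'⟩ := wk_frob K p m hp (a ^ ((p ^ m) ^ L)) (Subring.pow_mem _ ha _)
    refine ⟨b + c, Subring.add_mem _ hb hc, ?_⟩
    rw [pow_succ (p ^ m) L, pow_mul, hc', hb']
    ring

theorem wk (ht : St2_teich) : St2_wk := by
  intro K _ _ _ p hp hpJ
  obtain ⟨m, L, -, -, hq, -, h2, h3, h4⟩ := ht K p hp hpJ
  have hWK : WK K = Subring.closure {x : K | x ^ (p ^ m) = x} := by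
    unfold WK
    rw [hq]
  have c2 : ∀ d ∈ WK K, d ∈ maximalIdeal K → ∃ d₁ ∈ WK K, d = p * d₁ := by
    intro d hd hdJ
    rw [hWK] at hd ⊢
    obtain ⟨b, hb, hb'⟩ := wk_frobL K p m hp d hd L
    refine ⟨-b, Subring.neg_mem _ hb, ?_⟩
    rw [h2 d hdJ] at hb'
    linear_combination -hb'
  refine ⟨?_, c2, ?_⟩
  · intro x
    refine ⟨x ^ ((p ^ m) ^ L), ?_, ?_⟩
    · rw [hWK]
      exact Subring.subset_closure (h4 x)
    · have h5 := (maximalIdeal K).neg_mem (h3 x)
      rw [neg_sub] at h5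
      exact h5
  · intro d hd
    have key : ∀ n : ℕ, (∃ (a : ℕ) (u : K), u ∈ WK K ∧ IsUnit u ∧ d = (p : K) ^ a * u) ∨
        ∃ d' ∈ WK K, d = (p : K) ^ n * d' := by
      intro n
      induction n with
      | zero => exact Or.inr ⟨d, hd, by rw [pow_zero, one_mul]⟩
      | succ n ih =>
        rcases ih with h5 | ⟨d', hd', h6⟩
        · exact Or.inl h5
        · by_cases h7 : IsUnit d'
          · exact Or.inl ⟨n, d', hd', h7, h6⟩
          · obtain ⟨d₁, hd₁, h8⟩ := c2 d' hd' ((mem_maximalIdeal d').2 h7)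
            refine Or.inr ⟨d₁, hd₁, ?_⟩
            rw [h6, h8, pow_succ]
            ring
    rcases key ((p ^ m) ^ L) with h5 | ⟨d', -, h6⟩
    · exact Or.inr h5
    · left
      rw [h6, h2 _ hpJ, zero_mul]

end Pool.Agent.CRR
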